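import Mathlib

/-! # CONIC, module C-AR: arithmetic sums -/

namespace ConicHP

open Finset

private lemma ar_step (m : ℕ) (hm : 1 ≤ m) :
    Real.sqrt ((m + 1 : ℕ) : ℝ) / (((m + 1 : ℕ) : ℝ)) ^ 2 ≤
      2 / Real.sqrt m - 2 / Real.sqrt ((m + 1 : ℕ) : ℝ) := by
  have hm0 : (0 : ℝ) < m := by exact_mod_cast hm
  have hm1 : (0 : ℝ) < ((m + 1 : ℕ) : ℝ) := by positivity
  set a := Real.sqrt (m : ℝ) with ha
  set b := Real.sqrt ((m + 1 : ℕ) : ℝ) with hb
  have ha0 : 0 < a := Real.sqrt_pos.2 hm0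
  have hb0 : 0 < b := Real.sqrt_pos.2 hm1
  have ha2 : a ^ 2 = m := Real.sq_sqrt hm0.le
  have hb2 : b ^ 2 = ((m + 1 : ℕ) : ℝ) := Real.sq_sqrt hm1.le
  have hba : b ^ 2 = a ^ 2 + 1 := by rw [ha2, hb2]; push_cast; ring
  have hab : a ≤ b := by nlinarith
  rw [← hb2]
  have h1 : b / (b ^ 2) ^ 2 = 1 / (b ^ 2 * b) := by
    field_simp
  rw [h1, div_sub_div _ _ ha0.ne' hb0.ne', div_le_div_iff₀ (by positivity) (by positivity)]
  -- 1 * (a * b) ≤ (2 * b - a * 2) * (b ^ 2 * b)
  have h2 : (b - a) * (b + a) = 1 := by nlinarith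
  have h3 : 1 ≤ (b - a) * (2 * b) := by nlinarith
  nlinarith [mul_pos ha0 hb0, mul_le_mul_of_nonneg_right h3 (by positivity : (0:ℝ) ≤ b ^ 2)]

private lemma ar_tail (G N : ℕ) (hG : 1 ≤ G) (hGN : G ≤ N) :
    ∑ m ∈ Icc (G + 1) N, Real.sqrt m / (m : ℝ) ^ 2 ≤ 2 / Real.sqrt G - 2 / Real.sqrt N := by
  induction N, hGN using Nat.le_induction with
  | base => simp
  | succ N hN ih =>
    rw [Finset.sum_Icc_succ_top (by omega)]
    have := ar_step N (by omega)
    linarith

theorem sum_sqrt_tail_le (G N : ℕ) (hG : 1 ≤ G) :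
    ∑ m ∈ (Icc 1 N).filter (fun m => G < m), Real.sqrt m / (m : ℝ) ^ 2 ≤ 2 / Real.sqrt G := by
  rcases Nat.lt_or_ge N G with h | h
  · rw [Finset.filter_false_of_mem, Finset.sum_empty]
    · positivity
    · intro m hm
      rw [Finset.mem_Icc] at hm
      omega
  · have h1 : (Icc 1 N).filter (fun m => G < m) = Icc (G + 1) N := by
      ext m
      simp only [Finset.mem_filter, Finset.mem_Icc]
      omega
    rw [h1]
    have h2 := ar_tail G N hG h
    have h3 : 0 ≤ 2 / Real.sqrt N := by positivity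
    linarith

theorem sum_sqrt_le (N : ℕ) : ∑ m ∈ Icc 1 N, Real.sqrt m / (m : ℝ) ^ 2 ≤ 3 := by
  rcases Nat.eq_zero_or_pos N with h | h
  · subst h
    simp
  · have h1 : Icc 1 N = insert 1 ((Icc 1 N).filter (fun m => 1 < m)) := by
      ext m
      simp only [Finset.mem_insert, Finset.mem_filter, Finset.mem_Icc]
      omega
    rw [h1, Finset.sum_insert (by simp)]
    have h2 := sum_sqrt_tail_le 1 N le_rfl
    simp only [Nat.cast_one, Real.sqrt_one] at h2 ⊢
    linarith

theorem sum_harmonic_le (N : ℕ) (hN : 1 ≤ N) :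
    ∑ m ∈ Icc 1 N, (m : ℝ) / (m : ℝ) ^ 2 ≤ 1 + Real.log N := by
  have h1 := harmonic_le_one_add_log N
  rw [harmonic_eq_sum_Icc] at h1
  push_cast at h1
  refine le_trans (le_of_eq (Finset.sum_congr rfl (fun m hm => ?_))) h1
  have hm0 : (m : ℝ) ≠ 0 := by
    rw [Finset.mem_Icc] at hm
    have : m ≠ 0 := by omega
    exact_mod_cast this
  field_simp

/-- the number of `i' < J`, `i' ≠ i` congruent to `i` modulo `q` -/
theorem card_congr_le (J i q : ℕ) (hi : i < J) (hq : 0 < q) :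
    ((((range J).filter fun i' => i' ≠ i ∧ (q : ℤ) ∣ (i : ℤ) - i').card : ℕ) : ℝ) ≤ (J : ℝ) / q := by
  have h1 : ((range J).filter fun i' => i' ≠ i ∧ (q : ℤ) ∣ (i : ℤ) - i').card ≤
      ((range ((J - 1) / q + 1)).erase (i / q)).card := by
    refine Finset.card_le_card_of_injOn (fun i' => i' / q) ?_ ?_
    · intro i' hi'
      simp only [Finset.coe_filter, Finset.mem_range] at hi'
      obtain ⟨hJ, hne, hdvd⟩ := hi'
      simp only [Finset.coe_erase, Set.mem_sdiff, Finset.mem_coe, Finset.mem_range,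
        Set.mem_singleton_iff]
      refine ⟨Nat.lt_succ_of_le (Nat.div_le_div_right (by omega)), ?_⟩
      intro hcon
      have hmod : i' % q = i % q := by
        have : (i' : ℤ) ≡ i [ZMOD q] := Int.modEq_iff_dvd.2 hdvd
        exact (Int.natCast_modEq_iff.1 this)
      apply hne
      rw [← Nat.div_add_mod i' q, ← Nat.div_add_mod i q, hcon, hmod]
    · intro a ha b hb hab
      simp only [Finset.coe_filter, Finset.mem_range] at ha hb
      have hmoda : a % q = i % q := by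
        have : (a : ℤ) ≡ i [ZMOD q] := Int.modEq_iff_dvd.2 ha.2.2
        exact (Int.natCast_modEq_iff.1 this)
      have hmodb : b % q = i % q := by
        have : (b : ℤ) ≡ i [ZMOD q] := Int.modEq_iff_dvd.2 hb.2.2
        exact (Int.natCast_modEq_iff.1 this)
      have hab' : a / q = b / q := hab
      rw [← Nat.div_add_mod a q, ← Nat.div_add_mod b q, hab', hmoda, hmodb]
  have h2 : ((range ((J - 1) / q + 1)).erase (i / q)).card = (J - 1) / q := by
    rw [Finset.card_erase_of_mem, Finset.card_range]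
    · exact Nat.add_sub_cancel _ _
    · rw [Finset.mem_range]
      exact Nat.lt_succ_of_le (Nat.div_le_div_right (by omega))
  rw [h2] at h1
  have hq0 : (0 : ℝ) < q := by exact_mod_cast hq
  calc ((((range J).filter fun i' => i' ≠ i ∧ (q : ℤ) ∣ (i : ℤ) - i').card : ℕ) : ℝ)
      ≤ (((J - 1) / q : ℕ) : ℝ) := by exact_mod_cast h1
    _ ≤ ((J - 1 : ℕ) : ℝ) / q := Nat.cast_div_le
    _ ≤ (J : ℝ) / q := by
        refine div_le_div_of_nonneg_right ?_ hq0.le
        exact_mod_cast Nat.sub_le J 1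

private lemma ar_divisors (m : ℕ) (hm : 0 < m) : (m.divisors.card : ℝ) ≤ 2 * Real.sqrt m := by
  have h1 : m.divisors ⊆ (Icc 1 (Nat.sqrt m)) ∪ (Icc 1 (Nat.sqrt m)).image (fun e => m / e) := by
    intro q hq
    have hqm := Nat.dvd_of_mem_divisors hq
    have hq0 : 0 < q := Nat.pos_of_mem_divisors hq
    rw [Finset.mem_union]
    by_cases h : q ≤ Nat.sqrt m
    · left
      exact Finset.mem_Icc.2 ⟨hq0, h⟩
    · right
      rw [Finset.mem_image]
      refine ⟨m / q, Finset.mem_Icc.2 ⟨Nat.div_pos (Nat.le_of_dvd hm hqm) hq0, ?_⟩, ?_⟩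
      · by_contra hcon
        push Not at h hcon
        have h2 : (Nat.sqrt m + 1) * (Nat.sqrt m + 1) ≤ q * (m / q) :=
          Nat.mul_le_mul h hcon
        rw [Nat.mul_div_cancel' hqm] at h2
        have h3 := Nat.lt_succ_sqrt m
        have h4 : m < (Nat.sqrt m + 1) * (Nat.sqrt m + 1) := h3
        omega
      · exact Nat.div_div_self hqm hm.ne'
  have h2 : m.divisors.card ≤ 2 * Nat.sqrt m := by
    refine (Finset.card_le_card h1).trans ?_
    refine (Finset.card_union_le _ _).trans ?_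
    have h3 := Finset.card_image_le (s := Icc 1 (Nat.sqrt m)) (f := fun e => m / e)
    rw [Nat.card_Icc] at h3 ⊢
    omega
  calc (m.divisors.card : ℝ) ≤ ((2 * Nat.sqrt m : ℕ) : ℝ) := by exact_mod_cast h2
    _ = 2 * (Nat.sqrt m : ℝ) := by push_cast; ring
    _ ≤ 2 * Real.sqrt m := by
        refine mul_le_mul_of_nonneg_left ?_ (by norm_num)
        exact Real.nat_sqrt_le_real_sqrt

private lemma ar_gcd (D0 m k : ℕ) (hD : 0 < D0) (hm : 0 < m) :
    Nat.gcd m (D0 * k) ≤ D0 * ∑ q ∈ m.divisors, (if q ∣ k then q else 0) := by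
  have h1 : Nat.gcd m (D0 * k) ≤ D0 * Nat.gcd m k := by
    have h2 : Nat.gcd m (D0 * k) ∣ D0 * Nat.gcd m k := by
      rw [← Nat.gcd_mul_left]
      exact Nat.dvd_gcd ((Nat.gcd_dvd_left _ _).mul_left D0) (Nat.gcd_dvd_right _ _)
    exact Nat.le_of_dvd (Nat.mul_pos hD (Nat.gcd_pos_of_pos_left _ hm)) h2
  refine h1.trans (Nat.mul_le_mul_left _ ?_)
  have hmem : Nat.gcd m k ∈ m.divisors := Nat.mem_divisors.2 ⟨Nat.gcd_dvd_left _ _, hm.ne'⟩
  calc Nat.gcd m k = (if Nat.gcd m k ∣ k then Nat.gcd m k else 0) := by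
        rw [if_pos (Nat.gcd_dvd_right _ _)]
    _ ≤ ∑ q ∈ m.divisors, (if q ∣ k then q else 0) :=
        Finset.single_le_sum (f := fun q => if q ∣ k then q else 0)
          (fun _ _ => Nat.zero_le _) hmem

theorem sum_gcd_le (D0 J m : ℕ) (hD : 0 < D0) (hm : 0 < m) :
    ∑ i ∈ range J, ∑ i' ∈ (range J).filter (fun i' => i' ≠ i),
      (Nat.gcd m (D0 * ((i : ℤ) - i').natAbs) : ℝ) ≤ 2 * D0 * (J : ℝ) ^ 2 * Real.sqrt m := by
  have hi : ∀ i ∈ range J, ∑ i' ∈ (range J).filter (fun i' => i' ≠ i),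
      (Nat.gcd m (D0 * ((i : ℤ) - i').natAbs) : ℝ) ≤ D0 * J * (2 * Real.sqrt m) := by
    intro i hi
    rw [Finset.mem_range] at hi
    calc ∑ i' ∈ (range J).filter (fun i' => i' ≠ i),
          (Nat.gcd m (D0 * ((i : ℤ) - i').natAbs) : ℝ)
        ≤ ∑ i' ∈ (range J).filter (fun i' => i' ≠ i),
          ((D0 * ∑ q ∈ m.divisors, (if q ∣ ((i : ℤ) - i').natAbs then q else 0) : ℕ) : ℝ) :=
          Finset.sum_le_sum (fun i' _ => by exact_mod_cast ar_gcd D0 m _ hD hm)
      _ = D0 * ∑ q ∈ m.divisors, (q : ℝ) *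
          (((range J).filter fun i' => i' ≠ i ∧ (q : ℤ) ∣ (i : ℤ) - i').card : ℝ) := by
          push_cast
          rw [← Finset.mul_sum, Finset.sum_comm]
          congr 1
          refine Finset.sum_congr rfl (fun q _ => ?_)
          rw [← Finset.sum_filter, Finset.filter_filter, Finset.sum_const, nsmul_eq_mul, mul_comm]
          congr 3
          ext i'
          simp only [Int.natCast_dvd]
      _ ≤ D0 * ∑ q ∈ m.divisors, (J : ℝ) := by
          refine mul_le_mul_of_nonneg_left (Finset.sum_le_sum (fun q hq => ?_)) (by positivity)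
          have hq0 : 0 < q := Nat.pos_of_mem_divisors hq
          have hq1 : (0 : ℝ) < q := by exact_mod_cast hq0
          have := card_congr_le J i q hi hq0
          calc (q : ℝ) * (((range J).filter fun i' => i' ≠ i ∧ (q : ℤ) ∣ (i : ℤ) - i').card : ℝ)
              ≤ q * ((J : ℝ) / q) := mul_le_mul_of_nonneg_left this hq1.le
            _ = J := by field_simp
      _ = D0 * J * m.divisors.card := by
          rw [Finset.sum_const, nsmul_eq_mul]
          ring
      _ ≤ D0 * J * (2 * Real.sqrt m) :=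
          mul_le_mul_of_nonneg_left (ar_divisors m hm) (by positivity)
  calc _ ≤ ∑ _i ∈ range J, (D0 * J * (2 * Real.sqrt m)) := Finset.sum_le_sum hi
    _ = 2 * D0 * (J : ℝ) ^ 2 * Real.sqrt m := by
        rw [Finset.sum_const, Finset.card_range, nsmul_eq_mul]
        ring

end ConicHP
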