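import Pool.Agent.Lib.MP_e426f4_ag.C.Defs

/-! # CONIC, module C-HT: the functions `JJ, VV, BB, HH` -/

namespace ConicHP

open Finset GenHP Filter Topology

variable {S : Type*} [Fintype S]

theorem JJ_atTop : Tendsto JJ atTop atTop := by
  unfold JJ
  exact tendsto_nat_floor_atTop.comp
    ((tendsto_pow_atTop two_ne_zero).comp Real.tendsto_log_atTop)

private lemma ht_JJ_le {H : ℝ} : (JJ H : ℝ) ≤ (Real.log H) ^ 2 :=
  Nat.floor_le (by positivity)

section HT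
variable (c : CPar S) (eps bet : ℝ) (w : ℕ) (hc : c.Valid eps bet w)
include hc

theorem card_pos : 0 < Fintype.card S := by
  obtain ⟨s, _⟩ := hc.fam.om_eq
  exact Fintype.card_pos_iff.2 ⟨s⟩

theorem VV_pos : ∀ᶠ H : ℝ in atTop, 1 ≤ c.VV H := by
  filter_upwards [JJ_atTop.eventually_ge_atTop 1] with H hH
  exact hc.fam.V_pos _ hH

theorem BB_atTop : Tendsto c.BB atTop atTop := by
  unfold CPar.BB
  refine tendsto_nat_floor_atTop.comp ?_
  refine tendsto_atTop_mono' atTop ?_ tendsto_id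
  filter_upwards [VV_pos c eps bet w hc, eventually_ge_atTop (0 : ℝ)] with H hH hH0
  have h1 : (1 : ℝ) ≤ c.VV H := by exact_mod_cast hH
  calc id H = H * 1 := by simp
    _ ≤ H * c.VV H := mul_le_mul_of_nonneg_left h1 hH0

theorem BB_bounds : ∀ᶠ H : ℝ in atTop, H * c.VV H / 2 ≤ c.BB H ∧ (c.BB H : ℝ) ≤ H * c.VV H ∧
    H ≤ 2 * c.BB H := by
  filter_upwards [VV_pos c eps bet w hc, eventually_ge_atTop (2 : ℝ)] with H hH hH2
  have h1 : (1 : ℝ) ≤ c.VV H := by exact_mod_cast hH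
  have h2 : H ≤ H * c.VV H := by
    calc H = H * 1 := by ring
      _ ≤ H * c.VV H := mul_le_mul_of_nonneg_left h1 (by linarith)
  have h3 : (c.BB H : ℝ) ≤ H * c.VV H := Nat.floor_le (by linarith)
  have h4 : H * c.VV H < c.BB H + 1 := Nat.lt_floor_add_one _
  refine ⟨by linarith, h3, by linarith⟩

omit hc in
private lemma ht_log_pow (C : ℝ) (k : ℕ) : ∀ᶠ H : ℝ in atTop,
    C * (Real.log H) ^ k ≤ H ^ (1 / 2 : ℝ) := by
  have h1 : (fun x : ℝ => (Real.log x) ^ k) =o[atTop] fun x : ℝ => x ^ (1 / 2 : ℝ) := by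
    have := isLittleO_log_rpow_rpow_atTop (s := 1 / 2) (k : ℝ) (by norm_num)
    simpa [Real.rpow_natCast] using this
  have h2 := h1.def (c := 1 / (|C| + 1)) (by positivity)
  filter_upwards [h2, eventually_ge_atTop (1 : ℝ)] with H hH hH1
  rw [Real.norm_eq_abs, Real.norm_eq_abs, abs_of_nonneg (Real.rpow_nonneg (by linarith) _)] at hH
  have h3 : 0 ≤ Real.log H := Real.log_nonneg hH1
  rw [abs_of_nonneg (by positivity)] at hH
  have h4 : 0 ≤ H ^ (1 / 2 : ℝ) := Real.rpow_nonneg (by linarith) _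
  calc C * (Real.log H) ^ k ≤ (|C| + 1) * (Real.log H) ^ k := by
        refine mul_le_mul_of_nonneg_right ?_ (by positivity)
        linarith [le_abs_self C]
    _ ≤ (|C| + 1) * (1 / (|C| + 1) * H ^ (1 / 2 : ℝ)) :=
        mul_le_mul_of_nonneg_left hH (by positivity)
    _ = H ^ (1 / 2 : ℝ) := by
        field_simp

/-- powers of the logarithm are negligible -/
theorem small_le (C : ℝ) (k : ℕ) : ∀ᶠ H : ℝ in atTop,
    C * ((c.VV H : ℝ) ^ k * (JJ H : ℝ) ^ k) * (c.BB H : ℝ) ^ (1 / 2 : ℝ) ≤ H := by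
  obtain ⟨C1, hC1⟩ := hc.fam.V_le
  filter_upwards [VV_pos c eps bet w hc, BB_bounds c eps bet w hc, eventually_ge_atTop (1 : ℝ),
    JJ_atTop.eventually_ge_atTop 1,
    ht_log_pow (|C| * (C1 : ℝ) ^ (k + 1)) (2 * (C1 * (k + 1) + k))] with H hV hB hH1 hJ hlog
  have hV1 : (1 : ℝ) ≤ c.VV H := by exact_mod_cast hV
  have hH0 : 0 ≤ H := by linarith
  have hVle : (c.VV H : ℝ) ≤ C1 * (JJ H : ℝ) ^ C1 := by
    have := hC1 (JJ H) hJ
    exact_mod_cast this
  have hJ0 : (0 : ℝ) ≤ JJ H := Nat.cast_nonneg _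
  have h1 : (c.BB H : ℝ) ^ (1 / 2 : ℝ) ≤ H ^ (1 / 2 : ℝ) * c.VV H := by
    calc (c.BB H : ℝ) ^ (1 / 2 : ℝ) ≤ (H * c.VV H) ^ (1 / 2 : ℝ) :=
          Real.rpow_le_rpow (Nat.cast_nonneg _) hB.2.1 (by norm_num)
      _ = H ^ (1 / 2 : ℝ) * (c.VV H : ℝ) ^ (1 / 2 : ℝ) := Real.mul_rpow hH0 (by linarith)
      _ ≤ H ^ (1 / 2 : ℝ) * c.VV H := by
          refine mul_le_mul_of_nonneg_left ?_ (Real.rpow_nonneg hH0 _)
          calc (c.VV H : ℝ) ^ (1 / 2 : ℝ) ≤ (c.VV H : ℝ) ^ (1 : ℝ) :=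
                Real.rpow_le_rpow_of_exponent_le hV1 (by norm_num)
            _ = c.VV H := Real.rpow_one _
  have hhalf : H ^ (1 / 2 : ℝ) * H ^ (1 / 2 : ℝ) = H := by
    rw [← Real.rpow_add (by linarith)]
    norm_num
  have hH12 : 0 ≤ H ^ (1 / 2 : ℝ) := Real.rpow_nonneg hH0 _
  have h2 : (c.VV H : ℝ) ^ (k + 1) * (JJ H : ℝ) ^ k ≤
      (C1 : ℝ) ^ (k + 1) * (Real.log H) ^ (2 * (C1 * (k + 1) + k)) := by
    calc (c.VV H : ℝ) ^ (k + 1) * (JJ H : ℝ) ^ k
        ≤ (C1 * (JJ H : ℝ) ^ C1) ^ (k + 1) * (JJ H : ℝ) ^ k := by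
          refine mul_le_mul_of_nonneg_right ?_ (by positivity)
          exact pow_le_pow_left₀ (by linarith) hVle _
      _ = (C1 : ℝ) ^ (k + 1) * (JJ H : ℝ) ^ (C1 * (k + 1) + k) := by
          rw [mul_pow, ← pow_mul, pow_add]
          ring
      _ ≤ (C1 : ℝ) ^ (k + 1) * ((Real.log H) ^ 2) ^ (C1 * (k + 1) + k) := by
          refine mul_le_mul_of_nonneg_left ?_ (by positivity)
          exact pow_le_pow_left₀ hJ0 ht_JJ_le _
      _ = (C1 : ℝ) ^ (k + 1) * (Real.log H) ^ (2 * (C1 * (k + 1) + k)) := by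
          rw [← pow_mul]
  calc C * ((c.VV H : ℝ) ^ k * (JJ H : ℝ) ^ k) * (c.BB H : ℝ) ^ (1 / 2 : ℝ)
      ≤ |C| * ((c.VV H : ℝ) ^ k * (JJ H : ℝ) ^ k) * (c.BB H : ℝ) ^ (1 / 2 : ℝ) := by
        refine mul_le_mul_of_nonneg_right ?_ (Real.rpow_nonneg (Nat.cast_nonneg _) _)
        exact mul_le_mul_of_nonneg_right (le_abs_self C) (by positivity)
    _ ≤ |C| * ((c.VV H : ℝ) ^ k * (JJ H : ℝ) ^ k) * (H ^ (1 / 2 : ℝ) * c.VV H) :=
        mul_le_mul_of_nonneg_left h1 (by positivity)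
    _ = |C| * ((c.VV H : ℝ) ^ (k + 1) * (JJ H : ℝ) ^ k) * H ^ (1 / 2 : ℝ) := by ring
    _ ≤ |C| * ((C1 : ℝ) ^ (k + 1) * (Real.log H) ^ (2 * (C1 * (k + 1) + k))) *
          H ^ (1 / 2 : ℝ) := by
        refine mul_le_mul_of_nonneg_right ?_ hH12
        exact mul_le_mul_of_nonneg_left h2 (abs_nonneg C)
    _ = (|C| * (C1 : ℝ) ^ (k + 1) * (Real.log H) ^ (2 * (C1 * (k + 1) + k))) *
          H ^ (1 / 2 : ℝ) := by ring
    _ ≤ H ^ (1 / 2 : ℝ) * H ^ (1 / 2 : ℝ) := mul_le_mul_of_nonneg_right hlog hH12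
    _ = H := hhalf

theorem small_le' (C : ℝ) (k : ℕ) : ∀ᶠ H : ℝ in atTop,
    C * ((c.VV H : ℝ) ^ k * (JJ H : ℝ) ^ k) ≤ H := by
  filter_upwards [small_le c eps bet w hc |C| k,
    (BB_atTop c eps bet w hc).eventually_ge_atTop 1] with H h1 h2
  refine le_trans ?_ h1
  have hB : (1 : ℝ) ≤ (c.BB H : ℝ) ^ (1 / 2 : ℝ) := by
    refine Real.one_le_rpow ?_ (by norm_num)
    exact_mod_cast h2
  have hX : 0 ≤ (c.VV H : ℝ) ^ k * (JJ H : ℝ) ^ k := by positivity
  calc C * ((c.VV H : ℝ) ^ k * (JJ H : ℝ) ^ k)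
      ≤ |C| * ((c.VV H : ℝ) ^ k * (JJ H : ℝ) ^ k) :=
        mul_le_mul_of_nonneg_right (le_abs_self C) hX
    _ = |C| * ((c.VV H : ℝ) ^ k * (JJ H : ℝ) ^ k) * 1 := by ring
    _ ≤ |C| * ((c.VV H : ℝ) ^ k * (JJ H : ℝ) ^ k) * (c.BB H : ℝ) ^ (1 / 2 : ℝ) :=
        mul_le_mul_of_nonneg_left hB (by positivity)

theorem log_le (C : ℝ) : ∀ᶠ H : ℝ in atTop,
    C * (1 + Real.log (C * (c.BB H : ℝ) ^ 2)) ≤ JJ H := by
  have hL : Tendsto Real.log atTop atTop := Real.tendsto_log_atTop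
  filter_upwards [small_le' c eps bet w hc 1 1, BB_bounds c eps bet w hc,
    (BB_atTop c eps bet w hc).eventually_ge_atTop 1, VV_pos c eps bet w hc,
    JJ_atTop.eventually_ge_atTop 1, eventually_ge_atTop (1 : ℝ),
    hL.eventually_ge_atTop (4 * |C| + |C| * (1 + |Real.log C|) + 2)] with H hs hB hB1 hV hJ hH1 hlog
  have hJlow : (Real.log H) ^ 2 - 1 ≤ JJ H := by
    have := Nat.lt_floor_add_one ((Real.log H) ^ 2)
    have h2 : (JJ H : ℝ) = (⌊(Real.log H) ^ 2⌋₊ : ℝ) := rfl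
    linarith
  refine le_trans ?_ hJlow
  have hVH : (c.VV H : ℝ) ≤ H := by
    have hJ1 : (1 : ℝ) ≤ JJ H := by exact_mod_cast hJ
    calc (c.VV H : ℝ) = 1 * ((c.VV H : ℝ) ^ 1 * 1) := by ring
      _ ≤ 1 * ((c.VV H : ℝ) ^ 1 * (JJ H : ℝ) ^ 1) := by
          rw [one_mul, one_mul, pow_one]
          rw [pow_one]
          exact mul_le_mul_of_nonneg_left hJ1 (Nat.cast_nonneg _)
      _ ≤ H := hs
  have hBpos : (1 : ℝ) ≤ c.BB H := by exact_mod_cast hB1
  have hlogB : Real.log (c.BB H) ≤ 2 * Real.log H := by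
    calc Real.log (c.BB H) ≤ Real.log (H * H) := by
          refine Real.log_le_log (by linarith) ?_
          refine hB.2.1.trans ?_
          exact mul_le_mul_of_nonneg_left hVH (by linarith)
      _ = 2 * Real.log H := by
          rw [Real.log_mul (by linarith) (by linarith)]
          ring
  have hlogB0 : 0 ≤ Real.log (c.BB H) := Real.log_nonneg hBpos
  have hlogH : 0 ≤ Real.log H := Real.log_nonneg hH1
  by_cases hC : C = 0
  · rw [hC]
    simp only [zero_mul]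
    have : 2 ≤ Real.log H := by
      have h3 : 0 ≤ 4 * |C| + |C| * (1 + |Real.log C|) := by positivity
      linarith
    nlinarith
  · have h1 : Real.log (C * (c.BB H : ℝ) ^ 2) = Real.log C + 2 * Real.log (c.BB H) := by
      rw [Real.log_mul hC (by positivity), Real.log_pow]
      push_cast
      ring
    rw [h1]
    have h2 : |1 + (Real.log C + 2 * Real.log (c.BB H))| ≤ 1 + |Real.log C| + 4 * Real.log H := by
      rw [abs_le]
      have h3 := abs_le.1 (le_refl |Real.log C|)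
      constructor <;> linarith [h3.1, h3.2]
    calc C * (1 + (Real.log C + 2 * Real.log (c.BB H)))
        ≤ |C * (1 + (Real.log C + 2 * Real.log (c.BB H)))| := le_abs_self _
      _ = |C| * |1 + (Real.log C + 2 * Real.log (c.BB H))| := abs_mul _ _
      _ ≤ |C| * (1 + |Real.log C| + 4 * Real.log H) :=
          mul_le_mul_of_nonneg_left h2 (abs_nonneg C)
      _ ≤ (Real.log H) ^ 2 - 1 := by
          have h4 : 0 ≤ |C| * (1 + |Real.log C|) := by positivity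
          have h5 : 0 ≤ |C| := abs_nonneg C
          have h6 : 2 ≤ Real.log H := by linarith
          have h7 : (4 * |C| + |C| * (1 + |Real.log C|) + 2) * Real.log H ≤
              Real.log H * Real.log H := mul_le_mul_of_nonneg_right hlog hlogH
          nlinarith [mul_le_mul_of_nonneg_left h6 h4]

theorem vv_le : ∀ᶠ H : ℝ in atTop, ∀ i, i < JJ H → ∀ s, |(c.vv H i s : ℝ)| ≤ 2 * c.VV H := by
  obtain ⟨J0, hJ0⟩ := hc.fam.near 1 one_pos
  filter_upwards [JJ_atTop.eventually_ge_atTop J0] with H hH i hi s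
  have h1 := hJ0 (JJ H) hH i hi s
  have h2 := hc.fam.om_le s
  have hV : (0 : ℝ) ≤ c.V (JJ H) := Nat.cast_nonneg _
  have h3 : |(c.V (JJ H) : ℝ) * c.om s| ≤ c.V (JJ H) := by
    rw [abs_mul, abs_of_nonneg hV]
    calc (c.V (JJ H) : ℝ) * |c.om s| ≤ (c.V (JJ H) : ℝ) * 1 := mul_le_mul_of_nonneg_left h2 hV
      _ = _ := mul_one _
  have h4 := abs_le.1 h1
  have h5 := abs_le.1 h3
  show |(c.v (JJ H) i s : ℝ)| ≤ 2 * (c.V (JJ H) : ℝ)
  rw [abs_le]
  constructor <;> linarith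

theorem vv_ge : ∀ᶠ H : ℝ in atTop, ∀ i, i < JJ H → ∀ s0, (∀ s, |c.vv H i s| ≤ |c.vv H i s0|) →
    (c.VV H : ℝ) / 2 ≤ |(c.vv H i s0 : ℝ)| := by
  obtain ⟨J0, hJ0⟩ := hc.fam.near (1 / 2) (by norm_num)
  obtain ⟨s1, hs1⟩ := hc.fam.om_eq
  filter_upwards [JJ_atTop.eventually_ge_atTop J0] with H hH i hi s0 hs0
  have h1 := hJ0 (JJ H) hH i hi s1
  have hV : (0 : ℝ) ≤ c.V (JJ H) := Nat.cast_nonneg _
  have h3 : |(c.V (JJ H) : ℝ) * c.om s1| = c.V (JJ H) := by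
    rw [abs_mul, abs_of_nonneg hV, hs1, mul_one]
  have h4 : (c.V (JJ H) : ℝ) / 2 ≤ |(c.v (JJ H) i s1 : ℝ)| := by
    have h5 : |(c.V (JJ H) : ℝ) * c.om s1| ≤ |(c.V (JJ H) : ℝ) * c.om s1 - c.v (JJ H) i s1| +
        |(c.v (JJ H) i s1 : ℝ)| := by
      have := abs_add_le ((c.V (JJ H) : ℝ) * c.om s1 - c.v (JJ H) i s1) (c.v (JJ H) i s1 : ℝ)
      simpa using this
    rw [h3, abs_sub_comm] at h5
    linarith
  have h6 : |(c.v (JJ H) i s1 : ℝ)| ≤ |(c.v (JJ H) i s0 : ℝ)| := by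
    have := hs0 s1
    exact_mod_cast this
  show (c.V (JJ H) : ℝ) / 2 ≤ |(c.v (JJ H) i s0 : ℝ)|
  linarith

/-- the fibres of the members of a class satisfy the conditions of the fibre data -/
theorem ev_near (r : ℝ) (hr : r ≤ 8 / 5 * c.p.rho) : ∀ᶠ H : ℝ in atTop, ∀ i, i < JJ H →
    ∀ A ∈ c.Cl r H, (∀ m, |((ev A (c.vv H i) m : ℤ) : ℝ) - c.HH H * c.p.Ainf m| ≤
      3 * c.p.rho * c.HH H) ∧ ∀ m, (c.p.Q : ℤ) ∣ ev A (c.vv H i) m - c.p.A0 m := by
  have hrho := hc.pv.rho_pos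
  have hrho1 := hc.pv.rho_le
  obtain ⟨J0, hJ0⟩ := hc.fam.near (c.p.rho / 4) (by positivity)
  filter_upwards [JJ_atTop.eventually_ge_atTop J0, eventually_ge_atTop (1 : ℝ)] with H hH hH1
  intro i hi A hA
  have hH0 : 0 ≤ H := by linarith
  have hV : (0 : ℝ) ≤ c.V (JJ H) := Nat.cast_nonneg _
  constructor
  · intro t
    have h1 : ((ev A (c.vv H i) t : ℤ) : ℝ) - c.HH H * c.p.Ainf t =
        ∑ s, (((A (t, s) : ℝ) - H * c.AC (t, s)) * (c.v (JJ H) i s : ℝ) +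
          H * c.AC (t, s) * ((c.v (JJ H) i s : ℝ) - c.V (JJ H) * c.om s)) := by
      have h2 : c.HH H * c.p.Ainf t = ∑ s, H * c.AC (t, s) * (c.V (JJ H) * c.om s) := by
        have h3 : c.HH H * c.p.Ainf t =
            (c.V (JJ H) : ℝ) * H * ((Fintype.card S : ℝ) * c.p.Ainf t) := by
          unfold CPar.HH CPar.VV
          ring
        rw [h3, hc.Ainf_eq t, ev, Finset.mul_sum]
        refine Finset.sum_congr rfl (fun s _ => ?_)
        ring
      rw [h2, ev]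
      push_cast
      rw [← Finset.sum_sub_distrib]
      refine Finset.sum_congr rfl (fun s _ => ?_)
      show (A (t, s) : ℝ) * (c.v (JJ H) i s : ℝ) - _ = _
      ring
    rw [h1]
    have h4 : ∀ s ∈ (univ : Finset S), |((A (t, s) : ℝ) - H * c.AC (t, s)) *
        (c.v (JJ H) i s : ℝ) +
          H * c.AC (t, s) * ((c.v (JJ H) i s : ℝ) - c.V (JJ H) * c.om s)| ≤
        3 * c.p.rho * (H * c.V (JJ H)) := by
      intro s _
      have h5 := hJ0 (JJ H) hH i hi s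
      have h6 := hA.1 (t, s)
      have h7 := hc.fam.om_le s
      have h8 := hc.AC_le (t, s)
      have h9 : |(c.V (JJ H) : ℝ) * c.om s| ≤ c.V (JJ H) := by
        rw [abs_mul, abs_of_nonneg hV]
        calc (c.V (JJ H) : ℝ) * |c.om s| ≤ (c.V (JJ H) : ℝ) * 1 :=
              mul_le_mul_of_nonneg_left h7 hV
          _ = _ := mul_one _
      have h10 : |(c.v (JJ H) i s : ℝ)| ≤ (1 + c.p.rho / 4) * c.V (JJ H) := by
        have h11 := abs_le.1 h5
        have h12 := abs_le.1 h9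
        rw [abs_le]
        constructor <;> linarith
      have h13 : |((A (t, s) : ℝ) - H * c.AC (t, s)) * (c.v (JJ H) i s : ℝ)| ≤
          (8 / 5 * c.p.rho * H) * ((1 + c.p.rho / 4) * c.V (JJ H)) := by
        rw [abs_mul]
        refine mul_le_mul (h6.trans (mul_le_mul_of_nonneg_right hr hH0)) h10 (abs_nonneg _)
          (by positivity)
      have h14 : |H * c.AC (t, s) * ((c.v (JJ H) i s : ℝ) - c.V (JJ H) * c.om s)| ≤
          (H * 1) * (c.p.rho / 4 * c.V (JJ H)) := by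
        rw [abs_mul, abs_mul, abs_of_nonneg hH0]
        refine mul_le_mul (mul_le_mul_of_nonneg_left h8 hH0) h5 (abs_nonneg _) (by positivity)
      refine (abs_add_le _ _).trans ?_
      have h15 : (8 / 5 * c.p.rho * H) * ((1 + c.p.rho / 4) * c.V (JJ H)) +
          (H * 1) * (c.p.rho / 4 * c.V (JJ H)) =
          (8 / 5 * (1 + c.p.rho / 4) + 1 / 4) * c.p.rho * (H * c.V (JJ H)) := by ring
      have h16 : (8 / 5 * (1 + c.p.rho / 4) + 1 / 4) * c.p.rho * (H * c.V (JJ H)) ≤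
          3 * c.p.rho * (H * c.V (JJ H)) := by
        refine mul_le_mul_of_nonneg_right ?_ (by positivity)
        refine mul_le_mul_of_nonneg_right ?_ hrho.le
        linarith
      linarith
    refine (Finset.abs_sum_le_sum_abs _ _).trans ((Finset.sum_le_sum h4).trans ?_)
    rw [Finset.sum_const, Finset.card_univ, nsmul_eq_mul]
    refine le_of_eq ?_
    unfold CPar.HH CPar.VV
    ring
  · intro t
    have h1 : ev A (c.vv H i) t - c.p.A0 t =
        ∑ s, ((A (t, s) - c.A0 (t, s)) * c.v (JJ H) i s +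
          c.A0 (t, s) * (c.v (JJ H) i s - c.v 0 0 s)) + (ev c.A0 (c.v 0 0) t - c.p.A0 t) := by
      have h2 : ∑ s, ((A (t, s) - c.A0 (t, s)) * c.v (JJ H) i s +
          c.A0 (t, s) * (c.v (JJ H) i s - c.v 0 0 s)) =
          ev A (c.vv H i) t - ev c.A0 (c.v 0 0) t := by
        rw [ev, ev, ← Finset.sum_sub_distrib]
        refine Finset.sum_congr rfl (fun s _ => ?_)
        show _ = A (t, s) * c.v (JJ H) i s - _
        ring
      rw [h2]
      ring
    rw [h1]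
    refine dvd_add (Finset.dvd_sum (fun s _ => ?_)) (hc.A0_congr t)
    exact dvd_add ((hA.2 (t, s)).mul_right _) ((hc.fam.congr (JJ H) i s).mul_left _)

theorem T1_bounds : ∃ C : ℝ, 0 < C ∧ ∀ᶠ H : ℝ in atTop, C ≤ c.T1 H := by
  have hkap := hc.pv.kap_pos
  have hQ : (0 : ℝ) < c.p.Q := by exact_mod_cast hc.pv.Q_pos
  have hP : (0 : ℝ) < c.p.P := by exact_mod_cast hc.pv.P_pos
  have hgam : 0 < |c.p.gam| := lt_of_lt_of_le hc.pv.bet_pos hc.pv.gam_ge
  have hS : (0 : ℝ) < Fintype.card S := by exact_mod_cast card_pos c eps bet w hc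
  refine ⟨4 * c.p.kap ^ 4 * c.p.Q / (|c.p.gam| * (c.p.P : ℝ) ^ 3 * (2 * Fintype.card S)),
    by positivity, ?_⟩
  filter_upwards [BB_bounds c eps bet w hc, VV_pos c eps bet w hc,
    eventually_ge_atTop (1 : ℝ)] with H hB hV hH1
  have hV1 : (1 : ℝ) ≤ c.VV H := by exact_mod_cast hV
  have hH0 : 0 < H := by linarith
  have hHH : 0 < c.HH H := by
    unfold CPar.HH
    positivity
  unfold CPar.T1
  rw [div_le_div_iff₀ (by positivity) (by positivity)]
  have h1 : c.HH H ≤ (c.BB H : ℝ) * (2 * Fintype.card S) := by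
    unfold CPar.HH
    have := hB.1
    have h2 : H * c.VV H ≤ 2 * c.BB H := by linarith
    calc (Fintype.card S : ℝ) * c.VV H * H = Fintype.card S * (H * c.VV H) := by ring
      _ ≤ Fintype.card S * (2 * c.BB H) := mul_le_mul_of_nonneg_left h2 hS.le
      _ = (c.BB H : ℝ) * (2 * Fintype.card S) := by ring
  calc 4 * c.p.kap ^ 4 * c.p.Q * (|c.p.gam| * (c.p.P : ℝ) ^ 3 * c.HH H)
      = (4 * c.p.kap ^ 4 * c.p.Q * (|c.p.gam| * (c.p.P : ℝ) ^ 3)) * c.HH H := by ring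
    _ ≤ (4 * c.p.kap ^ 4 * c.p.Q * (|c.p.gam| * (c.p.P : ℝ) ^ 3)) *
        ((c.BB H : ℝ) * (2 * Fintype.card S)) := mul_le_mul_of_nonneg_left h1 (by positivity)
    _ = 4 * c.p.kap ^ 4 * c.p.Q * c.BB H *
        (|c.p.gam| * (c.p.P : ℝ) ^ 3 * (2 * Fintype.card S)) := by ring

theorem TT_atTop : Tendsto c.TT atTop atTop := by
  obtain ⟨C, hC, hT⟩ := T1_bounds c eps bet w hc
  have h1 : Tendsto (fun H : ℝ => (JJ H : ℝ) * C) atTop atTop :=
    (tendsto_natCast_atTop_atTop.comp JJ_atTop).atTop_mul_const hC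
  refine tendsto_atTop_mono' atTop ?_ h1
  filter_upwards [hT] with H hH
  exact mul_le_mul_of_nonneg_left hH (Nat.cast_nonneg _)

end HT

end ConicHP
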