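import Pool.Agent.Lib.MP_e426f4_ag.C.Defs
import Pool.Agent.Lib.MP_e426f4_ag.G.Basic
import Pool.Agent.Lib.MP_e426f4_ag.G.Alg

/-! Module C-EV: algebra of `ev`, finiteness. -/

namespace ConicHP

open Finset GenHP Filter Topology

variable {S : Type*} [Fintype S]

section EV
variable {R : Type*} [CommRing R]

theorem F_ev (A : Idx 2 2 × S → R) (v : S → R) (x : Fin 3 → R) :
    F (ev A v) x = ∑ m, A m * (mon x m.1.1 * v m.2) := by
  rw [Fintype.sum_prod_type]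
  simp only [F, ev]
  refine Finset.sum_congr rfl fun t _ => ?_
  rw [Finset.sum_mul]
  refine Finset.sum_congr rfl fun s _ => ?_
  ring

theorem F_ev_add (A B : Idx 2 2 × S → R) (v : S → R) (x : Fin 3 → R) :
    F (ev (fun m => A m + B m) v) x = F (ev A v) x + F (ev B v) x := by
  rw [F_ev, F_ev, F_ev, ← Finset.sum_add_distrib]
  exact Finset.sum_congr rfl fun m _ => by ring

theorem F_ev_smul (k : R) (A : Idx 2 2 × S → R) (v : S → R) (x : Fin 3 → R) :
    F (ev (fun m => k * A m) v) x = k * F (ev A v) x := by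
  rw [F_ev, F_ev, Finset.mul_sum]
  exact Finset.sum_congr rfl fun m _ => by ring

/-- decomposable vectors -/
theorem F_ev_tensor (b : Idx 2 2 → R) (a : S → R) (v : S → R) (x : Fin 3 → R) :
    F (ev (fun m => b m.1 * a m.2) v) x = (∑ s, a s * v s) * F b x := by
  have h : ev (fun m : Idx 2 2 × S => b m.1 * a m.2) v = fun t => (∑ s, a s * v s) * b t := by
    funext t
    simp only [ev]
    rw [Finset.sum_mul]
    exact Finset.sum_congr rfl fun s _ => by ring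
  rw [h, F_smul]

theorem ev_cast (A : Idx 2 2 × S → ℤ) (v : S → ℤ) (t : Idx 2 2) :
    ((ev A v t : ℤ) : ℝ) = ev (fun m => (A m : ℝ)) (fun s => (v s : ℝ)) t := by
  simp only [ev]
  push_cast
  rfl

theorem F_ev_cast (A : Idx 2 2 × S → ℤ) (v : S → ℤ) (x : Fin 3 → ℤ) :
    ((F (ev A v) x : ℤ) : ℝ) =
      F (ev (fun m => (A m : ℝ)) (fun s => (v s : ℝ))) (fun i => (x i : ℝ)) := by
  rw [← F_cast]
  congr 1
  funext t
  exact ev_cast A v t

theorem ev_congr_mod (N : ℤ) (A A' : Idx 2 2 × S → ℤ) (v v' : S → ℤ)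
    (hA : ∀ m, N ∣ A m - A' m) (hv : ∀ s, N ∣ v s - v' s) (t : Idx 2 2) :
    N ∣ ev A v t - ev A' v' t := by
  simp only [ev]
  rw [← Finset.sum_sub_distrib]
  refine Finset.dvd_sum fun s _ => ?_
  have h : A (t, s) * v s - A' (t, s) * v' s =
      (A (t, s) - A' (t, s)) * v s + A' (t, s) * (v s - v' s) := by ring
  rw [h]
  exact dvd_add (Dvd.dvd.mul_right (hA _) _) (Dvd.dvd.mul_left (hv _) _)

theorem Cl_finite (c : CPar S) (r H : ℝ) : (c.Cl r H).Finite := by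
  obtain ⟨C, hC⟩ : ∃ C : ℝ, ∀ m, |H * c.AC m| ≤ C := by
    refine ⟨∑ m, |H * c.AC m|, fun m => ?_⟩
    exact Finset.single_le_sum (f := fun m => |H * c.AC m|) (fun _ _ => abs_nonneg _)
      (Finset.mem_univ m)
  refine finite_of_abs_le _ (C + r * H) ?_
  intro A hA m
  have h1 := hA.1 m
  calc |(A m : ℝ)| = |H * c.AC m + ((A m : ℝ) - H * c.AC m)| := by ring_nf
    _ ≤ |H * c.AC m| + |(A m : ℝ) - H * c.AC m| := abs_add_le _ _
    _ ≤ C + r * H := add_le_add (hC m) h1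

theorem GC_finite (c : CPar S) (K H : ℝ) : (c.GC K H).Finite := GenHP.GG_finite c.p K _

theorem XX_finite (c : CPar S) (B : ℕ) : (c.p.XX B).Finite := GenHP.XX_finite c.p B

theorem Pairs_finite (c : CPar S) (r K H : ℝ) : (c.Pairs r K H).Finite :=
  ((Cl_finite c r H).prod ((Set.finite_lt_nat (JJ H)).prod (GC_finite c K H))).subset
    fun _ hq => ⟨hq.1, hq.2.1, hq.2.2.1⟩

theorem LP_finite (c : CPar S) (r th : ℝ) (s : ℕ) (St : Set (Fin 3 → ℤ)) (hS : St.Finite)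
    (H : ℝ) : (c.LP r th s St H).Finite :=
  ((Cl_finite c r H).prod ((Set.finite_lt_nat (JJ H)).prod hS)).subset
    fun _ hq => ⟨hq.1, hq.2.1, hq.2.2.1⟩

theorem TSame_finite (c : CPar S) (K H : ℝ) : (c.TSame K H).Finite :=
  ((Cl_finite c c.p.rho H).prod ((Set.finite_lt_nat (JJ H)).prod
    ((GC_finite c K H).prod (GC_finite c K H)))).subset
    fun _ hq => ⟨hq.1, hq.2.1, hq.2.2.1, hq.2.2.2.1⟩

theorem TSx_finite (c : CPar S) (K H : ℝ) : (c.TSx K H).Finite :=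
  ((Cl_finite c c.p.rho H).prod ((Set.finite_lt_nat (JJ H)).prod
    ((Set.finite_lt_nat (JJ H)).prod (GC_finite c K H)))).subset
    fun _ hq => ⟨hq.1, hq.2.1, hq.2.2.1, hq.2.2.2.2.1⟩

theorem TBad_finite (c : CPar S) (K : ℝ) (G : ℕ) (tau H : ℝ) : (c.TBad K G tau H).Finite :=
  ((Cl_finite c c.p.rho H).prod (((Set.finite_lt_nat (JJ H)).prod (GC_finite c K H)).prod
    ((Set.finite_lt_nat (JJ H)).prod (GC_finite c K H)))).subset
    fun _ hq => ⟨hq.1, ⟨hq.2.1, hq.2.2.2.2.1⟩, hq.2.2.1, hq.2.2.2.2.2.1⟩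

theorem TMain_finite (c : CPar S) (K : ℝ) (G : ℕ) (tau H : ℝ) : (c.TMain K G tau H).Finite :=
  ((Cl_finite c c.p.rho H).prod (((Set.finite_lt_nat (JJ H)).prod (GC_finite c K H)).prod
    ((Set.finite_lt_nat (JJ H)).prod (GC_finite c K H)))).subset
    fun _ hq => ⟨hq.1, ⟨hq.2.1, hq.2.2.2.2.1⟩, hq.2.2.1, hq.2.2.2.2.2.1⟩

end EV

end ConicHP
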