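import Pool.Agent.Lib.MP_e426f4_ag.C.Defs

/-! Module C-LIN: short solutions of one linear equation. -/

namespace ConicHP

open Finset GenHP

variable {S : Type*} [Fintype S]

theorem exists_argmax (v : S → ℤ) (hv : PrimS v) : ∃ s0, (∀ s, |v s| ≤ |v s0|) ∧ 1 ≤ |v s0| := by
  classical
  obtain ⟨c, hc⟩ := hv
  have hne : (univ : Finset S).Nonempty := by
    rw [Finset.nonempty_iff_ne_empty]
    intro h
    rw [h, Finset.sum_empty] at hc
    exact absurd hc (by norm_num)
  obtain ⟨s0, -, hs0⟩ := Finset.exists_max_image (univ : Finset S) (fun s => |v s|) hne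
  refine ⟨s0, fun s => hs0 s (mem_univ s), ?_⟩
  by_contra hcon
  push Not at hcon
  have h0 : ∀ s, v s = 0 := by
    intro s
    have h1 := hs0 s (mem_univ s)
    have h2 : |v s| < 1 := lt_of_le_of_lt h1 hcon
    exact Int.abs_lt_one_iff.mp h2
  rw [Finset.sum_eq_zero (fun s _ => by rw [h0 s, mul_zero])] at hc
  exact absurd hc (by norm_num)

theorem short_lin (v : S → ℤ) (hv : PrimS v) (s0 : S) (hs0 : ∀ s, |v s| ≤ |v s0|) (b : ℤ) :
    ∃ a : S → ℤ, ∑ s, a s * v s = b ∧
      ∀ s, |(a s : ℝ)| ≤ |(b : ℝ)| / |(v s0 : ℝ)| + Fintype.card S * |(v s0 : ℝ)| := by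
  classical
  have hv0 : v s0 ≠ 0 := by
    obtain ⟨s1, hs1, h1⟩ := exists_argmax v hv
    intro h
    have := hs0 s1
    rw [h, abs_zero] at this
    linarith
  have hv0r : (0 : ℝ) < |(v s0 : ℝ)| := abs_pos.mpr (by exact_mod_cast hv0)
  obtain ⟨c, hc⟩ := hv
  set a0 : S → ℤ := fun s => b * c s with ha0
  have ha0s : ∑ s, a0 s * v s = b := by
    calc ∑ s, a0 s * v s = b * ∑ s, c s * v s := by
          rw [Finset.mul_sum]
          exact Finset.sum_congr rfl fun s _ => by rw [ha0]; ring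
      _ = b := by rw [hc, mul_one]
  -- the reduced vector
  set a : S → ℤ := fun s => if s = s0 then a0 s0 + ∑ s ∈ univ.erase s0, (a0 s / v s0) * v s
    else a0 s % v s0 with ha
  have has0 : a s0 = a0 s0 + ∑ s ∈ univ.erase s0, (a0 s / v s0) * v s := by simp [ha]
  have hane : ∀ s, s ≠ s0 → a s = a0 s % v s0 := by
    intro s hs
    simp [ha, hs]
  have hsum : ∑ s, a s * v s = b := by
    rw [← ha0s, ← Finset.add_sum_erase _ _ (mem_univ s0), ← Finset.add_sum_erase univ _ (mem_univ s0),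
      has0, add_mul, Finset.sum_mul, add_assoc, ← Finset.sum_add_distrib]
    congr 1
    refine Finset.sum_congr rfl fun s hs => ?_
    rw [hane s (Finset.ne_of_mem_erase hs)]
    have h1 := Int.mul_ediv_add_emod (a0 s) (v s0)
    linear_combination (v s) * h1
  refine ⟨a, hsum, ?_⟩
  have hcard : (0 : ℝ) ≤ Fintype.card S := by positivity
  have hcard1 : (1 : ℝ) ≤ Fintype.card S := by
    have : 0 < Fintype.card S := Fintype.card_pos_iff.mpr ⟨s0⟩
    exact_mod_cast this
  have hne : ∀ s, s ≠ s0 → |(a s : ℝ)| ≤ |(v s0 : ℝ)| := by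
    intro s hs
    rw [hane s hs]
    have h1 := Int.emod_nonneg (a0 s) hv0
    have h2 := Int.emod_lt_abs (a0 s) hv0
    rw [abs_of_nonneg (by exact_mod_cast h1 : (0 : ℝ) ≤ ((a0 s % v s0 : ℤ) : ℝ))]
    have h3 : ((a0 s % v s0 : ℤ) : ℝ) ≤ ((|v s0| : ℤ) : ℝ) := by exact_mod_cast h2.le
    rwa [Int.cast_abs] at h3
  intro s
  by_cases hs : s = s0
  · subst hs
    -- a s0 * v s0 = b - sum
    have h1 : (a s : ℝ) * (v s : ℝ) = (b : ℝ) - ∑ s' ∈ univ.erase s, (a s' : ℝ) * (v s' : ℝ) := by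
      have h2 : ((∑ s, a s * v s : ℤ) : ℝ) = (b : ℝ) := by exact_mod_cast hsum
      push_cast at h2
      rw [← Finset.add_sum_erase _ _ (mem_univ s)] at h2
      linarith
    have h3 : |∑ s' ∈ univ.erase s, (a s' : ℝ) * (v s' : ℝ)| ≤
        Fintype.card S * (|(v s : ℝ)| * |(v s : ℝ)|) := by
      refine (Finset.abs_sum_le_sum_abs _ _).trans ?_
      have h4 : ∑ s' ∈ univ.erase s, |(a s' : ℝ) * (v s' : ℝ)| ≤
          ∑ s' ∈ univ.erase s, |(v s : ℝ)| * |(v s : ℝ)| := by
        refine Finset.sum_le_sum fun s' hs' => ?_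
        rw [abs_mul]
        have h5 : |(v s' : ℝ)| ≤ |(v s : ℝ)| := by
          have := hs0 s'
          exact_mod_cast this
        exact mul_le_mul (hne s' (Finset.ne_of_mem_erase hs')) h5 (abs_nonneg _) (abs_nonneg _)
      refine h4.trans ?_
      rw [Finset.sum_const, nsmul_eq_mul]
      refine mul_le_mul_of_nonneg_right ?_ (by positivity)
      have : (univ.erase s).card ≤ Fintype.card S := Finset.card_le_card (Finset.erase_subset _ _)
      exact_mod_cast this
    have h6 : |(a s : ℝ)| * |(v s : ℝ)| ≤ |(b : ℝ)| + Fintype.card S * (|(v s : ℝ)| * |(v s : ℝ)|) := by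
      rw [← abs_mul, h1]
      exact (abs_sub _ _).trans (add_le_add le_rfl h3)
    have h7 : |(a s : ℝ)| ≤ (|(b : ℝ)| + Fintype.card S * (|(v s : ℝ)| * |(v s : ℝ)|)) / |(v s : ℝ)| := by
      rw [le_div_iff₀ hv0r]
      exact h6
    refine h7.trans (le_of_eq ?_)
    field_simp
  · have h1 := hne s hs
    have h2 : (0 : ℝ) ≤ |(b : ℝ)| / |(v s0 : ℝ)| := by positivity
    have h3 : |(v s0 : ℝ)| ≤ Fintype.card S * |(v s0 : ℝ)| := by nlinarith
    linarith

end ConicHP
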