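import Pool.Agent.Lib.MP_e426f4_ag.G.Defs

/-!
# Families of conics: definitions

`A : Idx 2 2 × S → R` is a vector of `|S|` ternary quadratic forms; for `v : S → R` the form
`ev A v = ∑_s v_s A_s` is the fibre over `v`.  A class of such `A` is studied through the fibres over
vectors `v_{J,i}`, `i < J`, with `J = ⌊(log H)^2⌋`.
-/

namespace ConicHP

open Finset GenHP

variable {S : Type*} [Fintype S]

/-- The fibre over `v`: the ternary quadratic form `∑_s v_s A_s`. -/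
def ev {R : Type*} [CommRing R] (A : Idx 2 2 × S → R) (v : S → R) : Idx 2 2 → R :=
  fun t => ∑ s, A (t, s) * v s

/-- `v : S → ℤ` is primitive. -/
def PrimS (v : S → ℤ) : Prop := ∃ c : S → ℤ, ∑ s, c s * v s = 1

/-- Data of a class: fibre data `p` (real zero, Hensel data, moduli), centre and residue class of the
vectors of forms, and the family of vectors `v J i`, with common direction `om` and size `V J`. -/
structure CPar (S : Type*) where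
  /-- fibre data -/
  p : Par 2 2
  /-- centre of the cube -/
  AC : Idx 2 2 × S → ℝ
  /-- residue class -/
  A0 : Idx 2 2 × S → ℤ
  /-- limit direction of the vectors -/
  om : S → ℝ
  /-- the vectors -/
  v : ℕ → ℕ → S → ℤ
  /-- size of the vectors -/
  V : ℕ → ℕ
  /-- separation constant -/
  D0 : ℕ

/-- The conditions on the family of vectors (`Q` modulus, `W` product of the small primes). -/
structure FamValid (Q W : ℕ) (om : S → ℝ) (v : ℕ → ℕ → S → ℤ) (V : ℕ → ℕ) (D0 : ℕ) : Prop where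
  om_le : ∀ s, |om s| ≤ 1
  om_eq : ∃ s, |om s| = 1
  V_pos : ∀ J, 1 ≤ J → 1 ≤ V J
  V_le : ∃ C : ℕ, ∀ J, 1 ≤ J → V J ≤ C * J ^ C
  near : ∀ δ : ℝ, 0 < δ → ∃ J0 : ℕ, ∀ J, J0 ≤ J → ∀ i, i < J → ∀ s,
    |(v J i s : ℝ) - V J * om s| ≤ δ * V J
  prim : ∀ J i, PrimS (v J i)
  congr : ∀ J i s, (Q : ℤ) ∣ v J i s - v 0 0 s
  D0_pos : 0 < D0
  D0_primes : ∀ q : ℕ, q.Prime → q ∣ D0 → q ∣ W
  sep : ∀ J i i', i ≠ i' → ∃ a : S → ℤ, ∑ s, a s * v J i s = 0 ∧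
    ∑ s, a s * v J i' s = D0 * ((i : ℤ) - i')

/-- Validity of fibre data (like `GenHP.Par.Valid`, without the conditions on `n` and `d`). -/
structure PV {n d : ℕ} (p : Par n d) (eps bet : ℝ) (w : ℕ) : Prop where
  eps_pos : 0 < eps
  eps_le : eps ≤ 1 / 10
  bet_pos : 0 < bet
  bet_le : bet ≤ 1
  w_two : 2 ≤ w
  kap_pos : 0 < p.kap
  kap_le : p.kap ≤ 1 / 10
  rho_pos : 0 < p.rho
  rho_le : p.rho ≤ 1
  Ainf_le : ∀ m, |p.Ainf m| ≤ 1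
  xi_le : ∀ i, |p.xi i| ≤ 1
  xi_eq : ∃ i, |p.xi i| = 1
  gam_ge : bet ≤ |p.gam|
  rc : RC p.Ainf p.xi p.j p.kap p.rho bet eps
  W_pos : 0 < p.W
  W_primes : ∀ q : ℕ, q.Prime → (q ∣ p.W ↔ q ≤ w)
  Q_pos : 0 < p.Q
  P_pos : 0 < p.P
  hens : Hens p.P p.Q p.W p.A0 p.x0

/-- Validity of the data of a class. -/
structure CPar.Valid (c : CPar S) (eps bet : ℝ) (w : ℕ) : Prop where
  pv : PV c.p eps bet w
  fam : FamValid c.p.Q c.p.W c.om c.v c.V c.D0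
  AC_le : ∀ m, |c.AC m| ≤ 1
  Ainf_eq : ∀ t, (Fintype.card S : ℝ) * c.p.Ainf t = ev c.AC c.om t
  A0_congr : ∀ t, (c.p.Q : ℤ) ∣ ev c.A0 (c.v 0 0) t - c.p.A0 t

/-- Vectors of forms of the class in the cube with centre `H * AC` and half side `r * H`. -/
def CPar.Cl (c : CPar S) (r H : ℝ) : Set (Idx 2 2 × S → ℤ) :=
  {A | (∀ m, |(A m : ℝ) - H * c.AC m| ≤ r * H) ∧ ∀ m, (c.p.Q : ℤ) ∣ A m - c.A0 m}

/-- the number of fibres -/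
noncomputable def JJ (H : ℝ) : ℕ := ⌊(Real.log H) ^ 2⌋₊

/-- the size of the vectors `v` -/
noncomputable def CPar.VV (c : CPar S) (H : ℝ) : ℕ := c.V (JJ H)

/-- the vectors of the fibres used at height `H` -/
noncomputable def CPar.vv (c : CPar S) (H : ℝ) (i : ℕ) : S → ℤ := c.v (JJ H) i

/-- the height of the points -/
noncomputable def CPar.BB (c : CPar S) (H : ℝ) : ℕ := ⌊H * c.VV H⌋₊

/-- the height of the fibres -/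
noncomputable def CPar.HH (c : CPar S) (H : ℝ) : ℝ := (Fintype.card S : ℝ) * c.VV H * H

/-- number of coefficients -/
def MM (S : Type*) [Fintype S] : ℕ := Fintype.card (Idx 2 2 × S)

/-- expected number of points in one fibre -/
noncomputable def CPar.T1 (c : CPar S) (H : ℝ) : ℝ :=
  4 * c.p.kap ^ 4 * c.p.Q * (c.BB H : ℝ) / (|c.p.gam| * (c.p.P : ℝ) ^ 3 * c.HH H)

/-- expected number of points -/
noncomputable def CPar.TT (c : CPar S) (H : ℝ) : ℝ := (JJ H : ℝ) * c.T1 H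

/-- expected number of vectors of forms -/
noncomputable def CPar.Xn (c : CPar S) (H : ℝ) : ℝ := (2 * c.p.rho * H / c.p.Q) ^ MM S

/-- the well-rounded primitive points of the class -/
noncomputable def CPar.GC (c : CPar S) (K H : ℝ) : Set (Fin 3 → ℤ) := c.p.GG K (c.BB H)

/-- triples (forms, fibre, point) -/
def CPar.Pairs (c : CPar S) (r K H : ℝ) : Set ((Idx 2 2 × S → ℤ) × ℕ × (Fin 3 → ℤ)) :=
  {q | q.1 ∈ c.Cl r H ∧ q.2.1 < JJ H ∧ q.2.2 ∈ c.GC K H ∧ F (ev q.1 (c.vv H q.2.1)) q.2.2 = 0}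

/-- local triples: `W^s ∣ F` and `|F| ≤ θ H' B^2` -/
def CPar.LP (c : CPar S) (r th : ℝ) (s : ℕ) (St : Set (Fin 3 → ℤ)) (H : ℝ) :
    Set ((Idx 2 2 × S → ℤ) × ℕ × (Fin 3 → ℤ)) :=
  {q | q.1 ∈ c.Cl r H ∧ q.2.1 < JJ H ∧ q.2.2 ∈ St ∧
    ((c.p.W : ℤ) ^ s) ∣ F (ev q.1 (c.vv H q.2.1)) q.2.2 ∧
    |((F (ev q.1 (c.vv H q.2.1)) q.2.2 : ℤ) : ℝ)| ≤ th * c.HH H * (c.BB H : ℝ) ^ 2}

/-- number of multiples of `M` in `[-θ H' B^2, θ H' B^2]` -/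
noncomputable def CPar.Lev (c : CPar S) (th : ℝ) (M : ℕ) (H : ℝ) : ℝ :=
  2 * (⌊th * c.HH H * (c.BB H : ℝ) ^ 2 / M⌋₊ : ℝ) + 1

/-- the local main term of one fibre -/
noncomputable def CPar.LT (c : CPar S) (th : ℝ) (s : ℕ) (H : ℝ) : ℝ :=
  Vol 2 c.p.gam c.p.kap th (c.BB H) * c.p.Q / ((c.p.P : ℝ) ^ 3 * (c.p.W : ℝ) ^ s)

/-- the local main term -/
noncomputable def CPar.MT (c : CPar S) (th : ℝ) (s : ℕ) (H : ℝ) : ℝ :=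
  (JJ H : ℝ) * c.LT th s H * c.Xn H

/-- two distinct points in the same fibre: `(A, i, x, y)` -/
def CPar.TSame (c : CPar S) (K H : ℝ) :
    Set ((Idx 2 2 × S → ℤ) × ℕ × (Fin 3 → ℤ) × (Fin 3 → ℤ)) :=
  {q | q.1 ∈ c.Cl c.p.rho H ∧ q.2.1 < JJ H ∧ q.2.2.1 ∈ c.GC K H ∧ q.2.2.2 ∈ c.GC K H ∧
    F (ev q.1 (c.vv H q.2.1)) q.2.2.1 = 0 ∧ F (ev q.1 (c.vv H q.2.1)) q.2.2.2 = 0 ∧
    q.2.2.1 ≠ q.2.2.2}

/-- the same point in two different fibres: `(A, i, i', x)` -/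
def CPar.TSx (c : CPar S) (K H : ℝ) :
    Set ((Idx 2 2 × S → ℤ) × ℕ × ℕ × (Fin 3 → ℤ)) :=
  {q | q.1 ∈ c.Cl c.p.rho H ∧ q.2.1 < JJ H ∧ q.2.2.1 < JJ H ∧ q.2.1 ≠ q.2.2.1 ∧
    q.2.2.2 ∈ c.GC K H ∧
    F (ev q.1 (c.vv H q.2.1)) q.2.2.2 = 0 ∧ F (ev q.1 (c.vv H q.2.2.1)) q.2.2.2 = 0}

/-- bad pairs of points in different fibres: `(A, (i, x), (i', y))` -/
def CPar.TBad (c : CPar S) (K : ℝ) (G : ℕ) (tau H : ℝ) :
    Set ((Idx 2 2 × S → ℤ) × (ℕ × (Fin 3 → ℤ)) × (ℕ × (Fin 3 → ℤ))) :=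
  {q | q.1 ∈ c.Cl c.p.rho H ∧ q.2.1.1 < JJ H ∧ q.2.2.1 < JJ H ∧ q.2.1.1 ≠ q.2.2.1 ∧
    q.2.1.2 ∈ c.GC K H ∧ q.2.2.2 ∈ c.GC K H ∧
    F (ev q.1 (c.vv H q.2.1.1)) q.2.1.2 = 0 ∧ F (ev q.1 (c.vv H q.2.2.1)) q.2.2.2 = 0 ∧
    q.2.1.2 ≠ q.2.2.2 ∧
    (G < mg q.2.1.2 q.2.2.2 ∨ (dl q.2.1.2 q.2.2.2 : ℝ) < tau * (c.BB H : ℝ) ^ 2)}

/-- good pairs of points in different fibres -/
def CPar.TMain (c : CPar S) (K : ℝ) (G : ℕ) (tau H : ℝ) :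
    Set ((Idx 2 2 × S → ℤ) × (ℕ × (Fin 3 → ℤ)) × (ℕ × (Fin 3 → ℤ))) :=
  {q | q.1 ∈ c.Cl c.p.rho H ∧ q.2.1.1 < JJ H ∧ q.2.2.1 < JJ H ∧ q.2.1.1 ≠ q.2.2.1 ∧
    q.2.1.2 ∈ c.GC K H ∧ q.2.2.2 ∈ c.GC K H ∧
    F (ev q.1 (c.vv H q.2.1.1)) q.2.1.2 = 0 ∧ F (ev q.1 (c.vv H q.2.2.1)) q.2.2.2 = 0 ∧
    mg q.2.1.2 q.2.2.2 ≤ G ∧ tau * (c.BB H : ℝ) ^ 2 ≤ (dl q.2.1.2 q.2.2.2 : ℝ)}

/-- some fibre of the family has a rational point -/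
def FSol (v : ℕ → ℕ → S → ℤ) (A : Idx 2 2 × S → ℤ) : Prop :=
  ∃ J i, ∃ x : Fin 3 → ℤ, x ≠ 0 ∧ F (ev A (v J i)) x = 0

end ConicHP
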