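import Pool.Agent.Lib.MP_e426f4_ag.AP
import Pool.Agent.Lib.MP_e426f4_ag.G.OmegaLoc
import Pool.Agent.Lib.MP_e426f4_ag.C.Defs

/-! # CONIC, module C-OL: upper bound for the local count on one linear condition -/

namespace ConicHP

open Finset GenHP

/-- vectors in one residue class modulo `M` -/
theorem oli_fiber {I : Type*} [Fintype I] [DecidableEq I] (M : ℕ) (hM : 1 ≤ M) (u : I → ℤ)
    (m0 : I) (U : ℝ) (hU : 0 < U) (hm0 : U ≤ |(u m0 : ℝ)|) (c : I → ℝ) (r eta : ℝ) (hr : 0 ≤ r)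
    (heta : 0 ≤ eta) (R : I → ℤ) (s : Finset (I → ℤ))
    (hs : ∀ A ∈ s, (∀ m, |(A m : ℝ) - c m| ≤ r) ∧ (∀ m, (M : ℤ) ∣ A m - R m) ∧
      |((∑ m, A m * u m : ℤ) : ℝ)| ≤ eta) :
    (s.card : ℝ) ≤ (2 * r / (M : ℝ) + 1) ^ (Fintype.card I - 1) *
      (2 * eta / (U * M) + 1) := by
  have hMR : (0 : ℝ) < M := by exact_mod_cast hM
  have hypos : 0 < |(u m0 : ℝ)| := lt_of_lt_of_le hU hm0
  set a1 : ℕ := ⌊2 * r / (M : ℝ) + 1⌋₊ with ha1
  set a2 : ℕ := ⌊2 * eta / (U * M) + 1⌋₊ with ha2
  have ha1' : (a1 : ℝ) ≤ 2 * r / (M : ℝ) + 1 := Nat.floor_le (by positivity)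
  have ha2' : (a2 : ℝ) ≤ 2 * eta / (U * M) + 1 := Nat.floor_le (by positivity)
  let g : (I → ℤ) → (I → ℤ) := fun A => Function.update A m0 0
  let X : I → Finset ℤ := fun m =>
    (ol_coord (c m) r hr M hM (R m)).1.toFinset
  have hX : ∀ m, (X m).card ≤ a1 := by
    intro m
    apply Nat.le_floor
    have := (ol_coord (c m) r hr M hM (R m)).2
    rw [Set.ncard_eq_toFinset_card _ (ol_coord (c m) r hr M hM (R m)).1] at this
    exact this
  have himg : s.image g ⊆ Fintype.piFinset (fun m => if m = m0 then {0} else X m) := by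
    intro A' hA'
    rw [Finset.mem_image] at hA'
    obtain ⟨A, hA, rfl⟩ := hA'
    rw [Fintype.mem_piFinset]
    intro m
    by_cases hm : m = m0
    · subst hm
      simp [g]
    · simp only [hm, if_false, g, Function.update_of_ne hm]
      simp only [X, Set.Finite.mem_toFinset, Set.mem_ofPred_eq]
      exact ⟨(hs A hA).1 m, (hs A hA).2.1 m⟩
  have himgc : (s.image g).card ≤ a1 ^ (Fintype.card I - 1) := by
    refine (Finset.card_le_card himg).trans ?_
    rw [Fintype.card_piFinset]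
    rw [← Finset.mul_prod_erase univ _ (Finset.mem_univ m0)]
    simp only [if_true, Finset.card_singleton, one_mul]
    refine (Finset.prod_le_pow_card _ _ a1 ?_).trans ?_
    · intro m hm
      rw [Finset.mem_erase] at hm
      simp only [hm.1, if_false]
      exact hX m
    · rw [Finset.card_erase_of_mem (Finset.mem_univ m0), Finset.card_univ]
  have hfib : ∀ a ∈ s.image g, (s.filter fun A => g A = a).card ≤ a2 := by
    intro a _
    rcases (s.filter fun A => g A = a).eq_empty_or_nonempty with he | ⟨A1, hA1⟩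
    · rw [he]; simp
    · -- the rest of the linear form
      set K : ℤ := ∑ t ∈ univ.erase m0, A1 t * u t with hK
      have hF : ∀ A ∈ s.filter (fun A => g A = a), ∑ m, A m * u m = A m0 * u m0 + K := by
        intro A hA
        rw [Finset.mem_filter] at hA hA1
        have hgg : g A = g A1 := hA.2.trans hA1.2.symm
        have hcoord : ∀ t, t ≠ m0 → A t = A1 t := by
          intro t ht
          have := congrFun hgg t
          simpa [g, Function.update_of_ne ht] using this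
        rw [← Finset.add_sum_erase univ _ (Finset.mem_univ m0), hK]
        congr 1
        refine Finset.sum_congr rfl fun t ht => ?_
        rw [hcoord t (Finset.ne_of_mem_erase ht)]
      set y : ℝ := (u m0 : ℝ) with hy
      have hyne : y ≠ 0 := abs_pos.1 hypos
      have hrr : 0 ≤ eta / |y| := by positivity
      obtain ⟨hfin, hcard⟩ := ol_coord (-(K : ℝ) / y) (eta / |y|) hrr M hM (R m0)
      have hinj : (s.filter fun A => g A = a).card ≤ hfin.toFinset.card := by
        refine Finset.card_le_card_of_injOn (fun A => A m0) ?_ ?_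
        · intro A hA
          have hA' : A ∈ s.filter (fun A => g A = a) := hA
          have h1 := hF A hA'
          have h2 := (hs A (Finset.mem_filter.mp hA').1)
          have h3 := h2.2.2
          have h4 := h2.2.1 m0
          simp only [Finset.mem_coe, Set.Finite.mem_toFinset, Set.mem_ofPred_eq]
          refine ⟨?_, h4⟩
          rw [h1] at h3
          push_cast at h3
          rw [← hy] at h3
          have h5 : (A m0 : ℝ) - -(K : ℝ) / y = ((A m0 : ℝ) * y + K) / y := by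
            rw [eq_div_iff hyne, sub_mul, div_mul_cancel₀ _ hyne]
            ring
          rw [h5, abs_div]
          exact div_le_div_of_nonneg_right h3 hypos.le
        · intro A hA A' hA' hAA
          have hA2 := Finset.mem_filter.mp (show A ∈ s.filter (fun A => g A = a) from hA)
          have hA3 := Finset.mem_filter.mp (show A' ∈ s.filter (fun A => g A = a) from hA')
          have hgg : g A = g A' := hA2.2.trans hA3.2.symm
          funext t
          by_cases ht : t = m0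
          · rw [ht]; exact hAA
          · have := congrFun hgg t
            simpa [g, Function.update_of_ne ht] using this
      refine hinj.trans ?_
      apply Nat.le_floor
      rw [Set.ncard_eq_toFinset_card _ hfin] at hcard
      refine hcard.trans ?_
      have h8 : eta / |y| ≤ eta / U := div_le_div_of_nonneg_left heta hU hm0
      have h11 : 2 * (eta / |y|) / (M : ℝ) ≤ 2 * (eta / U) / M := by
        apply div_le_div_of_nonneg_right _ hMR.le
        linarith
      have h12 : 2 * (eta / U) / M = 2 * eta / (U * M) := by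
        field_simp
      linarith
  have hmain := Finset.card_le_mul_card_image s a2 hfib
  have h1 : (s.card : ℝ) ≤ (a2 : ℝ) * (a1 : ℝ) ^ (Fintype.card I - 1) := by
    have : s.card ≤ a2 * a1 ^ (Fintype.card I - 1) := hmain.trans (Nat.mul_le_mul_left _ himgc)
    exact_mod_cast this
  refine h1.trans ?_
  rw [mul_comm]
  exact mul_le_mul (pow_le_pow_left₀ (by positivity) ha1' _) ha2' (by positivity) (by positivity)

/-- number of solutions of one linear congruence, in any universe -/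
private theorem oli_card {I : Type*} [Fintype I] (N : ℕ) (hN : 0 < N) (v : I → ℤ)
    (hv : ∃ c : I → ℤ, IsCoprime (∑ i, c i * v i) (N : ℤ)) (b : ℤ) :
    (Set.ncard {A : I → ℤ | (∀ i, 0 ≤ A i ∧ A i < N) ∧ (N : ℤ) ∣ ∑ i, A i * v i - b}) * N ≤
      N ^ Fintype.card I := by
  classical
  let e := Fintype.equivFin I
  have hsum : ∀ A : I → ℤ, ∑ k, A (e.symm k) * v (e.symm k) = ∑ i, A i * v i := fun A =>
    Equiv.sum_comp e.symm (fun i => A i * v i)
  obtain ⟨c, hc⟩ := hv
  have h := CubicHP.card_lin_congr_le N hN (fun k => v (e.symm k))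
    ⟨fun k => c (e.symm k), by rw [hsum]; exact hc⟩ b
  have hset : {A : Fin (Fintype.card I) → ℤ | (∀ i, 0 ≤ A i ∧ A i < N) ∧
      (N : ℤ) ∣ ∑ i, A i * v (e.symm i) - b} = (fun (A : I → ℤ) k => A (e.symm k)) ''
      {A : I → ℤ | (∀ i, 0 ≤ A i ∧ A i < N) ∧ (N : ℤ) ∣ ∑ i, A i * v i - b} := by
    ext A
    constructor
    · rintro ⟨h1, h2⟩
      refine ⟨fun i => A (e i), ⟨fun i => h1 (e i), ?_⟩, ?_⟩
      · rw [← hsum]
        simpa using h2
      · funext k
        simp
    · rintro ⟨A', ⟨h1, h2⟩, rfl⟩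
      refine ⟨fun k => h1 (e.symm k), ?_⟩
      rw [← hsum] at h2
      exact h2
  rw [hset, Set.ncard_image_of_injective, Fintype.card_fin] at h
  · exact h
  · intro A A' hAA
    funext i
    have := congrFun hAA (e i)
    simpa using this

theorem omega_lin_le {I : Type*} [Fintype I] (W Q s : ℕ) (hW : 0 < W) (hQ : Q ∣ W ^ s)
    (A0 u : I → ℤ) (hu : ∃ c : I → ℤ, IsCoprime (∑ m, c m * u m) (W : ℤ))
    (m0 : I) (U : ℝ) (hU : 0 < U) (hm0 : U ≤ |(u m0 : ℝ)|) (c : I → ℝ) (r eta : ℝ)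
    (hr : 0 ≤ r) (heta : 0 ≤ eta) :
    (Set.ncard {A : I → ℤ | (∀ m, |(A m : ℝ) - c m| ≤ r) ∧ (∀ m, (Q : ℤ) ∣ A m - A0 m) ∧
      ((W : ℤ) ^ s) ∣ ∑ m, A m * u m ∧ |((∑ m, A m * u m : ℤ) : ℝ)| ≤ eta} : ℝ) ≤
      (((W ^ s / Q : ℕ) : ℝ)) ^ (Fintype.card I - 1) *
        (2 * r / (W : ℝ) ^ s + 1) ^ (Fintype.card I - 1) *
        (2 * eta / (U * (W : ℝ) ^ s) + 1) := by
  classical
  set S : Set (I → ℤ) := {A : I → ℤ | (∀ m, |(A m : ℝ) - c m| ≤ r) ∧
    (∀ m, (Q : ℤ) ∣ A m - A0 m) ∧ ((W : ℤ) ^ s) ∣ ∑ m, A m * u m ∧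
    |((∑ m, A m * u m : ℤ) : ℝ)| ≤ eta} with hS
  have hM0 : 0 < W ^ s := pow_pos hW s
  obtain ⟨N, hN⟩ := hQ
  have hQ0 : 0 < Q := Nat.pos_of_ne_zero (by rintro rfl; rw [zero_mul] at hN; omega)
  have hN0 : 0 < N := Nat.pos_of_ne_zero (by rintro rfl; rw [mul_zero] at hN; omega)
  have hdiv : W ^ s / Q = N := by rw [hN]; exact Nat.mul_div_cancel_left _ hQ0
  rw [hdiv]
  have hWn : (W : ℤ) ^ s = (Q : ℤ) * N := by exact_mod_cast hN
  have hWnR : (W : ℝ) ^ s = ((W ^ s : ℕ) : ℝ) := by push_cast; rfl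
  have hfin : S.Finite := by
    refine (Set.Finite.pi' (fun m : I => (ol_coord (c m) r hr 1 le_rfl 0).1)).subset ?_
    intro A hA m
    exact ⟨hA.1 m, by simp⟩
  rcases S.eq_empty_or_nonempty with he | ⟨A1, hA1⟩
  · rw [he]
    simp only [Set.ncard_empty, Nat.cast_zero]
    positivity
  set sF : Finset (I → ℤ) := hfin.toFinset with hs
  have hmem : ∀ A, A ∈ sF ↔ A ∈ S := fun A => by rw [hs, Set.Finite.mem_toFinset]
  rw [Set.ncard_eq_toFinset_card _ hfin, ← hs]
  let ρ : (I → ℤ) → (I → ℤ) := fun A m => ((A m - A0 m) / Q) % N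
  set b : ℤ := ∑ m, ((A1 m - A0 m) / Q) * u m with hb
  set TS : Set (I → ℤ) := {R : I → ℤ | (∀ i, 0 ≤ R i ∧ R i < N) ∧
    (N : ℤ) ∣ ∑ i, R i * u i - b} with hT
  have hTfin : TS.Finite := by
    refine (Set.Finite.pi' (fun _ : I => Set.finite_Ico (0 : ℤ) N)).subset ?_
    intro R hR i
    exact ⟨(hR.1 i).1, (hR.1 i).2⟩
  have hcard1 : 0 < Fintype.card I := Fintype.card_pos_iff.2 ⟨m0⟩
  have hTcard : TS.ncard ≤ N ^ (Fintype.card I - 1) := by
    have hv : ∃ c' : I → ℤ, IsCoprime (∑ i, c' i * u i) (N : ℤ) := by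
      obtain ⟨c', hc'⟩ := hu
      refine ⟨c', ?_⟩
      have h2 : IsCoprime (∑ i, c' i * u i) ((W : ℤ) ^ s) := hc'.pow_right
      refine h2.of_isCoprime_of_dvd_right ?_
      rw [hWn]
      exact dvd_mul_left _ _
    have h2 := oli_card N hN0 u hv b
    have hc : Fintype.card I = (Fintype.card I - 1) + 1 := by omega
    have h3 : TS.ncard * N ≤ N ^ (Fintype.card I - 1) * N := by
      rw [← pow_succ, ← hc]; exact h2
    exact Nat.le_of_mul_le_mul_right h3 hN0
  have himg : sF.image ρ ⊆ hTfin.toFinset := by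
    intro R hR
    rw [Finset.mem_image] at hR
    obtain ⟨A, hA, rfl⟩ := hR
    rw [Set.Finite.mem_toFinset]
    rw [hmem] at hA
    have hNZ : (0 : ℤ) < N := by exact_mod_cast hN0
    refine ⟨fun i => ⟨Int.emod_nonneg _ hNZ.ne', Int.emod_lt_of_pos _ hNZ⟩, ?_⟩
    have hsub : ∑ m, A m * u m - ∑ m, A1 m * u m =
        Q * (∑ i, ((A i - A0 i) / Q) * u i - b) := by
      rw [hb, ← Finset.sum_sub_distrib, ← Finset.sum_sub_distrib, Finset.mul_sum]
      refine Finset.sum_congr rfl fun m _ => ?_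
      have e1 : (Q : ℤ) * ((A m - A0 m) / Q) = A m - A0 m := Int.mul_ediv_cancel' (hA.2.1 m)
      have e2 : (Q : ℤ) * ((A1 m - A0 m) / Q) = A1 m - A0 m := Int.mul_ediv_cancel' (hA1.2.1 m)
      calc A m * u m - A1 m * u m
          = ((A m - A0 m) - (A1 m - A0 m)) * u m := by ring
        _ = (Q * ((A m - A0 m) / Q) - Q * ((A1 m - A0 m) / Q)) * u m := by rw [e1, e2]
        _ = _ := by ring
    have hdvd : (Q : ℤ) * N ∣ Q * (∑ i, ((A i - A0 i) / Q) * u i - b) := by
      rw [← hsub, ← hWn]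
      exact dvd_sub hA.2.2.1 hA1.2.2.1
    have hQZ : (Q : ℤ) ≠ 0 := by exact_mod_cast hQ0.ne'
    have hdvd' : (N : ℤ) ∣ ∑ i, ((A i - A0 i) / Q) * u i - b :=
      (mul_dvd_mul_iff_left hQZ).mp hdvd
    have hdiff : (N : ℤ) ∣ ∑ i, ρ A i * u i - ∑ i, ((A i - A0 i) / Q) * u i := by
      rw [← Finset.sum_sub_distrib]
      refine Finset.dvd_sum fun i _ => ?_
      rw [← sub_mul]
      refine Dvd.dvd.mul_right ?_ _
      have : ρ A i - (A i - A0 i) / Q = -(N * (((A i - A0 i) / Q) / N)) := by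
        have := Int.emod_add_mul_ediv ((A i - A0 i) / Q) N
        simp only [ρ]
        linarith
      rw [this]
      exact (dvd_mul_right _ _).neg_right
    have := dvd_add hdiff hdvd'
    simpa using this
  have himgc : (sF.image ρ).card ≤ N ^ (Fintype.card I - 1) := by
    refine (Finset.card_le_card himg).trans ?_
    rw [← Set.ncard_eq_toFinset_card _ hTfin]
    exact hTcard
  set a3 : ℕ := ⌊(2 * r / ((W ^ s : ℕ) : ℝ) + 1) ^ (Fintype.card I - 1) *
    (2 * eta / (U * ((W ^ s : ℕ) : ℝ)) + 1)⌋₊ with ha3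
  have ha3' : (a3 : ℝ) ≤ (2 * r / ((W ^ s : ℕ) : ℝ) + 1) ^ (Fintype.card I - 1) *
    (2 * eta / (U * ((W ^ s : ℕ) : ℝ)) + 1) := Nat.floor_le (by positivity)
  have hfib : ∀ R ∈ sF.image ρ, (sF.filter fun A => ρ A = R).card ≤ a3 := by
    intro R _
    apply Nat.le_floor
    refine oli_fiber (W ^ s) hM0 u m0 U hU hm0 c r eta hr heta (fun m => A0 m + Q * R m)
      (sF.filter fun A => ρ A = R) ?_
    intro A hA
    rw [Finset.mem_filter, hmem] at hA
    refine ⟨hA.1.1, ?_, hA.1.2.2.2⟩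
    intro m
    have e1 : (Q : ℤ) * ((A m - A0 m) / Q) = A m - A0 m := Int.mul_ediv_cancel' (hA.1.2.1 m)
    have e2 : ρ A m = R m := congrFun hA.2 m
    have e3 := Int.emod_add_mul_ediv ((A m - A0 m) / Q) N
    have e4 : ((A m - A0 m) / Q) % N = R m := e2
    rw [e4] at e3
    push_cast
    rw [hWn]
    refine ⟨((A m - A0 m) / Q) / N, ?_⟩
    calc A m - (A0 m + Q * R m) = (A m - A0 m) - Q * R m := by ring
      _ = Q * ((A m - A0 m) / Q) - Q * R m := by rw [e1]
      _ = Q * (((A m - A0 m) / Q) - R m) := by ring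
      _ = Q * (N * (((A m - A0 m) / Q) / N)) := by
          congr 1
          linarith
      _ = _ := by ring
  have hmain := Finset.card_le_mul_card_image sF a3 hfib
  have h1 : (sF.card : ℝ) ≤ (a3 : ℝ) * (N : ℝ) ^ (Fintype.card I - 1) := by
    have : sF.card ≤ a3 * N ^ (Fintype.card I - 1) := hmain.trans (Nat.mul_le_mul_left _ himgc)
    exact_mod_cast this
  refine h1.trans ?_
  rw [hWnR]
  calc (a3 : ℝ) * (N : ℝ) ^ (Fintype.card I - 1) ≤
        ((2 * r / ((W ^ s : ℕ) : ℝ) + 1) ^ (Fintype.card I - 1) *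
        (2 * eta / (U * ((W ^ s : ℕ) : ℝ)) + 1)) * (N : ℝ) ^ (Fintype.card I - 1) :=
        mul_le_mul_of_nonneg_right ha3' (by positivity)
    _ = _ := by ring

end ConicHP
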