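import Pool.Agent.Lib.MP_e426f4_ag.C.Defs
import Pool.Agent.Lib.MP_e426f4_ag.G.Minors

/-! Module C-PT: the points of a class. -/

namespace ConicHP

open Finset GenHP Filter Topology

theorem mem_XX_bounds {n d : ℕ} (p : Par n d) (eps bet : ℝ) (w : ℕ) (hp : PV p eps bet w)
    (B : ℕ) (x : Fin (n + 1) → ℤ) (hx : x ∈ p.XX B) :
    ∀ i, |(x i : ℝ)| ≤ 2 * B ∧ (|p.xi i| = 1 → (B : ℝ) / 2 ≤ |(x i : ℝ)|) := by
  intro i
  have h1 := hx.1 i
  have hk1 := hp.kap_pos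
  have hk2 := hp.kap_le
  have hB : (0 : ℝ) ≤ B := by positivity
  have h2 : |(x i : ℝ) - B * p.xi i| ≤ 1 / 10 * B := by
    refine h1.trans (mul_le_mul_of_nonneg_right ?_ hB)
    split_ifs
    · exact hk2
    · nlinarith
  have h3 : |(B : ℝ) * p.xi i| = B * |p.xi i| := by
    rw [abs_mul, abs_of_nonneg hB]
  constructor
  · have h4 : |(x i : ℝ)| ≤ |(x i : ℝ) - B * p.xi i| + |(B : ℝ) * p.xi i| := by
      have := abs_add_le ((x i : ℝ) - B * p.xi i) (B * p.xi i)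
      simpa using this
    rw [h3] at h4
    have := mul_le_mul_of_nonneg_left (hp.xi_le i) hB
    linarith
  · intro h
    have h4 : |(B : ℝ) * p.xi i| ≤ |(x i : ℝ) - B * p.xi i| + |(x i : ℝ)| := by
      have := abs_sub_abs_le_abs_sub ((B : ℝ) * p.xi i) (x i)
      rw [abs_sub_comm] at this
      linarith
    rw [h3, h] at h4
    linarith

theorem dl_pos_of_mem_GG {n d : ℕ} (p : Par n d) (eps bet : ℝ) (w : ℕ) (hp : PV p eps bet w)
    (K : ℝ) (B : ℕ) (hB : 1 ≤ B) (x y : Fin (n + 1) → ℤ) (hx : x ∈ p.GG K B) (hy : y ∈ p.GG K B)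
    (h : x ≠ y) : 0 < dl x y := by
  refine dl_pos x y hx.2.1 hy.2.1 (Ne.symm h) ?_
  intro hyx
  obtain ⟨i, hi⟩ := hp.xi_eq
  have hB' : (1 : ℝ) ≤ B := by exact_mod_cast hB
  have hk1 := hp.kap_pos
  have hk2 := hp.kap_le
  have hk : (if i = p.j then p.kap else p.kap ^ 2) ≤ 1 / 10 := by
    split_ifs
    · exact hk2
    · nlinarith
  have h1 := (hx.1.1 i).trans (mul_le_mul_of_nonneg_right hk (by positivity))
  have h2 := (hy.1.1 i).trans (mul_le_mul_of_nonneg_right hk (by positivity))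
  rw [hyx] at h2
  rw [abs_le] at h1 h2
  simp only [Pi.neg_apply, Int.cast_neg] at h2
  rcases (abs_eq (by norm_num : (0 : ℝ) ≤ 1)).mp hi with h3 | h3 <;> rw [h3] at h1 h2 <;>
    linarith [h1.1, h1.2, h2.1, h2.2]

end ConicHP
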