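import Pool.Agent.Lib.MP_e426f4_ag.C.Defs
import Pool.Agent.Lib.MP_e426f4_ag.C.Ev
import Pool.Agent.Lib.MP_e426f4_ag.C.Points
import Pool.Agent.Lib.MP_e426f4_ag.C.Lin
import Pool.Agent.Lib.MP_e426f4_ag.C.Heights
import Pool.Agent.Lib.MP_e426f4_ag.C.OmegaLin
import Pool.Agent.Lib.MP_e426f4_ag.G.Basic
import Pool.Agent.Lib.MP_e426f4_ag.G.Alg
import Pool.Agent.Lib.MP_e426f4_ag.G.Minors

/-! Module C-LS: local triples over few points are few. -/

namespace ConicHP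

open Finset GenHP Filter Topology

variable {S : Type*} [Fintype S]

theorem xx_unimod {n d : ℕ} (p : Par n d) (eps bet : ℝ) (w : ℕ) (hp : PV p eps bet w) (B : ℕ)
    (x : Fin (n + 1) → ℤ) (hx : x ∈ p.XX B) :
    ∃ c : Fin (n + 1) → ℤ, IsCoprime (∑ i, c i * x i) (p.W : ℤ) := by
  have h1 : ∀ i, ∃ u : ℤ, x i - p.x0 i = p.P * u := fun i => hx.2 i
  choose u hu using h1
  obtain ⟨c, hc⟩ := hp.hens.2.2.2.1 u
  refine ⟨c, ?_⟩
  have : (fun i => c i * (p.x0 i + (p.P : ℤ) * u i)) = fun i => c i * x i := by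
    funext i
    rw [← hu i]; ring
  rw [this] at hc
  exact hc

section MAIN
variable (c : CPar S) (eps bet : ℝ) (w : ℕ) (hc : c.Valid eps bet w)
include hc

/-- the local count over one point of one fibre -/
theorem loc_one_le (th : ℝ) (hth : 0 < th) (s : ℕ) (hs : c.p.Q ∣ c.p.W ^ s) :
    ∀ᶠ H : ℝ in atTop, ∀ i, i < JJ H → ∀ x ∈ c.p.XX (c.BB H),
      (Set.ncard {A : Idx 2 2 × S → ℤ | A ∈ c.Cl c.p.rho H ∧
          ((c.p.W : ℤ) ^ s) ∣ F (ev A (c.vv H i)) x ∧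
          |((F (ev A (c.vv H i)) x : ℤ) : ℝ)| ≤ th * c.HH H * (c.BB H : ℝ) ^ 2} : ℝ) ≤
        (16 * Fintype.card S * th * c.p.Q / (c.p.rho * (c.p.W : ℝ) ^ s)) * c.Xn H := by
  classical
  have hp := hc.pv
  set M : ℝ := (c.p.W : ℝ) ^ s with hM
  have hW : 0 < c.p.W := hp.W_pos
  have hWR : (0 : ℝ) < c.p.W := by exact_mod_cast hW
  have hMpos : 0 < M := by positivity
  have hrho : 0 < c.p.rho := hp.rho_pos
  have hQ : (0 : ℝ) < c.p.Q := by exact_mod_cast hp.Q_pos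
  have hS : 0 < Fintype.card S := card_pos c eps bet w hc
  have hSr : (0 : ℝ) < Fintype.card S := by exact_mod_cast hS
  have hMM : 0 < MM S := by
    unfold MM
    rw [Fintype.card_prod]
    exact Nat.mul_pos (NN_pos 2 2) hS
  obtain ⟨N1, hN1⟩ : ∃ N1, MM S = N1 + 1 := ⟨MM S - 1, by omega⟩
  have hlarge : ∀ᶠ H : ℝ in atTop,
      max (M * (4 * MM S) / (2 * c.p.rho)) (M / (8 * Fintype.card S * th)) ≤ (H : ℝ) :=
    eventually_ge_atTop _
  filter_upwards [(BB_atTop c eps bet w hc).eventually_ge_atTop 1, VV_pos c eps bet w hc,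
    vv_ge c eps bet w hc, hlarge, eventually_gt_atTop (0 : ℝ)] with H hB1 hV hvge hH hHpos
  intro i hi x hx
  have hBpos : (0 : ℝ) < c.BB H := by exact_mod_cast hB1
  have hV1 : (1 : ℝ) ≤ c.VV H := by exact_mod_cast hV
  have hVpos : (0 : ℝ) < c.VV H := by linarith
  have hHH : c.HH H = Fintype.card S * c.VV H * H := rfl
  have hHHpos : 0 < c.HH H := by rw [hHH]; positivity
  obtain ⟨i0, hi0⟩ := hp.xi_eq
  have hxi0 := (mem_XX_bounds c.p eps bet w hp (c.BB H) x hx i0).2 hi0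
  set v := c.vv H i with hv
  have hvp : PrimS v := hc.fam.prim _ _
  obtain ⟨s0, hs0, hs01⟩ := exists_argmax v hvp
  have hvs : (c.VV H : ℝ) / 2 ≤ |(v s0 : ℝ)| := hvge i hi s0 hs0
  -- the vector of the linear condition
  set u : Idx 2 2 × S → ℤ := fun m => mon x m.1.1 * v m.2 with hu
  have huA : ∀ A : Idx 2 2 × S → ℤ, F (ev A v) x = ∑ m, A m * u m := fun A => F_ev A v x
  have hucop : ∃ b : Idx 2 2 × S → ℤ, IsCoprime (∑ m, b m * u m) (c.p.W : ℤ) := by
    obtain ⟨b, hb⟩ := xx_unimod c.p eps bet w hp _ x hx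
    obtain ⟨a, ha⟩ := hvp
    refine ⟨fun m => T (fun _ : Fin 2 => b) m.1 * a m.2, ?_⟩
    rw [← huA, F_ev_tensor, ha, one_mul, F_T, Finset.prod_const]
    exact hb.pow_left
  have hm0 : (c.BB H : ℝ) ^ 2 * c.VV H / 8 ≤ |(u (mk fun _ => i0, s0) : ℝ)| := by
    have e1 : u (mk fun _ => i0, s0) = x i0 ^ 2 * v s0 := by
      simp only [hu]
      rw [mon_mk, Finset.prod_const]
      rfl
    rw [e1]
    push_cast
    rw [abs_mul, abs_pow]
    calc (c.BB H : ℝ) ^ 2 * c.VV H / 8 = ((c.BB H : ℝ) / 2) ^ 2 * (c.VV H / 2) := by ring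
      _ ≤ |(x i0 : ℝ)| ^ 2 * |(v s0 : ℝ)| :=
        mul_le_mul (pow_le_pow_left₀ (by positivity) hxi0 2) hvs (by positivity) (by positivity)
  have h1 := omega_lin_le c.p.W c.p.Q s hW hs c.A0 u hucop (mk fun _ => i0, s0)
    ((c.BB H : ℝ) ^ 2 * c.VV H / 8) (by positivity) hm0 (fun m => H * c.AC m) (c.p.rho * H)
    (th * c.HH H * (c.BB H : ℝ) ^ 2) (by positivity) (by positivity)
  have hset : {A : Idx 2 2 × S → ℤ | A ∈ c.Cl c.p.rho H ∧ ((c.p.W : ℤ) ^ s) ∣ F (ev A v) x ∧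
          |((F (ev A v) x : ℤ) : ℝ)| ≤ th * c.HH H * (c.BB H : ℝ) ^ 2} =
      {A : Idx 2 2 × S → ℤ | (∀ m, |(A m : ℝ) - H * c.AC m| ≤ c.p.rho * H) ∧
        (∀ m, (c.p.Q : ℤ) ∣ A m - c.A0 m) ∧
        ((c.p.W : ℤ) ^ s) ∣ ∑ m, A m * u m ∧
        |((∑ m, A m * u m : ℤ) : ℝ)| ≤ th * c.HH H * (c.BB H : ℝ) ^ 2} := by
    ext A
    simp only [CPar.Cl, Set.mem_ofPred_eq, huA A]
    tauto
  rw [hset]
  refine h1.trans ?_
  have hdiv : (((c.p.W ^ s / c.p.Q : ℕ) : ℝ)) = M / c.p.Q := by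
    rw [Nat.cast_div hs hQ.ne', hM]
    push_cast
    rfl
  rw [hdiv]
  have h16 : 2 * (th * c.HH H * (c.BB H : ℝ) ^ 2) /
      ((c.BB H : ℝ) ^ 2 * c.VV H / 8 * (c.p.W : ℝ) ^ s) = 16 * Fintype.card S * th * H / M := by
    rw [← hM, hHH]
    field_simp
    ring
  rw [h16, ← hM]
  have hNr : (0 : ℝ) < MM S := by exact_mod_cast hMM
  have hH1' : M * (4 * MM S) / (2 * c.p.rho) ≤ H := (le_max_left _ _).trans hH
  have hH2' : M / (8 * Fintype.card S * th) ≤ H := (le_max_right _ _).trans hH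
  rw [div_le_iff₀ (by positivity)] at hH1' hH2'
  have e1 : 2 * (c.p.rho * H) / M + 1 ≤ (1 + 1 / (4 * MM S)) * (2 * c.p.rho * H / M) := by
    have : 1 ≤ (1 / (4 * MM S)) * (2 * c.p.rho * H / M) := by
      rw [div_mul_div_comm, one_mul, le_div_iff₀ (by positivity)]
      linarith
    have h3 : 2 * (c.p.rho * H) / M = 2 * c.p.rho * H / M := by ring
    rw [h3]
    linarith
  have e2 : 16 * Fintype.card S * th * H / M + 1 ≤ 3 / 2 * (16 * Fintype.card S * th * H / M) := by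
    have : 2 ≤ 16 * Fintype.card S * th * H / M := by
      rw [le_div_iff₀ hMpos]
      linarith
    linarith
  have e4 : (1 + 1 / (4 * (MM S : ℝ))) ^ N1 ≤ 4 / 3 := by
    have h2 : 1 + 1 / (4 * (MM S : ℝ)) ≤ Real.exp (1 / (4 * (MM S : ℝ))) := by
      have := Real.add_one_le_exp (1 / (4 * (MM S : ℝ)))
      linarith
    have h3 : (1 + 1 / (4 * (MM S : ℝ))) ^ N1 ≤ Real.exp (1 / (4 * (MM S : ℝ))) ^ N1 :=
      pow_le_pow_left₀ (by positivity) h2 N1
    rw [← Real.exp_nat_mul] at h3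
    have h4 : (N1 : ℝ) * (1 / (4 * (MM S : ℝ))) ≤ 1 / 4 := by
      have h5 : (N1 : ℝ) ≤ MM S := by rw [hN1]; push_cast; linarith
      rw [mul_one_div, div_le_div_iff₀ (by positivity) (by norm_num)]
      linarith
    have h5 : Real.exp (1 / 4) ≤ 4 / 3 := by
      by_contra hcon
      push Not at hcon
      have h6 : Real.exp (1 / 4) ^ 4 = Real.exp 1 := by
        rw [← Real.exp_nat_mul]
        norm_num
      have h7 := Real.exp_one_lt_d9
      have h8 : (4 / 3 : ℝ) ^ 4 < Real.exp (1 / 4) ^ 4 :=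
        pow_lt_pow_left₀ hcon (by norm_num) (by norm_num)
      rw [h6] at h8
      norm_num at h8 h7
      linarith
    exact h3.trans ((Real.exp_le_exp.2 h4).trans h5)
  have e3 : (2 * (c.p.rho * H) / M + 1) ^ N1 ≤ 4 / 3 * (2 * c.p.rho * H / M) ^ N1 := by
    calc (2 * (c.p.rho * H) / M + 1) ^ N1 ≤
        ((1 + 1 / (4 * MM S)) * (2 * c.p.rho * H / M)) ^ N1 :=
          pow_le_pow_left₀ (by positivity) e1 N1
      _ = (1 + 1 / (4 * (MM S : ℝ))) ^ N1 * (2 * c.p.rho * H / M) ^ N1 := by rw [mul_pow]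
      _ ≤ 4 / 3 * (2 * c.p.rho * H / M) ^ N1 :=
          mul_le_mul_of_nonneg_right e4 (by positivity)
  have hN2 : Fintype.card (Idx 2 2 × S) - 1 = N1 := by
    have : Fintype.card (Idx 2 2 × S) = MM S := rfl
    omega
  rw [hN2]
  calc (M / c.p.Q) ^ N1 * (2 * (c.p.rho * H) / M + 1) ^ N1 *
        (16 * Fintype.card S * th * H / M + 1)
      ≤ (M / c.p.Q) ^ N1 * (4 / 3 * (2 * c.p.rho * H / M) ^ N1) *
        (3 / 2 * (16 * Fintype.card S * th * H / M)) := by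
        refine mul_le_mul (mul_le_mul_of_nonneg_left e3 (by positivity)) e2 (by positivity)
          (by positivity)
    _ = (16 * Fintype.card S * th * c.p.Q / (c.p.rho * M)) * c.Xn H := by
        unfold CPar.Xn
        rw [hN1, pow_succ (2 * c.p.rho * H / c.p.Q), div_pow, div_pow, div_pow]
        field_simp
        ring

theorem loc_pairs_le (th : ℝ) (hth : 0 < th) (s : ℕ) (hs : c.p.Q ∣ c.p.W ^ s) :
    ∀ᶠ H : ℝ in atTop, ∀ St : Set (Fin 3 → ℤ), St ⊆ c.p.XX (c.BB H) →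
      ((c.LP c.p.rho th s St H).ncard : ℝ) ≤
        (JJ H : ℝ) * (St.ncard : ℝ) *
          (16 * Fintype.card S * th * c.p.Q / (c.p.rho * (c.p.W : ℝ) ^ s)) * c.Xn H := by
  classical
  filter_upwards [loc_one_le c eps bet w hc th hth s hs] with H hone
  intro St hSt
  have hSfin : St.Finite := (XX_finite c (c.BB H)).subset hSt
  have hLfin := LP_finite c c.p.rho th s St hSfin H
  rw [Set.ncard_eq_toFinset_card _ hLfin, Set.ncard_eq_toFinset_card _ hSfin]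
  have hmap : ∀ q ∈ hLfin.toFinset, q.2 ∈ (range (JJ H)) ×ˢ hSfin.toFinset := by
    intro q hq
    rw [Set.Finite.mem_toFinset] at hq
    rw [Finset.mem_product, Finset.mem_range, Set.Finite.mem_toFinset]
    exact ⟨hq.2.1, hq.2.2.1⟩
  rw [Finset.card_eq_sum_card_fiberwise hmap]
  push_cast
  have hfib : ∀ z ∈ (range (JJ H)) ×ˢ hSfin.toFinset,
      ((hLfin.toFinset.filter (fun q => q.2 = z)).card : ℝ) ≤
      (16 * Fintype.card S * th * c.p.Q / (c.p.rho * (c.p.W : ℝ) ^ s)) * c.Xn H := by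
    rintro ⟨i, x⟩ hz
    rw [Finset.mem_product, Finset.mem_range, Set.Finite.mem_toFinset] at hz
    refine le_trans ?_ (hone i hz.1 x (hSt hz.2))
    have hfin : {A : Idx 2 2 × S → ℤ | A ∈ c.Cl c.p.rho H ∧
        ((c.p.W : ℤ) ^ s) ∣ F (ev A (c.vv H i)) x ∧
          |((F (ev A (c.vv H i)) x : ℤ) : ℝ)| ≤ th * c.HH H * (c.BB H : ℝ) ^ 2}.Finite :=
      (Cl_finite c c.p.rho H).subset fun A hA => hA.1
    rw [Set.ncard_eq_toFinset_card _ hfin]
    refine Nat.cast_le.2 ?_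
    refine Finset.card_le_card_of_injOn (fun q => q.1) ?_ ?_
    · intro q hq
      rw [Finset.mem_coe, Finset.mem_filter, Set.Finite.mem_toFinset] at hq
      rw [Finset.mem_coe, Set.Finite.mem_toFinset]
      obtain ⟨⟨h1, h2, h3, h4, h5⟩, h6⟩ := hq
      have e1 : q.2.1 = i := by rw [h6]
      have e2 : q.2.2 = x := by rw [h6]
      rw [e1, e2] at h4 h5
      exact ⟨h1, h4, h5⟩
    · intro q hq q' hq' h
      rw [Finset.mem_coe, Finset.mem_filter] at hq hq'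
      exact Prod.ext h (hq.2.trans hq'.2.symm)
  refine (Finset.sum_le_sum hfib).trans ?_
  rw [Finset.sum_const, nsmul_eq_mul, Finset.card_product, Finset.card_range]
  push_cast
  exact le_of_eq (by ring)

end MAIN

end ConicHP
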