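import Pool.Agent.Lib.MP_e426f4_ag.C.Ev
import Pool.Agent.Lib.MP_e426f4_ag.C.Points
import Pool.Agent.Lib.MP_e426f4_ag.C.Heights
import Pool.Agent.Lib.MP_e426f4_ag.C.LocPairs
import Pool.Agent.Lib.MP_e426f4_ag.G.FewNotGood

/-! C-BPa: points that are not well-rounded contribute little. -/

namespace ConicHP

open Finset GenHP Filter Topology

variable {S : Type*} [Fintype S]

theorem bp_XX_sub_boxn (c : CPar S) (eps bet : ℝ) (w : ℕ) (hc : c.Valid eps bet w)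
    (B : ℕ) (x : Fin 3 → ℤ) (hx : x ∈ c.p.XX B) : x ∈ boxn 2 (2 * B) := by
  rw [mem_boxn]
  intro i
  have h1 := (mem_XX_bounds c.p eps bet w hc.pv B x hx i).1
  have h2 : ((|x i| : ℤ) : ℝ) ≤ ((2 * B : ℕ) : ℝ) := by
    push_cast
    exact h1
  exact_mod_cast h2

/-- the comparison of the error term with the main term -/
theorem bp_few_points_le (c : CPar S) (eps bet : ℝ) (w : ℕ) (hc : c.Valid eps bet w) :
    ∃ e : ℝ, 0 < e ∧ ∀ th : ℝ, 0 < th → ∀ s : ℕ, c.p.Q ∣ c.p.W ^ s →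
      ∀ᶠ H : ℝ in atTop, ∀ St : Set (Fin 3 → ℤ), St ⊆ c.p.XX (c.BB H) →
        (St.ncard : ℝ) ≤ e * (c.BB H : ℝ) ^ 3 →
        ((c.LP c.p.rho th s St H).ncard : ℝ) ≤ eps / 2 * c.MT th s H := by
  have hp := hc.pv
  have hg : 0 < |c.p.gam| := lt_of_lt_of_le hp.bet_pos hp.gam_ge
  have hP : (0 : ℝ) < c.p.P := by exact_mod_cast hp.P_pos
  have hQ : (0 : ℝ) < c.p.Q := by exact_mod_cast hp.Q_pos
  have hW : (0 : ℝ) < c.p.W := by exact_mod_cast hp.W_pos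
  have hS : (0 : ℝ) < Fintype.card S := by exact_mod_cast card_pos c eps bet w hc
  have hk := hp.kap_pos
  have hr := hp.rho_pos
  have he := hp.eps_pos
  refine ⟨eps * c.p.kap ^ 4 * c.p.rho / (4 * Fintype.card S * |c.p.gam| * (c.p.P : ℝ) ^ 3),
    by positivity, ?_⟩
  intro th hth s hs
  filter_upwards [loc_pairs_le c eps bet w hc th hth s hs, eventually_ge_atTop 0]
    with H hH hH0 St hSt hcard
  refine (hH St hSt).trans ?_
  have hX : 0 ≤ c.Xn H := by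
    rw [CPar.Xn]
    positivity
  have h1 : eps / 2 * c.MT th s H =
      (JJ H : ℝ) * (eps * c.p.kap ^ 4 * c.p.rho / (4 * Fintype.card S * |c.p.gam| * (c.p.P : ℝ) ^ 3) *
        (c.BB H : ℝ) ^ 3) *
        (16 * Fintype.card S * th * c.p.Q / (c.p.rho * (c.p.W : ℝ) ^ s)) * c.Xn H := by
    rw [CPar.MT, CPar.LT, Vol]
    field_simp
    ring
  rw [h1]
  apply mul_le_mul_of_nonneg_right _ hX
  apply mul_le_mul_of_nonneg_right _ (by positivity)
  exact mul_le_mul_of_nonneg_left hcard (Nat.cast_nonneg _)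

/-- C-BPa (BadA.lean) -/
theorem bad_not_good (c : CPar S) (eps bet : ℝ) (w : ℕ) (hc : c.Valid eps bet w) :
    ∃ K0 : ℝ, 1 ≤ K0 ∧ ∀ K, K0 ≤ K → ∀ th : ℝ, 0 < th → ∀ s : ℕ, c.p.Q ∣ c.p.W ^ s →
      ∀ᶠ H : ℝ in atTop,
        ((c.LP c.p.rho th s {x | x ∈ c.p.XX (c.BB H) ∧ ¬ Good K (c.BB H) x} H).ncard : ℝ) ≤
          eps / 2 * c.MT th s H := by
  obtain ⟨e, he, hfew⟩ := bp_few_points_le c eps bet w hc
  obtain ⟨K0, hK0, hK⟩ := few_not_good 2 le_rfl e he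
  refine ⟨K0, hK0, ?_⟩
  intro K hKK th hth s hs
  filter_upwards [hfew th hth s hs, (BB_atTop c eps bet w hc).eventually (eventually_ge_atTop 1)]
    with H hH hB1
  refine hH _ (fun x hx => hx.1) ?_
  refine le_trans ?_ (hK K hKK (c.BB H) hB1)
  have hfin : {x : Fin 3 → ℤ | x ∈ boxn 2 (2 * c.BB H) ∧ ¬ Good K (c.BB H) x}.Finite :=
    (boxn 2 (2 * c.BB H)).finite_toSet.subset fun x hx => hx.1
  have hsub : {x | x ∈ c.p.XX (c.BB H) ∧ ¬ Good K (c.BB H) x} ⊆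
      {x : Fin 3 → ℤ | x ∈ boxn 2 (2 * c.BB H) ∧ ¬ Good K (c.BB H) x} :=
    fun x hx => ⟨bp_XX_sub_boxn c eps bet w hc _ x hx.1, hx.2⟩
  exact_mod_cast Set.ncard_le_ncard hsub hfin

end ConicHP
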