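import Pool.Agent.Lib.MP_e426f4_ag.C.Defs
import Pool.Agent.Lib.MP_e426f4_ag.M.ClassCard

/-! # CONIC, module C-CU: number of vectors of forms in a class -/

namespace ConicHP

open Finset GenHP Filter Topology

variable {S : Type*} [Fintype S]

theorem card_Cl (c : CPar S) (eps bet : ℝ) (w : ℕ) (hc : c.Valid eps bet w)
    (r eps' : ℝ) (hr : 0 < r) (he : 0 < eps') :
    ∀ᶠ H : ℝ in atTop,
      (1 - eps') * (2 * r * H / c.p.Q) ^ MM S ≤ ((c.Cl r H).ncard : ℝ) ∧
      ((c.Cl r H).ncard : ℝ) ≤ (1 + eps') * (2 * r * H / c.p.Q) ^ MM S := by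
  classical
  let e := Fintype.equivFin (Idx 2 2 × S)
  filter_upwards [class_card (fun k => c.AC (e.symm k)) (fun k => c.A0 (e.symm k)) c.p.Q
    hc.pv.Q_pos r eps' hr he] with H hH
  have hset : {A : Fin (Fintype.card (Idx 2 2 × S)) → ℤ |
      (∀ t, |(A t : ℝ) - H * c.AC (e.symm t)| ≤ r * H) ∧
        ∀ t, (c.p.Q : ℤ) ∣ A t - c.A0 (e.symm t)} =
      (fun (A : Idx 2 2 × S → ℤ) k => A (e.symm k)) '' c.Cl r H := by
    ext A
    constructor
    · rintro ⟨h1, h2⟩
      refine ⟨fun i => A (e i), ⟨fun i => ?_, fun i => ?_⟩, ?_⟩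
      · have := h1 (e i)
        simpa using this
      · have := h2 (e i)
        simpa using this
      · funext k
        simp
    · rintro ⟨A', ⟨h1, h2⟩, rfl⟩
      exact ⟨fun k => h1 (e.symm k), fun k => h2 (e.symm k)⟩
  rw [hset, Set.ncard_image_of_injective, Fintype.card_fin] at hH
  · exact hH
  · intro A A' hAA
    funext i
    have := congrFun hAA (e i)
    simpa using this

end ConicHP
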