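import Pool.Agent.Lib.MP_e426f4_ag.C.Defs
import Pool.Agent.Lib.MP_e426f4_ag.G.Alg
import Pool.Agent.Lib.MP_e426f4_ag.G.PadicCount

/-! Module C-NL: local count of points for a fixed form. -/

namespace ConicHP

open Finset GenHP

theorem nloc {n d : ℕ} (p : Par n d) (eps bet : ℝ) (w : ℕ) (hp : PV p eps bet w) (th : ℝ)
    (hth : 0 < th)
    (hth2 : th ≤ p.kap * bet / 4) (s : ℕ) (hs : p.Q ∣ p.W ^ s) (q : ℕ) (hq : 0 < q)
    (hqW : Nat.Coprime q p.W) :
    ∃ B0 : ℕ, ∀ B : ℕ, B0 ≤ B → ∀ H : ℝ, 0 < H → ∀ A : Idx n d → ℤ,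
      (∀ m, |(A m : ℝ) - H * p.Ainf m| ≤ 3 * p.rho * H) → (∀ m, (p.Q : ℤ) ∣ A m - p.A0 m) →
      ∀ r : Fin (n + 1) → ℤ,
      (1 - eps) * (Vol n p.gam p.kap th B * p.Q / ((p.P : ℝ) ^ (n + 1) * (p.W : ℝ) ^ s)) / (q : ℝ) ^ (n + 1) ≤
        (Set.ncard {x : Fin (n + 1) → ℤ | x ∈ p.XX B ∧ ((p.W : ℤ) ^ s) ∣ F A x ∧
          |((F A x : ℤ) : ℝ)| ≤ th * H * (B : ℝ) ^ d ∧ ∀ i, (q : ℤ) ∣ x i - r i} : ℝ) ∧
      (Set.ncard {x : Fin (n + 1) → ℤ | x ∈ p.XX B ∧ ((p.W : ℤ) ^ s) ∣ F A x ∧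
          |((F A x : ℤ) : ℝ)| ≤ th * H * (B : ℝ) ^ d ∧ ∀ i, (q : ℤ) ∣ x i - r i} : ℝ) ≤
        (1 + eps) * (Vol n p.gam p.kap th B * p.Q / ((p.P : ℝ) ^ (n + 1) * (p.W : ℝ) ^ s)) / (q : ℝ) ^ (n + 1) := by
  classical
  obtain ⟨M, hM⟩ : ∃ M : ℕ, M = p.W ^ s := ⟨_, rfl⟩
  have hMpos : 0 < M := by rw [hM]; exact pow_pos hp.W_pos s
  have hMz : ((p.W : ℤ) ^ s) = (M : ℤ) := by rw [hM]; push_cast; rfl
  have hMr : ((p.W : ℝ) ^ s) = (M : ℝ) := by rw [hM]; push_cast; rfl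
  have hPM : p.P ∣ M := (hp.hens.1).trans (hM ▸ hs)
  have hPMz : (p.P : ℤ) ∣ (M : ℤ) := Int.natCast_dvd_natCast.2 hPM
  have hcop : IsCoprime (M : ℤ) (q : ℤ) := by
    rw [Nat.isCoprime_iff_coprime, hM]
    exact (Nat.Coprime.pow_right s hqW).symm
  have hMq1 : 1 ≤ M * q := Nat.mul_pos hMpos hq
  obtain ⟨B0, hB0⟩ := hp.rc th hth hth2 (M * q) hMq1
  refine ⟨B0, fun B hB H hH A hA hAQ r => ?_⟩
  have hpc := padic_count p.P p.Q p.W hp.W_pos hp.P_pos p.A0 p.x0 hp.hens s hs A hAQ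
  simp only [hMz] at hpc ⊢
  obtain ⟨RR, hRR⟩ : ∃ RR : Set (Fin (n + 1) → ℤ), RR = {r : Fin (n + 1) → ℤ | (∀ i, 0 ≤ r i ∧ r i < (M : ℤ)) ∧
      (∀ i, (p.P : ℤ) ∣ r i - p.x0 i) ∧ (M : ℤ) ∣ F A r} := ⟨_, rfl⟩
  rw [← hRR, ← hM] at hpc
  have hRRfin : RR.Finite := by
    refine finite_of_abs_le RR M ?_
    intro x hx i
    rw [hRR] at hx
    have h1 := hx.1 i
    rw [abs_le]
    constructor
    · have : (0 : ℝ) ≤ (x i : ℝ) := by exact_mod_cast h1.1
      have h2 : (0 : ℝ) ≤ M := by positivity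
      linarith
    · exact_mod_cast h1.2.le
  obtain ⟨a, b, hab⟩ := hcop
  -- CRT
  let ρ : (Fin (n + 1) → ℤ) → (Fin (n + 1) → ℤ) := fun u i => u i + a * M * (r i - u i)
  have hρ : ∀ u x : Fin (n + 1) → ℤ, (∀ i, ((M * q : ℕ) : ℤ) ∣ x i - ρ u i) ↔
      (∀ i, (M : ℤ) ∣ x i - u i) ∧ (∀ i, (q : ℤ) ∣ x i - r i) := by
    intro u x
    constructor
    · intro h
      constructor
      · intro i
        have h1 : (M : ℤ) ∣ x i - ρ u i := (Dvd.intro _ (by push_cast; rfl)).trans (h i)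
        have h2 : x i - u i = (x i - ρ u i) + M * (a * (r i - u i)) := by
          simp only [ρ]; ring
        rw [h2]
        exact dvd_add h1 (Dvd.intro _ rfl)
      · intro i
        have h1 : (q : ℤ) ∣ x i - ρ u i := (Dvd.intro_left _ (by push_cast; rfl)).trans (h i)
        have h2 : x i - r i = (x i - ρ u i) + q * (b * (u i - r i)) := by
          simp only [ρ]
          linear_combination (r i - u i) * hab
        rw [h2]
        exact dvd_add h1 (Dvd.intro _ rfl)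
    · rintro ⟨h1, h2⟩ i
      push_cast
      apply IsCoprime.mul_dvd ⟨a, b, hab⟩
      · have h3 : x i - ρ u i = (x i - u i) - M * (a * (r i - u i)) := by
          simp only [ρ]; ring
        rw [h3]
        exact dvd_sub (h1 i) (Dvd.intro _ rfl)
      · have h3 : x i - ρ u i = (x i - r i) - q * (b * (u i - r i)) := by
          simp only [ρ]
          linear_combination -(r i - u i) * hab
        rw [h3]
        exact dvd_sub (h2 i) (Dvd.intro _ rfl)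
  obtain ⟨Z, hZ⟩ : ∃ Z : Set (Fin (n + 1) → ℤ), Z = {x : Fin (n + 1) → ℤ | x ∈ p.XX B ∧ (M : ℤ) ∣ F A x ∧
          |((F A x : ℤ) : ℝ)| ≤ th * H * (B : ℝ) ^ d ∧ ∀ i, (q : ℤ) ∣ x i - r i} := ⟨_, rfl⟩
  rw [← hZ]
  have hZfin : Z.Finite := (GenHP.XX_finite p B).subset fun x hx => by rw [hZ] at hx; exact hx.1
  let f : (Fin (n + 1) → ℤ) → (Fin (n + 1) → ℤ) := fun x i => x i % M
  have hMz0 : (M : ℤ) ≠ 0 := by exact_mod_cast hMpos.ne'
  have hMzpos : (0 : ℤ) < M := by exact_mod_cast hMpos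
  have hf : ∀ x ∈ hZfin.toFinset, f x ∈ hRRfin.toFinset := by
    intro x hx
    rw [Set.Finite.mem_toFinset] at hx ⊢
    rw [hZ] at hx
    rw [hRR]
    have hdvd : ∀ i, (M : ℤ) ∣ f x i - x i := by
      intro i
      have h1 := Int.mul_ediv_add_emod (x i) M
      refine ⟨-(x i / M), ?_⟩
      simp only [f]
      linear_combination h1
    refine ⟨fun i => ⟨Int.emod_nonneg _ hMz0, Int.emod_lt_of_pos _ hMzpos⟩, ?_, ?_⟩
    · intro i
      have h1 : f x i - p.x0 i = (f x i - x i) + (x i - p.x0 i) := by ring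
      rw [h1]
      exact dvd_add (hPMz.trans (hdvd i)) (hx.1.2 i)
    · have h1 := F_congr_mod (M : ℤ) A A (f x) x (fun m => by simp) hdvd
      have h2 : F A (f x) = (F A (f x) - F A x) + F A x := by ring
      rw [h2]
      exact dvd_add h1 hx.2.1
  have hcard : Z.ncard = ∑ u ∈ hRRfin.toFinset, (hZfin.toFinset.filter (fun x => f x = u)).card := by
    rw [Set.ncard_eq_toFinset_card Z hZfin]
    exact Finset.card_eq_sum_card_fiberwise hf
  have hfib : ∀ u ∈ hRRfin.toFinset, (((hZfin.toFinset.filter (fun x => f x = u)).card : ℕ) : ℝ) =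
      (Set.ncard {x : Fin (n + 1) → ℤ | x ∈ Reg p.xi p.j p.kap B ∧ (∀ i, ((M * q : ℕ) : ℤ) ∣ x i - ρ u i) ∧
          |((F A x : ℤ) : ℝ)| ≤ th * H * (B : ℝ) ^ d} : ℝ) := by
    intro u hs
    rw [Set.Finite.mem_toFinset, hRR] at hs
    congr 1
    rw [← Set.ncard_coe_finset]
    congr 1
    ext x
    rw [Finset.mem_coe, Finset.mem_filter, Set.Finite.mem_toFinset, hZ]
    simp only [Set.mem_ofPred_eq]
    rw [hρ u x]
    have hfx : f x = u ↔ ∀ i, (M : ℤ) ∣ x i - u i := by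
      constructor
      · rintro h i
        rw [← h]
        have h1 := Int.mul_ediv_add_emod (x i) M
        refine ⟨x i / M, ?_⟩
        simp only [f]
        linear_combination -h1
      · intro h
        funext i
        simp only [f]
        obtain ⟨k, hk⟩ := h i
        have h1 : x i = u i + M * k := by linarith
        rw [h1, Int.add_mul_emod_self_left]
        exact Int.emod_eq_of_lt (hs.1 i).1 (hs.1 i).2
    constructor
    · rintro ⟨⟨h1, h2, h3, h4⟩, h5⟩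
      exact ⟨h1.1, ⟨hfx.1 h5, h4⟩, h3⟩
    · rintro ⟨h1, ⟨h2, h3⟩, h4⟩
      refine ⟨⟨⟨h1, ?_⟩, ?_, h4, h3⟩, hfx.2 h2⟩
      · intro i
        have h5 : x i - p.x0 i = (x i - u i) + (u i - p.x0 i) := by ring
        rw [h5]
        exact dvd_add (hPMz.trans (h2 i)) (hs.2.1 i)
      · have h5 := F_congr_mod (M : ℤ) A A x u (fun m => by simp) h2
        have h6 : F A x = (F A x - F A u) + F A u := by ring
        rw [h6]
        exact dvd_add h5 hs.2.2
  have hRc : (RR.ncard : ℝ) * ((p.P : ℝ) ^ (n + 1) * M) = (M : ℝ) ^ (n + 1) * p.Q := by exact_mod_cast hpc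
  have hRcard : (hRRfin.toFinset.card : ℝ) = (RR.ncard : ℝ) := by
    rw [Set.ncard_eq_toFinset_card RR hRRfin]
  have hP0 : (0 : ℝ) < p.P := by exact_mod_cast hp.P_pos
  have hM0 : (0 : ℝ) < M := by exact_mod_cast hMpos
  have hq0 : (0 : ℝ) < q := by exact_mod_cast hq
  have hRc' : (RR.ncard : ℝ) = (M : ℝ) ^ (n + 1) * p.Q / ((p.P : ℝ) ^ (n + 1) * M) := by
    rw [eq_div_iff (by positivity)]
    exact hRc
  have hZc : (Z.ncard : ℝ) = ∑ u ∈ hRRfin.toFinset,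
      (((hZfin.toFinset.filter (fun x => f x = u)).card : ℕ) : ℝ) := by
    rw [hcard]
    push_cast
    rfl
  have hgam : D p.Ainf p.xi p.j = p.gam := rfl
  rw [hZc]
  constructor
  · have h1 : ∀ u ∈ hRRfin.toFinset, (1 - eps) * Vol n p.gam p.kap th B / ((M * q : ℕ) : ℝ) ^ (n + 1) ≤
        (((hZfin.toFinset.filter (fun x => f x = u)).card : ℕ) : ℝ) := by
      intro u hs
      rw [hfib u hs]
      have := (hB0 B hB H hH A hA (ρ u)).1
      rw [hgam] at this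
      exact this
    have h2 := Finset.card_nsmul_le_sum _ _ _ h1
    refine le_trans (le_of_eq ?_) h2
    rw [nsmul_eq_mul, hRcard, hRc', hMr]
    push_cast
    rw [mul_pow]
    field_simp
  · have h1 : ∀ u ∈ hRRfin.toFinset, (((hZfin.toFinset.filter (fun x => f x = u)).card : ℕ) : ℝ) ≤
        (1 + eps) * Vol n p.gam p.kap th B / ((M * q : ℕ) : ℝ) ^ (n + 1) := by
      intro u hs
      rw [hfib u hs]
      have := (hB0 B hB H hH A hA (ρ u)).2
      rw [hgam] at this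
      exact this
    have h2 := Finset.sum_le_card_nsmul _ _ _ h1
    refine h2.trans (le_of_eq ?_)
    rw [nsmul_eq_mul, hRcard, hRc', hMr]
    push_cast
    rw [mul_pow]
    field_simp

end ConicHP
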