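import Pool.Agent.Lib.MP_e426f4_ag.C.BadB
import Pool.Agent.Lib.MP_e426f4_ag.C.NLoc
import Pool.Agent.Lib.MP_e426f4_ag.C.CardCl

/-! C-BPc: points divisible by a medium prime contribute little. -/

namespace ConicHP

open Finset GenHP Filter Topology

variable {S : Type*} [Fintype S]

/-- counting in fibres -/
theorem bp_ncard_fiber_le {α β : Type*} (T : Set α) (hT : T.Finite) (g : α → β) (Y : Set β)
    (hY : Y.Finite) (hg : ∀ x ∈ T, g x ∈ Y) (C : ℝ)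
    (h : ∀ y ∈ Y, (Set.ncard {x | x ∈ T ∧ g x = y} : ℝ) ≤ C) :
    (T.ncard : ℝ) ≤ C * Y.ncard := by
  classical
  have h1 : T.ncard = ∑ y ∈ hY.toFinset, Set.ncard {x | x ∈ T ∧ g x = y} := by
    rw [Set.ncard_eq_toFinset_card T hT]
    rw [Finset.card_eq_sum_card_fiberwise (f := g) (t := hY.toFinset)]
    · refine Finset.sum_congr rfl fun y _ => ?_
      rw [← Set.ncard_coe_finset]
      congr 1
      ext x
      simp
    · intro x hx
      have hx' : x ∈ T := by simpa using hx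
      simpa using hg x hx'
  rw [h1, Set.ncard_eq_toFinset_card Y hY]
  push_cast
  calc (∑ y ∈ hY.toFinset, (Set.ncard {x | x ∈ T ∧ g x = y} : ℝ))
      ≤ ∑ y ∈ hY.toFinset, C := Finset.sum_le_sum fun y hy => h y (by simpa using hy)
    _ = _ := by rw [Finset.sum_const, nsmul_eq_mul, mul_comm]

theorem bp_coprime_of_gt (c : CPar S) (eps bet : ℝ) (w : ℕ) (hc : c.Valid eps bet w)
    (l : ℕ) (hl : l.Prime) (hlw : w < l) : Nat.Coprime l c.p.W := by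
  rw [Nat.Prime.coprime_iff_not_dvd hl]
  intro h
  have := (hc.pv.W_primes l hl).1 h
  omega

theorem bp_HH_pos (c : CPar S) (eps bet : ℝ) (w : ℕ) (hc : c.Valid eps bet w) :
    ∀ᶠ H : ℝ in atTop, 0 < c.HH H := by
  filter_upwards [VV_pos c eps bet w hc, eventually_gt_atTop 0] with H h1 h2
  have hS : (0 : ℝ) < Fintype.card S := by exact_mod_cast card_pos c eps bet w hc
  have hV : (0 : ℝ) < c.VV H := by exact_mod_cast h1
  rw [CPar.HH]
  positivity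

/-- C-BPc (BadC.lean) -/
theorem bad_medium_prime (c : CPar S) (eps bet : ℝ) (w : ℕ) (hc : c.Valid eps bet w)
    (z : ℕ) (th : ℝ) (hth : 0 < th) (hth2 : th ≤ c.p.kap * bet / 4) (s : ℕ)
    (hs : c.p.Q ∣ c.p.W ^ s) :
    ∀ᶠ H : ℝ in atTop,
      ((c.LP c.p.rho th s {x | x ∈ c.p.XX (c.BB H) ∧ ∃ l : ℕ, l.Prime ∧ w < l ∧ l ≤ z ∧
          ∀ i, (l : ℤ) ∣ x i} H).ncard : ℝ) ≤ 2 / w * c.MT th s H := by
  classical
  have hp := hc.pv
  have hg : 0 < |c.p.gam| := lt_of_lt_of_le hp.bet_pos hp.gam_ge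
  have hP : (0 : ℝ) < c.p.P := by exact_mod_cast hp.P_pos
  have hQ : (0 : ℝ) < c.p.Q := by exact_mod_cast hp.Q_pos
  have hW : (0 : ℝ) < c.p.W := by exact_mod_cast hp.W_pos
  have hk := hp.kap_pos
  have hr := hp.rho_pos
  have he := hp.eps_pos
  have he1 := hp.eps_le
  have hw2 := hp.w_two
  let PP : Finset ℕ := (Finset.Ioc w z).filter Nat.Prime
  have hall : ∀ l ∈ PP, ∀ᶠ H : ℝ in atTop, ∀ i, i < JJ H → ∀ A ∈ c.Cl c.p.rho H,
      (Set.ncard {x : Fin 3 → ℤ | x ∈ c.p.XX (c.BB H) ∧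
          ((c.p.W : ℤ) ^ s) ∣ F (ev A (c.vv H i)) x ∧
          |((F (ev A (c.vv H i)) x : ℤ) : ℝ)| ≤ th * c.HH H * (c.BB H : ℝ) ^ 2 ∧
          ∀ i, (l : ℤ) ∣ x i - 0} : ℝ) ≤
        (1 + eps) * c.LT th s H / (l : ℝ) ^ (2 + 1) := by
    intro l hl
    simp only [PP, Finset.mem_filter, Finset.mem_Ioc] at hl
    obtain ⟨B0, hB0⟩ := nloc c.p eps bet w hp th hth hth2 s hs l hl.2.pos
      (bp_coprime_of_gt c eps bet w hc l hl.2 hl.1.1)
    filter_upwards [bp_HH_pos c eps bet w hc, (BB_atTop c eps bet w hc).eventually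
      (eventually_ge_atTop B0), ev_near c eps bet w hc c.p.rho (by linarith)]
      with H hH hB hnear i hi A hA
    have h1 := hnear i hi A hA
    exact (hB0 (c.BB H) hB (c.HH H) hH (ev A (c.vv H i)) h1.1 h1.2 (fun _ => 0)).2
  have hall' := (Filter.eventually_all_finset PP).2 hall
  filter_upwards [hall', card_Cl c eps bet w hc c.p.rho eps hr he, eventually_ge_atTop 0]
    with H hH hCl hH0
  have hXn : 0 ≤ c.Xn H := by
    rw [CPar.Xn]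
    positivity
  have hCl2 : ((c.Cl c.p.rho H).ncard : ℝ) ≤ (1 + eps) * c.Xn H := hCl.2
  obtain ⟨T, hT⟩ : ∃ T, T = c.LT th s H := ⟨_, rfl⟩
  have hT0 : 0 ≤ T := by
    rw [hT, CPar.LT, Vol]
    positivity
  rw [← hT] at hH
  let U : ℕ → Set ((Idx 2 2 × S → ℤ) × ℕ × (Fin 3 → ℤ)) := fun l =>
    {q | q.1 ∈ c.Cl c.p.rho H ∧ q.2.1 < JJ H ∧ q.2.2 ∈ c.p.XX (c.BB H) ∧
      ((c.p.W : ℤ) ^ s) ∣ F (ev q.1 (c.vv H q.2.1)) q.2.2 ∧
      |((F (ev q.1 (c.vv H q.2.1)) q.2.2 : ℤ) : ℝ)| ≤ th * c.HH H * (c.BB H : ℝ) ^ 2 ∧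
      ∀ i, (l : ℤ) ∣ q.2.2 i - 0}
  have hUfin : ∀ l, (U l).Finite := fun l =>
    ((Cl_finite c c.p.rho H).prod ((Set.finite_lt_nat (JJ H)).prod
      (XX_finite c (c.BB H)))).subset fun q hq => ⟨hq.1, hq.2.1, hq.2.2.1⟩
  have hYfin : (c.Cl c.p.rho H ×ˢ {i : ℕ | i < JJ H}).Finite :=
    (Cl_finite c c.p.rho H).prod (Set.finite_lt_nat (JJ H))
  have hYcard : (((c.Cl c.p.rho H ×ˢ {i : ℕ | i < JJ H}).ncard : ℕ) : ℝ) =
      (c.Cl c.p.rho H).ncard * (JJ H : ℝ) := by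
    rw [Set.ncard_prod]
    have h1 : ({i : ℕ | i < JJ H}).ncard = JJ H := by
      have h2 : {i : ℕ | i < JJ H} = ((Finset.range (JJ H) : Finset ℕ) : Set ℕ) := by
        ext i
        simp
      rw [h2, Set.ncard_coe_finset, Finset.card_range]
    rw [h1]
    push_cast
    rfl
  have hU : ∀ l ∈ PP, ((U l).ncard : ℝ) ≤
      (1 + eps) * T / (l : ℝ) ^ (2 + 1) * ((c.Cl c.p.rho H).ncard * (JJ H : ℝ)) := by
    intro l hl
    rw [← hYcard]
    refine bp_ncard_fiber_le (U l) (hUfin l) (fun q => (q.1, q.2.1))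
      (c.Cl c.p.rho H ×ˢ {i : ℕ | i < JJ H}) hYfin
      (fun q hq => ⟨hq.1, hq.2.1⟩) _ ?_
    rintro ⟨A, i⟩ ⟨hA, hi⟩
    have hset : {q | q ∈ U l ∧ (q.1, q.2.1) = (A, i)} = (fun x : Fin 3 → ℤ => (A, i, x)) ''
        {x : Fin 3 → ℤ | x ∈ c.p.XX (c.BB H) ∧ ((c.p.W : ℤ) ^ s) ∣ F (ev A (c.vv H i)) x ∧
          |((F (ev A (c.vv H i)) x : ℤ) : ℝ)| ≤ th * c.HH H * (c.BB H : ℝ) ^ 2 ∧
          ∀ i, (l : ℤ) ∣ x i - 0} := by
      ext q
      constructor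
      · rintro ⟨⟨h1, h1', h2⟩, hq⟩
        obtain ⟨q1, q2, q3⟩ := q
        simp only [Prod.mk.injEq] at hq
        obtain ⟨rfl, rfl⟩ := hq
        exact ⟨q3, h2, rfl⟩
      · rintro ⟨x, hx, rfl⟩
        exact ⟨⟨hA, hi, hx⟩, rfl⟩
    rw [hset, Set.ncard_image_of_injective _
      (fun x y hxy => (Prod.mk.inj (Prod.mk.inj hxy).2).2)]
    exact hH l hl i hi A hA
  have hsub : c.LP c.p.rho th s {x | x ∈ c.p.XX (c.BB H) ∧ ∃ l : ℕ, l.Prime ∧ w < l ∧ l ≤ z ∧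
      ∀ i, (l : ℤ) ∣ x i} H ⊆
      ((PP.biUnion fun l => (hUfin l).toFinset :
        Finset ((Idx 2 2 × S → ℤ) × ℕ × (Fin 3 → ℤ))) :
        Set ((Idx 2 2 × S → ℤ) × ℕ × (Fin 3 → ℤ))) := by
    rintro q ⟨h1, h1', ⟨h2, l, hl, hwl, hlz, hlx⟩, h3, h4⟩
    rw [Finset.mem_coe, Finset.mem_biUnion]
    refine ⟨l, ?_, ?_⟩
    · simp only [PP, Finset.mem_filter, Finset.mem_Ioc]
      exact ⟨⟨hwl, hlz⟩, hl⟩
    · rw [Set.Finite.mem_toFinset]
      exact ⟨h1, h1', h2, h3, h4, fun i => by rw [sub_zero]; exact hlx i⟩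
  have h1 := Set.ncard_le_ncard hsub (Finset.finite_toSet _)
  rw [Set.ncard_coe_finset] at h1
  have h2 : ((PP.biUnion fun l => (hUfin l).toFinset).card : ℝ) ≤
      ∑ l ∈ PP, ((U l).ncard : ℝ) := by
    have h3 : ((PP.biUnion fun l => (hUfin l).toFinset).card : ℝ) ≤
        ∑ l ∈ PP, (((hUfin l).toFinset).card : ℝ) := by
      exact_mod_cast Finset.card_biUnion_le
    refine h3.trans (le_of_eq ?_)
    refine Finset.sum_congr rfl fun l _ => ?_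
    rw [Set.ncard_eq_toFinset_card _ (hUfin l)]
  have h4 : ∑ l ∈ PP, (1 : ℝ) / (l : ℝ) ^ (2 + 1) ≤ 1 / w := by
    refine le_trans ?_ (bp_sum_inv_pow_le 2 w z (by norm_num) (by omega))
    refine Finset.sum_le_sum_of_subset_of_nonneg (Finset.filter_subset _ _) ?_
    intro l _ _
    positivity
  have hMT : c.MT th s H = (JJ H : ℝ) * T * c.Xn H := by rw [CPar.MT, hT]
  rw [hMT]
  have hJ0 : (0 : ℝ) ≤ JJ H := Nat.cast_nonneg _
  have hw' : (0 : ℝ) < w := by exact_mod_cast (by omega : 0 < w)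
  calc ((c.LP c.p.rho th s {x | x ∈ c.p.XX (c.BB H) ∧ ∃ l : ℕ, l.Prime ∧ w < l ∧ l ≤ z ∧
          ∀ i, (l : ℤ) ∣ x i} H).ncard : ℝ)
      ≤ ((PP.biUnion fun l => (hUfin l).toFinset).card : ℝ) := by exact_mod_cast h1
    _ ≤ ∑ l ∈ PP, ((U l).ncard : ℝ) := h2
    _ ≤ ∑ l ∈ PP, (1 + eps) * T / (l : ℝ) ^ (2 + 1) * ((c.Cl c.p.rho H).ncard * (JJ H : ℝ)) :=
        Finset.sum_le_sum hU
    _ = (1 + eps) * T * ((c.Cl c.p.rho H).ncard * (JJ H : ℝ)) *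
        ∑ l ∈ PP, (1 : ℝ) / (l : ℝ) ^ (2 + 1) := by
        rw [Finset.mul_sum]
        refine Finset.sum_congr rfl fun l _ => ?_
        ring
    _ ≤ (1 + eps) * T * ((c.Cl c.p.rho H).ncard * (JJ H : ℝ)) * (1 / w) :=
        mul_le_mul_of_nonneg_left h4 (by positivity)
    _ ≤ (1 + eps) * T * (((1 + eps) * c.Xn H) * (JJ H : ℝ)) * (1 / w) := by
        apply mul_le_mul_of_nonneg_right _ (by positivity)
        apply mul_le_mul_of_nonneg_left _ (by positivity)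
        exact mul_le_mul_of_nonneg_right hCl2 hJ0
    _ = (1 + eps) ^ 2 * ((JJ H : ℝ) * T * c.Xn H * (1 / w)) := by ring
    _ ≤ 2 * ((JJ H : ℝ) * T * c.Xn H * (1 / w)) := by
        apply mul_le_mul_of_nonneg_right _ (by positivity)
        nlinarith
    _ = 2 / w * ((JJ H : ℝ) * T * c.Xn H) := by ring

end ConicHP
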