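import Pool.Agent.Lib.MP_e426f4_ag.C.BadC
import Pool.Agent.Lib.MP_e426f4_ag.G.Minors

/-! C-BP: all bad points. -/

namespace ConicHP

open Finset GenHP Filter Topology

variable {S : Type*} [Fintype S]

theorem bp_lt_of_dvd_XX (c : CPar S) (eps bet : ℝ) (w : ℕ) (hc : c.Valid eps bet w)
    (B : ℕ) (x : Fin 3 → ℤ) (hx : x ∈ c.p.XX B) (l : ℕ) (hl : l.Prime)
    (hlx : ∀ i, (l : ℤ) ∣ x i) : w < l := by
  by_contra hcon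
  push Not at hcon
  have hpW : l ∣ c.p.W := (hc.pv.W_primes l hl).2 hcon
  have hu : ∀ i, ∃ u : ℤ, x i = c.p.x0 i + c.p.P * u := by
    intro i
    obtain ⟨u, hu⟩ := hx.2 i
    exact ⟨u, by linarith⟩
  choose u hu using hu
  obtain ⟨k, hk⟩ := hc.pv.hens.2.2.2.1 u
  have h1 : (l : ℤ) ∣ ∑ i, k i * (c.p.x0 i + c.p.P * u i) := by
    refine Finset.dvd_sum fun i _ => ?_
    rw [← hu i]
    exact Dvd.dvd.mul_left (hlx i) _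
  have h2 : (l : ℤ) ∣ (c.p.W : ℤ) := by exact_mod_cast hpW
  have h3 := hk.isUnit_of_dvd' h1 h2
  rw [Int.isUnit_iff] at h3
  have := hl.two_le
  omega

/-- C-BP (BadPoints.lean) -/
theorem bad_points (c : CPar S) (eps bet : ℝ) (w : ℕ) (hc : c.Valid eps bet w) :
    ∃ K0 : ℝ, 1 ≤ K0 ∧ ∀ K, K0 ≤ K → ∀ th : ℝ, 0 < th → th ≤ c.p.kap * bet / 4 →
      ∀ s : ℕ, c.p.Q ∣ c.p.W ^ s → ∀ᶠ H : ℝ in atTop,
        ((c.LP c.p.rho th s (c.p.XX (c.BB H) \ c.GC K H) H).ncard : ℝ) ≤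
          (eps + 2 / w) * c.MT th s H := by
  obtain ⟨K0, hK0, hK⟩ := bad_not_good c eps bet w hc
  obtain ⟨z, hz⟩ := bad_large_prime c eps bet w hc
  refine ⟨K0, hK0, ?_⟩
  intro K hKK th hth hth2 s hs
  filter_upwards [hK K hKK th hth s hs, hz th hth s hs,
    bad_medium_prime c eps bet w hc z th hth hth2 s hs] with H h1 h2 h3
  have hXX := XX_finite c (c.BB H)
  have hsub : c.LP c.p.rho th s (c.p.XX (c.BB H) \ c.GC K H) H ⊆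
      (c.LP c.p.rho th s {x | x ∈ c.p.XX (c.BB H) ∧ ¬ Good K (c.BB H) x} H ∪
      c.LP c.p.rho th s {x | x ∈ c.p.XX (c.BB H) ∧ ∃ l : ℕ, l.Prime ∧ z < l ∧
        ∀ i, (l : ℤ) ∣ x i} H) ∪
      c.LP c.p.rho th s {x | x ∈ c.p.XX (c.BB H) ∧ ∃ l : ℕ, l.Prime ∧ w < l ∧ l ≤ z ∧
          ∀ i, (l : ℤ) ∣ x i} H := by
    rintro q ⟨hq1, hq1', ⟨hq2, hq3⟩, hq4, hq5⟩
    by_cases hgood : Good K (c.BB H) q.2.2
    · have hprim : ¬ Prim q.2.2 := fun h => hq3 ⟨hq2, h, hgood⟩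
      obtain ⟨l, hl, hlx⟩ := exists_prime_of_not_prim q.2.2 hprim
      have hwl := bp_lt_of_dvd_XX c eps bet w hc (c.BB H) q.2.2 hq2 l hl hlx
      rcases le_or_gt l z with hlz | hlz
      · exact Or.inr ⟨hq1, hq1', ⟨hq2, l, hl, hwl, hlz, hlx⟩, hq4, hq5⟩
      · exact Or.inl (Or.inr ⟨hq1, hq1', ⟨hq2, l, hl, hlz, hlx⟩, hq4, hq5⟩)
    · exact Or.inl (Or.inl ⟨hq1, hq1', ⟨hq2, hgood⟩, hq4, hq5⟩)
  have hf1 := LP_finite c c.p.rho th s {x | x ∈ c.p.XX (c.BB H) ∧ ¬ Good K (c.BB H) x}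
    (hXX.subset fun x hx => hx.1) H
  have hf2 := LP_finite c c.p.rho th s {x | x ∈ c.p.XX (c.BB H) ∧ ∃ l : ℕ, l.Prime ∧ z < l ∧
    ∀ i, (l : ℤ) ∣ x i} (hXX.subset fun x hx => hx.1) H
  have hf3 := LP_finite c c.p.rho th s {x | x ∈ c.p.XX (c.BB H) ∧ ∃ l : ℕ, l.Prime ∧ w < l ∧
    l ≤ z ∧ ∀ i, (l : ℤ) ∣ x i} (hXX.subset fun x hx => hx.1) H
  have h4 := Set.ncard_le_ncard hsub ((hf1.union hf2).union hf3)
  have h5 := h4.trans (Set.ncard_union_le _ _)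
  have h6 := h5.trans (Nat.add_le_add_right (Set.ncard_union_le _ _) _)
  have h7 : ((c.LP c.p.rho th s (c.p.XX (c.BB H) \ c.GC K H) H).ncard : ℝ) ≤
      ((c.LP c.p.rho th s {x | x ∈ c.p.XX (c.BB H) ∧ ¬ Good K (c.BB H) x} H).ncard : ℝ) +
      ((c.LP c.p.rho th s {x | x ∈ c.p.XX (c.BB H) ∧ ∃ l : ℕ, l.Prime ∧ z < l ∧
        ∀ i, (l : ℤ) ∣ x i} H).ncard : ℝ) +
      ((c.LP c.p.rho th s {x | x ∈ c.p.XX (c.BB H) ∧ ∃ l : ℕ, l.Prime ∧ w < l ∧ l ≤ z ∧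
          ∀ i, (l : ℤ) ∣ x i} H).ncard : ℝ) := by
    exact_mod_cast h6
  refine h7.trans ?_
  have h8 : (eps + 2 / w) * c.MT th s H = eps / 2 * c.MT th s H + eps / 2 * c.MT th s H +
      2 / w * c.MT th s H := by ring
  rw [h8]
  linarith

end ConicHP
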