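import Pool.Agent.Lib.MP_e426f4_ag.C.Ev
import Pool.Agent.Lib.MP_e426f4_ag.C.Heights
import Pool.Agent.Lib.MP_e426f4_ag.G.FirstAux

/-! CONIC: auxiliary facts for the first moment. -/

namespace ConicHP

open Finset GenHP Filter Topology

variable {S : Type*} [Fintype S]

theorem clev_pos (c : CPar S) (th : ℝ) (M : ℕ) (H : ℝ) : 0 < c.Lev th M H := by
  unfold CPar.Lev
  positivity

theorem clev_upper (c : CPar S) (eps th : ℝ) (M : ℕ) (H : ℝ)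
    (h0 : 0 ≤ th * c.HH H * (c.BB H : ℝ) ^ 2 / M)
    (hy : 1 ≤ eps * (2 * (th * c.HH H * (c.BB H : ℝ) ^ 2 / M))) :
    c.Lev th M H ≤ (1 + eps) * (2 * (th * c.HH H * (c.BB H : ℝ) ^ 2 / M)) := by
  have h1 : (⌊th * c.HH H * (c.BB H : ℝ) ^ 2 / M⌋₊ : ℝ) ≤ th * c.HH H * (c.BB H : ℝ) ^ 2 / M :=
    Nat.floor_le h0
  unfold CPar.Lev
  linarith

theorem clev_lower (c : CPar S) (eps th : ℝ) (M : ℕ) (H : ℝ)
    (hy : 1 ≤ eps * (2 * (th * c.HH H * (c.BB H : ℝ) ^ 2 / M))) :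
    (1 - eps) * (2 * (th * c.HH H * (c.BB H : ℝ) ^ 2 / M)) ≤ c.Lev th M H := by
  have h1 : th * c.HH H * (c.BB H : ℝ) ^ 2 / M <
      (⌊th * c.HH H * (c.BB H : ℝ) ^ 2 / M⌋₊ : ℝ) + 1 := Nat.lt_floor_add_one _
  unfold CPar.Lev
  linarith

/-- `LT = T1 * 2 θ H' B^2 / W^s` -/
theorem LT_eq (c : CPar S) (th : ℝ) (s : ℕ) (H : ℝ) (hH : 0 < c.HH H) (hW : 0 < c.p.W) :
    c.LT th s H = 2 * (th * c.HH H * (c.BB H : ℝ) ^ 2 / (c.p.W : ℝ) ^ s) * c.T1 H := by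
  have hW' : (0 : ℝ) < c.p.W := by exact_mod_cast hW
  unfold CPar.LT CPar.T1 Vol
  by_cases hg : |c.p.gam| = 0
  · rw [hg]
    simp
  by_cases hP : (c.p.P : ℝ) = 0
  · rw [hP]
    simp
  field_simp
  ring

theorem HH_ge (c : CPar S) (eps bet : ℝ) (w : ℕ) (hc : c.Valid eps bet w) :
    ∀ᶠ H : ℝ in atTop, H ≤ c.HH H := by
  filter_upwards [VV_pos c eps bet w hc, eventually_ge_atTop (0 : ℝ)] with H h1 h2
  have h3 : (1 : ℝ) ≤ c.VV H := by exact_mod_cast h1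
  have h4 : (1 : ℝ) ≤ Fintype.card S := by exact_mod_cast card_pos c eps bet w hc
  unfold CPar.HH
  have h5 : (1 : ℝ) ≤ (Fintype.card S : ℝ) * c.VV H := by nlinarith
  nlinarith

/-- the number of levels is large -/
theorem eventually_y (c : CPar S) (eps bet : ℝ) (w : ℕ) (hc : c.Valid eps bet w) (th e : ℝ)
    (hth : 0 < th) (he : 0 < e) (M : ℕ) (hM : 0 < M) :
    ∀ᶠ H : ℝ in atTop, 1 ≤ e * (2 * (th * c.HH H * (c.BB H : ℝ) ^ 2 / M)) := by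
  have hMr : (0 : ℝ) < M := by exact_mod_cast hM
  filter_upwards [HH_ge c eps bet w hc, (BB_atTop c eps bet w hc).eventually_ge_atTop 1,
    eventually_ge_atTop ((M : ℝ) / (2 * th * e)), eventually_ge_atTop (0 : ℝ)] with H h1 h2 h3 h4
  have hB1 : (1 : ℝ) ≤ c.BB H := by exact_mod_cast h2
  have hB2 : (1 : ℝ) ≤ (c.BB H : ℝ) ^ 2 := one_le_pow₀ hB1
  rw [div_le_iff₀ (by positivity)] at h3
  have h5 : (M : ℝ) ≤ c.HH H * (c.BB H : ℝ) ^ 2 * (2 * th * e) := by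
    calc (M : ℝ) ≤ H * (2 * th * e) := h3
      _ ≤ c.HH H * (2 * th * e) := by gcongr
      _ = c.HH H * 1 * (2 * th * e) := by ring
      _ ≤ c.HH H * (c.BB H : ℝ) ^ 2 * (2 * th * e) := by
        have : 0 ≤ c.HH H := h4.trans h1
        gcongr
  have h6 : e * (2 * (th * c.HH H * (c.BB H : ℝ) ^ 2 / M)) =
      c.HH H * (c.BB H : ℝ) ^ 2 * (2 * th * e) / M := by ring
  rw [h6, one_le_div hMr]
  exact h5

end ConicHP
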