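import Pool.Agent.Lib.MP_e426f4_ag.C.Ev
import Pool.Agent.Lib.MP_e426f4_ag.C.Lin
import Pool.Agent.Lib.MP_e426f4_ag.G.ShortOne

/-! Module C-SH1: one point in one fibre. -/

namespace ConicHP

open Finset GenHP

variable {S : Type*} [Fintype S]

/-- lifting a form of the fibre to a vector of forms -/
theorem exists_lift (v : S → ℤ) (hv : PrimS v) (s0 : S) (hs0 : ∀ s, |v s| ≤ |v s0|)
    (b : Idx 2 2 → ℤ) (c : ℝ) (hb : ∀ m, |(b m : ℝ)| ≤ c) :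
    ∃ t : Idx 2 2 × S → ℤ, ev t v = b ∧
      ∀ m, |(t m : ℝ)| ≤ c / |(v s0 : ℝ)| + Fintype.card S * |(v s0 : ℝ)| := by
  have h := fun m => short_lin v hv s0 hs0 (b m)
  choose a ha1 ha2 using h
  refine ⟨fun m => a m.1 m.2, ?_, ?_⟩
  · funext m
    exact ha1 m
  · intro m
    refine (ha2 m.1 m.2).trans ?_
    have := hb m.1
    gcongr

theorem one_le_abs_argmax (v : S → ℤ) (hv : PrimS v) (s0 : S) (hs0 : ∀ s, |v s| ≤ |v s0|) :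
    (1 : ℝ) ≤ |(v s0 : ℝ)| := by
  obtain ⟨s1, hs1, h1⟩ := exists_argmax v hv
  have h2 := h1.trans (hs0 s1)
  exact_mod_cast h2

theorem short_one (B : ℕ) (hB : 1 ≤ B) (x : Fin 3 → ℤ) (hx : Prim x) (mu : ℝ) (hmu : 1 ≤ mu)
    (hg : Ortho mu x) (i0 : Fin 3) (hi0 : (B : ℝ) / 2 ≤ |(x i0 : ℝ)|)
    (v : S → ℤ) (hv : PrimS v) (s0 : S) (hs0 : ∀ s, |v s| ≤ |v s0|) (s : ℤ) :
    ∃ t : Idx 2 2 × S → ℤ, F (ev t v) x = s ∧
      ∀ m, |(t m : ℝ)| ≤ 4 * |(s : ℝ)| / ((B : ℝ) ^ 2 * |(v s0 : ℝ)|) + c1 2 2 * mu +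
        Fintype.card S * |(v s0 : ℝ)| := by
  obtain ⟨b, hb1, hb2⟩ := short_single (n := 2) (d := 2) (by norm_num) B hB x hx mu hmu hg i0 hi0 s
  obtain ⟨t, ht1, ht2⟩ := exists_lift v hv s0 hs0 b _ hb2
  refine ⟨t, by rw [ht1, hb1], fun m => (ht2 m).trans ?_⟩
  have hv1 := one_le_abs_argmax v hv s0 hs0
  have hBpos : (0 : ℝ) < B := by exact_mod_cast hB
  have hc1 : 0 ≤ c1 2 2 * mu := by
    unfold c1
    positivity
  rw [add_div]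
  have h1 : c1 2 2 * mu / |(v s0 : ℝ)| ≤ c1 2 2 * mu := div_le_self hc1 hv1
  have h2 : (2 : ℝ) ^ 2 * |(s : ℝ)| / (B : ℝ) ^ 2 / |(v s0 : ℝ)| =
      4 * |(s : ℝ)| / ((B : ℝ) ^ 2 * |(v s0 : ℝ)|) := by
    rw [div_div]
    norm_num
  rw [h2]
  linarith

end ConicHP
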