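import Pool.Agent.Lib.MP_e426f4_ag.C.Heights
import Pool.Agent.Lib.MP_e426f4_ag.C.Ev
import Pool.Agent.Lib.MP_e426f4_ag.C.Lin
import Pool.Agent.Lib.MP_e426f4_ag.C.Points
import Pool.Agent.Lib.MP_e426f4_ag.C.ShortA
import Pool.Agent.Lib.MP_e426f4_ag.G.Trans

/-! # CONIC, module C-TR: translation inequalities for triples (forms, fibre, point) -/

namespace ConicHP

open Finset GenHP Filter Topology

variable {S : Type*} [Fintype S]

section MAIN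
variable (c : CPar S) (eps bet : ℝ) (w : ℕ) (hc : c.Valid eps bet w)
include hc

/-- A short vector of forms of the class `0 (mod Q)` with a prescribed value at a well-rounded point
of a fibre. -/
theorem tr_short_level (K : ℝ) (hK : 1 ≤ K) (th : ℝ) (hth : 0 < th) :
    ∀ᶠ H : ℝ in atTop, ∀ i : ℕ, i < JJ H → ∀ x ∈ c.GC K H, ∀ s : ℤ, (c.p.Q : ℤ) ∣ s →
      |(s : ℝ)| ≤ th * c.HH H * (c.BB H : ℝ) ^ 2 →
      ∃ t : Idx 2 2 × S → ℤ, F (ev t (c.vv H i)) x = s ∧ (∀ m, (c.p.Q : ℤ) ∣ t m) ∧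
        ∀ m, |(t m : ℝ)| ≤ 9 * Fintype.card S * th * H := by
  have hQ0 : (0 : ℝ) < c.p.Q := by exact_mod_cast hc.pv.Q_pos
  have hc1 : 0 ≤ c1 2 2 := by unfold c1; positivity
  have hS1 : 1 ≤ Fintype.card S := card_pos c eps bet w hc
  have hS1r : (1 : ℝ) ≤ Fintype.card S := by exact_mod_cast hS1
  filter_upwards [small_le c eps bet w hc (2 * c.p.Q * c1 2 2 * K / th) 0,
    small_le' c eps bet w hc (4 * c.p.Q / th) 1, vv_le c eps bet w hc, vv_ge c eps bet w hc,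
    (BB_atTop c eps bet w hc).eventually_ge_atTop 1, VV_pos c eps bet w hc,
    JJ_atTop.eventually_ge_atTop 1, eventually_gt_atTop 0] with H h1 h1' hvle hvge hB1 hV hJ hH0
  intro i hi x hx s hs hsb
  have hB1r : (1 : ℝ) ≤ c.BB H := by exact_mod_cast hB1
  have hV1 : (1 : ℝ) ≤ c.VV H := by exact_mod_cast hV
  have hJ1 : (1 : ℝ) ≤ JJ H := by exact_mod_cast hJ
  obtain ⟨s', rfl⟩ := hs
  obtain ⟨i0, hi0⟩ := hc.pv.xi_eq
  have hxb := (mem_XX_bounds c.p eps bet w hc.pv (c.BB H) x hx.1 i0).2 hi0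
  have hmu : 1 ≤ K * (c.BB H : ℝ) ^ (1 / ((2 : ℕ) : ℝ)) := by
    have : 1 ≤ (c.BB H : ℝ) ^ (1 / ((2 : ℕ) : ℝ)) := Real.one_le_rpow hB1r (by positivity)
    nlinarith
  have hprim : PrimS (c.vv H i) := hc.fam.prim _ _
  obtain ⟨s0, hs0, hs01⟩ := exists_argmax (c.vv H i) hprim
  have hvs0 := hvge i hi s0 hs0
  have hvs0' := hvle i hi s0
  obtain ⟨t, ht, htb⟩ := short_one (c.BB H) hB1 x hx.2.1
    (K * (c.BB H : ℝ) ^ (1 / ((2 : ℕ) : ℝ))) hmu hx.2.2 i0 hxb (c.vv H i) hprim s0 hs0 s'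
  refine ⟨fun m => c.p.Q * t m, ?_, fun m => Dvd.intro _ rfl, fun m => ?_⟩
  · rw [F_ev_smul, ht]
  · have hB0 : (0 : ℝ) < (c.BB H : ℝ) ^ 2 := by positivity
    set y : ℝ := |(c.vv H i s0 : ℝ)| with hy
    have hy0 : 0 < y := by linarith
    have h5 : (c.p.Q : ℝ) * |(s' : ℝ)| ≤ th * c.HH H * (c.BB H : ℝ) ^ 2 := by
      have : |(((c.p.Q : ℤ) * s' : ℤ) : ℝ)| = (c.p.Q : ℝ) * |(s' : ℝ)| := by
        push_cast
        rw [abs_mul, Nat.abs_cast]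
      rw [← this]
      exact hsb
    have h6 : (c.p.Q : ℝ) * (4 * |(s' : ℝ)| / ((c.BB H : ℝ) ^ 2 * y)) ≤
        8 * Fintype.card S * th * H := by
      have e1 : (c.p.Q : ℝ) * (4 * |(s' : ℝ)| / ((c.BB H : ℝ) ^ 2 * y)) =
          4 * ((c.p.Q : ℝ) * |(s' : ℝ)|) / ((c.BB H : ℝ) ^ 2 * y) := by ring
      rw [e1, div_le_iff₀ (by positivity)]
      have e2 : c.HH H ≤ 2 * Fintype.card S * H * y := by
        unfold CPar.HH
        have : (c.VV H : ℝ) ≤ 2 * y := by linarith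
        calc (Fintype.card S : ℝ) * c.VV H * H = Fintype.card S * H * c.VV H := by ring
          _ ≤ Fintype.card S * H * (2 * y) := mul_le_mul_of_nonneg_left this (by positivity)
          _ = 2 * Fintype.card S * H * y := by ring
      calc 4 * ((c.p.Q : ℝ) * |(s' : ℝ)|) ≤ 4 * (th * c.HH H * (c.BB H : ℝ) ^ 2) := by linarith
        _ = 4 * (th * (c.BB H : ℝ) ^ 2) * c.HH H := by ring
        _ ≤ 4 * (th * (c.BB H : ℝ) ^ 2) * (2 * Fintype.card S * H * y) :=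
            mul_le_mul_of_nonneg_left e2 (by positivity)
        _ = 8 * Fintype.card S * th * H * ((c.BB H : ℝ) ^ 2 * y) := by ring
    have h8 : (c.p.Q : ℝ) * (c1 2 2 * (K * (c.BB H : ℝ) ^ (1 / ((2 : ℕ) : ℝ)))) ≤
        th * H / 2 := by
      have e3 : (1 / ((2 : ℕ) : ℝ)) = (1 / 2 : ℝ) := by norm_num
      rw [e3]
      simp only [pow_zero, mul_one] at h1
      have h9 := mul_le_mul_of_nonneg_right h1 hth.le
      have h10 : 2 * c.p.Q * c1 2 2 * K / th * (c.BB H : ℝ) ^ (1 / 2 : ℝ) * th =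
          2 * (c.p.Q * (c1 2 2 * (K * (c.BB H : ℝ) ^ (1 / 2 : ℝ)))) := by
        field_simp
      rw [h10] at h9
      linarith
    have h11 : (c.p.Q : ℝ) * (Fintype.card S * y) ≤ Fintype.card S * (th * H) / 2 := by
      have e4 : 4 * c.p.Q / th * (c.VV H : ℝ) ≤ H := by
        calc 4 * c.p.Q / th * (c.VV H : ℝ) = 4 * c.p.Q / th * ((c.VV H : ℝ) ^ 1 * 1) := by ring
          _ ≤ 4 * c.p.Q / th * ((c.VV H : ℝ) ^ 1 * (JJ H : ℝ) ^ 1) := by
              refine mul_le_mul_of_nonneg_left ?_ (by positivity)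
              rw [pow_one, pow_one]
              exact mul_le_mul_of_nonneg_left hJ1 (by positivity)
          _ ≤ H := h1'
      have e5 := mul_le_mul_of_nonneg_right e4 hth.le
      have e6 : 4 * c.p.Q / th * (c.VV H : ℝ) * th = 4 * (c.p.Q * c.VV H) := by
        field_simp
      rw [e6] at e5
      have e7 : (c.p.Q : ℝ) * y ≤ c.p.Q * (2 * c.VV H) := mul_le_mul_of_nonneg_left hvs0' hQ0.le
      calc (c.p.Q : ℝ) * (Fintype.card S * y) = Fintype.card S * (c.p.Q * y) := by ring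
        _ ≤ Fintype.card S * (th * H / 2) := by
            refine mul_le_mul_of_nonneg_left ?_ (by positivity)
            linarith
        _ = _ := by ring
    have h12 : th * H / 2 ≤ Fintype.card S * (th * H) / 2 := by
      have : 0 ≤ th * H := by positivity
      nlinarith
    push_cast
    rw [abs_mul, Nat.abs_cast]
    calc (c.p.Q : ℝ) * |(t m : ℝ)| ≤
        c.p.Q * (4 * |(s' : ℝ)| / ((c.BB H : ℝ) ^ 2 * y) +
          c1 2 2 * (K * (c.BB H : ℝ) ^ (1 / ((2 : ℕ) : ℝ))) + Fintype.card S * y) :=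
          mul_le_mul_of_nonneg_left (htb m) hQ0.le
      _ = c.p.Q * (4 * |(s' : ℝ)| / ((c.BB H : ℝ) ^ 2 * y)) +
          c.p.Q * (c1 2 2 * (K * (c.BB H : ℝ) ^ (1 / ((2 : ℕ) : ℝ)))) +
          c.p.Q * (Fintype.card S * y) := by ring
      _ ≤ 9 * Fintype.card S * th * H := by linarith

omit hc in
theorem tr_Lev_eq (th : ℝ) (M : ℕ) (H : ℝ) : c.Lev th M H =
    ((Icc (-(⌊th * c.HH H * (c.BB H : ℝ) ^ 2 / M⌋₊ : ℤ))
      (⌊th * c.HH H * (c.BB H : ℝ) ^ 2 / M⌋₊ : ℤ)).card : ℝ) := by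
  rw [Int.card_Icc, CPar.Lev]
  have : ((⌊th * c.HH H * (c.BB H : ℝ) ^ 2 / M⌋₊ : ℤ) + 1 -
      -(⌊th * c.HH H * (c.BB H : ℝ) ^ 2 / M⌋₊ : ℤ)) =
      ((2 * ⌊th * c.HH H * (c.BB H : ℝ) ^ 2 / M⌋₊ + 1 : ℕ) : ℤ) := by
    push_cast
    ring
  rw [this, Int.toNat_natCast]
  push_cast
  ring

theorem trans_lower (K : ℝ) (hK : 1 ≤ K) (r th : ℝ) (hth : 0 < th) (s : ℕ)
    (hs : c.p.Q ∣ c.p.W ^ s) :
    ∀ᶠ H : ℝ in atTop,
      ((c.LP (r - 9 * Fintype.card S * th) th s (c.GC K H) H).ncard : ℝ) ≤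
        c.Lev th (c.p.W ^ s) H * ((c.Pairs r K H).ncard : ℝ) := by
  classical
  filter_upwards [tr_short_level c eps bet w hc K hK th hth, eventually_gt_atTop 0] with H hH hH0
  obtain ⟨M, hM⟩ : ∃ M : ℕ, M = c.p.W ^ s := ⟨_, rfl⟩
  have hMpos : 0 < M := by rw [hM]; exact pow_pos hc.pv.W_pos s
  have hMz : ((c.p.W : ℤ) ^ s) = (M : ℤ) := by rw [hM]; push_cast; rfl
  have hQM : (c.p.Q : ℤ) ∣ (M : ℤ) := by
    rw [hM]
    exact Int.natCast_dvd_natCast.2 hs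
  rw [← hM, tr_Lev_eq c]
  obtain ⟨X, hX⟩ : ∃ X : ℝ, X = th * c.HH H * (c.BB H : ℝ) ^ 2 := ⟨_, rfl⟩
  have hX0 : 0 ≤ X := by
    rw [hX]
    unfold CPar.HH
    positivity
  rw [← hX]
  have hLPfin := LP_finite c (r - 9 * Fintype.card S * th) th s (c.GC K H) (GC_finite c K H) H
  have hPfin := Pairs_finite c r K H
  choose! t ht using hH
  let f : ((Idx 2 2 × S → ℤ) × ℕ × (Fin 3 → ℤ)) →
      ((Idx 2 2 × S → ℤ) × ℕ × (Fin 3 → ℤ)) × ℤ :=
    fun q => ((fun m => q.1 m + (-1) * t q.2.1 q.2.2 (F (ev q.1 (c.vv H q.2.1)) q.2.2) m, q.2),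
      F (ev q.1 (c.vv H q.2.1)) q.2.2 / M)
  have hmaps : ∀ q ∈ hLPfin.toFinset, f q ∈ hPfin.toFinset ×ˢ
      Icc (-(⌊X / M⌋₊ : ℤ)) (⌊X / M⌋₊ : ℤ) := by
    intro q hq
    rw [Set.Finite.mem_toFinset] at hq
    obtain ⟨h1, hi, h2, h3, h4⟩ := hq
    rw [hMz] at h3
    have h5 := ht q.2.1 hi q.2.2 h2 (F (ev q.1 (c.vv H q.2.1)) q.2.2) (hQM.trans h3) h4
    rw [Finset.mem_product, Set.Finite.mem_toFinset]
    refine ⟨⟨⟨fun m => ?_, fun m => ?_⟩, hi, h2, ?_⟩, ?_⟩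
    · have h6 := h1.1 m
      have h7 := h5.2.2 m
      have h8 : (((q.1 m + (-1) * t q.2.1 q.2.2 (F (ev q.1 (c.vv H q.2.1)) q.2.2) m : ℤ) : ℝ)) -
          H * c.AC m = ((q.1 m : ℝ) - H * c.AC m) -
            (t q.2.1 q.2.2 (F (ev q.1 (c.vv H q.2.1)) q.2.2) m : ℝ) := by
        push_cast
        ring
      simp only [f]
      rw [h8]
      refine (abs_sub _ _).trans ?_
      have h9 : (r - 9 * Fintype.card S * th) * H + 9 * Fintype.card S * th * H = r * H := by ring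
      linarith
    · have h8 : q.1 m + (-1) * t q.2.1 q.2.2 (F (ev q.1 (c.vv H q.2.1)) q.2.2) m - c.A0 m =
          (q.1 m - c.A0 m) - t q.2.1 q.2.2 (F (ev q.1 (c.vv H q.2.1)) q.2.2) m := by ring
      simp only [f]
      rw [h8]
      exact dvd_sub (h1.2 m) (h5.2.1 m)
    · simp only [f]
      rw [F_ev_add q.1 (fun m => (-1) * t q.2.1 q.2.2 (F (ev q.1 (c.vv H q.2.1)) q.2.2) m),
        F_ev_smul, h5.1]
      ring
    · simp only [f]
      rw [level_iff X hX0 M hMpos, Int.mul_ediv_cancel' h3, hX]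
      exact h4
  have hinj : Set.InjOn f (hLPfin.toFinset : Set ((Idx 2 2 × S → ℤ) × ℕ × (Fin 3 → ℤ))) := by
    intro q hq q' hq' hqq
    rw [Finset.mem_coe, Set.Finite.mem_toFinset] at hq hq'
    obtain ⟨h1, hi, h2, h3, h4⟩ := hq
    obtain ⟨h1', hi', h2', h3', h4'⟩ := hq'
    rw [hMz] at h3 h3'
    simp only [f, Prod.mk.injEq] at hqq
    obtain ⟨⟨e1, e2⟩, e3⟩ := hqq
    have e4 : F (ev q.1 (c.vv H q.2.1)) q.2.2 = F (ev q'.1 (c.vv H q'.2.1)) q'.2.2 := by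
      rw [← Int.mul_ediv_cancel' h3, ← Int.mul_ediv_cancel' h3', e3]
    have e5 : q.1 = q'.1 := by
      funext m
      have h5 : q.1 m + (-1) * t q.2.1 q.2.2 (F (ev q.1 (c.vv H q.2.1)) q.2.2) m =
          q'.1 m + (-1) * t q'.2.1 q'.2.2 (F (ev q'.1 (c.vv H q'.2.1)) q'.2.2) m := congrFun e1 m
      rw [e4, e2] at h5
      linarith
    exact Prod.ext e5 e2
  have hcard := Finset.card_le_card_of_injOn f hmaps hinj
  rw [Finset.card_product, ← Set.ncard_eq_toFinset_card _ hLPfin,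
    ← Set.ncard_eq_toFinset_card _ hPfin] at hcard
  calc ((c.LP (r - 9 * Fintype.card S * th) th s (c.GC K H) H).ncard : ℝ) ≤
      (((c.Pairs r K H).ncard * (Icc (-(⌊X / M⌋₊ : ℤ)) (⌊X / M⌋₊ : ℤ)).card : ℕ) : ℝ) := by
        exact_mod_cast hcard
    _ = _ := by
        push_cast
        ring

theorem trans_upper (K : ℝ) (hK : 1 ≤ K) (r th : ℝ) (hth : 0 < th) (s : ℕ)
    (hs : c.p.Q ∣ c.p.W ^ s) :
    ∀ᶠ H : ℝ in atTop,
      c.Lev th (c.p.W ^ s) H * ((c.Pairs r K H).ncard : ℝ) ≤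
        ((c.LP (r + 9 * Fintype.card S * th) th s (c.GC K H) H).ncard : ℝ) := by
  classical
  filter_upwards [tr_short_level c eps bet w hc K hK th hth, eventually_gt_atTop 0] with H hH hH0
  obtain ⟨M, hM⟩ : ∃ M : ℕ, M = c.p.W ^ s := ⟨_, rfl⟩
  have hMpos : 0 < M := by rw [hM]; exact pow_pos hc.pv.W_pos s
  have hMz : ((c.p.W : ℤ) ^ s) = (M : ℤ) := by rw [hM]; push_cast; rfl
  have hMz0 : (M : ℤ) ≠ 0 := by exact_mod_cast hMpos.ne'
  have hQM : (c.p.Q : ℤ) ∣ (M : ℤ) := by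
    rw [hM]
    exact Int.natCast_dvd_natCast.2 hs
  rw [← hM, tr_Lev_eq c]
  obtain ⟨X, hX⟩ : ∃ X : ℝ, X = th * c.HH H * (c.BB H : ℝ) ^ 2 := ⟨_, rfl⟩
  have hX0 : 0 ≤ X := by
    rw [hX]
    unfold CPar.HH
    positivity
  rw [← hX]
  have hLPfin := LP_finite c (r + 9 * Fintype.card S * th) th s (c.GC K H) (GC_finite c K H) H
  have hPfin := Pairs_finite c r K H
  choose! t ht using hH
  let f : ((Idx 2 2 × S → ℤ) × ℕ × (Fin 3 → ℤ)) × ℤ →
      ((Idx 2 2 × S → ℤ) × ℕ × (Fin 3 → ℤ)) :=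
    fun q => (fun m => q.1.1 m + t q.1.2.1 q.1.2.2 (M * q.2) m, q.1.2)
  have hF : ∀ q ∈ hPfin.toFinset ×ˢ Icc (-(⌊X / M⌋₊ : ℤ)) (⌊X / M⌋₊ : ℤ),
      F (ev (f q).1 (c.vv H (f q).2.1)) (f q).2.2 = M * q.2 := by
    intro q hq
    rw [Finset.mem_product, Set.Finite.mem_toFinset, level_iff X hX0 M hMpos] at hq
    obtain ⟨⟨h1, hi, h2, h3⟩, h4⟩ := hq
    have h5 := ht q.1.2.1 hi q.1.2.2 h2 (M * q.2) (hQM.trans (Dvd.intro _ rfl)) (hX ▸ h4)
    simp only [f]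
    rw [F_ev_add q.1.1 (fun m => t q.1.2.1 q.1.2.2 (M * q.2) m), h3, h5.1]
    ring
  have hmaps : ∀ q ∈ hPfin.toFinset ×ˢ Icc (-(⌊X / M⌋₊ : ℤ)) (⌊X / M⌋₊ : ℤ),
      f q ∈ hLPfin.toFinset := by
    intro q hq
    have hFq := hF q hq
    rw [Finset.mem_product, Set.Finite.mem_toFinset, level_iff X hX0 M hMpos] at hq
    obtain ⟨⟨h1, hi, h2, h3⟩, h4⟩ := hq
    have h5 := ht q.1.2.1 hi q.1.2.2 h2 (M * q.2) (hQM.trans (Dvd.intro _ rfl)) (hX ▸ h4)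
    rw [Set.Finite.mem_toFinset]
    refine ⟨⟨fun m => ?_, fun m => ?_⟩, hi, h2, ?_, ?_⟩
    · have h6 := h1.1 m
      have h7 := h5.2.2 m
      have h8 : (((q.1.1 m + t q.1.2.1 q.1.2.2 (M * q.2) m : ℤ) : ℝ)) - H * c.AC m =
          ((q.1.1 m : ℝ) - H * c.AC m) + (t q.1.2.1 q.1.2.2 (M * q.2) m : ℝ) := by
        push_cast
        ring
      simp only [f]
      rw [h8]
      refine (abs_add_le _ _).trans ?_
      have h9 : (r + 9 * Fintype.card S * th) * H = r * H + 9 * Fintype.card S * th * H := by ring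
      linarith
    · have h8 : q.1.1 m + t q.1.2.1 q.1.2.2 (M * q.2) m - c.A0 m =
          (q.1.1 m - c.A0 m) + t q.1.2.1 q.1.2.2 (M * q.2) m := by ring
      simp only [f]
      rw [h8]
      exact dvd_add (h1.2 m) (h5.2.1 m)
    · rw [hFq, hMz]
      exact Dvd.intro _ rfl
    · rw [hFq, ← hX]
      exact h4
  have hinj : Set.InjOn f ((hPfin.toFinset ×ˢ Icc (-(⌊X / M⌋₊ : ℤ)) (⌊X / M⌋₊ : ℤ) :
      Finset (((Idx 2 2 × S → ℤ) × ℕ × (Fin 3 → ℤ)) × ℤ)) :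
      Set (((Idx 2 2 × S → ℤ) × ℕ × (Fin 3 → ℤ)) × ℤ)) := by
    intro q hq q' hq' hqq
    have e1 := hF q hq
    have e2 := hF q' hq'
    rw [hqq, e2] at e1
    have e3 : q.2 = q'.2 := (mul_left_cancel₀ hMz0 e1).symm
    simp only [f, Prod.mk.injEq] at hqq
    have e4 : q.1.1 = q'.1.1 := by
      funext m
      have := congrFun hqq.1 m
      simp only [e3, hqq.2] at this
      linarith
    exact Prod.ext (Prod.ext e4 hqq.2) e3
  have hcard := Finset.card_le_card_of_injOn f hmaps hinj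
  rw [Finset.card_product, ← Set.ncard_eq_toFinset_card _ hLPfin,
    ← Set.ncard_eq_toFinset_card _ hPfin] at hcard
  calc _ = (((c.Pairs r K H).ncard * (Icc (-(⌊X / M⌋₊ : ℤ)) (⌊X / M⌋₊ : ℤ)).card : ℕ) : ℝ) := by
        push_cast
        ring
    _ ≤ ((c.LP (r + 9 * Fintype.card S * th) th s (c.GC K H) H).ncard : ℝ) := by
        exact_mod_cast hcard

end MAIN

end ConicHP
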