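import Pool.Agent.Lib.MP_e426f4_ag.C.CardCl
import Pool.Agent.Lib.MP_e426f4_ag.C.Trans
import Pool.Agent.Lib.MP_e426f4_ag.C.BadPoints
import Pool.Agent.Lib.MP_e426f4_ag.C.NLoc
import Pool.Agent.Lib.MP_e426f4_ag.C.FirstAux

/-! CONIC: lower bound for the first moment. -/

namespace ConicHP

open Finset GenHP Filter Topology

variable {S : Type*} [Fintype S]

theorem S1_lower (c : CPar S) (eps bet : ℝ) (w : ℕ) (hc : c.Valid eps bet w) :
    ∃ K0 : ℝ, 1 ≤ K0 ∧ ∀ K, K0 ≤ K → ∀ᶠ H : ℝ in atTop,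
      (1 - 8 * eps - 2 / w) * c.TT H * c.Xn H ≤ ((c.Pairs c.p.rho K H).ncard : ℝ) := by
  have hp := hc.pv
  have he := hp.eps_pos
  have he1 := hp.eps_le
  have hbet := hp.bet_pos
  have hkap := hp.kap_pos
  have hrho := hp.rho_pos
  have hW := hp.W_pos
  have hQ := hp.Q_pos
  have hP := hp.P_pos
  have hw : 2 ≤ w := hp.w_two
  have hwr : (2 : ℝ) ≤ w := by exact_mod_cast hw
  have hWr : (0 : ℝ) < c.p.W := by exact_mod_cast hW
  have hQr : (0 : ℝ) < c.p.Q := by exact_mod_cast hQ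
  have hPr : (0 : ℝ) < c.p.P := by exact_mod_cast hP
  have hgam : 0 < |c.p.gam| := lt_of_lt_of_le hbet hp.gam_ge
  obtain ⟨s, hs⟩ := hp.hens.2.1
  have hnQ : c.p.Q ∣ c.p.W ^ s := by rw [hs]
  have hS : 0 < Fintype.card S := card_pos c eps bet w hc
  have hSr : (1 : ℝ) ≤ Fintype.card S := by exact_mod_cast hS
  have hN : 0 < MM S := by
    unfold MM
    rw [Fintype.card_prod]
    exact Nat.mul_pos (NN_pos 2 2) hS
  have hNr : (1 : ℝ) ≤ MM S := by exact_mod_cast hN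
  have hN0 : (0 : ℝ) < MM S := by linarith only [hNr, he, he1]
  set cs : ℝ := 9 * Fintype.card S with hcs
  have hc2 : (0 : ℝ) < cs := by positivity
  obtain ⟨th, hth, hth2, hth3⟩ : ∃ th : ℝ, 0 < th ∧ th ≤ c.p.kap * bet / 4 ∧
      th ≤ eps * c.p.rho / (cs * MM S) :=
    ⟨min (c.p.kap * bet / 4) (eps * c.p.rho / (cs * MM S)),
      lt_min (by positivity) (by positivity), min_le_left _ _, min_le_right _ _⟩
  have hct : cs * th ≤ c.p.rho * (eps / MM S) := by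
    rw [le_div_iff₀ (by positivity)] at hth3
    rw [mul_div_assoc', le_div_iff₀ hN0]
    linarith
  have heN : eps / MM S ≤ eps := div_le_self he.le hNr
  have heN0 : 0 < eps / MM S := by positivity
  set r9 : ℝ := c.p.rho - cs * th with hr9
  have hr9a : c.p.rho * (1 - eps / MM S) ≤ r9 := by
    rw [hr9]
    linarith only [hct]
  have hr9p : 0 < r9 := lt_of_lt_of_le (mul_pos hrho (by linarith)) hr9a
  have hr9b : r9 ≤ c.p.rho := by
    have : 0 < cs * th := mul_pos hc2 hth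
    linarith
  obtain ⟨B0, hB0⟩ := nloc c.p eps bet w hp th hth hth2 s hnQ 1 one_pos (Nat.coprime_one_left _)
  obtain ⟨K0, hK0, hbad⟩ := bad_points c eps bet w hc
  refine ⟨K0, hK0, fun K hK => ?_⟩
  have hK1 : 1 ≤ K := hK0.trans hK
  have hBt := BB_atTop c eps bet w hc
  filter_upwards [hbad K hK th hth hth2 s hnQ,
    trans_lower c eps bet w hc K hK1 c.p.rho th hth s hnQ,
    card_Cl c eps bet w hc r9 eps hr9p he, hBt.eventually_ge_atTop 1,
    hBt.eventually_ge_atTop B0, HH_ge c eps bet w hc,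
    eventually_y c eps bet w hc th eps hth he (c.p.W ^ s) (pow_pos hW s),
    ev_near c eps bet w hc r9 (by linarith only [hr9b, hrho]),
    eventually_ge_atTop (1 : ℝ)] with H hBP hTR hCl hB1 hB0' hHH hy hnear hH1
  have hH0 : (0 : ℝ) < H := by linarith only [hH1, he, he1]
  have hHH0 : 0 < c.HH H := by linarith only [hH1, hHH, he, he1]
  have hB1' : (1 : ℝ) ≤ c.BB H := by exact_mod_cast hB1
  have hBpos : (0 : ℝ) < c.BB H := by linarith
  have hlev := clev_upper c eps th (c.p.W ^ s) H (by positivity) hy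
  have hlev0 := clev_pos c th (c.p.W ^ s) H
  have hmt := LT_eq c th s H hHH0 hW
  have hMT : c.MT th s H = ((JJ H : ℝ) * c.LT th s H) * c.Xn H := rfl
  rw [hMT] at hBP
  have hT1nn : 0 ≤ c.LT th s H := by
    simp only [CPar.LT, Vol]
    positivity
  set T' : ℝ := (JJ H : ℝ) * c.LT th s H with hT'
  have hT'nn : 0 ≤ T' := by positivity
  have hTT1 : 0 ≤ c.T1 H := by
    simp only [CPar.T1]
    positivity
  have hTT0 : 0 ≤ c.TT H := by
    simp only [CPar.TT]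
    positivity
  have hX0 : 0 ≤ c.Xn H := by
    simp only [CPar.Xn]
    positivity
  have hP0 : (0 : ℝ) ≤ ((c.Pairs c.p.rho K H).ncard : ℝ) := Nat.cast_nonneg _
  -- all local pairs
  have hJ : (Set.Iio (JJ H)).ncard = JJ H := by
    rw [← Finset.coe_range, Set.ncard_coe_finset, Finset.card_range]
  have hLP : ((c.Cl r9 H).ncard : ℝ) * ((1 - eps) * T') ≤
      ((c.LP r9 th s (c.p.XX (c.BB H)) H).ncard : ℝ) := by
    have hfin : (Set.Iio (JJ H) ×ˢ c.p.XX (c.BB H)).Finite :=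
      (Set.finite_Iio _).prod (XX_finite c (c.BB H))
    have e1 : c.LP r9 th s (c.p.XX (c.BB H)) H =
        {q : (Idx 2 2 × S → ℤ) × (ℕ × (Fin 3 → ℤ)) | q.1 ∈ c.Cl r9 H ∧
          q.2 ∈ Set.Iio (JJ H) ×ˢ c.p.XX (c.BB H) ∧
          (((c.p.W : ℤ) ^ s) ∣ F (ev q.1 (c.vv H q.2.1)) q.2.2 ∧
          |((F (ev q.1 (c.vv H q.2.1)) q.2.2 : ℤ) : ℝ)| ≤ th * c.HH H * (c.BB H : ℝ) ^ 2)} := by
      ext q
      simp only [CPar.LP, Set.mem_ofPred_eq, Set.mem_prod, Set.mem_Iio]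
      tauto
    rw [e1]
    refine le_ncard_pairs (c.Cl r9 H) (Cl_finite c _ H) _ hfin
      (fun A q => ((c.p.W : ℤ) ^ s) ∣ F (ev A (c.vv H q.1)) q.2 ∧
          |((F (ev A (c.vv H q.1)) q.2 : ℤ) : ℝ)| ≤ th * c.HH H * (c.BB H : ℝ) ^ 2) _ ?_
    intro A hA
    have e2 : {x : ℕ × (Fin 3 → ℤ) | x ∈ Set.Iio (JJ H) ×ˢ c.p.XX (c.BB H) ∧
        (((c.p.W : ℤ) ^ s) ∣ F (ev A (c.vv H x.1)) x.2 ∧
          |((F (ev A (c.vv H x.1)) x.2 : ℤ) : ℝ)| ≤ th * c.HH H * (c.BB H : ℝ) ^ 2)} =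
        {x | x.1 ∈ Set.Iio (JJ H) ∧ x.2 ∈ c.p.XX (c.BB H) ∧
          (((c.p.W : ℤ) ^ s) ∣ F (ev A (c.vv H x.1)) x.2 ∧
          |((F (ev A (c.vv H x.1)) x.2 : ℤ) : ℝ)| ≤ th * c.HH H * (c.BB H : ℝ) ^ 2)} := by
      ext q
      simp only [Set.mem_ofPred_eq, Set.mem_prod]
      tauto
    rw [e2]
    have h0 := le_ncard_pairs (Set.Iio (JJ H)) (Set.finite_Iio _) (c.p.XX (c.BB H))
      (XX_finite c (c.BB H))
      (fun i x => ((c.p.W : ℤ) ^ s) ∣ F (ev A (c.vv H i)) x ∧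
          |((F (ev A (c.vv H i)) x : ℤ) : ℝ)| ≤ th * c.HH H * (c.BB H : ℝ) ^ 2)
      ((1 - eps) * c.LT th s H) ?_
    · rw [hJ] at h0
      refine le_trans (le_of_eq ?_) h0
      rw [hT']
      ring
    intro i hi
    obtain ⟨hn1, hn2⟩ := hnear i hi A hA
    have h1 := (hB0 (c.BB H) hB0' (c.HH H) hHH0 (ev A (c.vv H i)) hn1 hn2 (fun _ => 0)).1
    have h2 : (((1 : ℕ) : ℝ)) ^ (2 + 1) = 1 := by simp
    rw [h2, div_one] at h1
    refine le_trans h1 ?_
    have h3 : {x : Fin (2 + 1) → ℤ | x ∈ c.p.XX (c.BB H) ∧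
          ((c.p.W : ℤ) ^ s) ∣ F (ev A (c.vv H i)) x ∧
          |((F (ev A (c.vv H i)) x : ℤ) : ℝ)| ≤ th * c.HH H * (c.BB H : ℝ) ^ 2 ∧
          ∀ i, ((1 : ℕ) : ℤ) ∣ x i - 0} ⊆
        {x | x ∈ c.p.XX (c.BB H) ∧ (((c.p.W : ℤ) ^ s) ∣ F (ev A (c.vv H i)) x ∧
          |((F (ev A (c.vv H i)) x : ℤ) : ℝ)| ≤ th * c.HH H * (c.BB H : ℝ) ^ 2)} := by
      intro x hx
      exact ⟨hx.1, hx.2.1, hx.2.2.1⟩
    have h4 := Set.ncard_le_ncard h3 ((XX_finite c (c.BB H)).subset fun _ hx => hx.1)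
    exact_mod_cast h4
  have hsplit : ((c.LP r9 th s (c.p.XX (c.BB H)) H).ncard : ℝ) ≤
      ((c.LP r9 th s (c.GC K H) H).ncard : ℝ) +
      ((c.LP c.p.rho th s (c.p.XX (c.BB H) \ c.GC K H) H).ncard : ℝ) := by
    have h1 : c.LP r9 th s (c.p.XX (c.BB H)) H ⊆ c.LP r9 th s (c.GC K H) H ∪
        c.LP c.p.rho th s (c.p.XX (c.BB H) \ c.GC K H) H := by
      intro q hq
      by_cases hg : q.2.2 ∈ c.GC K H
      · exact Or.inl ⟨hq.1, hq.2.1, hg, hq.2.2.2⟩
      · refine Or.inr ⟨⟨fun m => (hq.1.1 m).trans ?_, hq.1.2⟩, hq.2.1, ⟨hq.2.2.1, hg⟩, hq.2.2.2⟩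
        exact mul_le_mul_of_nonneg_right hr9b hH0.le
    have h2 := Set.ncard_le_ncard h1 ((LP_finite c r9 th s _ (GC_finite c K H) H).union
      (LP_finite c c.p.rho th s _ ((XX_finite c (c.BB H)).subset fun _ h => h.1) H))
    have h3 := Set.ncard_union_le (c.LP r9 th s (c.GC K H) H)
      (c.LP c.p.rho th s (c.p.XX (c.BB H) \ c.GC K H) H)
    exact_mod_cast h2.trans h3
  have hX : (1 - eps) * c.Xn H ≤ (2 * r9 * H / c.p.Q) ^ MM S := by
    have h1 : (1 - eps / MM S) ^ MM S * c.Xn H ≤ (2 * r9 * H / c.p.Q) ^ MM S := by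
      simp only [CPar.Xn]
      rw [← mul_pow]
      refine pow_le_pow_left₀ (mul_nonneg (by linarith only [he, he1, heN]) (by positivity)) ?_ _
      rw [mul_div_assoc', div_le_div_iff_of_pos_right hQr]
      nlinarith only [hH0, hr9a, mul_le_mul_of_nonneg_right hr9a hH0.le]
    exact (mul_le_mul_of_nonneg_right (one_sub_le_pow _ hN eps (by linarith only [he, he1])) hX0).trans h1
  push_cast at hlev
  set y : ℝ := th * c.HH H * (c.BB H : ℝ) ^ 2 / (c.p.W : ℝ) ^ s with hydef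
  have hy0 : 0 < y := by positivity
  have hJLT : T' = 2 * y * c.TT H := by
    rw [hT', hmt]
    simp only [CPar.TT]
    ring
  set v : ℝ := 2 / (w : ℝ) with hv
  have hv0 : 0 ≤ v := by positivity
  -- lower bound for the local pairs over good points
  have h5 : (1 - 4 * eps - v) * (T' * c.Xn H) ≤
      ((c.LP r9 th s (c.GC K H) H).ncard : ℝ) := by
    have h6 : (1 - eps) * ((1 - eps) * c.Xn H) * ((1 - eps) * T') ≤
        ((c.Cl r9 H).ncard : ℝ) * ((1 - eps) * T') := by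
      refine mul_le_mul_of_nonneg_right ?_ (mul_nonneg (by linarith only [he, he1]) hT'nn)
      exact (mul_le_mul_of_nonneg_left hX (by linarith only [he, he1])).trans hCl.1
    have h7 : (1 - 4 * eps - v) * (T' * c.Xn H) ≤
        (1 - eps) * ((1 - eps) * c.Xn H) * ((1 - eps) * T') - (eps + v) * (T' * c.Xn H) := by
      have h8 : 0 ≤ T' * c.Xn H := mul_nonneg hT'nn hX0
      have h9 : 1 - 4 * eps - v ≤ (1 - eps) * (1 - eps) * (1 - eps) - (eps + v) := by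
        nlinarith only [he, he1, mul_pos he he, mul_nonneg (mul_nonneg he.le he.le) (by linarith : (0 : ℝ) ≤ 1 - eps)]
      calc (1 - 4 * eps - v) * (T' * c.Xn H) ≤
          ((1 - eps) * (1 - eps) * (1 - eps) - (eps + v)) * (T' * c.Xn H) :=
            mul_le_mul_of_nonneg_right h9 h8
        _ = _ := by ring
    linarith only [h6, h7, hBP, hLP, hsplit]
  by_cases hneg : 1 - 8 * eps - v ≤ 0
  · calc (1 - 8 * eps - v) * c.TT H * c.Xn H = (1 - 8 * eps - v) * (c.TT H * c.Xn H) := by ring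
      _ ≤ 0 := mul_nonpos_of_nonpos_of_nonneg hneg (mul_nonneg hTT0 hX0)
      _ ≤ _ := hP0
  · have hpos : 0 < 1 - 8 * eps - v := not_le.1 hneg
    refine le_of_mul_le_mul_left ?_ hlev0
    calc c.Lev th (c.p.W ^ s) H * ((1 - 8 * eps - v) * c.TT H * c.Xn H) ≤
        ((1 + eps) * (2 * y)) * ((1 - 8 * eps - v) * c.TT H * c.Xn H) :=
          mul_le_mul_of_nonneg_right hlev
            (mul_nonneg (mul_nonneg hpos.le hTT0) hX0)
      _ = ((1 + eps) * (1 - 8 * eps - v)) * (2 * y * c.TT H * c.Xn H) := by ring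
      _ ≤ (1 - 4 * eps - v) * (2 * y * c.TT H * c.Xn H) := by
          refine mul_le_mul_of_nonneg_right ?_ (by (clear * - hB1 hHH0 hTT0 hW hX0 hth; positivity))
          nlinarith only [he, hv0, mul_nonneg he.le hv0, mul_pos he he]
      _ = (1 - 4 * eps - v) * (T' * c.Xn H) := by rw [hJLT]
      _ ≤ _ := h5
      _ ≤ _ := hTR

end ConicHP
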