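import Pool.Agent.Lib.MP_e426f4_ag.C.CardCl
import Pool.Agent.Lib.MP_e426f4_ag.C.Trans
import Pool.Agent.Lib.MP_e426f4_ag.C.NLoc
import Pool.Agent.Lib.MP_e426f4_ag.C.FirstAux

/-! CONIC: upper bound for the first moment. -/

namespace ConicHP

open Finset GenHP Filter Topology

variable {S : Type*} [Fintype S]

private theorem s1b_num (N : ℕ) (hN : 0 < N) (e : ℝ) (he : 0 < e) (he1 : e ≤ 1 / 10) :
    (1 + e) * (1 + e / N) ^ N * (1 + e) ≤ (1 - e) * (1 + 8 * e) := by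
  have h1 := pow_le_quad N hN e he (by linarith)
  have h2 : (1 + e) * (1 + e) ≤ 1 + 21 / 10 * e := by nlinarith
  have h3 : 1 + e + e ^ 2 ≤ 1 + 11 / 10 * e := by nlinarith
  calc (1 + e) * (1 + e / N) ^ N * (1 + e) = (1 + e) * (1 + e) * (1 + e / N) ^ N := by ring
    _ ≤ (1 + 21 / 10 * e) * (1 + 11 / 10 * e) :=
        mul_le_mul h2 (h1.trans h3) (by positivity) (by positivity)
    _ ≤ (1 - e) * (1 + 8 * e) := by nlinarith

theorem S1_upper (c : CPar S) (eps bet : ℝ) (w : ℕ) (hc : c.Valid eps bet w)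
    (K : ℝ) (hK : 1 ≤ K) (r : ℝ) (hr : c.p.rho ≤ r) (hr2 : r ≤ 3 / 2 * c.p.rho) :
    ∀ᶠ H : ℝ in atTop,
      ((c.Pairs r K H).ncard : ℝ) ≤ (1 + 8 * eps) * c.TT H * (2 * r * H / c.p.Q) ^ MM S := by
  have hp := hc.pv
  have he := hp.eps_pos
  have he1 := hp.eps_le
  have hbet := hp.bet_pos
  have hkap := hp.kap_pos
  have hrho := hp.rho_pos
  have hW := hp.W_pos
  have hQ := hp.Q_pos
  have hP := hp.P_pos
  have hWr : (0 : ℝ) < c.p.W := by exact_mod_cast hW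
  have hQr : (0 : ℝ) < c.p.Q := by exact_mod_cast hQ
  have hPr : (0 : ℝ) < c.p.P := by exact_mod_cast hP
  have hgam : 0 < |c.p.gam| := lt_of_lt_of_le hbet hp.gam_ge
  have hr0 : 0 < r := hrho.trans_le hr
  obtain ⟨s, hs⟩ := hp.hens.2.1
  have hnQ : c.p.Q ∣ c.p.W ^ s := by rw [hs]
  have hS : 0 < Fintype.card S := card_pos c eps bet w hc
  have hSr : (1 : ℝ) ≤ Fintype.card S := by exact_mod_cast hS
  have hN : 0 < MM S := by
    unfold MM
    rw [Fintype.card_prod]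
    exact Nat.mul_pos (NN_pos 2 2) hS
  have hNr : (1 : ℝ) ≤ MM S := by exact_mod_cast hN
  have hN0 : (0 : ℝ) < MM S := by linarith
  set cs : ℝ := 9 * Fintype.card S with hcs
  have hc2 : (0 : ℝ) < cs := by positivity
  obtain ⟨th, hth, hth2, hth3⟩ : ∃ th : ℝ, 0 < th ∧ th ≤ c.p.kap * bet / 4 ∧
      th ≤ eps * c.p.rho / (cs * MM S) :=
    ⟨min (c.p.kap * bet / 4) (eps * c.p.rho / (cs * MM S)),
      lt_min (by positivity) (by positivity), min_le_left _ _, min_le_right _ _⟩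
  have hct : cs * th ≤ c.p.rho * (eps / MM S) := by
    rw [le_div_iff₀ (by positivity)] at hth3
    rw [mul_div_assoc', le_div_iff₀ hN0]
    linarith
  have heN : eps / MM S ≤ eps := div_le_self he.le hNr
  have heN0 : 0 < eps / MM S := by positivity
  have hr9 : r + cs * th ≤ r * (1 + eps / MM S) := by
    have := mul_le_mul_of_nonneg_right hr heN0.le
    linarith
  have hr9b : r + cs * th ≤ 8 / 5 * c.p.rho := by
    have h1 : c.p.rho * (eps / MM S) ≤ c.p.rho * (1 / 10) :=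
      mul_le_mul_of_nonneg_left (heN.trans he1) hrho.le
    linarith
  obtain ⟨B0, hB0⟩ := nloc c.p eps bet w hp th hth hth2 s hnQ 1 one_pos (Nat.coprime_one_left _)
  have hBt := BB_atTop c eps bet w hc
  filter_upwards [trans_upper c eps bet w hc K hK r th hth s hnQ,
    card_Cl c eps bet w hc (r + cs * th) eps (by positivity) he, hBt.eventually_ge_atTop 1,
    hBt.eventually_ge_atTop B0, HH_ge c eps bet w hc,
    eventually_y c eps bet w hc th eps hth he (c.p.W ^ s) (pow_pos hW s),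
    ev_near c eps bet w hc (r + cs * th) hr9b,
    eventually_ge_atTop (1 : ℝ)] with H hTR hCl hB1 hB0' hHH hy hnear hH1
  have hH0 : (0 : ℝ) < H := by linarith
  have hHH0 : 0 < c.HH H := by linarith
  have hB1' : (1 : ℝ) ≤ c.BB H := by exact_mod_cast hB1
  have hBpos : (0 : ℝ) < c.BB H := by linarith
  have hlev := clev_lower c eps th (c.p.W ^ s) H hy
  have hmt := LT_eq c th s H hHH0 hW
  have hT'nn : 0 ≤ c.LT th s H := by
    simp only [CPar.LT, Vol]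
    positivity
  have hTT1 : 0 ≤ c.T1 H := by
    simp only [CPar.T1]
    positivity
  have hTT0 : 0 ≤ c.TT H := by
    simp only [CPar.TT]
    positivity
  -- number of local pairs
  have hJ : (Set.Iio (JJ H)).ncard = JJ H := by
    rw [← Finset.coe_range, Set.ncard_coe_finset, Finset.card_range]
  have hLP : ((c.LP (r + cs * th) th s (c.GC K H) H).ncard : ℝ) ≤
      ((c.Cl (r + cs * th) H).ncard : ℝ) * ((1 + eps) * ((JJ H : ℝ) * c.LT th s H)) := by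
    have hfin : (Set.Iio (JJ H) ×ˢ c.GC K H).Finite := (Set.finite_Iio _).prod (GC_finite c K H)
    have e1 : c.LP (r + cs * th) th s (c.GC K H) H =
        {q : (Idx 2 2 × S → ℤ) × (ℕ × (Fin 3 → ℤ)) | q.1 ∈ c.Cl (r + cs * th) H ∧
          q.2 ∈ Set.Iio (JJ H) ×ˢ c.GC K H ∧ (((c.p.W : ℤ) ^ s) ∣ F (ev q.1 (c.vv H q.2.1)) q.2.2 ∧
          |((F (ev q.1 (c.vv H q.2.1)) q.2.2 : ℤ) : ℝ)| ≤ th * c.HH H * (c.BB H : ℝ) ^ 2)} := by
      ext q
      simp only [CPar.LP, Set.mem_ofPred_eq, Set.mem_prod, Set.mem_Iio]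
      tauto
    rw [e1]
    refine ncard_pairs_le (c.Cl (r + cs * th) H) (Cl_finite c _ H) _ hfin
      (fun A q => ((c.p.W : ℤ) ^ s) ∣ F (ev A (c.vv H q.1)) q.2 ∧
          |((F (ev A (c.vv H q.1)) q.2 : ℤ) : ℝ)| ≤ th * c.HH H * (c.BB H : ℝ) ^ 2) _ ?_
    intro A hA
    have e2 : {x : ℕ × (Fin 3 → ℤ) | x ∈ Set.Iio (JJ H) ×ˢ c.GC K H ∧
        (((c.p.W : ℤ) ^ s) ∣ F (ev A (c.vv H x.1)) x.2 ∧
          |((F (ev A (c.vv H x.1)) x.2 : ℤ) : ℝ)| ≤ th * c.HH H * (c.BB H : ℝ) ^ 2)} =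
        {x | x.1 ∈ Set.Iio (JJ H) ∧ x.2 ∈ c.GC K H ∧ (((c.p.W : ℤ) ^ s) ∣ F (ev A (c.vv H x.1)) x.2 ∧
          |((F (ev A (c.vv H x.1)) x.2 : ℤ) : ℝ)| ≤ th * c.HH H * (c.BB H : ℝ) ^ 2)} := by
      ext q
      simp only [Set.mem_ofPred_eq, Set.mem_prod]
      tauto
    rw [e2]
    have h0 := ncard_pairs_le (Set.Iio (JJ H)) (Set.finite_Iio _) (c.GC K H) (GC_finite c K H)
      (fun i x => ((c.p.W : ℤ) ^ s) ∣ F (ev A (c.vv H i)) x ∧
          |((F (ev A (c.vv H i)) x : ℤ) : ℝ)| ≤ th * c.HH H * (c.BB H : ℝ) ^ 2)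
      ((1 + eps) * c.LT th s H) ?_
    · rw [hJ] at h0
      refine h0.trans (le_of_eq ?_)
      ring
    intro i hi
    obtain ⟨hn1, hn2⟩ := hnear i hi A hA
    have h1 := (hB0 (c.BB H) hB0' (c.HH H) hHH0 (ev A (c.vv H i)) hn1 hn2 (fun _ => 0)).2
    have h2 : (((1 : ℕ) : ℝ)) ^ (2 + 1) = 1 := by simp
    rw [h2, div_one] at h1
    refine le_trans ?_ h1
    have h3 : {x | x ∈ c.GC K H ∧ (((c.p.W : ℤ) ^ s) ∣ F (ev A (c.vv H i)) x ∧
          |((F (ev A (c.vv H i)) x : ℤ) : ℝ)| ≤ th * c.HH H * (c.BB H : ℝ) ^ 2)} ⊆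
        {x : Fin (2 + 1) → ℤ | x ∈ c.p.XX (c.BB H) ∧ ((c.p.W : ℤ) ^ s) ∣ F (ev A (c.vv H i)) x ∧
          |((F (ev A (c.vv H i)) x : ℤ) : ℝ)| ≤ th * c.HH H * (c.BB H : ℝ) ^ 2 ∧
          ∀ i, ((1 : ℕ) : ℤ) ∣ x i - 0} := by
      intro x hx
      exact ⟨hx.1.1, hx.2.1, hx.2.2, fun i => by simp⟩
    have h4 := Set.ncard_le_ncard h3 ((XX_finite c (c.BB H)).subset fun _ hx => hx.1)
    exact_mod_cast h4
  have hX : (2 * (r + cs * th) * H / c.p.Q) ^ MM S ≤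
      (1 + eps / MM S) ^ MM S * (2 * r * H / c.p.Q) ^ MM S := by
    rw [← mul_pow]
    refine pow_le_pow_left₀ (by positivity) ?_ _
    rw [mul_div_assoc', div_le_div_iff_of_pos_right hQr]
    nlinarith [mul_le_mul_of_nonneg_right hr9 hH0.le]
  set X : ℝ := (2 * r * H / c.p.Q) ^ MM S with hXdef
  have hX0 : 0 ≤ X := by positivity
  have hP0 : (0 : ℝ) ≤ ((c.Pairs r K H).ncard : ℝ) := Nat.cast_nonneg _
  push_cast at hlev
  set y : ℝ := th * c.HH H * (c.BB H : ℝ) ^ 2 / (c.p.W : ℝ) ^ s with hydef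
  have hy0 : 0 < y := by positivity
  have hJLT : (JJ H : ℝ) * c.LT th s H = 2 * y * c.TT H := by
    rw [hmt]
    simp only [CPar.TT]
    ring
  have h5 : (1 - eps) * (2 * y) * ((c.Pairs r K H).ncard : ℝ) ≤
      (1 - eps) * (2 * y) * ((1 + 8 * eps) * c.TT H * X) := by
    calc (1 - eps) * (2 * y) * ((c.Pairs r K H).ncard : ℝ) ≤
        c.Lev th (c.p.W ^ s) H * ((c.Pairs r K H).ncard : ℝ) := mul_le_mul_of_nonneg_right hlev hP0
      _ ≤ _ := hTR
      _ ≤ _ := hLP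
      _ ≤ ((1 + eps) * (2 * (r + cs * th) * H / c.p.Q) ^ MM S) *
          ((1 + eps) * ((JJ H : ℝ) * c.LT th s H)) :=
          mul_le_mul_of_nonneg_right hCl.2 (by positivity)
      _ ≤ ((1 + eps) * ((1 + eps / MM S) ^ MM S * X)) *
          ((1 + eps) * ((JJ H : ℝ) * c.LT th s H)) := by gcongr
      _ = (1 + eps) * (1 + eps / MM S) ^ MM S * (1 + eps) * (2 * y * c.TT H * X) := by
          rw [hJLT]
          ring
      _ ≤ (1 - eps) * (1 + 8 * eps) * (2 * y * c.TT H * X) :=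
          mul_le_mul_of_nonneg_right (s1b_num _ hN eps he he1) (by positivity)
      _ = _ := by ring
  have h6 : 0 < (1 - eps) * (2 * y) := mul_pos (by linarith) (by positivity)
  exact le_of_mul_le_mul_left h5 h6

end ConicHP
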