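import Pool.Agent.Lib.MP_e426f4_ag.C.Defs
import Pool.Agent.Lib.MP_e426f4_ag.C.Ev
import Pool.Agent.Lib.MP_e426f4_ag.C.Points
import Pool.Agent.Lib.MP_e426f4_ag.G.Basic
import Pool.Agent.Lib.MP_e426f4_ag.G.Minors

/-! Auxiliary facts for the small parts of the second moment. -/

namespace ConicHP

open Finset GenHP Filter Topology

/-- counting pairs by fibres -/
theorem sec_card_fib {α β : Type*} (T0 : Set (α × β)) (hT0 : T0.Finite) (T : Finset β)
    (hT : ∀ q ∈ T0, q.2 ∈ T) (N : β → Set α) (hN : ∀ b ∈ T, (N b).Finite)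
    (hSN : ∀ q ∈ T0, q.1 ∈ N q.2) : (T0.ncard : ℝ) ≤ ∑ b ∈ T, ((N b).ncard : ℝ) := by
  classical
  rw [Set.ncard_eq_toFinset_card _ hT0, Finset.card_eq_sum_card_fiberwise (f := fun q => q.2)
    (t := T) (fun q hq => hT q (by simpa using hq))]
  push_cast
  refine Finset.sum_le_sum fun b hb => ?_
  rw [Set.ncard_eq_toFinset_card _ (hN b hb)]
  refine Nat.cast_le.mpr (Finset.card_le_card_of_injOn (fun q => q.1) (fun q hq => ?_)
    (fun q hq q' hq' h => ?_))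
  · simp only [Finset.coe_filter, Set.Finite.mem_toFinset, Set.mem_setOf_eq] at hq
    simp only [Set.Finite.coe_toFinset]
    rw [← hq.2]
    exact hSN q hq.1
  · simp only [Finset.coe_filter, Set.Finite.mem_toFinset, Set.mem_setOf_eq] at hq hq'
    exact Prod.ext h (hq.2.trans hq'.2.symm)

/-- minors of vectors of a box -/
theorem sec_dl_lt (B : ℕ) (hB : 1 ≤ B) (x y : Fin 3 → ℤ) (hx : ∀ i, |(x i : ℝ)| ≤ 2 * B)
    (hy : ∀ i, |(y i : ℝ)| ≤ 2 * B) : (dl x y : ℝ) < 9 * (B : ℝ) ^ 2 := by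
  obtain ⟨a, b, hab, -⟩ := exists_minor_eq_dl x y
  rw [← hab]
  have hB1 : (1 : ℝ) ≤ B := by exact_mod_cast hB
  have h1 : ((minor x y a b).natAbs : ℝ) = |(x a : ℝ) * y b - x b * y a| := by
    rw [Nat.cast_natAbs, Int.cast_abs]
    unfold minor
    push_cast
    rfl
  rw [h1]
  have h2 : |(x a : ℝ) * y b| ≤ 2 * B * (2 * B) := by
    rw [abs_mul]
    exact mul_le_mul (hx a) (hy b) (abs_nonneg _) (by positivity)
  have h3 : |(x b : ℝ) * y a| ≤ 2 * B * (2 * B) := by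
    rw [abs_mul]
    exact mul_le_mul (hx b) (hy a) (abs_nonneg _) (by positivity)
  have h4 : |(x a : ℝ) * y b - x b * y a| ≤ |(x a : ℝ) * y b| + |(x b : ℝ) * y a| :=
    abs_sub _ _
  nlinarith

variable {S : Type*} [Fintype S]

theorem sec_Cl_abs_le (c : CPar S) (eps bet : ℝ) (w : ℕ) (hc : c.Valid eps bet w) (H : ℝ)
    (hH : 0 ≤ H) (A : Idx 2 2 × S → ℤ) (hA : A ∈ c.Cl c.p.rho H) (m : Idx 2 2 × S) :
    |(A m : ℝ)| ≤ 3 * H := by
  have h1 := hA.1 m
  have h3 := hc.AC_le m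
  have h4 := hc.pv.rho_le
  calc |(A m : ℝ)| = |((A m : ℝ) - H * c.AC m) + H * c.AC m| := by ring_nf
    _ ≤ |(A m : ℝ) - H * c.AC m| + |H * c.AC m| := abs_add_le _ _
    _ ≤ c.p.rho * H + H * 1 := by
        rw [abs_mul, abs_of_nonneg hH]
        exact add_le_add h1 (mul_le_mul_of_nonneg_left h3 hH)
    _ ≤ 3 * H := by nlinarith

theorem sec_card_GC (c : CPar S) (eps bet : ℝ) (w : ℕ) (hc : c.Valid eps bet w) (K H : ℝ)
    (hB : 1 ≤ c.BB H) :
    ((GC_finite c K H).toFinset.card : ℝ) ≤ 125 * (c.BB H : ℝ) ^ 3 := by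
  have hB1 : (1 : ℝ) ≤ c.BB H := by exact_mod_cast hB
  have h3 : (GC_finite c K H).toFinset ⊆ boxn 2 (2 * c.BB H) := by
    intro x hx
    rw [Set.Finite.mem_toFinset] at hx
    rw [mem_boxn]
    intro i
    have := (mem_XX_bounds c.p eps bet w hc.pv (c.BB H) x hx.1 i).1
    exact_mod_cast this
  have h4 : (GC_finite c K H).toFinset.card ≤ (4 * c.BB H + 1) ^ 3 := by
    refine (Finset.card_le_card h3).trans ?_
    rw [card_boxn]
    apply le_of_eq
    ring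
  have h5 : ((GC_finite c K H).toFinset.card : ℝ) ≤ (4 * (c.BB H : ℝ) + 1) ^ 3 := by
    exact_mod_cast h4
  refine h5.trans ?_
  calc (4 * (c.BB H : ℝ) + 1) ^ 3 ≤ (5 * (c.BB H : ℝ)) ^ 3 := by
        apply pow_le_pow_left₀ (by positivity); linarith
    _ = 125 * (c.BB H : ℝ) ^ 3 := by ring

theorem sec_sep (c : CPar S) (eps bet : ℝ) (w : ℕ) (hc : c.Valid eps bet w) (J i i' : ℕ)
    (h : i ≠ i') : ∃ a : S → ℤ, ∑ s, a s * c.v J i s = 0 ∧
      ∑ s, a s * c.v J i' s = ((c.D0 * ((i : ℤ) - i').natAbs : ℕ) : ℤ) := by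
  obtain ⟨a, h1, h2⟩ := hc.fam.sep J i i' h
  rcases le_total 0 ((i : ℤ) - i') with h3 | h3
  · refine ⟨a, h1, ?_⟩
    rw [h2]
    push_cast
    rw [abs_of_nonneg h3]
  · refine ⟨fun s => -a s, ?_, ?_⟩
    · simp only [neg_mul, Finset.sum_neg_distrib]
      rw [h1, neg_zero]
    · simp only [neg_mul, Finset.sum_neg_distrib]
      rw [h2]
      push_cast
      rw [abs_of_nonpos h3]
      ring

theorem sec_sep_pos (c : CPar S) (eps bet : ℝ) (w : ℕ) (hc : c.Valid eps bet w) (i i' : ℕ)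
    (h : i ≠ i') : 0 < c.D0 * ((i : ℤ) - i').natAbs := by
  refine Nat.mul_pos hc.fam.D0_pos ?_
  rw [Int.natAbs_pos]
  omega

end ConicHP
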