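import Pool.Agent.Lib.MP_e426f4_ag.C.Defs
import Pool.Agent.Lib.MP_e426f4_ag.G.SumBad

/-! C-SP: the sum over the second point, `n = 2`. -/

namespace ConicHP

open Finset GenHP Filter Topology

/-- The linear forms orthogonal to `x`, divided by the gcd of the minors. -/
theorem SP_aux (n : ℕ) (hn : 2 ≤ n) (K : ℝ) (hK : 1 ≤ K) (B : ℕ) (hB : 1 ≤ B)
    (x : Fin (n + 1) → ℤ) (hx : Prim x) (i0 : Fin (n + 1))
    (hi0 : (B : ℝ) / 2 ≤ |(x i0 : ℝ)|) (hg : Good K B x) :
    ∃ z : (Fin (n + 1) → ℤ) → Fin n → ℤ,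
      (∀ y, 0 < dl x y → z y ≠ 0) ∧
      (∀ y, (mg x y : ℝ) * nn (z y) ≤
        (2 * ((n : ℝ) + 1)) * (K * (B : ℝ) ^ (1 / (n : ℝ))) * dl x y / B) ∧
      ∀ S : Finset (Fin (n + 1) → ℤ), (∀ y ∈ S, y ∈ boxn n (2 * B)) →
        ∀ p ∈ S.image (fun y => (mg x y, z y)),
          (S.filter fun a => (mg x a, z a) = p).card ≤ 17 := by
  classical
  obtain ⟨A, hA⟩ : ∃ A : ℝ, A = 2 * ((n : ℝ) + 1) := ⟨_, rfl⟩
  have hA0 : 0 < A := by rw [hA]; positivity
  obtain ⟨l, hl, hlx, hlmu⟩ := hg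
  set mu : ℝ := K * (B : ℝ) ^ (1 / (n : ℝ)) with hmu
  have hB0 : (0 : ℝ) < B := by exact_mod_cast hB
  have hmu0 : 0 < mu := by positivity
  choose z hz using SB2_exists_quot x hx l hlx
  have hx0 : (fun i => (x i : ℝ)) ≠ 0 := by
    intro h
    have h1 := congrFun h i0
    simp only [Pi.zero_apply] at h1
    rw [h1, abs_zero] at hi0
    linarith
  have hlxR : ∀ k, ∑ i, (l k i : ℝ) * (x i : ℝ) = 0 := fun k => by exact_mod_cast hlx k
  -- basic facts for a single point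
  have hzne : ∀ y, 0 < dl x y → z y ≠ 0 := by
    intro y hy hzero
    have h1 : ∀ k, ∑ i, (l k i : ℝ) * (y i : ℝ) = 0 := by
      intro k
      have := hz y k
      rw [hzero] at this
      simp only [Pi.zero_apply, mul_zero] at this
      exact_mod_cast this
    obtain ⟨c, hc⟩ := SB2_orth_prop _ hl _ _ hx0 hlxR h1
    have h2 : dl x y = 0 := by
      apply SB2_dl_eq_zero_of
      intro a b
      have : ((minor x y a b : ℤ) : ℝ) = 0 := by
        unfold minor
        push_cast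
        rw [hc a, hc b]
        ring
      exact_mod_cast this
    omega
  have hzdl : ∀ y k, |((mg x y : ℝ) * (z y k : ℝ))| ≤ A * mu * dl x y / B := by
    intro y k
    have h1 : (x i0 : ℝ) * ((mg x y : ℝ) * (z y k : ℝ)) =
        ∑ a, (l k a : ℝ) * ((minor x y i0 a : ℤ) : ℝ) := by
      have h2 : ((mg x y : ℝ) * (z y k : ℝ)) = ∑ i, (l k i : ℝ) * (y i : ℝ) := by
        have := hz y k
        have h3 : (((∑ i, l k i * y i : ℤ)) : ℝ) = (((mg x y : ℤ) * z y k : ℤ) : ℝ) := by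
          rw [this]
        push_cast at h3
        exact h3.symm
      have h4 : ∑ a, (l k a : ℝ) * ((minor x y i0 a : ℤ) : ℝ) =
          (x i0 : ℝ) * ∑ i, (l k i : ℝ) * (y i : ℝ) - (y i0 : ℝ) * ∑ i, (l k i : ℝ) * (x i : ℝ) := by
        rw [Finset.mul_sum, Finset.mul_sum, ← Finset.sum_sub_distrib]
        refine Finset.sum_congr rfl fun i _ => ?_
        unfold minor
        push_cast
        ring
      rw [h4, hlxR k, h2]
      ring
    have h5 : |(x i0 : ℝ) * ((mg x y : ℝ) * (z y k : ℝ))| ≤ ((n : ℝ) + 1) * mu * dl x y := by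
      rw [h1]
      calc |∑ a, (l k a : ℝ) * ((minor x y i0 a : ℤ) : ℝ)|
          ≤ ∑ a : Fin (n + 1), |(l k a : ℝ) * ((minor x y i0 a : ℤ) : ℝ)| :=
            Finset.abs_sum_le_sum_abs _ _
        _ ≤ ∑ _a : Fin (n + 1), mu * dl x y := by
            refine Finset.sum_le_sum fun a _ => ?_
            rw [abs_mul]
            have h6 : |((minor x y i0 a : ℤ) : ℝ)| ≤ (dl x y : ℝ) := by
              have := SB2_minor_le_dl x y i0 a
              exact_mod_cast this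
            exact mul_le_mul (hlmu k a) h6 (abs_nonneg _) hmu0.le
        _ = ((n : ℝ) + 1) * mu * dl x y := by simp; ring
    rw [abs_mul] at h5
    have h6 : (B : ℝ) / 2 * |(mg x y : ℝ) * (z y k : ℝ)| ≤ ((n : ℝ) + 1) * mu * dl x y :=
      (mul_le_mul_of_nonneg_right hi0 (abs_nonneg _)).trans h5
    rw [le_div_iff₀ hB0, hA]
    linarith
  have hnndl : ∀ y, (mg x y : ℝ) * nn (z y) ≤ A * mu * dl x y / B := by
    intro y
    have h1 : (nn (fun k => (mg x y : ℤ) * z y k) : ℝ) ≤ A * mu * dl x y / B := by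
      apply SB2_nn_le (by omega)
      intro k
      have := hzdl y k
      push_cast
      exact this
    rw [SB2_nn_mul (by omega)] at h1
    push_cast at h1
    exact h1
  rw [← hA]
  refine ⟨z, hzne, hnndl, ?_⟩
  intro S hS p hp
  obtain ⟨y0, hy0, hyp⟩ := Finset.mem_image.1 hp
  have hsub : (S.filter fun a => (mg x a, z a) = p) ⊆
      (Finset.Icc (-8 : ℤ) 8).image (fun k => fun i => y0 i + k * x i) := by
    intro y hy
    rw [Finset.mem_filter] at hy
    obtain ⟨hyS, hyp'⟩ := hy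
    rw [← hyp] at hyp'
    have hm : mg x y = mg x y0 := congrArg Prod.fst hyp'
    have hzz : z y = z y0 := congrArg Prod.snd hyp'
    have horth : ∀ k, ∑ i, (l k i : ℝ) * ((y i : ℝ) - (y0 i : ℝ)) = 0 := by
      intro k
      have e1 := hz y k
      have e2 := hz y0 k
      rw [hm, hzz, ← e2] at e1
      have e3 : ∑ i, (l k i : ℝ) * (y i : ℝ) = ∑ i, (l k i : ℝ) * (y0 i : ℝ) := by
        exact_mod_cast e1
      have e4 : ∑ i, (l k i : ℝ) * ((y i : ℝ) - (y0 i : ℝ)) =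
          ∑ i, (l k i : ℝ) * (y i : ℝ) - ∑ i, (l k i : ℝ) * (y0 i : ℝ) := by
        rw [← Finset.sum_sub_distrib]
        exact Finset.sum_congr rfl fun i _ => by ring
      rw [e4, e3, sub_self]
    obtain ⟨c, hc⟩ := SB2_orth_prop _ hl _ (fun i => (y i : ℝ) - (y0 i : ℝ)) hx0 hlxR horth
    obtain ⟨u, hu⟩ := hx
    have hcint : c = ((∑ i, u i * (y i - y0 i) : ℤ) : ℝ) := by
      push_cast
      have e5 : ∑ i, (u i : ℝ) * ((y i : ℝ) - (y0 i : ℝ)) = c * ∑ i, (u i : ℝ) * (x i : ℝ) := by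
        rw [Finset.mul_sum]
        refine Finset.sum_congr rfl fun i _ => ?_
        have := hc i
        rw [this]
        ring
      have e6 : ∑ i, (u i : ℝ) * (x i : ℝ) = 1 := by exact_mod_cast hu
      rw [e5, e6, mul_one]
    set nz : ℤ := ∑ i, u i * (y i - y0 i) with hnz
    have hyx : ∀ i, y i = y0 i + nz * x i := by
      intro i
      have := hc i
      rw [hcint] at this
      have e7 : ((y i : ℤ) : ℝ) = ((y0 i + nz * x i : ℤ) : ℝ) := by
        push_cast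
        linarith
      exact_mod_cast e7
    have hyb := mem_boxn.1 (hS y hyS) i0
    have hyb0 := mem_boxn.1 (hS y0 hy0) i0
    have e8 : |(nz : ℝ)| * ((B : ℝ) / 2) ≤ 4 * B := by
      calc |(nz : ℝ)| * ((B : ℝ) / 2) ≤ |(nz : ℝ)| * |(x i0 : ℝ)| :=
            mul_le_mul_of_nonneg_left hi0 (abs_nonneg _)
        _ = |(nz : ℝ) * (x i0 : ℝ)| := (abs_mul _ _).symm
        _ = |(y i0 : ℝ) - (y0 i0 : ℝ)| := by
            congr 1
            rw [hyx i0]
            push_cast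
            ring
        _ ≤ |(y i0 : ℝ)| + |(y0 i0 : ℝ)| := abs_sub _ _
        _ ≤ 2 * B + 2 * B := by
            have a1 : |(y i0 : ℝ)| ≤ 2 * (B : ℝ) := by exact_mod_cast hyb
            have a2 : |(y0 i0 : ℝ)| ≤ 2 * (B : ℝ) := by exact_mod_cast hyb0
            linarith
        _ = 4 * B := by ring
    have e9 : |(nz : ℝ)| ≤ 8 := by
      by_contra hcon
      push Not at hcon
      nlinarith
    have e10 : |nz| ≤ 8 := by exact_mod_cast e9
    rw [abs_le] at e10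
    rw [Finset.mem_image]
    exact ⟨nz, Finset.mem_Icc.2 e10, by ext i; exact (hyx i).symm⟩
  calc (S.filter fun a => (mg x a, z a) = p).card ≤ _ := Finset.card_le_card hsub
    _ ≤ (Finset.Icc (-8 : ℤ) 8).card := Finset.card_image_le
    _ = 17 := by rfl

theorem sum_phi : ∃ C : ℝ, 1 ≤ C ∧ ∀ (K : ℝ), 1 ≤ K → ∀ B : ℕ, 1 ≤ B →
    ∀ x : Fin 3 → ℤ, Prim x → (∀ i, |(x i : ℝ)| ≤ 2 * B) →
    ∀ i0 : Fin 3, (B : ℝ) / 2 ≤ |(x i0 : ℝ)| → Good K B x →
    ∀ tau : ℝ, 0 < tau → tau ≤ 9 → ∀ phi : ℕ → ℝ, (∀ m, 0 ≤ phi m) →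
    ∑ y ∈ (boxn 2 (2 * B)).filter (fun y => 0 < dl x y ∧ (dl x y : ℝ) < tau * (B : ℝ) ^ 2),
      phi (mg x y) / dl x y ≤
      C * K ^ 2 * tau * B * ∑ m ∈ Icc 1 ⌊C * K * (B : ℝ) ^ 2⌋₊, phi m / (m : ℝ) ^ 2 := by
  classical
  obtain ⟨Cb, hCb, hsum⟩ := sum_inv_nn 2 le_rfl
  refine ⟨612 * Cb + 54, by linarith, ?_⟩
  intro K hK B hB x hx hx2 i0 hi0 hg tau ht ht9 phi hphi
  obtain ⟨z, hzne, hnndl, hfib⟩ := SP_aux 2 le_rfl K hK B hB x hx i0 hi0 hg
  have hB0 : (0 : ℝ) < B := by exact_mod_cast hB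
  have hB1 : (1 : ℝ) ≤ B := by exact_mod_cast hB
  have hK0 : 0 < K := by linarith
  set mu : ℝ := K * (B : ℝ) ^ (1 / ((2 : ℕ) : ℝ)) with hmu
  have hmu0 : 0 < mu := by positivity
  have hmu2 : mu ^ 2 = K ^ 2 * B := by
    rw [hmu, mul_pow, ← Real.rpow_natCast ((B : ℝ) ^ (1 / ((2 : ℕ) : ℝ))) 2,
      ← Real.rpow_mul hB0.le]
    norm_num
  have hmuB : mu ≤ K * B := by
    rw [hmu]
    apply mul_le_mul_of_nonneg_left _ hK0.le
    calc (B : ℝ) ^ (1 / ((2 : ℕ) : ℝ)) ≤ (B : ℝ) ^ (1 : ℝ) :=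
          Real.rpow_le_rpow_of_exponent_le hB1 (by norm_num)
      _ = B := Real.rpow_one _
  have hA : (2 * (((2 : ℕ) : ℝ) + 1)) = 6 := by norm_num
  rw [hA] at hnndl
  set S := (boxn 2 (2 * B)).filter
    (fun y => 0 < dl x y ∧ (dl x y : ℝ) < tau * (B : ℝ) ^ 2) with hS
  set Y : ℝ := 6 * mu * tau * B with hY
  have hY0 : 0 < Y := by positivity
  -- facts on the members of `S`
  have hm : ∀ y ∈ S, 1 ≤ mg x y ∧ 1 ≤ nn (z y) ∧ (mg x y : ℝ) * nn (z y) ≤ Y := by
    intro y hy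
    rw [hS, Finset.mem_filter] at hy
    refine ⟨mg_pos_of_dl_pos x y hy.2.1, SB2_nn_pos _ (hzne y hy.2.1), ?_⟩
    calc (mg x y : ℝ) * nn (z y) ≤ 6 * mu * dl x y / B := hnndl y
      _ ≤ 6 * mu * (tau * (B : ℝ) ^ 2) / B := by
          apply div_le_div_of_nonneg_right _ hB0.le
          exact mul_le_mul_of_nonneg_left hy.2.2.le (by positivity)
      _ = Y := by rw [hY]; field_simp
  -- step 1
  have h1 : ∑ y ∈ S, phi (mg x y) / dl x y ≤
      ∑ y ∈ S, (6 * mu / B) * (phi (mg x y) / (mg x y * nn (z y))) := by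
    refine Finset.sum_le_sum fun y hy => ?_
    obtain ⟨hm1, hn1, _⟩ := hm y hy
    rw [hS, Finset.mem_filter] at hy
    have hd' : (0 : ℝ) < dl x y := by exact_mod_cast hy.2.1
    have hm' : (0 : ℝ) < mg x y := by exact_mod_cast hm1
    have hn' : (0 : ℝ) < nn (z y) := by exact_mod_cast hn1
    have e1 := hnndl y
    rw [← mul_div_assoc, div_le_div_iff₀ hd' (by positivity)]
    calc phi (mg x y) * ((mg x y : ℝ) * nn (z y)) ≤ phi (mg x y) * (6 * mu * dl x y / B) :=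
          mul_le_mul_of_nonneg_left e1 (hphi _)
      _ = 6 * mu / B * phi (mg x y) * dl x y := by ring
  -- step 2: fibres
  have h2 : ∑ y ∈ S, phi (mg x y) / (mg x y * nn (z y)) ≤ (17 : ℕ) *
      ∑ p ∈ S.image (fun y => (mg x y, z y)), phi p.1 / (p.1 * nn p.2) := by
    refine SB2_sum_le_fibre S (fun y => (mg x y, z y))
      (fun p => phi p.1 / (p.1 * nn p.2)) ?_ 17 ?_
    · intro p _
      have := hphi p.1
      positivity
    · intro p hp
      exact hfib S (fun y hy => (Finset.mem_filter.mp hy).1) p hp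
  -- step 3: group by the first coordinate
  set N : ℕ := ⌊(612 * Cb + 54) * K * (B : ℝ) ^ 2⌋₊ with hN
  set Im := S.image (fun y => (mg x y, z y)) with hIm
  have hmaps : ∀ p ∈ Im, p.1 ∈ Icc 1 N := by
    intro p hp
    obtain ⟨y, hy, rfl⟩ := Finset.mem_image.1 hp
    obtain ⟨hm1, hn1, hmn⟩ := hm y hy
    rw [Finset.mem_Icc]
    refine ⟨hm1, Nat.le_floor ?_⟩
    have e1 : (mg x y : ℝ) ≤ (mg x y : ℝ) * nn (z y) := by
      have : (1 : ℝ) ≤ nn (z y) := by exact_mod_cast hn1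
      exact le_mul_of_one_le_right (Nat.cast_nonneg _) this
    calc ((mg x y : ℕ) : ℝ) ≤ Y := e1.trans hmn
      _ ≤ 6 * (K * B) * 9 * B := by
          rw [hY]
          apply mul_le_mul_of_nonneg_right _ hB0.le
          exact mul_le_mul (mul_le_mul_of_nonneg_left hmuB (by norm_num)) ht9 ht.le (by positivity)
      _ = 54 * K * (B : ℝ) ^ 2 := by ring
      _ ≤ (612 * Cb + 54) * K * (B : ℝ) ^ 2 := by
          apply mul_le_mul_of_nonneg_right _ (by positivity)
          apply mul_le_mul_of_nonneg_right _ hK0.le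
          linarith
  have h3 : ∑ p ∈ Im, phi p.1 / (p.1 * nn p.2) ≤
      ∑ m ∈ Icc 1 N, Cb * Y * (phi m / (m : ℝ) ^ 2) := by
    rw [← Finset.sum_fiberwise_of_maps_to hmaps]
    refine Finset.sum_le_sum fun m hmN => ?_
    have hm1 : 1 ≤ m := (Finset.mem_Icc.mp hmN).1
    have hm0 : (0 : ℝ) < m := by exact_mod_cast hm1
    have e1 : ∑ p ∈ Im.filter (fun p => p.1 = m), phi p.1 / (p.1 * nn p.2)
        = ∑ w ∈ (Im.filter (fun p => p.1 = m)).image Prod.snd, phi m / m * (1 / nn w) := by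
      rw [Finset.sum_image]
      · refine Finset.sum_congr rfl fun p hp => ?_
        rw [(Finset.mem_filter.mp hp).2]
        rw [div_mul_div_comm, mul_one]
      · intro p hp p' hp' h
        exact Prod.ext ((Finset.mem_filter.mp hp).2.trans (Finset.mem_filter.mp hp').2.symm) h
    rw [e1, ← Finset.mul_sum]
    have e2 := hsum (Y / m) ((Im.filter (fun p => p.1 = m)).image Prod.snd) (by positivity) (by
      intro w hw
      obtain ⟨p, hp, rfl⟩ := Finset.mem_image.1 hw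
      rw [Finset.mem_filter] at hp
      obtain ⟨y, hy, hyp⟩ := Finset.mem_image.1 hp.1
      have hpm := hp.2
      subst hyp
      simp only at hpm ⊢
      obtain ⟨hm1', hn1, hmn⟩ := hm y hy
      refine ⟨?_, ?_⟩
      · rw [hS, Finset.mem_filter] at hy
        exact hzne y hy.2.1
      · rw [le_div_iff₀ hm0]
        rw [hpm] at hmn
        linarith)
    have e3 : (Y / m) ^ (2 - 1) = Y / m := by norm_num
    rw [e3] at e2
    calc phi m / m * ∑ w ∈ (Im.filter (fun p => p.1 = m)).image Prod.snd, (1 : ℝ) / nn w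
        ≤ phi m / m * (Cb * (Y / m)) :=
          mul_le_mul_of_nonneg_left e2 (div_nonneg (hphi m) hm0.le)
      _ = Cb * Y * (phi m / (m : ℝ) ^ 2) := by ring
  -- assemble
  have hphisum : 0 ≤ ∑ m ∈ Icc 1 N, phi m / (m : ℝ) ^ 2 :=
    Finset.sum_nonneg fun m _ => div_nonneg (hphi m) (by positivity)
  calc ∑ y ∈ S, phi (mg x y) / dl x y
      ≤ ∑ y ∈ S, (6 * mu / B) * (phi (mg x y) / (mg x y * nn (z y))) := h1
    _ = (6 * mu / B) * ∑ y ∈ S, phi (mg x y) / (mg x y * nn (z y)) := by rw [Finset.mul_sum]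
    _ ≤ (6 * mu / B) * ((17 : ℕ) * ∑ m ∈ Icc 1 N, Cb * Y * (phi m / (m : ℝ) ^ 2)) := by
        apply mul_le_mul_of_nonneg_left _ (by positivity)
        exact h2.trans (mul_le_mul_of_nonneg_left h3 (by positivity))
    _ = 612 * Cb * K ^ 2 * tau * B * ∑ m ∈ Icc 1 N, phi m / (m : ℝ) ^ 2 := by
        rw [← Finset.mul_sum, hY]
        have : (6 * mu / B) * (((17 : ℕ) : ℝ) * (Cb * (6 * mu * tau * B) *
            ∑ m ∈ Icc 1 N, phi m / (m : ℝ) ^ 2))
            = 612 * Cb * mu ^ 2 * tau * ∑ m ∈ Icc 1 N, phi m / (m : ℝ) ^ 2 := by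
          push_cast
          field_simp
          ring
        rw [this, hmu2]
        ring
    _ ≤ (612 * Cb + 54) * K ^ 2 * tau * B * ∑ m ∈ Icc 1 N, phi m / (m : ℝ) ^ 2 := by
        apply mul_le_mul_of_nonneg_right _ hphisum
        apply mul_le_mul_of_nonneg_right _ hB0.le
        apply mul_le_mul_of_nonneg_right _ ht.le
        apply mul_le_mul_of_nonneg_right _ (by positivity)
        linarith

end ConicHP
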