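import Pool.Agent.Lib.MP_e426f4_ag.C.CrudeB
import Pool.Agent.Lib.MP_e426f4_ag.C.Defs
import Pool.Agent.Lib.MP_e426f4_ag.C.Ev
import Pool.Agent.Lib.MP_e426f4_ag.C.Lin
import Pool.Agent.Lib.MP_e426f4_ag.C.Points
import Pool.Agent.Lib.MP_e426f4_ag.C.Arith
import Pool.Agent.Lib.MP_e426f4_ag.C.SumPhi
import Pool.Agent.Lib.MP_e426f4_ag.C.Heights
import Pool.Agent.Lib.MP_e426f4_ag.C.SecAux

/-! Module C-S2B: bad pairs of points in different fibres contribute little. -/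

namespace ConicHP

open Finset GenHP Filter Topology

variable {S : Type*} [Fintype S]

/-- rearrangement of a sum over pairs of pairs -/
private theorem s2b_swap {V : Type*} (J : ℕ) (GF Bx : Finset V) (P : V → V → Prop)
    [∀ x y, Decidable (P x y)] (f : ℕ → V → ℕ → V → ℝ) :
    ∑ b ∈ ((range J ×ˢ GF) ×ˢ (range J ×ˢ Bx)).filter
      (fun b => b.2.1 ≠ b.1.1 ∧ P b.1.2 b.2.2), f b.1.1 b.1.2 b.2.1 b.2.2 =
    ∑ x ∈ GF, ∑ y ∈ Bx.filter (fun y => P x y),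
      ∑ i ∈ range J, ∑ i' ∈ (range J).filter (fun i' => i' ≠ i), f i x i' y := by
  rw [Finset.sum_filter, Finset.sum_product, Finset.sum_product, Finset.sum_comm]
  refine Finset.sum_congr rfl fun x _ => ?_
  rw [Finset.sum_filter]
  have h1 : ∀ i ∈ range J, ∑ q ∈ range J ×ˢ Bx,
      (if q.1 ≠ i ∧ P x q.2 then f i x q.1 q.2 else 0) =
      ∑ y ∈ Bx, ∑ i' ∈ range J, (if i' ≠ i ∧ P x y then f i x i' y else 0) := by
    intro i _
    rw [Finset.sum_product, Finset.sum_comm]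
  refine (Finset.sum_congr rfl h1).trans ?_
  rw [Finset.sum_comm]
  refine Finset.sum_congr rfl fun y _ => ?_
  by_cases hP : P x y
  · rw [if_pos hP]
    refine Finset.sum_congr rfl fun i _ => ?_
    rw [Finset.sum_filter]
    refine Finset.sum_congr rfl fun i' _ => ?_
    by_cases h2 : i' ≠ i
    · rw [if_pos ⟨h2, hP⟩, if_pos h2]
    · rw [if_neg (fun h => h2 h.1), if_neg h2]
  · rw [if_neg hP]
    refine Finset.sum_eq_zero fun i _ => Finset.sum_eq_zero fun i' _ => ?_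
    rw [if_neg (fun h => hP h.2)]

private theorem s2b_count (c : CPar S) (eps bet : ℝ) (w : ℕ) (hc : c.Valid eps bet w) (K : ℝ)
    (hK : 1 ≤ K) (C : ℝ) (hC : 1 ≤ C)
    (hsum : ∀ (K : ℝ), 1 ≤ K → ∀ B : ℕ, 1 ≤ B →
      ∀ x : Fin 3 → ℤ, Prim x → (∀ i, |(x i : ℝ)| ≤ 2 * B) →
      ∀ i0 : Fin 3, (B : ℝ) / 2 ≤ |(x i0 : ℝ)| → Good K B x →
      ∀ tau : ℝ, 0 < tau → tau ≤ 9 → ∀ phi : ℕ → ℝ, (∀ m, 0 ≤ phi m) →
      ∑ y ∈ (boxn 2 (2 * B)).filter (fun y => 0 < dl x y ∧ (dl x y : ℝ) < tau * (B : ℝ) ^ 2),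
        phi (mg x y) / dl x y ≤
        C * K ^ 2 * tau * B * ∑ m ∈ Icc 1 ⌊C * K * (B : ℝ) ^ 2⌋₊, phi m / (m : ℝ) ^ 2)
    (G : ℕ) (hG : 1 ≤ G) (tau : ℝ) (ht : 0 < tau) (ht1 : tau ≤ 1)
    (H : ℝ) (hH : 1 ≤ H) (hB : 1 ≤ c.BB H) (hV : 1 ≤ c.VV H)
    (hv : ∀ i, i < JJ H → ∀ s, |(c.vv H i s : ℝ)| ≤ 2 * c.VV H)
    (hvg : ∀ i, i < JJ H → ∀ s0, (∀ s, |c.vv H i s| ≤ |c.vv H i s0|) →
      (c.VV H : ℝ) / 2 ≤ |(c.vv H i s0 : ℝ)|)
    (h1 : 4 * c1 2 2 * K * (c.BB H : ℝ) ^ (1 / 2 : ℝ) ≤ H)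
    (h2 : 144 * K * c.VV H * (c.BB H : ℝ) ^ (1 / 2 : ℝ) ≤ H)
    (h3 : 288 * Fintype.card S * (c.VV H : ℝ) ^ 2 ≤ H) :
    ((c.TBad K G tau H).ncard : ℝ) ≤ (125 * (c.BB H : ℝ) ^ 3) *
      (7 ^ MM S * 512 * (3 * H) ^ MM S * 4 / ((3 * H) ^ 2 * (c.VV H : ℝ) ^ 2 *
        (c.BB H : ℝ) ^ 2) * (2 * c.D0 * (JJ H : ℝ) ^ 2 *
        (C * K ^ 2 * c.BB H * (18 / Real.sqrt G + 3 * tau)))) := by
  classical
  obtain ⟨i0, hi0⟩ := hc.pv.xi_eq
  have hB1 : (1 : ℝ) ≤ c.BB H := by exact_mod_cast hB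
  have hV1 : (1 : ℝ) ≤ c.VV H := by exact_mod_cast hV
  have hc1 : 0 ≤ c1 2 2 := by unfold c1; positivity
  have hc2 : 0 ≤ c2 2 2 := by unfold c2; positivity
  obtain ⟨mu, hmu⟩ : ∃ mu : ℝ, mu = K * (c.BB H : ℝ) ^ (1 / ((2 : ℕ) : ℝ)) := ⟨_, rfl⟩
  have e2 : (1 / ((2 : ℕ) : ℝ)) = (1 / 2 : ℝ) := by norm_num
  have hmu1 : 1 ≤ mu := by
    have : (1 : ℝ) ≤ (c.BB H : ℝ) ^ (1 / ((2 : ℕ) : ℝ)) := Real.one_le_rpow hB1 (by positivity)
    rw [hmu]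
    nlinarith only [hK, this]
  obtain ⟨bd, hbd⟩ : ∃ bd : ℝ, bd = 7 ^ MM S * 512 * (3 * H) ^ MM S * 4 /
    ((3 * H) ^ 2 * (c.VV H : ℝ) ^ 2 * (c.BB H : ℝ) ^ 2) := ⟨_, rfl⟩
  have hbd0 : 0 ≤ bd := by rw [hbd]; positivity
  rw [← hbd]
  obtain ⟨GF, hGF⟩ : ∃ GF, GF = (GC_finite c K H).toFinset := ⟨_, rfl⟩
  have hmem : ∀ x, x ∈ GF ↔ x ∈ c.GC K H := fun x => by rw [hGF, Set.Finite.mem_toFinset]
  have hGc : (GF.card : ℝ) ≤ 125 * (c.BB H : ℝ) ^ 3 := by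
    rw [hGF]; exact sec_card_GC c eps bet w hc K H hB
  have hxb : ∀ x ∈ c.GC K H, ∀ i, |(x i : ℝ)| ≤ 2 * c.BB H := fun x hx i =>
    (mem_XX_bounds c.p eps bet w hc.pv (c.BB H) x hx.1 i).1
  have hxi : ∀ x ∈ c.GC K H, (c.BB H : ℝ) / 2 ≤ |(x i0 : ℝ)| := fun x hx =>
    (mem_XX_bounds c.p eps bet w hc.pv (c.BB H) x hx.1 i0).2 hi0
  obtain ⟨P, hP⟩ : ∃ P : (Fin 3 → ℤ) → (Fin 3 → ℤ) → Prop, P = fun x y => 0 < dl x y ∧
    (dl x y : ℝ) < 9 * (c.BB H : ℝ) ^ 2 ∧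
    (G < mg x y ∨ (dl x y : ℝ) < tau * (c.BB H : ℝ) ^ 2) := ⟨_, rfl⟩
  -- the index set
  have hcf := sec_card_fib (c.TBad K G tau H) (TBad_finite c K G tau H)
    (((range (JJ H) ×ˢ GF) ×ˢ (range (JJ H) ×ˢ boxn 2 (2 * c.BB H))).filter
      (fun b => b.2.2 ∈ GF ∧ b.2.1 ≠ b.1.1 ∧ P b.1.2 b.2.2))
    (by
      rintro ⟨A, ⟨i, x⟩, ⟨i', y⟩⟩ ⟨_, hi, hi', hii, hx, hy, _, _, hne, hbad⟩
      simp only [Finset.mem_filter, Finset.mem_product, Finset.mem_range]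
      rw [hP]
      refine ⟨⟨⟨hi, (hmem x).2 hx⟩, hi', ?_⟩, (hmem y).2 hy, fun h => hii h.symm,
        dl_pos_of_mem_GG c.p eps bet w hc.pv K (c.BB H) hB x y hx hy hne,
        sec_dl_lt (c.BB H) hB x y (hxb x hx) (hxb y hy), hbad⟩
      rw [mem_boxn]
      intro j
      have := hxb y hy j
      exact_mod_cast this)
    (fun b => {A : Idx 2 2 × S → ℤ | (∀ m, |(A m : ℝ)| ≤ 3 * H) ∧
      F (ev A (c.vv H b.1.1)) b.1.2 = 0 ∧ F (ev A (c.vv H b.2.1)) b.2.2 = 0})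
    (fun b _ => finite_of_abs_le _ (3 * H) fun A hA i => hA.1 i)
    (by
      rintro ⟨A, ⟨i, x⟩, ⟨i', y⟩⟩ ⟨hA, hi, hi', hii, hx, hy, hF1, hF2, hne, hbad⟩
      exact ⟨fun m => sec_Cl_abs_le c eps bet w hc H (by linarith only [hH]) A hA m, hF1, hF2⟩)
  refine hcf.trans ?_
  have hb : ∀ b ∈ ((range (JJ H) ×ˢ GF) ×ˢ (range (JJ H) ×ˢ boxn 2 (2 * c.BB H))).filter
      (fun b => b.2.2 ∈ GF ∧ b.2.1 ≠ b.1.1 ∧ P b.1.2 b.2.2),
      (Set.ncard {A : Idx 2 2 × S → ℤ | (∀ m, |(A m : ℝ)| ≤ 3 * H) ∧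
      F (ev A (c.vv H b.1.1)) b.1.2 = 0 ∧ F (ev A (c.vv H b.2.1)) b.2.2 = 0} : ℝ) ≤
      bd / dl b.1.2 b.2.2 *
        (Nat.gcd (mg b.1.2 b.2.2) (c.D0 * ((b.1.1 : ℤ) - b.2.1).natAbs) : ℝ) := by
    rintro ⟨⟨i, x⟩, ⟨i', y⟩⟩ hb
    simp only [Finset.mem_filter, Finset.mem_product, Finset.mem_range] at hb
    rw [hP] at hb
    obtain ⟨⟨⟨hi, hx⟩, hi', _⟩, hy, hii, hdl, _, _⟩ := hb
    have hx' := (hmem x).1 hx
    have hy' := (hmem y).1 hy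
    obtain ⟨s0, hs0, hs0'⟩ := exists_argmax (c.vv H i) (hc.fam.prim _ _)
    obtain ⟨s1, hs1, hs1'⟩ := exists_argmax (c.vv H i') (hc.fam.prim _ _)
    have hvg' := hvg i hi s0 hs0
    have hvg1 := hvg i' hi' s1 hs1
    have hne : i ≠ i' := fun h => hii h.symm
    have hcr := crude_cross (c.BB H) hB x y hx'.2.1 hy'.2.1 mu hmu1 (hmu ▸ hx'.2.2)
      (hmu ▸ hy'.2.2) i0 (hxi x hx') (hxi y hy') (hxb x hx') hdl
      (c.vv H i) (c.vv H i') (hc.fam.prim _ _) (hc.fam.prim _ _) s0 s1 hs0 hs1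
      (2 * c.VV H) (by linarith) (hv i hi) (hv i' hi')
      (c.D0 * ((i : ℤ) - i').natAbs) (sec_sep_pos c eps bet w hc i i' hne)
      (sec_sep c eps bet w hc (JJ H) i i' hne) (3 * H) (by linarith only [hH])
      (by
        rw [hmu, e2]
        calc 72 * (K * (c.BB H : ℝ) ^ (1 / 2 : ℝ) * (2 * c.VV H) +
              Fintype.card S * (2 * (c.VV H : ℝ)) ^ 2)
            = 144 * K * c.VV H * (c.BB H : ℝ) ^ (1 / 2 : ℝ) +
              288 * Fintype.card S * (c.VV H : ℝ) ^ 2 := by ring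
          _ ≤ 3 * H := by linarith only [h2, h3, hH])
      (by
        rw [hmu, e2]
        calc 4 * (c1 2 2 * (K * (c.BB H : ℝ) ^ (1 / 2 : ℝ)))
            = 4 * c1 2 2 * K * (c.BB H : ℝ) ^ (1 / 2 : ℝ) := by ring
          _ ≤ 3 * H := by linarith only [h1, hH])
    refine hcr.trans ?_
    have hdl' : (0 : ℝ) < dl x y := by exact_mod_cast hdl
    calc 7 ^ MM S * 512 * (3 * H) ^ MM S *
          (Nat.gcd (mg x y) (c.D0 * ((i : ℤ) - i').natAbs) : ℝ) /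
          ((3 * H) ^ 2 * |(c.vv H i s0 : ℝ)| * |(c.vv H i' s1 : ℝ)| * (c.BB H : ℝ) ^ 2 * dl x y)
        ≤ 7 ^ MM S * 512 * (3 * H) ^ MM S *
          (Nat.gcd (mg x y) (c.D0 * ((i : ℤ) - i').natAbs) : ℝ) /
          ((3 * H) ^ 2 * (c.VV H / 2) * (c.VV H / 2) * (c.BB H : ℝ) ^ 2 * dl x y) := by
          gcongr
      _ = bd / dl x y * (Nat.gcd (mg x y) (c.D0 * ((i : ℤ) - i').natAbs) : ℝ) := by
          rw [hbd]
          field_simp
          ring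
  refine (Finset.sum_le_sum hb).trans ?_
  -- forget the condition `y ∈ GF`
  refine (Finset.sum_le_sum_of_subset_of_nonneg
    (t := ((range (JJ H) ×ˢ GF) ×ˢ (range (JJ H) ×ˢ boxn 2 (2 * c.BB H))).filter
      (fun b => b.2.1 ≠ b.1.1 ∧ P b.1.2 b.2.2)) ?_ ?_).trans ?_
  · intro b hb
    rw [Finset.mem_filter] at hb ⊢
    exact ⟨hb.1, hb.2.2⟩
  · intro b _ _
    (clear * - hbd0; positivity)
  refine (le_of_eq (s2b_swap (JJ H) GF (boxn 2 (2 * c.BB H)) P (fun i x i' y => bd / dl x y *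
    (Nat.gcd (mg x y) (c.D0 * ((i : ℤ) - i').natAbs) : ℝ)))).trans ?_
  have hx0 : ∀ x ∈ GF, ∑ y ∈ (boxn 2 (2 * c.BB H)).filter (fun y => P x y),
      ∑ i ∈ range (JJ H), ∑ i' ∈ (range (JJ H)).filter (fun i' => i' ≠ i), bd / dl x y *
        (Nat.gcd (mg x y) (c.D0 * ((i : ℤ) - i').natAbs) : ℝ) ≤
      bd * (2 * c.D0 * (JJ H : ℝ) ^ 2 *
        (C * K ^ 2 * c.BB H * (18 / Real.sqrt G + 3 * tau))) := by
    intro x hx
    have hx' := (hmem x).1 hx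
    have hy0 : ∀ y ∈ (boxn 2 (2 * c.BB H)).filter (fun y => P x y),
        ∑ i ∈ range (JJ H), ∑ i' ∈ (range (JJ H)).filter (fun i' => i' ≠ i), bd / dl x y *
          (Nat.gcd (mg x y) (c.D0 * ((i : ℤ) - i').natAbs) : ℝ) ≤
        bd * (2 * c.D0 * (JJ H : ℝ) ^ 2) * (Real.sqrt (mg x y) / dl x y) := by
      intro y hy
      rw [Finset.mem_filter, hP] at hy
      have hm := mg_pos_of_dl_pos x y hy.2.1
      have hg := sum_gcd_le c.D0 (JJ H) (mg x y) hc.fam.D0_pos hm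
      simp_rw [← Finset.mul_sum]
      calc bd / dl x y * ∑ i ∈ range (JJ H), ∑ i' ∈ (range (JJ H)).filter (fun i' => i' ≠ i),
            (Nat.gcd (mg x y) (c.D0 * ((i : ℤ) - i').natAbs) : ℝ)
          ≤ bd / dl x y * (2 * c.D0 * (JJ H : ℝ) ^ 2 * Real.sqrt (mg x y)) := by
            gcongr
        _ = bd * (2 * c.D0 * (JJ H : ℝ) ^ 2) * (Real.sqrt (mg x y) / dl x y) := by ring
    refine (Finset.sum_le_sum hy0).trans ?_
    rw [← Finset.mul_sum, mul_assoc]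
    refine mul_le_mul_of_nonneg_left ?_ hbd0
    refine mul_le_mul_of_nonneg_left ?_ (by (clear * -; positivity))
    -- split
    have hs1 := hsum K hK (c.BB H) hB x hx'.2.1 (hxb x hx') i0 (hxi x hx') hx'.2.2 9
      (by norm_num) le_rfl (fun m => if G < m then Real.sqrt m else 0)
      (fun m => by split_ifs <;> positivity)
    have hs2 := hsum K hK (c.BB H) hB x hx'.2.1 (hxb x hx') i0 (hxi x hx') hx'.2.2 tau
      ht (by linarith only [ht1]) (fun m => Real.sqrt m) (fun m => Real.sqrt_nonneg _)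
    have hs1' : ∑ m ∈ Icc 1 ⌊C * K * (c.BB H : ℝ) ^ 2⌋₊,
        (if G < m then Real.sqrt m else 0) / (m : ℝ) ^ 2 ≤ 2 / Real.sqrt G := by
      refine le_trans (le_of_eq ?_) (sum_sqrt_tail_le G ⌊C * K * (c.BB H : ℝ) ^ 2⌋₊ hG)
      rw [Finset.sum_filter]
      refine Finset.sum_congr rfl fun m _ => ?_
      split_ifs
      · rfl
      · rw [zero_div]
    have hs2' := sum_sqrt_le ⌊C * K * (c.BB H : ℝ) ^ 2⌋₊
    have hsplit : ∑ y ∈ (boxn 2 (2 * c.BB H)).filter (fun y => P x y),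
        Real.sqrt (mg x y) / dl x y ≤
        ∑ y ∈ (boxn 2 (2 * c.BB H)).filter (fun y => 0 < dl x y ∧
          (dl x y : ℝ) < 9 * (c.BB H : ℝ) ^ 2),
          (if G < mg x y then Real.sqrt (mg x y) else 0) / dl x y +
        ∑ y ∈ (boxn 2 (2 * c.BB H)).filter (fun y => 0 < dl x y ∧
          (dl x y : ℝ) < tau * (c.BB H : ℝ) ^ 2), Real.sqrt (mg x y) / dl x y := by
      rw [Finset.sum_filter, Finset.sum_filter, Finset.sum_filter, ← Finset.sum_add_distrib]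
      refine Finset.sum_le_sum fun y _ => ?_
      rw [hP]
      have hn0 : 0 ≤ Real.sqrt (mg x y) / dl x y := by (clear * -; positivity)
      by_cases hA : 0 < dl x y ∧ (dl x y : ℝ) < 9 * (c.BB H : ℝ) ^ 2 ∧
        (G < mg x y ∨ (dl x y : ℝ) < tau * (c.BB H : ℝ) ^ 2)
      · rw [if_pos hA]
        by_cases hg : G < mg x y
        · rw [if_pos ⟨hA.1, hA.2.1⟩, if_pos hg]
          have : 0 ≤ (if 0 < dl x y ∧ (dl x y : ℝ) < tau * (c.BB H : ℝ) ^ 2 then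
            Real.sqrt (mg x y) / dl x y else 0) := by split_ifs <;> (clear * -; positivity)
          linarith only [this]
        · have ht3 := hA.2.2.resolve_left hg
          rw [if_pos (⟨hA.1, ht3⟩ : 0 < dl x y ∧ (dl x y : ℝ) < tau * (c.BB H : ℝ) ^ 2)]
          have : 0 ≤ (if 0 < dl x y ∧ (dl x y : ℝ) < 9 * (c.BB H : ℝ) ^ 2 then
            (if G < mg x y then Real.sqrt (mg x y) else 0) / (dl x y : ℝ) else 0) := by
            split_ifs <;> positivity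
          linarith only [this]
      · rw [if_neg hA]
        have : 0 ≤ (if 0 < dl x y ∧ (dl x y : ℝ) < 9 * (c.BB H : ℝ) ^ 2 then
            (if G < mg x y then Real.sqrt (mg x y) else 0) / (dl x y : ℝ) else 0) := by
            split_ifs <;> (clear * -; positivity)
        have : 0 ≤ (if 0 < dl x y ∧ (dl x y : ℝ) < tau * (c.BB H : ℝ) ^ 2 then
            Real.sqrt (mg x y) / dl x y else 0) := by split_ifs <;> (clear * -; positivity)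
        linarith
    refine hsplit.trans ?_
    calc ∑ y ∈ (boxn 2 (2 * c.BB H)).filter (fun y => 0 < dl x y ∧
          (dl x y : ℝ) < 9 * (c.BB H : ℝ) ^ 2),
          (if G < mg x y then Real.sqrt (mg x y) else 0) / (dl x y : ℝ) +
        ∑ y ∈ (boxn 2 (2 * c.BB H)).filter (fun y => 0 < dl x y ∧
          (dl x y : ℝ) < tau * (c.BB H : ℝ) ^ 2), Real.sqrt (mg x y) / dl x y
        ≤ C * K ^ 2 * 9 * c.BB H * (2 / Real.sqrt G) + C * K ^ 2 * tau * c.BB H * 3 := by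
          refine add_le_add (hs1.trans ?_) (hs2.trans ?_)
          · exact mul_le_mul_of_nonneg_left hs1' (by positivity)
          · exact mul_le_mul_of_nonneg_left hs2' (by positivity)
      _ = C * K ^ 2 * c.BB H * (18 / Real.sqrt G + 3 * tau) := by ring
  refine (Finset.sum_le_card_nsmul _ _ _ hx0).trans ?_
  rw [nsmul_eq_mul]
  refine mul_le_mul_of_nonneg_right hGc ?_
  (clear * - hB hC hG hK hbd0 ht; positivity)

/-- C-S2B -/
theorem S2_bad (c : CPar S) (eps bet : ℝ) (w : ℕ) (hc : c.Valid eps bet w)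
    (K : ℝ) (hK : 1 ≤ K) :
    ∃ (G : ℕ) (tau : ℝ), 1 ≤ G ∧ 0 < tau ∧ tau ≤ 1 ∧ ∀ᶠ H : ℝ in atTop,
      ((c.TBad K G tau H).ncard : ℝ) ≤ eps * c.TT H ^ 2 * c.Xn H := by
  obtain ⟨C, hC, hsum⟩ := sum_phi
  have heps := hc.pv.eps_pos
  have hrho := hc.pv.rho_pos
  have hQ : (0 : ℝ) < c.p.Q := by exact_mod_cast hc.pv.Q_pos
  have hc1 : 0 ≤ c1 2 2 := by unfold c1; positivity
  obtain ⟨c0, hc0, hT1⟩ := T1_bounds c eps bet w hc
  obtain ⟨q, hq⟩ : ∃ q : ℝ, q = (2 * c.p.rho / c.p.Q) ^ MM S := ⟨_, rfl⟩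
  have hq0 : 0 < q := by rw [hq]; positivity
  have hD0 : (0 : ℝ) < c.D0 := by exact_mod_cast hc.fam.D0_pos
  obtain ⟨cst, hcst⟩ : ∃ cst : ℝ, cst = 125 * (7 ^ MM S * 512 * 3 ^ MM S * 4 / 9) *
    (2 * c.D0 * (C * K ^ 2)) := ⟨_, rfl⟩
  have hcst0 : 0 < cst := by rw [hcst]; positivity
  obtain ⟨d, hd⟩ : ∃ d : ℝ, d = eps * c0 ^ 2 * q / cst := ⟨_, rfl⟩
  have hd0 : 0 < d := by rw [hd]; positivity
  obtain ⟨G, hG⟩ : ∃ G : ℕ, G = ⌈(36 / d) ^ 2⌉₊ + 1 := ⟨_, rfl⟩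
  have hG1 : 1 ≤ G := by rw [hG]; omega
  have hGs : 36 / d ≤ Real.sqrt G := by
    apply Real.le_sqrt_of_sq_le
    rw [hG]
    push_cast
    have := Nat.le_ceil ((36 / d) ^ 2)
    linarith only [this]
  have hGd : 18 / Real.sqrt G ≤ d / 2 := by
    have h1 : 0 < Real.sqrt G := lt_of_lt_of_le (by positivity) hGs
    rw [div_le_iff₀ h1]
    have h2 : 36 ≤ Real.sqrt G * d := by
      rwa [div_le_iff₀ hd0] at hGs
    nlinarith only [h2]
  obtain ⟨tau, htau⟩ : ∃ tau : ℝ, tau = min 1 (d / 6) := ⟨_, rfl⟩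
  have ht0 : 0 < tau := by rw [htau]; exact lt_min one_pos (by positivity)
  have ht1 : tau ≤ 1 := by rw [htau]; exact min_le_left _ _
  have htd : 3 * tau ≤ d / 2 := by
    have : tau ≤ d / 6 := by rw [htau]; exact min_le_right _ _
    linarith
  refine ⟨G, tau, hG1, ht0, ht1, ?_⟩
  filter_upwards [hT1, (JJ_atTop).eventually_ge_atTop 1, VV_pos c eps bet w hc,
    (BB_atTop c eps bet w hc).eventually_ge_atTop 1, vv_le c eps bet w hc, vv_ge c eps bet w hc,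
    BB_bounds c eps bet w hc,
    small_le c eps bet w hc (4 * c1 2 2 * K) 0, small_le c eps bet w hc (144 * K) 1,
    small_le' c eps bet w hc (288 * Fintype.card S) 2,
    eventually_ge_atTop (1 : ℝ)] with
    H h1 hJ hV hB hv hvg hBB h2 h3 h4 hH
  have hB1 : (1 : ℝ) ≤ c.BB H := by exact_mod_cast hB
  have hV1 : (1 : ℝ) ≤ c.VV H := by exact_mod_cast hV
  have hJ1 : (1 : ℝ) ≤ JJ H := by exact_mod_cast hJ
  have hcount := s2b_count c eps bet w hc K hK C hC hsum G hG1 tau ht0 ht1 H hH hB hV hv hvg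
    (by
      rw [pow_zero, pow_zero, mul_one, mul_one] at h2
      exact h2)
    (by
      refine le_trans ?_ h3
      rw [pow_one, pow_one]
      have h5 : 144 * K * (c.VV H : ℝ) ≤ 144 * K * ((c.VV H : ℝ) * (JJ H : ℝ)) := by
        refine mul_le_mul_of_nonneg_left ?_ (by positivity)
        nlinarith only [hJ1]
      exact mul_le_mul_of_nonneg_right h5 (by positivity))
    (by
      refine le_trans ?_ h4
      refine mul_le_mul_of_nonneg_left ?_ (by (clear * -; positivity))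
      have h5 : 1 ≤ (JJ H : ℝ) ^ 2 := by nlinarith only [hJ1]
      nlinarith only [h5, sq_nonneg (c.VV H : ℝ)])
  refine hcount.trans ?_
  have hX : c.Xn H = q * H ^ MM S := by
    rw [CPar.Xn, hq, ← mul_pow]
    congr 1
    ring
  have hT : c.TT H = JJ H * c.T1 H := rfl
  have hT1' : c0 ^ 2 ≤ c.T1 H ^ 2 := pow_le_pow_left₀ hc0.le h1 2
  have hBH : (c.BB H : ℝ) ^ 2 / (H ^ 2 * (c.VV H : ℝ) ^ 2) ≤ 1 := by
    rw [div_le_one (by positivity), ← mul_pow]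
    exact pow_le_pow_left₀ (by positivity) hBB.2.1 2
  have hdd : cst * (18 / Real.sqrt G + 3 * tau) ≤ eps * c0 ^ 2 * q := by
    have h5 : cst * d = eps * c0 ^ 2 * q := by
      rw [hd]
      field_simp
    rw [← h5]
    exact mul_le_mul_of_nonneg_left (by linarith only [hGd, htd]) hcst0.le
  obtain ⟨z, hz⟩ : ∃ z : ℝ, z = 18 / Real.sqrt G + 3 * tau := ⟨_, rfl⟩
  have hz0 : 0 ≤ z := by rw [hz]; positivity
  rw [← hz] at hdd ⊢
  calc (125 * (c.BB H : ℝ) ^ 3) *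
      (7 ^ MM S * 512 * (3 * H) ^ MM S * 4 / ((3 * H) ^ 2 * (c.VV H : ℝ) ^ 2 *
        (c.BB H : ℝ) ^ 2) * (2 * c.D0 * (JJ H : ℝ) ^ 2 * (C * K ^ 2 * c.BB H * z)))
      = (JJ H : ℝ) ^ 2 * H ^ MM S * (cst * z) *
        ((c.BB H : ℝ) ^ 2 / (H ^ 2 * (c.VV H : ℝ) ^ 2)) := by
        rw [hcst, mul_pow]
        field_simp
        ring
    _ ≤ (JJ H : ℝ) ^ 2 * H ^ MM S * (cst * z) * 1 := by gcongr
    _ ≤ (JJ H : ℝ) ^ 2 * H ^ MM S * (eps * c0 ^ 2 * q) * 1 := by gcongr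
    _ = eps * ((JJ H : ℝ) ^ 2 * c0 ^ 2) * (q * H ^ MM S) := by ring
    _ ≤ eps * ((JJ H : ℝ) ^ 2 * c.T1 H ^ 2) * (q * H ^ MM S) := by gcongr
    _ = eps * c.TT H ^ 2 * c.Xn H := by
        rw [hX, hT]
        ring

end ConicHP
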