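import Pool.Agent.Lib.MP_e426f4_ag.G.ShortTwo

/-! Module C-SH3a: the real solution for two points (the vector of `G/ShortTwo.lean` for quadratic
forms in three variables). -/

namespace ConicHP

open Finset GenHP

/-- the real solution for two points -/
theorem real_pair (B : ℕ) (hB : 1 ≤ B) (x y : Fin 3 → ℤ)
    (i0 : Fin 3) (hi0 : (B : ℝ) / 2 ≤ |(x i0 : ℝ)|) (hi0' : (B : ℝ) / 2 ≤ |(y i0 : ℝ)|)
    (hx2 : ∀ i, |(x i : ℝ)| ≤ 2 * B) (h : 0 < dl x y) (s : ℝ) :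
    ∃ t : Idx 2 2 → ℝ, F t (fun i => (x i : ℝ)) = 0 ∧ F t (fun i => (y i : ℝ)) = s ∧
      ∀ m, |t m| ≤ 32 * |s| / (dl x y : ℝ) := by
  have hBpos : (0 : ℝ) < B := by exact_mod_cast hB
  have hdpos : (0 : ℝ) < dl x y := by exact_mod_cast h
  have hy0 : (y i0 : ℝ) ≠ 0 := by
    intro h
    rw [h, abs_zero] at hi0'
    linarith
  obtain ⟨j, hj⟩ := exists_large_minor B hB x y i0 hi0 hx2
  set δ : ℝ := ((minor x y i0 j : ℤ) : ℝ) with hδ
  have hδ0 : δ ≠ 0 := by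
    intro h
    rw [h, abs_zero] at hj
    linarith
  have hji : j ≠ i0 := by
    rintro rfl
    apply hδ0
    rw [hδ, minor]
    simp
  have hδe : δ = (x i0 : ℝ) * y j - x j * y i0 := by
    rw [hδ, minor]
    push_cast
    ring
  set m1 : Idx 2 2 := mk fun _ => i0 with hm1
  set m2 : Idx 2 2 := mk (Fin.cons j fun _ => i0 : Fin (1 + 1) → Fin (2 + 1)) with hm2
  have hm12 : m2 ≠ m1 := mk_cons_ne (e := 1) i0 j hji
  set tR : Idx 2 2 → ℝ := fun m => s / ((y i0 : ℝ) * δ) *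
    ((Pi.single m2 (x i0 : ℝ) : Idx 2 2 → ℝ) m
      - (Pi.single m1 (x j : ℝ) : Idx 2 2 → ℝ) m) with htR
  have hFR : ∀ z : Fin (2 + 1) → ℝ, F tR z = s / ((y i0 : ℝ) * δ) *
      (x i0 * (z j * z i0) - x j * (z i0 ^ 2)) := by
    intro z
    rw [htR, F_smul]
    congr 1
    have h3 : F (fun m => (Pi.single m2 (x i0 : ℝ) : Idx 2 2 → ℝ) m
      - (Pi.single m1 (x j : ℝ) : Idx 2 2 → ℝ) m) z =
      F (Pi.single m2 (x i0 : ℝ) : Idx 2 2 → ℝ) z
        - F (Pi.single m1 (x j : ℝ) : Idx 2 2 → ℝ) z := by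
      simp only [F, sub_mul, Finset.sum_sub_distrib]
    rw [h3, F_single, F_single, hm1, hm2, mon_mk, mon_mk, Fin.prod_univ_succ]
    simp
  refine ⟨tR, ?_, ?_, fun m => ?_⟩
  · rw [hFR]
    ring
  · rw [hFR]
    have : (x i0 : ℝ) * (y j * y i0) - x j * (y i0 ^ 2) = (y i0 : ℝ) * δ := by
      rw [hδe]
      ring
    rw [this]
    field_simp
  · rw [htR]
    simp only
    rw [abs_mul, abs_div, abs_mul]
    have h2 : |(Pi.single m2 (x i0 : ℝ) : Idx 2 2 → ℝ) m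
        - (Pi.single m1 (x j : ℝ) : Idx 2 2 → ℝ) m| ≤ 2 * B := by
      by_cases h3 : m = m1
      · subst h3
        rw [Pi.single_eq_of_ne hm12.symm, Pi.single_eq_same, zero_sub, abs_neg]
        exact hx2 j
      · rw [Pi.single_eq_of_ne h3, sub_zero]
        by_cases h4 : m = m2
        · subst h4
          rw [Pi.single_eq_same]
          exact hx2 i0
        · rw [Pi.single_eq_of_ne h4, abs_zero]
          positivity
    have hy0' : 0 < |(y i0 : ℝ)| := abs_pos.mpr hy0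
    have hδ' : 0 < |δ| := abs_pos.mpr hδ0
    calc |s| / (|(y i0 : ℝ)| * |δ|) *
          |(Pi.single m2 (x i0 : ℝ) : Idx 2 2 → ℝ) m
            - (Pi.single m1 (x j : ℝ) : Idx 2 2 → ℝ) m|
        ≤ |s| / (|(y i0 : ℝ)| * |δ|) * (2 * B) := by gcongr
      _ ≤ |s| / ((B : ℝ) / 2 * ((dl x y : ℝ) / 8)) * (2 * B) := by
        have : (dl x y : ℝ) / 8 ≤ |δ| := by linarith
        gcongr
      _ = 32 * |s| / (dl x y : ℝ) := by
        field_simp
        ring

end ConicHP
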