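import Pool.Agent.Lib.MP_e426f4_ag.C.Ev
import Pool.Agent.Lib.MP_e426f4_ag.C.RealPair
import Pool.Agent.Lib.MP_e426f4_ag.G.ShortOne

/-! Module C-SH3: short vectors for two points in two different fibres. -/

namespace ConicHP

open Finset GenHP

variable {S : Type*} [Fintype S]

/-- rounding along a finite family of integer vectors, with individual bounds -/
theorem round_lin {I ι : Type*} [Fintype I] [Fintype ι] (V : ι → I → ℤ) (b : ι → ℝ)
    (hV : ∀ i m, |(V i m : ℝ)| ≤ b i) (t0 : I → ℤ) (tR : I → ℝ) (r : ι → ℝ)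
    (h : ∀ m, (t0 m : ℝ) - tR m = ∑ i, r i * V i m) :
    ∃ t : I → ℤ, (∀ w : I → ℤ, (∀ i, ∑ m, V i m * w m = 0) →
      ∑ m, t m * w m = ∑ m, t0 m * w m) ∧
      ∀ m, |(t m : ℝ)| ≤ |tR m| + ∑ i, b i := by
  refine ⟨fun m => t0 m - ∑ i, ⌊r i⌋ * V i m, ?_, ?_⟩
  · intro w hw
    have h1 : ∑ m, (t0 m - ∑ i, ⌊r i⌋ * V i m) * w m =
        ∑ m, t0 m * w m - ∑ i, ⌊r i⌋ * ∑ m, V i m * w m := by
      simp only [sub_mul, Finset.sum_sub_distrib, Finset.sum_mul, Finset.mul_sum]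
      congr 1
      rw [Finset.sum_comm]
      refine Finset.sum_congr rfl fun i _ => Finset.sum_congr rfl fun t _ => ?_
      ring
    have h2 : ∑ i, ⌊r i⌋ * ∑ m, V i m * w m = 0 :=
      Finset.sum_eq_zero fun i _ => by rw [hw i, mul_zero]
    rw [h1, h2, sub_zero]
  · intro m
    have h1 : ((t0 m - ∑ i, ⌊r i⌋ * V i m : ℤ) : ℝ) = tR m + ∑ i, Int.fract (r i) * V i m := by
      have h2 := h m
      push_cast
      simp only [Int.fract, sub_mul, Finset.sum_sub_distrib]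
      linarith
    rw [h1]
    refine (abs_add_le _ _).trans ?_
    gcongr
    refine (Finset.abs_sum_le_sum_abs _ _).trans ?_
    refine Finset.sum_le_sum fun i _ => ?_
    rw [abs_mul, abs_of_nonneg (Int.fract_nonneg _)]
    calc Int.fract (r i) * |(V i m : ℝ)| ≤ 1 * |(V i m : ℝ)| := by
          gcongr
          exact (Int.fract_lt_one _).le
      _ ≤ b i := by rw [one_mul]; exact hV i m

/-- two separated primitive vectors have a nonzero minor -/
theorem exists_minorS (v v' : S → ℤ) (hv : PrimS v) (Dd : ℕ) (hDd : 0 < Dd)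
    (hsep : ∃ a : S → ℤ, ∑ s, a s * v s = 0 ∧ ∑ s, a s * v' s = Dd) :
    ∃ s1 s2, v s1 * v' s2 - v s2 * v' s1 ≠ 0 := by
  by_contra hcon
  push Not at hcon
  obtain ⟨a, ha, ha'⟩ := hsep
  obtain ⟨c, hc⟩ := hv
  have h0 : ∀ s2, v s2 = 0 := by
    intro s2
    have h1 : (Dd : ℤ) * v s2 = 0 := by
      rw [← ha', Finset.sum_mul]
      calc ∑ s, a s * v' s * v s2 = ∑ s, a s * v s * v' s2 := by
            refine Finset.sum_congr rfl fun s _ => ?_
            have := hcon s s2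
            have h3 : v s * v' s2 = v s2 * v' s := by linarith
            calc a s * v' s * v s2 = a s * (v s2 * v' s) := by ring
              _ = a s * (v s * v' s2) := by rw [h3]
              _ = _ := by ring
        _ = (∑ s, a s * v s) * v' s2 := by rw [Finset.sum_mul]
        _ = 0 := by rw [ha, zero_mul]
    rcases mul_eq_zero.mp h1 with h | h
    · exact absurd h (by exact_mod_cast hDd.ne')
    · exact h
  rw [Finset.sum_eq_zero fun s _ => by rw [h0 s, mul_zero]] at hc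
  exact zero_ne_one hc

/-- `a e_{s1} - b e_{s2}` paired with `v` -/
theorem sum_two {R : Type*} [CommRing R] [DecidableEq S] (s1 s2 : S) (a b : R) (v : S → R) :
    ∑ s, ((Pi.single s1 a : S → R) s - (Pi.single s2 b : S → R) s) * v s =
      a * v s1 - b * v s2 := by
  simp only [sub_mul, Finset.sum_sub_distrib]
  congr 1
  · rw [Finset.sum_eq_single s1]
    · rw [Pi.single_eq_same]
    · intro i _ hi
      rw [Pi.single_eq_of_ne hi, zero_mul]
    · simp
  · rw [Finset.sum_eq_single s2]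
    · rw [Pi.single_eq_same]
    · intro i _ hi
      rw [Pi.single_eq_of_ne hi, zero_mul]
    · simp

omit [Fintype S] in
theorem abs_two_le [DecidableEq S] (s1 s2 : S) (h12 : s1 ≠ s2) (a b : ℤ) (M : ℝ) (hM : 0 ≤ M)
    (ha : |(a : ℝ)| ≤ M) (hb : |(b : ℝ)| ≤ M) (s : S) :
    |(((Pi.single s1 a : S → ℤ) s - (Pi.single s2 b : S → ℤ) s : ℤ) : ℝ)| ≤ M := by
  by_cases h1 : s = s1
  · subst h1
    rw [Pi.single_eq_same, Pi.single_eq_of_ne h12, sub_zero]
    exact ha
  · rw [Pi.single_eq_of_ne h1, zero_sub]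
    by_cases h2 : s = s2
    · subst h2
      rw [Pi.single_eq_same]
      push_cast
      rw [abs_neg]
      exact hb
    · rw [Pi.single_eq_of_ne h2]
      simpa using hM

/-- the index set of the spanning families -/
abbrev QQ : Type := Fin 2 × (Fin (2 - 1) → Fin (2 + 1))

/-- the real vectors of forms vanishing at a point of one fibre and a point of another fibre are
spanned by short integer vectors -/
theorem span_cross (x y : Fin 3 → ℤ) (hx : x ≠ 0) (hy : y ≠ 0) (mu : ℝ) (hmu : 1 ≤ mu)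
    (hgx : Ortho mu x) (hgy : Ortho mu y)
    (v v' : S → ℤ) (Vm : ℝ) (hVm : 1 ≤ Vm) (hVv : ∀ s, |(v s : ℝ)| ≤ Vm)
    (hVv' : ∀ s, |(v' s : ℝ)| ≤ Vm) (s1 s2 : S) (hDe : v s1 * v' s2 - v s2 * v' s1 ≠ 0) :
    ∃ V : (Idx 2 2 × S) ⊕ (QQ ⊕ QQ) → Idx 2 2 × S → ℤ,
      (∀ i, F (ev (V i) v) x = 0 ∧ F (ev (V i) v') y = 0) ∧
      (∀ i m, |(V i m : ℝ)| ≤
        Sum.elim (fun _ => 4 * Vm ^ 2) (fun _ => 3 * mu * Vm) i) ∧
      ∀ A : Idx 2 2 × S → ℝ, F (ev A (fun s => (v s : ℝ))) (fun i => (x i : ℝ)) = 0 →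
        F (ev A (fun s => (v' s : ℝ))) (fun i => (y i : ℝ)) = 0 →
        ∃ r : (Idx 2 2 × S) ⊕ (QQ ⊕ QQ) → ℝ, ∀ m, A m = ∑ i, r i * (V i m : ℝ) := by
  classical
  obtain ⟨g, hg0, hgm, hgs⟩ := span_single (d := 2) (by norm_num) x hx mu hmu hgx
  obtain ⟨g', hg0', hgm', hgs'⟩ := span_single (d := 2) (by norm_num) y hy mu hmu hgy
  set De : ℤ := v s1 * v' s2 - v s2 * v' s1 with hDedef
  have h12 : s1 ≠ s2 := by
    rintro rfl
    apply hDe
    rw [hDedef]
    ring
  -- the dual vectors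
  set al : S → ℤ := fun s => (Pi.single s1 (v' s2) : S → ℤ) s - (Pi.single s2 (v' s1) : S → ℤ) s
    with hal
  set al' : S → ℤ := fun s => (Pi.single s2 (v s1) : S → ℤ) s - (Pi.single s1 (v s2) : S → ℤ) s
    with hal'
  have hVm0 : (0 : ℝ) ≤ Vm := by linarith
  have halv : ∑ s, al s * v s = De := by
    rw [hal]
    rw [sum_two, hDedef]
    ring
  have halv' : ∑ s, al s * v' s = 0 := by
    rw [hal]
    rw [sum_two]
    ring
  have hal'v : ∑ s, al' s * v s = 0 := by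
    rw [hal']
    rw [sum_two]
    ring
  have hal'v' : ∑ s, al' s * v' s = De := by
    rw [hal']
    rw [sum_two, hDedef]
  have halb : ∀ s, |(al s : ℝ)| ≤ Vm := fun s => abs_two_le s1 s2 h12 _ _ Vm hVm0 (hVv' _) (hVv' _) s
  have halb' : ∀ s, |(al' s : ℝ)| ≤ Vm := fun s =>
    abs_two_le s2 s1 h12.symm _ _ Vm hVm0 (hVv _) (hVv _) s
  -- the vectors orthogonal to both
  set ep : S → S → ℤ := fun s s' => (Pi.single s De : S → ℤ) s' - v s * al s' - v' s * al' s'
    with hep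
  have hepv : ∀ s, ∑ s', ep s s' * v s' = 0 := by
    intro s
    have h1 : ∑ s', ep s s' * v s' = ∑ s', (Pi.single s De : S → ℤ) s' * v s'
        - v s * ∑ s', al s' * v s' - v' s * ∑ s', al' s' * v s' := by
      rw [hep]
      simp only [sub_mul, Finset.sum_sub_distrib, Finset.mul_sum]
      congr 1
      · congr 1
        refine Finset.sum_congr rfl fun s' _ => by ring
      · refine Finset.sum_congr rfl fun s' _ => by ring
    rw [h1, halv, hal'v, Finset.sum_eq_single s, Pi.single_eq_same]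
    · ring
    · intro i _ hi
      rw [Pi.single_eq_of_ne hi, zero_mul]
    · simp
  have hepv' : ∀ s, ∑ s', ep s s' * v' s' = 0 := by
    intro s
    have h1 : ∑ s', ep s s' * v' s' = ∑ s', (Pi.single s De : S → ℤ) s' * v' s'
        - v s * ∑ s', al s' * v' s' - v' s * ∑ s', al' s' * v' s' := by
      rw [hep]
      simp only [sub_mul, Finset.sum_sub_distrib, Finset.mul_sum]
      congr 1
      · congr 1
        refine Finset.sum_congr rfl fun s' _ => by ring
      · refine Finset.sum_congr rfl fun s' _ => by ring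
    rw [h1, halv', hal'v', Finset.sum_eq_single s, Pi.single_eq_same]
    · ring
    · intro i _ hi
      rw [Pi.single_eq_of_ne hi, zero_mul]
    · simp
  have hDeb : |(De : ℝ)| ≤ 2 * Vm ^ 2 := by
    rw [hDedef]
    push_cast
    refine (abs_sub _ _).trans ?_
    rw [abs_mul, abs_mul]
    have e1 : |(v s1 : ℝ)| * |(v' s2 : ℝ)| ≤ Vm * Vm :=
      mul_le_mul (hVv _) (hVv' _) (abs_nonneg _) hVm0
    have e2 : |(v s2 : ℝ)| * |(v' s1 : ℝ)| ≤ Vm * Vm :=
      mul_le_mul (hVv _) (hVv' _) (abs_nonneg _) hVm0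
    nlinarith
  have hepb : ∀ s s', |(ep s s' : ℝ)| ≤ 4 * Vm ^ 2 := by
    intro s s'
    rw [hep]
    simp only
    push_cast
    refine (abs_sub _ _).trans ?_
    have e1 : |(((Pi.single s De : S → ℤ) s' : ℤ) : ℝ) - (v s : ℝ) * (al s' : ℝ)| ≤
        2 * Vm ^ 2 + Vm * Vm := by
      refine (abs_sub _ _).trans ?_
      refine add_le_add ?_ ?_
      · by_cases hs : s' = s
        · subst hs
          rw [Pi.single_eq_same]
          exact hDeb
        · rw [Pi.single_eq_of_ne hs]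
          simp only [Int.cast_zero, abs_zero]
          positivity
      · rw [abs_mul]
        exact mul_le_mul (hVv _) (halb _) (abs_nonneg _) hVm0
    have e2 : |(v' s : ℝ) * (al' s' : ℝ)| ≤ Vm * Vm := by
      rw [abs_mul]
      exact mul_le_mul (hVv' _) (halb' _) (abs_nonneg _) hVm0
    nlinarith
  refine ⟨Sum.elim (fun p m => (Pi.single p.1 (1 : ℤ) : Idx 2 2 → ℤ) m.1 * ep p.2 m.2)
    (Sum.elim (fun q m => g q m.1 * al m.2) (fun q m => g' q m.1 * al' m.2)), ?_, ?_, ?_⟩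
  · rintro (p | q | q)
    · simp only [Sum.elim_inl]
      rw [F_ev_tensor, F_ev_tensor, hepv, hepv', zero_mul, zero_mul]
      exact ⟨rfl, rfl⟩
    · simp only [Sum.elim_inl, Sum.elim_inr]
      rw [F_ev_tensor, F_ev_tensor, hg0, halv', zero_mul, mul_zero]
      exact ⟨rfl, rfl⟩
    · simp only [Sum.elim_inl, Sum.elim_inr]
      rw [F_ev_tensor, F_ev_tensor, hg0', hal'v, zero_mul, mul_zero]
      exact ⟨rfl, rfl⟩
  · rintro (p | q | q) m
    · simp only [Sum.elim_inl]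
      push_cast
      rw [abs_mul]
      have e1 : |(((Pi.single p.1 (1 : ℤ) : Idx 2 2 → ℤ) m.1 : ℤ) : ℝ)| ≤ 1 := by
        by_cases hs : m.1 = p.1
        · rw [hs, Pi.single_eq_same]
          simp
        · rw [Pi.single_eq_of_ne hs]
          simp
      calc _ ≤ 1 * (4 * Vm ^ 2) := mul_le_mul e1 (hepb _ _) (abs_nonneg _) zero_le_one
        _ = _ := by ring
    · simp only [Sum.elim_inr, Sum.elim_inl]
      push_cast
      rw [abs_mul]
      have e1 := hgm q m.1
      calc _ ≤ (((2 : ℕ) : ℝ) + 1) * mu * Vm := mul_le_mul e1 (halb _) (abs_nonneg _) (by positivity)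
        _ = _ := by push_cast; ring
    · simp only [Sum.elim_inr, Sum.elim_inl]
      push_cast
      rw [abs_mul]
      have e1 := hgm' q m.1
      calc _ ≤ (((2 : ℕ) : ℝ) + 1) * mu * Vm := mul_le_mul e1 (halb' _) (abs_nonneg _) (by positivity)
        _ = _ := by push_cast; ring
  · intro A hA hA'
    obtain ⟨r, hr⟩ := hgs _ hA
    obtain ⟨r', hr'⟩ := hgs' _ hA'
    have hDeR : (De : ℝ) ≠ 0 := by exact_mod_cast hDe
    refine ⟨Sum.elim (fun p => A p / De) (Sum.elim (fun q => r q / De) (fun q => r' q / De)), ?_⟩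
    rintro ⟨t, s'⟩
    rw [Fintype.sum_sum_type, Fintype.sum_sum_type, Fintype.sum_prod_type]
    simp only [Sum.elim_inl, Sum.elim_inr]
    have e1 : ∑ t1 : Idx 2 2, ∑ s : S, A (t1, s) / De *
        (((Pi.single t1 (1 : ℤ) : Idx 2 2 → ℤ) t * ep s s' : ℤ) : ℝ) =
        ∑ s : S, A (t, s) / De * (ep s s' : ℝ) := by
      rw [Finset.sum_eq_single t]
      · refine Finset.sum_congr rfl fun s _ => ?_
        rw [Pi.single_eq_same, one_mul]
      · intro t1 _ ht1
        refine Finset.sum_eq_zero fun s _ => ?_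
        rw [Pi.single_eq_of_ne ht1.symm, zero_mul]
        simp
      · simp
    have e2 : ∑ q : QQ, r q / De * ((g q t * al s' : ℤ) : ℝ) =
        ev A (fun s => (v s : ℝ)) t * al s' / De := by
      rw [hr t, Finset.sum_mul, Finset.sum_div]
      refine Finset.sum_congr rfl fun q _ => ?_
      push_cast
      ring
    have e3 : ∑ q : QQ, r' q / De * ((g' q t * al' s' : ℤ) : ℝ) =
        ev A (fun s => (v' s : ℝ)) t * al' s' / De := by
      rw [hr' t, Finset.sum_mul, Finset.sum_div]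
      refine Finset.sum_congr rfl fun q _ => ?_
      push_cast
      ring
    rw [e1, e2, e3]
    have e4 : ∑ s : S, A (t, s) / De * (ep s s' : ℝ) = (∑ s : S, A (t, s) * (ep s s' : ℝ)) / De := by
      rw [Finset.sum_div]
      exact Finset.sum_congr rfl fun s _ => by ring
    have e5 : ∑ s : S, A (t, s) * (ep s s' : ℝ) = De * A (t, s') -
        ev A (fun s => (v s : ℝ)) t * al s' - ev A (fun s => (v' s : ℝ)) t * al' s' := by
      have f1 : ∀ s, A (t, s) * (ep s s' : ℝ) = A (t, s) * (((Pi.single s De : S → ℤ) s' : ℤ) : ℝ)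
          - A (t, s) * (v s : ℝ) * al s' - A (t, s) * (v' s : ℝ) * al' s' := by
        intro s
        rw [hep]
        push_cast
        ring
      rw [Finset.sum_congr rfl fun s _ => f1 s, Finset.sum_sub_distrib, Finset.sum_sub_distrib,
        ← Finset.sum_mul, ← Finset.sum_mul, Finset.sum_eq_single s', Pi.single_eq_same]
      · simp only [ev]
        ring
      · intro s _ hs
        rw [Pi.single_eq_of_ne hs.symm]
        simp
      · simp
    rw [e4, e5]
    field_simp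
    ring

theorem short_cross (B : ℕ) (hB : 1 ≤ B) (x y : Fin 3 → ℤ)
    (hx : Prim x) (hy : Prim y) (mu : ℝ) (hmu : 1 ≤ mu) (hgx : Ortho mu x) (hgy : Ortho mu y)
    (i0 : Fin 3) (hi0 : (B : ℝ) / 2 ≤ |(x i0 : ℝ)|) (hi0' : (B : ℝ) / 2 ≤ |(y i0 : ℝ)|)
    (hx2 : ∀ i, |(x i : ℝ)| ≤ 2 * B) (h : 0 < dl x y)
    (v v' : S → ℤ) (hv : PrimS v) (hv' : PrimS v') (s0 : S) (hs0 : ∀ s, |v' s| ≤ |v' s0|)
    (Vm : ℝ) (hVm : 1 ≤ Vm) (hVv : ∀ s, |(v s : ℝ)| ≤ Vm) (hVv' : ∀ s, |(v' s : ℝ)| ≤ Vm)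
    (Dd : ℕ) (hDd : 0 < Dd)
    (hsep : ∃ a : S → ℤ, ∑ s, a s * v s = 0 ∧ ∑ s, a s * v' s = Dd) (s : ℤ)
    (hs : (Nat.gcd (mg x y) Dd : ℤ) ∣ s) :
    ∃ t : Idx 2 2 × S → ℤ, F (ev t v) x = 0 ∧ F (ev t v') y = s ∧
      ∀ m, |(t m : ℝ)| ≤ 32 * |(s : ℝ)| / ((dl x y : ℝ) * |(v' s0 : ℝ)|) +
        36 * (mu * Vm + Fintype.card S * Vm ^ 2) := by
  classical
  have hBpos : (0 : ℝ) < B := by exact_mod_cast hB
  have hdpos : (0 : ℝ) < dl x y := by exact_mod_cast h
  have hVm0 : (0 : ℝ) ≤ Vm := by linarith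
  have hmu0 : (0 : ℝ) ≤ mu := by linarith
  have hxne : x ≠ 0 := by
    rintro rfl
    simp at hi0
    linarith
  have hyne : y ≠ 0 := by
    rintro rfl
    simp at hi0'
    linarith
  obtain ⟨s1, s2, hDe⟩ := exists_minorS v v' hv Dd hDd hsep
  obtain ⟨V, hV0, hVb, hVs⟩ := span_cross x y hxne hyne mu hmu hgx hgy v v' Vm hVm hVv hVv' s1 s2 hDe
  obtain ⟨bR, hbx, hby, hbb⟩ := real_pair B hB x y i0 hi0 hi0' hx2 h (s : ℝ)
  obtain ⟨b1, hb1x, hb1y⟩ := exists_vec_mg (d := 2) (by norm_num) x y hx hy h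
  obtain ⟨cy, hcy⟩ := hy
  obtain ⟨a1, ha1⟩ := hv'
  obtain ⟨a2, ha2v, ha2v'⟩ := hsep
  obtain ⟨k, hk⟩ := hs
  -- the largest entry of `v'` is nonzero
  have hvs0 : (v' s0 : ℝ) ≠ 0 := by
    intro h0
    have h1 : v' s0 = 0 := by exact_mod_cast h0
    have h2 : ∀ s, v' s = 0 := by
      intro s
      have := hs0 s
      rw [h1, abs_zero] at this
      exact abs_eq_zero.mp (le_antisymm this (abs_nonneg _))
    rw [Finset.sum_eq_zero fun s _ => by rw [h2 s, mul_zero]] at ha1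
    exact zero_ne_one ha1
  -- the integral solution
  set t1 : Idx 2 2 × S → ℤ := fun m => b1 m.1 * a1 m.2 with ht1
  set t2 : Idx 2 2 × S → ℤ := fun m => T (fun _ : Fin 2 => cy) m.1 * a2 m.2 with ht2
  set t0 : Idx 2 2 × S → ℤ := fun m => (fun m => k * Nat.gcdA (mg x y) Dd * t1 m) m +
    (fun m => k * Nat.gcdB (mg x y) Dd * t2 m) m with ht0
  have h1x : F (ev t1 v) x = 0 := by rw [ht1, F_ev_tensor, hb1x, mul_zero]
  have h1y : F (ev t1 v') y = mg x y := by rw [ht1, F_ev_tensor, hb1y, ha1, one_mul]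
  have h2x : F (ev t2 v) x = 0 := by rw [ht2, F_ev_tensor, ha2v, zero_mul]
  have h2y : F (ev t2 v') y = Dd := by
    rw [ht2, F_ev_tensor, ha2v', F_T, hcy]
    simp
  have h0x : F (ev t0 v) x = 0 := by
    rw [ht0, F_ev_add, F_ev_smul, F_ev_smul, h1x, h2x]
    ring
  have h0y : F (ev t0 v') y = s := by
    rw [ht0, F_ev_add, F_ev_smul, F_ev_smul, h1y, h2y, hk, Nat.gcd_eq_gcd_ab]
    ring
  -- the real solution
  set aR : S → ℝ := Pi.single s0 (1 / (v' s0 : ℝ)) with haR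
  set tR : Idx 2 2 × S → ℝ := fun m => bR m.1 * aR m.2 with htR
  have haRv' : ∑ s, aR s * (v' s : ℝ) = 1 := by
    rw [Finset.sum_eq_single s0, haR, Pi.single_eq_same]
    · field_simp
    · intro i _ hi
      rw [haR, Pi.single_eq_of_ne hi, zero_mul]
    · simp
  have hRx : F (ev tR fun s => (v s : ℝ)) (fun i => (x i : ℝ)) = 0 := by
    rw [htR, F_ev_tensor, hbx, mul_zero]
  have hRy : F (ev tR fun s => (v' s : ℝ)) (fun i => (y i : ℝ)) = s := by
    rw [htR, F_ev_tensor, hby, haRv', one_mul]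
  have hsub : ∀ (u : S → ℤ) (z : Fin 3 → ℤ), F (ev (fun m => ((t0 m : ℤ) : ℝ) - tR m)
      (fun s => (u s : ℝ))) (fun i => (z i : ℝ)) =
      ((F (ev t0 u) z : ℤ) : ℝ) - F (ev tR fun s => (u s : ℝ)) (fun i => (z i : ℝ)) := by
    intro u z
    rw [F_ev_cast, F_ev, F_ev, F_ev, ← Finset.sum_sub_distrib]
    exact Finset.sum_congr rfl fun m _ => by ring
  obtain ⟨r, hr⟩ := hVs (fun m => ((t0 m : ℤ) : ℝ) - tR m)
    (by rw [hsub, hRx, h0x]; simp) (by rw [hsub, hRy, h0y]; simp)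
  obtain ⟨t, ht, htb⟩ := round_lin V _ hVb t0 tR r hr
  refine ⟨t, ?_, ?_, fun m => (htb m).trans ?_⟩
  · rw [F_ev, ht, ← F_ev, h0x]
    intro i
    rw [← F_ev]
    exact (hV0 i).1
  · rw [F_ev, ht, ← F_ev, h0y]
    intro i
    rw [← F_ev]
    exact (hV0 i).2
  · have e1 : |tR m| ≤ 32 * |(s : ℝ)| / ((dl x y : ℝ) * |(v' s0 : ℝ)|) := by
      rw [htR]
      simp only
      rw [abs_mul]
      have f1 : |aR m.2| ≤ 1 / |(v' s0 : ℝ)| := by
        rw [haR]
        by_cases hm : m.2 = s0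
        · rw [hm, Pi.single_eq_same, abs_div, abs_one]
        · rw [Pi.single_eq_of_ne hm, abs_zero]
          positivity
      calc |bR m.1| * |aR m.2| ≤ 32 * |(s : ℝ)| / (dl x y : ℝ) * (1 / |(v' s0 : ℝ)|) :=
            mul_le_mul (hbb _) f1 (abs_nonneg _) (by positivity)
        _ = _ := by
            field_simp
    have e2 : ∑ i : (Idx 2 2 × S) ⊕ (QQ ⊕ QQ),
        Sum.elim (fun _ => 4 * Vm ^ 2) (fun _ => 3 * mu * Vm) i =
        24 * Fintype.card S * Vm ^ 2 + 36 * (mu * Vm) := by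
      rw [Fintype.sum_sum_type]
      simp only [Sum.elim_inl, Sum.elim_inr, Finset.sum_const, Finset.card_univ, nsmul_eq_mul,
        Fintype.card_prod, Fintype.card_sum]
      have c1 : Fintype.card (Idx 2 2) = 6 := by decide
      have c2 : Fintype.card (Fin (2 - 1) → Fin (2 + 1)) = 3 := by simp
      rw [c1, c2, Fintype.card_fin]
      push_cast
      ring
    rw [e2]
    have e3 : (0 : ℝ) ≤ Fintype.card S * Vm ^ 2 := by positivity
    linarith

end ConicHP
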