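import Pool.Agent.Lib.MP_e426f4_ag.C.Defs
import Pool.Agent.Lib.MP_e426f4_ag.C.Ev
import Pool.Agent.Lib.MP_e426f4_ag.C.Points
import Pool.Agent.Lib.MP_e426f4_ag.C.Lin
import Pool.Agent.Lib.MP_e426f4_ag.C.ShortC
import Pool.Agent.Lib.MP_e426f4_ag.C.Heights
import Pool.Agent.Lib.MP_e426f4_ag.G.Basic
import Pool.Agent.Lib.MP_e426f4_ag.G.Alg
import Pool.Agent.Lib.MP_e426f4_ag.G.Minors

/-! Module C-TP: translation inequality for pairs of points in different fibres. -/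

namespace ConicHP

open Finset GenHP Filter Topology

variable {S : Type*} [Fintype S]

/-- the cofactor `q = lcm(M, Q m) / M` -/
private theorem cofactor' (W Q k G : ℕ) (hW : 0 < W) (hQ : ∃ n, Q = W ^ n) (hn : Q * W ^ G ∣ W ^ k)
    (m : ℕ) (hm : 0 < m) (hmG : m ≤ G) :
    ∃ q : ℕ, 0 < q ∧ q ∣ m ∧ Nat.Coprime q W ∧ Nat.lcm (W ^ k) (Q * m) = W ^ k * q := by
  obtain ⟨t, ht⟩ := hn
  have hg : Nat.gcd (W ^ G) m ∣ m := Nat.gcd_dvd_right _ _
  obtain ⟨q, hq⟩ := hg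
  have hgpos : 0 < Nat.gcd (W ^ G) m := Nat.gcd_pos_of_pos_right _ hm
  have hqpos : 0 < q := by
    rcases Nat.eq_zero_or_pos q with h | h
    · rw [h, Nat.mul_zero] at hq; omega
    · exact h
  have hcop : Nat.Coprime q W := by
    rw [Nat.coprime_iff_gcd_eq_one]
    by_contra hne
    obtain ⟨p, hp, hpd⟩ := Nat.exists_prime_and_dvd hne
    have hpq : p ∣ q := hpd.trans (Nat.gcd_dvd_left _ _)
    have hpW : p ∣ W := hpd.trans (Nat.gcd_dvd_right _ _)
    obtain ⟨e, m', hm', hme⟩ := Nat.exists_eq_pow_mul_and_not_dvd (n := m) (by omega) p hp.ne_one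
    have he1 : e < p ^ e := Nat.lt_pow_self hp.one_lt
    have he2 : p ^ e ≤ m := Nat.le_of_dvd hm ⟨m', hme⟩
    have heG : e ≤ G := by omega
    have h1 : p ^ e ∣ W ^ G := (pow_dvd_pow p heG).trans (pow_dvd_pow_of_dvd hpW G)
    have h2 : p ^ e ∣ Nat.gcd (W ^ G) m := Nat.dvd_gcd h1 ⟨m', hme⟩
    have h3 : p ^ e * p ∣ m := by
      rw [hq]
      exact Nat.mul_dvd_mul h2 hpq
    rw [hme] at h3
    have h4 : p ∣ m' := Nat.dvd_of_mul_dvd_mul_left (pow_pos hp.pos e) h3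
    exact hm' h4
  refine ⟨q, hqpos, ⟨Nat.gcd (W ^ G) m, by rw [mul_comm]; exact hq⟩, hcop, ?_⟩
  have hQpos : 0 < Q := by
    obtain ⟨n, rfl⟩ := hQ
    exact pow_pos hW n
  -- W^k = Q * (W^G * t)
  have hWk : W ^ k = Q * (W ^ G * t) := by rw [ht, mul_assoc]
  rw [hWk, Nat.lcm_mul_left]
  rw [mul_assoc]
  congr 1
  have htk : W ^ G * t ∣ W ^ k := ⟨Q, by rw [hWk]; ring⟩
  have hc2 : Nat.Coprime q (W ^ G * t) := Nat.Coprime.coprime_dvd_right htk (hcop.pow_right k)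
  have hgd : Nat.gcd (W ^ G) m ∣ W ^ G * t := (Nat.gcd_dvd_left _ _).trans (Dvd.intro _ rfl)
  apply Nat.dvd_antisymm
  · apply Nat.lcm_dvd
    · exact Dvd.intro _ rfl
    · rw [hq]
      exact Nat.mul_dvd_mul hgd dvd_rfl
  · apply Nat.Coprime.mul_dvd_of_dvd_of_dvd hc2.symm
    · exact Nat.dvd_lcm_left _ _
    · exact (Dvd.intro_left _ hq.symm).trans (Nat.dvd_lcm_right _ _)



section MAIN
variable (c : CPar S) (eps bet : ℝ) (w : ℕ) (hc : c.Valid eps bet w)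
include hc

theorem trans_pair (K : ℝ) (hK : 1 ≤ K) (G : ℕ) (hG : 1 ≤ G) (tau : ℝ) (ht : 0 < tau)
    (ht1 : tau ≤ 1) (th : ℝ) (hth : 0 < th) (s : ℕ) (hs : c.p.Q * c.p.W ^ G ∣ c.p.W ^ s) :
    ∀ᶠ H : ℝ in atTop, ∀ i i' : ℕ, i < JJ H → i' < JJ H → i ≠ i' →
      ∀ x y : Fin 3 → ℤ, x ∈ c.GC K H → y ∈ c.GC K H → mg x y ≤ G →
      tau * (c.BB H : ℝ) ^ 2 ≤ (dl x y : ℝ) →
      ∃ q : ℕ, 0 < q ∧ q ∣ mg x y ∧ (q : ℤ) ∣ (i : ℤ) - i' ∧ Nat.Coprime q c.p.W ∧
        c.Lev th (c.p.W ^ s * q) H *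
          (Set.ncard {A | A ∈ c.Cl c.p.rho H ∧ F (ev A (c.vv H i)) x = 0 ∧
            F (ev A (c.vv H i')) y = 0} : ℝ) ≤
          (Set.ncard {A | A ∈ c.Cl (c.p.rho + 65 * Fintype.card S * th / tau) H ∧
            F (ev A (c.vv H i)) x = 0 ∧ ((c.p.W : ℤ) ^ s) ∣ F (ev A (c.vv H i')) y ∧
            |((F (ev A (c.vv H i')) y : ℤ) : ℝ)| ≤ th * c.HH H * (c.BB H : ℝ) ^ 2} : ℝ) := by
  have hp := hc.pv
  have hQpos : (0 : ℝ) < c.p.Q := by exact_mod_cast hp.Q_pos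
  have hWpos : 0 < c.p.W := hp.W_pos
  have hS : 0 < Fintype.card S := card_pos c eps bet w hc
  have hSr : (0 : ℝ) < Fintype.card S := by exact_mod_cast hS
  have hK0 : 0 < K := by linarith
  have hsmall := small_le c eps bet w hc
    (c.p.Q * 36 * (2 * K + 4 * Fintype.card S) * tau / (Fintype.card S * th)) 2
  filter_upwards [hsmall, (BB_atTop c eps bet w hc).eventually_ge_atTop 1, VV_pos c eps bet w hc,
    JJ_atTop.eventually_ge_atTop 1, vv_le c eps bet w hc, vv_ge c eps bet w hc,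
    Filter.eventually_gt_atTop 0] with H h1 hBpos hV hJ hvle hvge hHpos
  intro i i' hi hi' hii x y hx hy hmG hdl
  set B := c.BB H with hB
  have hBpos' : (0 : ℝ) < B := by
    have : 0 < B := by omega
    exact_mod_cast this
  have hB1 : (1 : ℝ) ≤ B := by exact_mod_cast hBpos
  have hV1 : (1 : ℝ) ≤ c.VV H := by exact_mod_cast hV
  have hVpos : (0 : ℝ) < c.VV H := by linarith
  have hJ1 : (1 : ℝ) ≤ JJ H := by exact_mod_cast hJ
  have hHH : c.HH H = Fintype.card S * c.VV H * H := rfl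
  have hHHpos : 0 < c.HH H := by rw [hHH]; positivity
  have hdlpos' : (0 : ℝ) < dl x y := lt_of_lt_of_le (by positivity) hdl
  have hdlpos : 0 < dl x y := by exact_mod_cast hdlpos'
  have hmpos : 0 < mg x y := mg_pos_of_dl_pos x y hdlpos
  have hD0 := hc.fam.D0_pos
  set Dd : ℕ := c.D0 * ((i : ℤ) - i').natAbs with hDd
  have hDdpos : 0 < Dd := by
    refine Nat.mul_pos hD0 ?_
    omega
  set g : ℕ := Nat.gcd (mg x y) Dd with hg
  have hgpos : 0 < g := Nat.gcd_pos_of_pos_left _ hmpos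
  have hgG : g ≤ G := (Nat.le_of_dvd hmpos (Nat.gcd_dvd_left _ _)).trans hmG
  obtain ⟨q, hqpos, hqm, hqW, hlcm⟩ := cofactor' c.p.W c.p.Q s G hWpos hp.hens.2.1 hs g hgpos hgG
  have hqi : (q : ℤ) ∣ (i : ℤ) - i' := by
    have h2 : q ∣ Dd := hqm.trans (Nat.gcd_dvd_right _ _)
    have h3 : Nat.Coprime q c.D0 := by
      rw [Nat.coprime_iff_gcd_eq_one]
      by_contra hne
      obtain ⟨l, hl, hld⟩ := Nat.exists_prime_and_dvd hne
      have h4 : l ∣ q := hld.trans (Nat.gcd_dvd_left _ _)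
      have h5 : l ∣ c.p.W := hc.fam.D0_primes l hl (hld.trans (Nat.gcd_dvd_right _ _))
      have h6 := Nat.dvd_gcd h4 h5
      rw [hqW] at h6
      exact hl.one_lt.ne' (Nat.dvd_one.1 h6)
    have h7 : q ∣ ((i : ℤ) - i').natAbs := h3.dvd_of_dvd_mul_left h2
    exact Int.natCast_dvd.2 h7
  refine ⟨q, hqpos, hqm.trans (Nat.gcd_dvd_left _ _), hqi, hqW, ?_⟩
  obtain ⟨i0, hi0⟩ := hp.xi_eq
  have hbx := mem_XX_bounds c.p eps bet w hp B x hx.1
  have hby := mem_XX_bounds c.p eps bet w hp B y hy.1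
  set v := c.vv H i with hv
  set v' := c.vv H i' with hv'
  have hvp : PrimS v := hc.fam.prim _ _
  have hvp' : PrimS v' := hc.fam.prim _ _
  obtain ⟨s0, hs0, hs01⟩ := exists_argmax v' hvp'
  have hvs : (c.VV H : ℝ) / 2 ≤ |(v' s0 : ℝ)| := hvge i' hi' s0 hs0
  have hvspos : 0 < |(v' s0 : ℝ)| := by linarith only [hV1, hvs]
  have hsep : ∃ a : S → ℤ, ∑ s, a s * v s = 0 ∧ ∑ s, a s * v' s = Dd := by
    obtain ⟨a, ha1, ha2⟩ := hc.fam.sep (JJ H) i i' hii
    have hDz : (Dd : ℤ) = c.D0 * |(i : ℤ) - i'| := by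
      rw [hDd, Nat.cast_mul, Int.natCast_natAbs]
    rcases le_total 0 ((i : ℤ) - i') with h0 | h0
    · refine ⟨a, ha1, ?_⟩
      rw [hDz, abs_of_nonneg h0]
      exact ha2
    · refine ⟨fun s => -a s, ?_, ?_⟩
      · have : ∑ s, -a s * v s = -∑ s, a s * v s := by
          rw [← Finset.sum_neg_distrib]
          exact Finset.sum_congr rfl fun s _ => by ring
        rw [this]
        change -∑ s, a s * c.v (JJ H) i s = 0
        rw [ha1, neg_zero]
      · have : ∑ s, -a s * v' s = -∑ s, a s * v' s := by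
          rw [← Finset.sum_neg_distrib]
          exact Finset.sum_congr rfl fun s _ => by ring
        rw [this, hDz, abs_of_nonpos h0]
        change -∑ s, a s * c.v (JJ H) i' s = _
        rw [ha2]
        ring
  -- the modulus
  set M : ℕ := c.p.W ^ s * q with hM
  have hMpos : 0 < M := Nat.mul_pos (pow_pos hWpos s) hqpos
  have hMpos' : (0 : ℝ) < M := by exact_mod_cast hMpos
  have hQm : c.p.Q * g ∣ M := by
    rw [← hlcm]
    exact Nat.dvd_lcm_right _ _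
  obtain ⟨u, hu⟩ := hQm
  have hmu1 : 1 ≤ K * (B : ℝ) ^ (1 / ((2 : ℕ) : ℝ)) := by
    have : 1 ≤ (B : ℝ) ^ (1 / ((2 : ℕ) : ℝ)) := Real.one_le_rpow hB1 (by positivity)
    nlinarith only [hK, this]
  set N : ℕ := ⌊th * c.HH H * (B : ℝ) ^ 2 / M⌋₊ with hN
  have hex : ∀ j : ℤ, |j| ≤ N → ∃ t : Idx 2 2 × S → ℤ, F (ev t v) x = 0 ∧ F (ev t v') y = M * j ∧
      (∀ m, (c.p.Q : ℤ) ∣ t m) ∧ ∀ m, |(t m : ℝ)| ≤ 65 * Fintype.card S * th / tau * H := by
    intro j hj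
    have hjM : |(M : ℝ) * j| ≤ th * c.HH H * (B : ℝ) ^ 2 := by
      rw [abs_mul, abs_of_pos hMpos']
      have hj' : |(j : ℝ)| ≤ N := by exact_mod_cast hj
      have hN' : (N : ℝ) ≤ th * c.HH H * (B : ℝ) ^ 2 / M := Nat.floor_le (by positivity)
      calc (M : ℝ) * |(j : ℝ)| ≤ M * (th * c.HH H * (B : ℝ) ^ 2 / M) := by
            apply mul_le_mul_of_nonneg_left (hj'.trans hN') hMpos'.le
        _ = th * c.HH H * (B : ℝ) ^ 2 := by field_simp
    obtain ⟨t, ht0, hts, htb⟩ := short_cross B hBpos x y hx.2.1 hy.2.1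
      (K * (B : ℝ) ^ (1 / ((2 : ℕ) : ℝ)))
      hmu1 hx.2.2 hy.2.2 i0 ((hbx i0).2 hi0) ((hby i0).2 hi0) (fun i => (hbx i).1)
      hdlpos v v' hvp hvp' s0 hs0 (2 * c.VV H) (by linarith only [hV1]) (hvle i hi) (hvle i' hi')
      Dd hDdpos hsep ((g : ℤ) * (u * j)) (Dvd.intro _ rfl)
    refine ⟨fun m => c.p.Q * t m, ?_, ?_, fun m => Dvd.intro _ rfl, ?_⟩
    · rw [F_ev_smul, ht0, mul_zero]
    · rw [F_ev_smul, hts, hu]
      push_cast
      ring
    · intro m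
      have h5 := htb m
      push_cast
      rw [abs_mul, abs_of_pos hQpos]
      have h6 : (c.p.Q : ℝ) * |(t m : ℝ)| ≤ c.p.Q * (32 * |(((g : ℤ) * (u * j) : ℤ) : ℝ)| /
          ((dl x y : ℝ) * |(v' s0 : ℝ)|) + 36 * (K * (B : ℝ) ^ (1 / ((2 : ℕ) : ℝ)) * (2 * c.VV H) +
          Fintype.card S * (2 * c.VV H) ^ 2)) :=
        mul_le_mul_of_nonneg_left h5 hQpos.le
      refine h6.trans ?_
      have h7 : (c.p.Q : ℝ) * |(((g : ℤ) * (u * j) : ℤ) : ℝ)| = |(M : ℝ) * j| := by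
        rw [hu]
        push_cast
        rw [← abs_of_pos hQpos, ← abs_mul, abs_of_pos hQpos]
        congr 1
        ring
      have h8 : (c.p.Q : ℝ) * (32 * |(((g : ℤ) * (u * j) : ℤ) : ℝ)| /
          ((dl x y : ℝ) * |(v' s0 : ℝ)|)) ≤ 64 * Fintype.card S * th / tau * H := by
        have : (c.p.Q : ℝ) * (32 * |(((g : ℤ) * (u * j) : ℤ) : ℝ)| /
            ((dl x y : ℝ) * |(v' s0 : ℝ)|)) =
            32 * |(M : ℝ) * j| / ((dl x y : ℝ) * |(v' s0 : ℝ)|) := by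
          rw [← h7]; ring
        rw [this]
        rw [div_le_iff₀ (by positivity)]
        calc 32 * |(M : ℝ) * j| ≤ 32 * (th * c.HH H * (B : ℝ) ^ 2) := by
              apply mul_le_mul_of_nonneg_left hjM (by positivity)
          _ = 64 * Fintype.card S * th / tau * H * ((tau * (B : ℝ) ^ 2) * (c.VV H / 2)) := by
              rw [hHH]
              field_simp
              ring
          _ ≤ 64 * Fintype.card S * th / tau * H * ((dl x y : ℝ) * |(v' s0 : ℝ)|) := by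
              apply mul_le_mul_of_nonneg_left _ (by positivity)
              exact mul_le_mul hdl hvs (by positivity) (by positivity)
      have h9 : (c.p.Q : ℝ) * (36 * (K * (B : ℝ) ^ (1 / ((2 : ℕ) : ℝ)) * (2 * c.VV H) +
          Fintype.card S * (2 * c.VV H) ^ 2)) ≤ Fintype.card S * th / tau * H := by
        have hB2 : (B : ℝ) ^ (1 / ((2 : ℕ) : ℝ)) = (B : ℝ) ^ (1 / 2 : ℝ) := by norm_num
        rw [hB2]
        have hBr : 1 ≤ (B : ℝ) ^ (1 / 2 : ℝ) := Real.one_le_rpow hB1 (by positivity)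
        have hJ2 : (1 : ℝ) ≤ (JJ H : ℝ) ^ 2 := one_le_pow₀ hJ1
        have hVV : (c.VV H : ℝ) ≤ (c.VV H : ℝ) ^ 2 * (JJ H : ℝ) ^ 2 := by
          calc (c.VV H : ℝ) ≤ (c.VV H : ℝ) ^ 2 := by nlinarith only [hV1]
            _ = (c.VV H : ℝ) ^ 2 * 1 := (mul_one _).symm
            _ ≤ (c.VV H : ℝ) ^ 2 * (JJ H : ℝ) ^ 2 := mul_le_mul_of_nonneg_left hJ2 (by positivity)
        have hVV2 : (c.VV H : ℝ) ^ 2 ≤ (c.VV H : ℝ) ^ 2 * (JJ H : ℝ) ^ 2 :=
          le_mul_of_one_le_right (by positivity) hJ2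
        have e1 : K * (B : ℝ) ^ (1 / 2 : ℝ) * (2 * c.VV H) ≤
            2 * K * (((c.VV H : ℝ) ^ 2 * (JJ H : ℝ) ^ 2) * (B : ℝ) ^ (1 / 2 : ℝ)) := by
          calc K * (B : ℝ) ^ (1 / 2 : ℝ) * (2 * c.VV H) =
              2 * K * (c.VV H * (B : ℝ) ^ (1 / 2 : ℝ)) := by ring
            _ ≤ _ := by
              apply mul_le_mul_of_nonneg_left _ (by positivity)
              exact mul_le_mul_of_nonneg_right hVV (by positivity)
        have e2 : (Fintype.card S : ℝ) * (2 * c.VV H) ^ 2 ≤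
            4 * Fintype.card S * (((c.VV H : ℝ) ^ 2 * (JJ H : ℝ) ^ 2) * (B : ℝ) ^ (1 / 2 : ℝ)) := by
          calc (Fintype.card S : ℝ) * (2 * c.VV H) ^ 2 =
              4 * Fintype.card S * ((c.VV H : ℝ) ^ 2 * 1) := by ring
            _ ≤ _ := by
              apply mul_le_mul_of_nonneg_left _ (by positivity)
              exact mul_le_mul hVV2 hBr (by norm_num) (by positivity)
        have h10 := mul_le_mul_of_nonneg_right h1
          (by positivity : (0 : ℝ) ≤ Fintype.card S * th / tau)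
        have h11 : c.p.Q * 36 * (2 * K + 4 * Fintype.card S) * tau / (Fintype.card S * th) *
            ((c.VV H : ℝ) ^ 2 * (JJ H : ℝ) ^ 2) * (B : ℝ) ^ (1 / 2 : ℝ) *
            (Fintype.card S * th / tau) = c.p.Q * (36 * ((2 * K + 4 * Fintype.card S) *
            (((c.VV H : ℝ) ^ 2 * (JJ H : ℝ) ^ 2) * (B : ℝ) ^ (1 / 2 : ℝ)))) := by
          field_simp
        rw [h11] at h10
        calc _ ≤ (c.p.Q : ℝ) * (36 * (2 * K * (((c.VV H : ℝ) ^ 2 * (JJ H : ℝ) ^ 2) *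
            (B : ℝ) ^ (1 / 2 : ℝ)) + 4 * Fintype.card S *
            (((c.VV H : ℝ) ^ 2 * (JJ H : ℝ) ^ 2) * (B : ℝ) ^ (1 / 2 : ℝ)))) := by
              gcongr
          _ = c.p.Q * (36 * ((2 * K + 4 * Fintype.card S) *
            (((c.VV H : ℝ) ^ 2 * (JJ H : ℝ) ^ 2) * (B : ℝ) ^ (1 / 2 : ℝ)))) := by ring
          _ ≤ H * (Fintype.card S * th / tau) := h10
          _ = _ := by ring
      calc (c.p.Q : ℝ) * (32 * |(((g : ℤ) * (u * j) : ℤ) : ℝ)| / ((dl x y : ℝ) * |(v' s0 : ℝ)|) +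
          36 * (K * (B : ℝ) ^ (1 / ((2 : ℕ) : ℝ)) * (2 * c.VV H) +
            Fintype.card S * (2 * c.VV H) ^ 2))
          = (c.p.Q : ℝ) * (32 * |(((g : ℤ) * (u * j) : ℤ) : ℝ)| /
              ((dl x y : ℝ) * |(v' s0 : ℝ)|)) +
            (c.p.Q : ℝ) * (36 * (K * (B : ℝ) ^ (1 / ((2 : ℕ) : ℝ)) * (2 * c.VV H) +
            Fintype.card S * (2 * c.VV H) ^ 2)) := by ring
        _ ≤ 64 * Fintype.card S * th / tau * H + Fintype.card S * th / tau * H := add_le_add h8 h9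
        _ = 65 * Fintype.card S * th / tau * H := by ring
  choose! T hT using hex
  set S1 : Set (Idx 2 2 × S → ℤ) := {A | A ∈ c.Cl c.p.rho H ∧ F (ev A v) x = 0 ∧
    F (ev A v') y = 0} with hS1
  set S2 : Set (Idx 2 2 × S → ℤ) := {A | A ∈ c.Cl (c.p.rho + 65 * Fintype.card S * th / tau) H ∧
    F (ev A v) x = 0 ∧ ((c.p.W : ℤ) ^ s) ∣ F (ev A v') y ∧
    |((F (ev A v') y : ℤ) : ℝ)| ≤ th * c.HH H * (B : ℝ) ^ 2} with hS2
  have hS2fin : S2.Finite := (Cl_finite c _ H).subset fun A hA => hA.1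
  have hS1fin : S1.Finite := (Cl_finite c _ H).subset fun A hA => hA.1
  have hcard : (S1 ×ˢ (Set.Icc (-(N : ℤ)) N)).ncard ≤ S2.ncard := by
    refine Set.ncard_le_ncard_of_injOn (fun a => fun m => a.1 m + T a.2 m) ?_ ?_ hS2fin
    · rintro ⟨A, j⟩ ⟨hA, hj⟩
      have hj' : |j| ≤ (N : ℤ) := abs_le.mpr ⟨hj.1, hj.2⟩
      obtain ⟨hT1, hT2, hT3, hT4⟩ := hT j hj'
      refine ⟨⟨?_, ?_⟩, ?_, ?_, ?_⟩
      · intro m
        have ha := hA.1.1 m
        have hb := hT4 m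
        have : ((A m + T j m : ℤ) : ℝ) - H * c.AC m = ((A m : ℝ) - H * c.AC m) + T j m := by
          push_cast; ring
        show |((A m + T j m : ℤ) : ℝ) - H * c.AC m| ≤ _
        rw [this]
        calc |((A m : ℝ) - H * c.AC m) + T j m| ≤ |(A m : ℝ) - H * c.AC m| + |(T j m : ℝ)| :=
              abs_add_le _ _
          _ ≤ c.p.rho * H + 65 * Fintype.card S * th / tau * H := add_le_add ha hb
          _ = (c.p.rho + 65 * Fintype.card S * th / tau) * H := by ring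
      · intro m
        have ha := hA.1.2 m
        show (c.p.Q : ℤ) ∣ A m + T j m - c.A0 m
        have : A m + T j m - c.A0 m = (A m - c.A0 m) + T j m := by ring
        rw [this]
        exact dvd_add ha (hT3 m)
      · show F (ev (fun m => A m + T j m) v) x = 0
        rw [F_ev_add, hA.2.1, hT1, add_zero]
      · show ((c.p.W : ℤ) ^ s) ∣ F (ev (fun m => A m + T j m) v') y
        rw [F_ev_add, hA.2.2, hT2, zero_add, hM]
        push_cast
        exact ⟨q * j, by ring⟩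
      · show |((F (ev (fun m => A m + T j m) v') y : ℤ) : ℝ)| ≤ th * c.HH H * (B : ℝ) ^ 2
        rw [F_ev_add, hA.2.2, hT2, zero_add]
        push_cast
        rw [abs_mul, abs_of_pos hMpos']
        have hj'' : |(j : ℝ)| ≤ N := by exact_mod_cast hj'
        have hN' : (N : ℝ) ≤ th * c.HH H * (B : ℝ) ^ 2 / M := Nat.floor_le (by positivity)
        calc (M : ℝ) * |(j : ℝ)| ≤ M * (th * c.HH H * (B : ℝ) ^ 2 / M) := by
              apply mul_le_mul_of_nonneg_left (hj''.trans hN') hMpos'.le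
          _ = th * c.HH H * (B : ℝ) ^ 2 := by field_simp
    · rintro ⟨A, j⟩ ⟨hA, hj⟩ ⟨A', j'⟩ ⟨hA', hj'⟩ heq
      simp only at heq hA hA' hj hj'
      have hj1 : |j| ≤ (N : ℤ) := abs_le.mpr ⟨hj.1, hj.2⟩
      have hj2 : |j'| ≤ (N : ℤ) := abs_le.mpr ⟨hj'.1, hj'.2⟩
      have h5 : F (ev (fun m => A m + T j m) v') y = F (ev (fun m => A' m + T j' m) v') y := by
        rw [heq]
      rw [F_ev_add, F_ev_add, hA.2.2, hA'.2.2, (hT j hj1).2.1, (hT j' hj2).2.1, zero_add,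
        zero_add] at h5
      have hMne : (M : ℤ) ≠ 0 := by exact_mod_cast hMpos.ne'
      have hjj : j = j' := mul_left_cancel₀ hMne h5
      subst hjj
      have : A = A' := by
        funext m
        have := congrFun heq m
        linarith only [this]
      rw [this]
  rw [Set.ncard_prod] at hcard
  have hI : (Set.Icc (-(N : ℤ)) N).ncard = 2 * N + 1 := by
    rw [← Finset.coe_Icc, Set.ncard_coe_finset, Int.card_Icc]
    omega
  rw [hI] at hcard
  have hLev : c.Lev th M H = ((2 * N + 1 : ℕ) : ℝ) := by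
    rw [CPar.Lev, hN, hB]
    push_cast
    rfl
  rw [hLev]
  have : (S1.ncard : ℝ) * ((2 * N + 1 : ℕ) : ℝ) ≤ S2.ncard := by exact_mod_cast hcard
  linarith only [this]

end MAIN

end ConicHP
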