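import Pool.Agent.Lib.MP_e426f4_ag.C.Defs
import Pool.Agent.Lib.MP_e426f4_ag.C.Ev
import Pool.Agent.Lib.MP_e426f4_ag.C.Points
import Pool.Agent.Lib.MP_e426f4_ag.C.NLoc
import Pool.Agent.Lib.MP_e426f4_ag.C.Arith
import Pool.Agent.Lib.MP_e426f4_ag.C.Heights
import Pool.Agent.Lib.MP_e426f4_ag.C.FirstUpper
import Pool.Agent.Lib.MP_e426f4_ag.C.TransPair
import Pool.Agent.Lib.MP_e426f4_ag.G.Basic
import Pool.Agent.Lib.MP_e426f4_ag.G.Minors

/-! Module C-S2M: main pairs of points in different fibres. -/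

namespace ConicHP

open Finset GenHP Filter Topology

private theorem s2m_count {α β : Type*} (C0 C1 : Finset α) (GF : Finset β) (e l : α → β → Prop)
    (m : ℕ → β → β → Prop) (good : β → β → Prop) [∀ A x, Decidable (e A x)]
    [∀ A x, Decidable (l A x)] [∀ q x y, Decidable (m q x y)]
    [∀ x y, Decidable (good x y)] (QQ : Finset ℕ) (c : ℝ) (hc : 0 ≤ c) (b : ℕ → ℝ)
    (h1 : ∀ x ∈ GF, ∀ y ∈ GF, good x y → ∃ q ∈ QQ, m q x y ∧
      ((C0.filter (fun A => e A x ∧ e A y)).card : ℝ) ≤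
        c * q * ((C1.filter (fun A => e A x ∧ l A y)).card : ℝ))
    (h2 : ∀ A ∈ C1, ∀ x ∈ GF, e A x → ∀ q ∈ QQ,
      ((GF.filter (fun y => m q x y ∧ l A y)).card : ℝ) ≤ b q) :
    (((C0 ×ˢ (GF ×ˢ GF)).filter
      (fun t => e t.1 t.2.1 ∧ e t.1 t.2.2 ∧ good t.2.1 t.2.2)).card : ℝ) ≤
      c * (∑ q ∈ QQ, (q : ℝ) * b q) * (((C1 ×ˢ GF).filter (fun p => e p.1 p.2)).card : ℝ) := by
  have e1 : (((C0 ×ˢ (GF ×ˢ GF)).filter
      (fun t => e t.1 t.2.1 ∧ e t.1 t.2.2 ∧ good t.2.1 t.2.2)).card : ℝ) =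
      ∑ x ∈ GF, ∑ y ∈ GF, if good x y then
        ((C0.filter (fun A => e A x ∧ e A y)).card : ℝ) else 0 := by
    rw [Finset.card_filter]
    push_cast
    rw [Finset.sum_product, Finset.sum_comm, Finset.sum_product]
    refine Finset.sum_congr rfl fun x _ => Finset.sum_congr rfl fun y _ => ?_
    by_cases hg : good x y
    · rw [if_pos hg, Finset.card_filter]
      push_cast
      refine Finset.sum_congr rfl fun A _ => ?_
      simp only [hg, and_true]
    · rw [if_neg hg]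
      refine Finset.sum_eq_zero fun A _ => ?_
      simp only [hg, and_false, if_false]
  have e2 : ∀ x ∈ GF, ∀ y ∈ GF, (if good x y then
        ((C0.filter (fun A => e A x ∧ e A y)).card : ℝ) else 0) ≤
      ∑ q ∈ QQ, ∑ A ∈ C1, c * q * (if (e A x) then (if (m q x y ∧ l A y) then 1 else 0) else 0) := by
    intro x hx y hy
    have hnn : ∀ q ∈ QQ, 0 ≤ ∑ A ∈ C1, c * (q : ℝ) *
        (if (e A x) then (if (m q x y ∧ l A y) then 1 else 0) else 0) := by
      intro q _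
      refine Finset.sum_nonneg fun A _ => ?_
      refine mul_nonneg (mul_nonneg hc (Nat.cast_nonneg q)) ?_
      split_ifs <;> norm_num
    by_cases hg : good x y
    · rw [if_pos hg]
      obtain ⟨q, hq, hqm, hle⟩ := h1 x hx y hy hg
      refine hle.trans ?_
      refine le_trans (le_of_eq ?_) (Finset.single_le_sum hnn hq)
      rw [Finset.card_filter, ← Finset.mul_sum]
      push_cast
      congr 1
      refine Finset.sum_congr rfl fun A _ => ?_
      by_cases h3 : e A x <;> by_cases h4 : l A y <;> simp [h3, h4, hqm]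
    · rw [if_neg hg]
      exact Finset.sum_nonneg hnn
  rw [e1]
  refine (Finset.sum_le_sum fun x hx => Finset.sum_le_sum fun y hy => e2 x hx y hy).trans ?_
  have e3 : ∑ x ∈ GF, ∑ y ∈ GF, ∑ q ∈ QQ, ∑ A ∈ C1, c * (q : ℝ) *
        (if (e A x) then (if (m q x y ∧ l A y) then (1 : ℝ) else 0) else 0) =
      ∑ q ∈ QQ, ∑ A ∈ C1, ∑ x ∈ GF, c * (q : ℝ) * (if (e A x) then
        ((GF.filter (fun y => m q x y ∧ l A y)).card : ℝ) else 0) := by
    have e4 : ∀ x ∈ GF, (∑ y ∈ GF, ∑ q ∈ QQ, ∑ A ∈ C1, c * (q : ℝ) *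
        (if (e A x) then (if (m q x y ∧ l A y) then (1 : ℝ) else 0) else 0)) =
        ∑ q ∈ QQ, ∑ A ∈ C1, c * (q : ℝ) * (if (e A x) then
        ((GF.filter (fun y => m q x y ∧ l A y)).card : ℝ) else 0) := by
      intro x _
      rw [Finset.sum_comm]
      refine Finset.sum_congr rfl fun q _ => ?_
      rw [Finset.sum_comm]
      refine Finset.sum_congr rfl fun A _ => ?_
      rw [← Finset.mul_sum]
      congr 1
      by_cases h3 : e A x
      · simp only [h3, if_true]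
        rw [Finset.card_filter]
        push_cast
        rfl
      · simp only [h3, if_false, Finset.sum_const_zero]
    rw [Finset.sum_congr rfl e4, Finset.sum_comm]
    refine Finset.sum_congr rfl fun q _ => ?_
    rw [Finset.sum_comm]
  rw [e3]
  have e5 : ∀ q ∈ QQ, ∑ A ∈ C1, ∑ x ∈ GF, c * (q : ℝ) * (if (e A x) then
        ((GF.filter (fun y => m q x y ∧ l A y)).card : ℝ) else 0) ≤
      c * (q * b q) * (((C1 ×ˢ GF).filter (fun p => e p.1 p.2)).card : ℝ) := by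
    intro q hq
    rw [Finset.card_filter]
    push_cast
    rw [Finset.sum_product, Finset.mul_sum]
    refine Finset.sum_le_sum fun A hA => ?_
    rw [Finset.mul_sum]
    refine Finset.sum_le_sum fun x hx => ?_
    by_cases h3 : e A x
    · rw [if_pos h3, if_pos h3, mul_one, ← mul_assoc]
      exact mul_le_mul_of_nonneg_left (h2 A hA x hx h3 q hq) (mul_nonneg hc (Nat.cast_nonneg q))
    · rw [if_neg h3, if_neg h3, mul_zero, mul_zero]
  refine (Finset.sum_le_sum e5).trans (le_of_eq ?_)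
  rw [← Finset.sum_mul, ← Finset.mul_sum]

private theorem s2m_sum {n d : ℕ} (p : Par n d) (eps bet : ℝ) (w : ℕ) (hp : PV p eps bet w) (G : ℕ) :
    ∑ q ∈ (Icc 1 G).filter (fun q => Nat.Coprime q p.W), (1 : ℝ) / (q : ℝ) ^ 2 ≤ 1 + 1 / w := by
  have hw : 2 ≤ w := hp.w_two
  have hsub : (Icc 1 G).filter (fun q => Nat.Coprime q p.W) ⊆ insert 1 (Ioc w (max w G)) := by
    intro q hq
    rw [Finset.mem_filter, Finset.mem_Icc] at hq
    rw [Finset.mem_insert, Finset.mem_Ioc]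
    by_cases h1 : q = 1
    · exact Or.inl h1
    · right
      refine ⟨?_, hq.1.2.trans (le_max_right _ _)⟩
      have hqp := Nat.minFac_prime h1
      have hdv := Nat.minFac_dvd q
      have h2 : ¬ (q.minFac ∣ p.W) := fun h => by
        have := Nat.dvd_gcd hdv h
        rw [hq.2] at this
        exact hqp.one_lt.ne' (Nat.dvd_one.1 this)
      rw [hp.W_primes _ hqp] at h2
      have := Nat.le_of_dvd (by omega) hdv
      omega
  refine (Finset.sum_le_sum_of_subset_of_nonneg hsub fun q _ _ => by positivity).trans ?_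
  rw [Finset.sum_insert (by rw [Finset.mem_Ioc]; omega)]
  have h3 := sum_Ioc_inv_sq_le_sub (α := ℝ) (k := w) (n := max w G) (by omega) (le_max_left _ _)
  have h4 : ∑ q ∈ Ioc w (max w G), (1 : ℝ) / (q : ℝ) ^ 2 =
      ∑ q ∈ Ioc w (max w G), ((q : ℝ) ^ 2)⁻¹ := Finset.sum_congr rfl fun q _ => one_div _
  rw [h4]
  have h5 : (0 : ℝ) ≤ ((max w G : ℕ) : ℝ)⁻¹ := by positivity
  rw [one_div (w : ℝ)]
  norm_num
  linarith

private theorem s2m_num (e v : ℝ) (N : ℕ) (hN : 0 < N) (he : 0 < e) (he1 : e ≤ 1 / 10) (hv : 0 ≤ v)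
    (hv2 : v ≤ 1 / 2) :
    (1 + 2 * e) * (1 + e) * (1 + v) * ((1 + 8 * e) * (1 + e / N) ^ N) ≤
      1 + 40 * e + 3 * v := by
  have hNr : (0 : ℝ) < N := by exact_mod_cast hN
  have h1 : (1 + e / N) ^ N ≤ 1 + e + e ^ 2 := by
    have h2 : 1 + e / N ≤ Real.exp (e / N) := by
      have := Real.add_one_le_exp (e / N)
      linarith
    have h3 : (1 + e / N) ^ N ≤ Real.exp (e / N) ^ N := pow_le_pow_left₀ (by positivity) h2 N
    rw [← Real.exp_nat_mul] at h3
    have h4 : (N : ℝ) * (e / N) = e := by field_simp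
    rw [h4] at h3
    have h5 := Real.abs_exp_sub_one_sub_id_le (x := e) (by rw [abs_of_pos he]; linarith)
    rw [abs_le] at h5
    linarith
  have h2 : (1 + 8 * e) * (1 + e / N) ^ N ≤ 1 + 10 * e := by
    calc (1 + 8 * e) * (1 + e / N) ^ N ≤ (1 + 8 * e) * (1 + e + e ^ 2) :=
          mul_le_mul_of_nonneg_left h1 (by positivity)
      _ ≤ 1 + 10 * e := by nlinarith [mul_pos he he, mul_nonneg (mul_nonneg he.le he.le) he.le]
  have h3 : (1 + 2 * e) * (1 + e) ≤ 1 + 32 / 10 * e := by nlinarith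
  have h4 : (1 + 2 * e) * (1 + e) * (1 + v) ≤ (1 + 32 / 10 * e) * (1 + v) :=
    mul_le_mul_of_nonneg_right h3 (by positivity)
  calc _ ≤ (1 + 32 / 10 * e) * (1 + v) * (1 + 10 * e) :=
        mul_le_mul h4 h2 (by positivity) (by positivity)
    _ ≤ 1 + 40 * e + 3 * v := by nlinarith [mul_nonneg he.le hv, mul_nonneg (mul_nonneg he.le he.le) hv]


variable {S : Type*} [Fintype S]

private theorem s2m_lev (c : CPar S) (eps th : ℝ) (he : 0 < eps) (M : ℕ) (H : ℝ)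
    (hy : (1 + 2 * eps) / (2 * eps) ≤ 2 * (th * c.HH H * (c.BB H : ℝ) ^ 2 / M)) :
    2 * (th * c.HH H * (c.BB H : ℝ) ^ 2 / M) ≤ (1 + 2 * eps) * c.Lev th M H := by
  have h1 : th * c.HH H * (c.BB H : ℝ) ^ 2 / M < (⌊th * c.HH H * (c.BB H : ℝ) ^ 2 / M⌋₊ : ℝ) + 1 :=
    Nat.lt_floor_add_one _
  have h2 : 2 * (th * c.HH H * (c.BB H : ℝ) ^ 2 / M) - 1 ≤ c.Lev th M H := by
    unfold CPar.Lev
    linarith
  rw [div_le_iff₀ (by positivity)] at hy
  have h3 := mul_le_mul_of_nonneg_left h2 (by positivity : (0 : ℝ) ≤ 1 + 2 * eps)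
  nlinarith

section MAIN
variable (c : CPar S) (eps bet : ℝ) (w : ℕ) (hc : c.Valid eps bet w)
include hc

theorem S2_main (K : ℝ) (hK : 1 ≤ K) (G : ℕ) (hG : 1 ≤ G) (tau : ℝ) (ht : 0 < tau)
    (ht1 : tau ≤ 1) :
    ∀ᶠ H : ℝ in atTop,
      ((c.TMain K G tau H).ncard : ℝ) ≤ (1 + 40 * eps + 3 / w) * c.TT H ^ 2 * c.Xn H := by
  classical
  have hp := hc.pv
  have he := hp.eps_pos
  have he1 := hp.eps_le
  have hbet := hp.bet_pos
  have hkap := hp.kap_pos
  have hrho := hp.rho_pos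
  have hrho1 := hp.rho_le
  have hW := hp.W_pos
  have hQ := hp.Q_pos
  have hP := hp.P_pos
  have hw : 2 ≤ w := hp.w_two
  have hWr : (0 : ℝ) < c.p.W := by exact_mod_cast hW
  have hQr : (0 : ℝ) < c.p.Q := by exact_mod_cast hQ
  have hPr : (0 : ℝ) < c.p.P := by exact_mod_cast hP
  have hgam : 0 < |c.p.gam| := lt_of_lt_of_le hbet hp.gam_ge
  have hwr : (2 : ℝ) ≤ w := by exact_mod_cast hw
  have hS : 0 < Fintype.card S := card_pos c eps bet w hc
  have hSr : (0 : ℝ) < Fintype.card S := by exact_mod_cast hS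
  have hS1 : (1 : ℝ) ≤ Fintype.card S := by exact_mod_cast hS
  have hMM : 0 < MM S := by
    unfold MM
    rw [Fintype.card_prod]
    exact Nat.mul_pos (NN_pos 2 2) hS
  have hNN : (0 : ℝ) < MM S := by exact_mod_cast hMM
  have hNN1 : (1 : ℝ) ≤ MM S := by exact_mod_cast hMM
  obtain ⟨s0, hs0⟩ := hp.hens.2.1
  obtain ⟨th, hth, hth2, hth3⟩ : ∃ th : ℝ, 0 < th ∧ th ≤ c.p.kap * bet / 4 ∧
      th ≤ eps * c.p.rho * tau / (65 * Fintype.card S * MM S) :=
    ⟨min (c.p.kap * bet / 4) (eps * c.p.rho * tau / (65 * Fintype.card S * MM S)),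
      lt_min (by positivity) (by positivity), min_le_left _ _, min_le_right _ _⟩
  set s : ℕ := s0 + G with hs
  have hsG : c.p.Q * c.p.W ^ G ∣ c.p.W ^ s := by
    rw [hs, pow_add, ← hs0]
  have hsQ : c.p.Q ∣ c.p.W ^ s := (Dvd.intro _ rfl).trans hsG
  set r1 : ℝ := c.p.rho + 65 * Fintype.card S * th / tau with hr1
  have hr1a : c.p.rho ≤ r1 := by
    have : 0 ≤ 65 * Fintype.card S * th / tau := by positivity
    linarith
  have hr1b : r1 ≤ c.p.rho * (1 + eps / MM S) := by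
    have h1 : 65 * Fintype.card S * th / tau ≤ eps * c.p.rho / MM S := by
      rw [div_le_div_iff₀ ht hNN]
      rw [le_div_iff₀ (by positivity)] at hth3
      linarith
    have h2 : c.p.rho * (1 + eps / MM S) = c.p.rho + eps * c.p.rho / MM S := by ring
    rw [hr1, h2]
    linarith
  have hr1c : r1 ≤ 3 / 2 * c.p.rho := by
    have h1 : eps / MM S ≤ 1 / 2 := by
      rw [div_le_iff₀ hNN]
      linarith
    have h2 : c.p.rho * (1 + eps / MM S) ≤ 3 / 2 * c.p.rho := by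
      have := mul_le_mul_of_nonneg_left h1 hrho.le
      linarith
    linarith
  have hr1d : r1 ≤ 8 / 5 * c.p.rho := by linarith
  set QQ : Finset ℕ := (Icc 1 G).filter (fun q => Nat.Coprime q c.p.W) with hQQ
  set T' : ℕ → ℝ := fun B => Vol 2 c.p.gam c.p.kap th B * c.p.Q /
    ((c.p.P : ℝ) ^ (2 + 1) * (c.p.W : ℝ) ^ s) with hT'
  -- uniform version of the local count
  obtain ⟨B0, hB0⟩ : ∃ B0 : ℕ, ∀ q ∈ QQ, ∀ B : ℕ, B0 ≤ B → ∀ H : ℝ, 0 < H → ∀ A : Idx 2 2 → ℤ,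
      (∀ m, |(A m : ℝ) - H * c.p.Ainf m| ≤ 3 * c.p.rho * H) → (∀ m, (c.p.Q : ℤ) ∣ A m - c.p.A0 m) →
      ∀ r : Fin (2 + 1) → ℤ,
      (Set.ncard {x : Fin (2 + 1) → ℤ | x ∈ c.p.XX B ∧ ((c.p.W : ℤ) ^ s) ∣ F A x ∧
          |((F A x : ℤ) : ℝ)| ≤ th * H * (B : ℝ) ^ 2 ∧ ∀ i, (q : ℤ) ∣ x i - r i} : ℝ) ≤
        (1 + eps) * T' B / (q : ℝ) ^ (2 + 1) := by
    have h1 : ∀ q : ℕ, ∃ B0 : ℕ, q ∈ QQ → ∀ B : ℕ, B0 ≤ B → ∀ H : ℝ, 0 < H → ∀ A : Idx 2 2 → ℤ,
      (∀ m, |(A m : ℝ) - H * c.p.Ainf m| ≤ 3 * c.p.rho * H) → (∀ m, (c.p.Q : ℤ) ∣ A m - c.p.A0 m) →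
      ∀ r : Fin (2 + 1) → ℤ,
      (Set.ncard {x : Fin (2 + 1) → ℤ | x ∈ c.p.XX B ∧ ((c.p.W : ℤ) ^ s) ∣ F A x ∧
          |((F A x : ℤ) : ℝ)| ≤ th * H * (B : ℝ) ^ 2 ∧ ∀ i, (q : ℤ) ∣ x i - r i} : ℝ) ≤
        (1 + eps) * T' B / (q : ℝ) ^ (2 + 1) := by
      intro q
      by_cases hq : q ∈ QQ
      · have hq' := hq
        rw [hQQ, Finset.mem_filter, Finset.mem_Icc] at hq'
        obtain ⟨B0, h⟩ := nloc c.p eps bet w hp th hth hth2 s hsQ q (by omega) hq'.2
        exact ⟨B0, fun _ B hB H hH A h1 h2 r => (h B hB H hH A h1 h2 r).2⟩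
      · exact ⟨0, fun h => absurd h hq⟩
    choose f hf using h1
    refine ⟨QQ.sup f, fun q hq B hB => hf q hq B ((Finset.le_sup hq).trans hB)⟩
  have hMpos : (0 : ℝ) < (c.p.W : ℝ) ^ s := by positivity
  have hGr : (1 : ℝ) ≤ G := by exact_mod_cast hG
  have hev1 : ∀ᶠ H : ℝ in atTop, max B0 1 ≤ c.BB H :=
    (BB_atTop c eps bet w hc).eventually_ge_atTop _
  have hev2 : ∀ᶠ H : ℝ in atTop,
      (1 + 2 * eps) / (2 * eps) * ((c.p.W : ℝ) ^ s * G / (2 * th)) ≤ H :=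
    eventually_ge_atTop _
  filter_upwards [trans_pair c eps bet w hc K hK G hG tau ht ht1 th hth s hsG,
    S1_upper c eps bet w hc K hK r1 hr1a hr1c, hev1, hev2, VV_pos c eps bet w hc,
    ev_near c eps bet w hc r1 hr1d,
    eventually_ge_atTop (1 : ℝ)] with H hTP hS1 hB1 hH2 hV hnear hHr
  have hH0 : (0 : ℝ) < H := by linarith
  have hBB0 : B0 ≤ c.BB H := (le_max_left _ _).trans hB1
  have hB1' : (1 : ℝ) ≤ c.BB H := by exact_mod_cast (le_max_right _ _).trans hB1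
  have hB3 : (1 : ℝ) ≤ (c.BB H : ℝ) ^ 2 := one_le_pow₀ hB1'
  have hV1 : (1 : ℝ) ≤ c.VV H := by exact_mod_cast hV
  have hVpos : (0 : ℝ) < c.VV H := by linarith
  have hHH : c.HH H = Fintype.card S * c.VV H * H := rfl
  have hHH1 : H ≤ c.HH H := by
    rw [hHH]
    have : (1 : ℝ) ≤ Fintype.card S * c.VV H := by nlinarith
    nlinarith
  have hHH0 : 0 < c.HH H := by linarith
  set B := c.BB H with hB
  have hBpos : (0 : ℝ) < B := by linarith
  set cc : ℝ := (1 + 2 * eps) * ((c.p.W : ℝ) ^ s / (2 * th * c.HH H * (B : ℝ) ^ 2)) with hcc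
  have hc0 : 0 < cc := by positivity
  -- finsets
  set C0 := (Cl_finite c c.p.rho H).toFinset with hC0
  set C1 := (Cl_finite c r1 H).toFinset with hC1
  set GF : Finset (ℕ × (Fin 3 → ℤ)) := (range (JJ H)) ×ˢ (GC_finite c K H).toFinset with hGF
  have hGFm : ∀ z, z ∈ GF ↔ z.1 < JJ H ∧ z.2 ∈ c.GC K H := by
    intro z
    rw [hGF, Finset.mem_product, Finset.mem_range, Set.Finite.mem_toFinset]
  have hC0m : ∀ A, A ∈ C0 ↔ A ∈ c.Cl c.p.rho H := by
    intro A
    rw [hC0, Set.Finite.mem_toFinset]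
  have hC1m : ∀ A, A ∈ C1 ↔ A ∈ c.Cl r1 H := by
    intro A
    rw [hC1, Set.Finite.mem_toFinset]
  set LL : (Idx 2 2 × S → ℤ) → (ℕ × (Fin 3 → ℤ)) → Prop := fun A z =>
    ((c.p.W : ℤ) ^ s) ∣ F (ev A (c.vv H z.1)) z.2 ∧
      |((F (ev A (c.vv H z.1)) z.2 : ℤ) : ℝ)| ≤ th * c.HH H * (B : ℝ) ^ 2 with hLL
  set EE : (Idx 2 2 × S → ℤ) → (ℕ × (Fin 3 → ℤ)) → Prop := fun A z =>
    F (ev A (c.vv H z.1)) z.2 = 0 with hEE
  set DD : ℕ → (ℕ × (Fin 3 → ℤ)) → (ℕ × (Fin 3 → ℤ)) → Prop := fun q z z' =>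
    z'.1 ≠ z.1 ∧ (q : ℤ) ∣ (z.1 : ℤ) - z'.1 ∧ q ∣ mg z.2 z'.2 with hDD
  set GG : (ℕ × (Fin 3 → ℤ)) → (ℕ × (Fin 3 → ℤ)) → Prop := fun z z' =>
    z.1 ≠ z'.1 ∧ mg z.2 z'.2 ≤ G ∧ tau * (B : ℝ) ^ 2 ≤ (dl z.2 z'.2 : ℝ) with hGG
  have key := s2m_count C0 C1 GF EE LL DD GG QQ cc hc0.le
    (fun q => (JJ H : ℝ) / q * (q * ((1 + eps) * T' B / (q : ℝ) ^ (2 + 1)))) ?_ ?_
  rotate_left
  · -- transference
    intro z hz z' hz' hg
    rw [hGFm] at hz hz'
    obtain ⟨i, x⟩ := z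
    obtain ⟨i', y⟩ := z'
    simp only [hGG] at hg
    simp only at hz hz'
    obtain ⟨q, hq0, hqm, hqi, hqW, hle⟩ := hTP i i' hz.1 hz'.1 hg.1 x y hz.2 hz'.2 hg.2.1 hg.2.2
    have hdl : 0 < dl x y := by
      have h1 : (0 : ℝ) < tau * (B : ℝ) ^ 2 := by positivity
      have h2 := h1.trans_le hg.2.2
      exact_mod_cast h2
    have hmg : 0 < mg x y := mg_pos_of_dl_pos x y hdl
    have hqG : q ≤ G := (Nat.le_of_dvd hmg hqm).trans hg.2.1
    refine ⟨q, ?_, ⟨hg.1.symm, hqi, hqm⟩, ?_⟩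
    · rw [hQQ, Finset.mem_filter, Finset.mem_Icc]
      exact ⟨⟨hq0, hqG⟩, hqW⟩
    · have e1 : (Set.ncard {A | A ∈ c.Cl c.p.rho H ∧ F (ev A (c.vv H i)) x = 0 ∧
            F (ev A (c.vv H i')) y = 0} : ℝ) =
          ((C0.filter (fun A => EE A (i, x) ∧ EE A (i', y))).card : ℝ) := by
        rw [← Set.ncard_coe_finset]
        congr 2
        ext A
        rw [Finset.mem_coe, Finset.mem_filter, hC0m]
        rfl
      have e2 : (Set.ncard {A | A ∈ c.Cl r1 H ∧ F (ev A (c.vv H i)) x = 0 ∧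
            ((c.p.W : ℤ) ^ s) ∣ F (ev A (c.vv H i')) y ∧
            |((F (ev A (c.vv H i')) y : ℤ) : ℝ)| ≤ th * c.HH H * (B : ℝ) ^ 2} : ℝ) =
          ((C1.filter (fun A => EE A (i, x) ∧ LL A (i', y))).card : ℝ) := by
        rw [← Set.ncard_coe_finset]
        congr 2
        ext A
        rw [Finset.mem_coe, Finset.mem_filter, hC1m]
        rfl
      rw [e1, e2] at hle
      have hqr : (0 : ℝ) < q := by exact_mod_cast hq0
      have hqGr : (q : ℝ) ≤ G := by exact_mod_cast hqG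
      have hlev := s2m_lev c eps th he (c.p.W ^ s * q) H (by
        have h1 : (1 + 2 * eps) / (2 * eps) * ((c.p.W : ℝ) ^ s * q / (2 * th)) ≤
            c.HH H * (B : ℝ) ^ 2 := by
          calc (1 + 2 * eps) / (2 * eps) * ((c.p.W : ℝ) ^ s * q / (2 * th)) ≤
              (1 + 2 * eps) / (2 * eps) * ((c.p.W : ℝ) ^ s * G / (2 * th)) := by gcongr
            _ ≤ H := hH2
            _ ≤ c.HH H := hHH1
            _ = c.HH H * 1 := (mul_one _).symm
            _ ≤ c.HH H * (B : ℝ) ^ 2 := mul_le_mul_of_nonneg_left hB3 hHH0.le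
        push_cast
        rw [← hB]
        rw [mul_div_assoc', ← mul_assoc, ← mul_assoc] at *
        rw [le_div_iff₀ (by positivity)]
        rw [div_le_iff₀ (by positivity)] at h1
        linarith)
      push_cast at hlev
      rw [← hB] at hlev
      have hR0 : (0 : ℝ) ≤ ((C0.filter (fun A => EE A (i, x) ∧ EE A (i', y))).card : ℝ) :=
        Nat.cast_nonneg _
      have hy0 : (0 : ℝ) < 2 * (th * c.HH H * (B : ℝ) ^ 2 / ((c.p.W : ℝ) ^ s * q)) := by positivity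
      have h2 : 2 * (th * c.HH H * (B : ℝ) ^ 2 / ((c.p.W : ℝ) ^ s * q)) *
          ((C0.filter (fun A => EE A (i, x) ∧ EE A (i', y))).card : ℝ) ≤
          (1 + 2 * eps) * ((C1.filter (fun A => EE A (i, x) ∧ LL A (i', y))).card : ℝ) := by
        calc _ ≤ (1 + 2 * eps) * c.Lev th (c.p.W ^ s * q) H *
              ((C0.filter (fun A => EE A (i, x) ∧ EE A (i', y))).card : ℝ) :=
              mul_le_mul_of_nonneg_right hlev hR0
          _ = (1 + 2 * eps) * (c.Lev th (c.p.W ^ s * q) H *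
              ((C0.filter (fun A => EE A (i, x) ∧ EE A (i', y))).card : ℝ)) := by ring
          _ ≤ _ := mul_le_mul_of_nonneg_left hle (by positivity)
      have h3 : cc * q = (1 + 2 * eps) /
          (2 * (th * c.HH H * (B : ℝ) ^ 2 / ((c.p.W : ℝ) ^ s * q))) := by
        rw [hcc]
        field_simp
      rw [h3, div_mul_eq_mul_div, le_div_iff₀ hy0]
      linarith
  · -- local count
    intro A hA z hz hAx q hq
    rw [hGFm] at hz
    rw [hC1m] at hA
    obtain ⟨i, x⟩ := z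
    simp only at hz
    have hq' := hq
    rw [hQQ, Finset.mem_filter, Finset.mem_Icc] at hq'
    have hq0 : 0 < q := by omega
    set Sl : ℕ × ℕ → Finset (Fin 3 → ℤ) := fun t => (XX_finite c B).toFinset.filter
      (fun y => ((c.p.W : ℤ) ^ s) ∣ F (ev A (c.vv H t.1)) y ∧
        |((F (ev A (c.vv H t.1)) y : ℤ) : ℝ)| ≤ th * c.HH H * (B : ℝ) ^ 2 ∧
        ∀ a, (q : ℤ) ∣ y a - (t.2 : ℤ) * x a) with hSl
    set II : Finset ℕ := (range (JJ H)).filter fun i' => i' ≠ i ∧ (q : ℤ) ∣ (i : ℤ) - i' with hII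
    have hcov : GF.filter (fun z' => DD q (i, x) z' ∧ LL A z') ⊆
        (II ×ˢ Finset.range q).biUnion (fun t => (Sl t).image (fun y => (t.1, y))) := by
      rintro ⟨i', y⟩ hy
      rw [Finset.mem_filter, hGFm] at hy
      obtain ⟨⟨hi', hyG⟩, ⟨hne, hqi, hqm⟩, hl1, hl2⟩ := hy
      simp only at hi' hyG hne hqi hqm hl1 hl2
      obtain ⟨l, hl⟩ := exists_mod_of_dvd_mg x y hz.2.2.1 q hqm
      rw [Finset.mem_biUnion]
      have hq0' : (0 : ℤ) < q := by exact_mod_cast hq0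
      have h1 := Int.emod_nonneg l hq0'.ne'
      have h2 := Int.emod_lt_of_pos l hq0'
      refine ⟨(i', (l % q).toNat), ?_, ?_⟩
      · rw [Finset.mem_product, hII, Finset.mem_filter, Finset.mem_range, Finset.mem_range]
        refine ⟨⟨hi', hne, hqi⟩, ?_⟩
        simp only
        omega
      · rw [Finset.mem_image]
        refine ⟨y, ?_, rfl⟩
        rw [hSl]
        simp only [Finset.mem_filter, Set.Finite.mem_toFinset]
        refine ⟨hyG.1, hl1, hl2, fun a => ?_⟩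
        rw [Int.toNat_of_nonneg h1]
        have h3 : (q : ℤ) ∣ l - l % q := Int.dvd_self_sub_emod
        have h4 : y a - l % q * x a = (y a - l * x a) + (l - l % q) * x a := by ring
        rw [h4]
        exact dvd_add (hl a) (h3.mul_right _)
    have hcard : ∀ t ∈ II ×ˢ Finset.range q, ((((Sl t).image (fun y => (t.1, y))).card : ℕ) : ℝ) ≤
        (1 + eps) * T' B / (q : ℝ) ^ (2 + 1) := by
      rintro ⟨i', l⟩ ht'
      rw [Finset.mem_product, hII, Finset.mem_filter, Finset.mem_range] at ht'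
      simp only at ht'
      obtain ⟨hn1, hn2⟩ := hnear i' ht'.1.1 A hA
      have h1 := hB0 q hq B hBB0 (c.HH H) hHH0 (ev A (c.vv H i')) hn1 hn2
        (fun a => (l : ℤ) * x a)
      have h2 : ((((Sl (i', l)).image (fun y => ((i', l).1, y))).card : ℕ) : ℝ) ≤
          ((Sl (i', l)).card : ℝ) := by exact_mod_cast Finset.card_image_le
      refine h2.trans (le_trans (le_of_eq ?_) h1)
      rw [← Set.ncard_coe_finset]
      congr 2
      ext y
      simp only [hSl, Finset.coe_filter, Set.mem_ofPred_eq, Set.Finite.mem_toFinset]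
    have hIIc : ((II.card : ℕ) : ℝ) ≤ (JJ H : ℝ) / q := card_congr_le (JJ H) i q hz.1 hq0
    have hqr : (0 : ℝ) ≤ q := Nat.cast_nonneg q
    have hT'0 : 0 ≤ (1 + eps) * T' B / (q : ℝ) ^ (2 + 1) := by
      simp only [hT', Vol]
      positivity
    calc ((GF.filter (fun z' => DD q (i, x) z' ∧ LL A z')).card : ℝ) ≤
        (((II ×ˢ Finset.range q).biUnion (fun t => (Sl t).image (fun y => (t.1, y)))).card : ℝ) := by
          exact_mod_cast Finset.card_le_card hcov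
      _ ≤ ∑ t ∈ II ×ˢ Finset.range q, ((((Sl t).image (fun y => (t.1, y))).card : ℕ) : ℝ) := by
        have := Finset.card_biUnion_le (s := II ×ˢ Finset.range q)
          (t := fun t => (Sl t).image (fun y => (t.1, y)))
        exact_mod_cast this
      _ ≤ ∑ t ∈ II ×ˢ Finset.range q, (1 + eps) * T' B / (q : ℝ) ^ (2 + 1) :=
        Finset.sum_le_sum hcard
      _ = (II.card : ℝ) * (q * ((1 + eps) * T' B / (q : ℝ) ^ (2 + 1))) := by
        rw [Finset.sum_const, Finset.card_product, Finset.card_range, nsmul_eq_mul]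
        push_cast
        ring
      _ ≤ (JJ H : ℝ) / q * (q * ((1 + eps) * T' B / (q : ℝ) ^ (2 + 1))) :=
        mul_le_mul_of_nonneg_right hIIc (mul_nonneg hqr hT'0)
  -- final computation
  have eL : ((c.TMain K G tau H).ncard : ℝ) = (((C0 ×ˢ (GF ×ˢ GF)).filter
      (fun t => EE t.1 t.2.1 ∧ EE t.1 t.2.2 ∧ GG t.2.1 t.2.2)).card : ℝ) := by
    rw [← Set.ncard_coe_finset]
    congr 2
    ext t
    rw [Finset.mem_coe, Finset.mem_filter, Finset.mem_product, Finset.mem_product, hC0m, hGFm, hGFm]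
    simp only [CPar.TMain, Set.mem_ofPred_eq, hEE, hGG]
    tauto
  have eR : ((c.Pairs r1 K H).ncard : ℝ) =
      (((C1 ×ˢ GF).filter (fun t => EE t.1 t.2)).card : ℝ) := by
    rw [← Set.ncard_coe_finset]
    congr 2
    ext t
    rw [Finset.mem_coe, Finset.mem_filter, Finset.mem_product, hC1m, hGFm]
    simp only [CPar.Pairs, Set.mem_ofPred_eq, hEE]
    tauto
  rw [eL]
  refine key.trans ?_
  rw [← eR]
  have hT'nn : 0 ≤ T' B := by
    simp only [hT', Vol]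
    positivity
  have hJ0 : (0 : ℝ) ≤ JJ H := Nat.cast_nonneg _
  have hsum : ∑ q ∈ QQ, (q : ℝ) * ((JJ H : ℝ) / q * (q * ((1 + eps) * T' B / (q : ℝ) ^ (2 + 1)))) ≤
      (JJ H : ℝ) * ((1 + eps) * T' B * (1 + 1 / w)) := by
    have h1 : ∀ q ∈ QQ, (q : ℝ) * ((JJ H : ℝ) / q * (q * ((1 + eps) * T' B / (q : ℝ) ^ (2 + 1)))) =
        (JJ H : ℝ) * ((1 + eps) * T' B) * (1 / (q : ℝ) ^ 2) := by
      intro q hq
      rw [hQQ, Finset.mem_filter, Finset.mem_Icc] at hq
      have hq1 : (1 : ℝ) ≤ q := by exact_mod_cast hq.1.1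
      have hq0 : (0 : ℝ) < q := by linarith
      field_simp
      ring
    rw [Finset.sum_congr rfl h1, ← Finset.mul_sum]
    calc (JJ H : ℝ) * ((1 + eps) * T' B) * ∑ q ∈ QQ, 1 / (q : ℝ) ^ 2 ≤
        (JJ H : ℝ) * ((1 + eps) * T' B) * (1 + 1 / w) :=
          mul_le_mul_of_nonneg_left (s2m_sum c.p eps bet w hp G) (by positivity)
      _ = _ := by ring
  have hcT : cc * ((JJ H : ℝ) * T' B) = (1 + 2 * eps) * c.TT H := by
    simp only [hcc, hT', Vol, CPar.TT, CPar.T1, ← hB]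
    field_simp
    ring
  have hTT0 : 0 ≤ c.TT H := by
    simp only [CPar.TT, CPar.T1]
    positivity
  have hX : (2 * r1 * H / c.p.Q) ^ MM S ≤ (1 + eps / MM S) ^ MM S * c.Xn H := by
    simp only [CPar.Xn]
    rw [← mul_pow]
    refine pow_le_pow_left₀ (by positivity) ?_ (MM S)
    rw [mul_div_assoc', div_le_div_iff_of_pos_right hQr]
    nlinarith
  have hXn0 : 0 ≤ c.Xn H := by
    simp only [CPar.Xn]
    positivity
  have hPb : ((c.Pairs r1 K H).ncard : ℝ) ≤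
      (1 + 8 * eps) * (1 + eps / MM S) ^ MM S * (c.TT H * c.Xn H) := by
    refine hS1.trans ?_
    calc (1 + 8 * eps) * c.TT H * (2 * r1 * H / c.p.Q) ^ MM S ≤
        (1 + 8 * eps) * c.TT H * ((1 + eps / MM S) ^ MM S * c.Xn H) :=
          mul_le_mul_of_nonneg_left hX (by positivity)
      _ = _ := by ring
  have hP0 : (0 : ℝ) ≤ ((c.Pairs r1 K H).ncard : ℝ) := Nat.cast_nonneg _
  calc cc * (∑ q ∈ QQ, (q : ℝ) * ((JJ H : ℝ) / q *
        (q * ((1 + eps) * T' B / (q : ℝ) ^ (2 + 1))))) * ((c.Pairs r1 K H).ncard : ℝ) ≤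
      cc * ((JJ H : ℝ) * ((1 + eps) * T' B * (1 + 1 / w))) * ((c.Pairs r1 K H).ncard : ℝ) :=
        mul_le_mul_of_nonneg_right (mul_le_mul_of_nonneg_left hsum hc0.le) hP0
    _ = (cc * ((JJ H : ℝ) * T' B)) * ((1 + eps) * (1 + 1 / w)) *
        ((c.Pairs r1 K H).ncard : ℝ) := by ring
    _ = (1 + 2 * eps) * c.TT H * ((1 + eps) * (1 + 1 / w)) *
        ((c.Pairs r1 K H).ncard : ℝ) := by
        rw [hcT]
    _ ≤ (1 + 2 * eps) * c.TT H * ((1 + eps) * (1 + 1 / w)) *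
        ((1 + 8 * eps) * (1 + eps / MM S) ^ MM S * (c.TT H * c.Xn H)) :=
        mul_le_mul_of_nonneg_left hPb (by positivity)
    _ = ((1 + 2 * eps) * (1 + eps) * (1 + 1 / w) * ((1 + 8 * eps) * (1 + eps / MM S) ^ MM S)) *
        (c.TT H ^ 2 * c.Xn H) := by ring
    _ ≤ (1 + 40 * eps + 3 * (1 / w)) * (c.TT H ^ 2 * c.Xn H) := by
        refine mul_le_mul_of_nonneg_right (s2m_num eps (1 / w) (MM S) hMM he he1 (by positivity) ?_)
          (by positivity)
        exact one_div_le_one_div_of_le two_pos hwr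
    _ = (1 + 40 * eps + 3 / w) * c.TT H ^ 2 * c.Xn H := by ring

end MAIN

end ConicHP
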