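import Pool.Agent.Lib.MP_e426f4_ag.C.CrudeA
import Pool.Agent.Lib.MP_e426f4_ag.C.Defs
import Pool.Agent.Lib.MP_e426f4_ag.C.Ev
import Pool.Agent.Lib.MP_e426f4_ag.C.Lin
import Pool.Agent.Lib.MP_e426f4_ag.C.Points
import Pool.Agent.Lib.MP_e426f4_ag.C.Arith
import Pool.Agent.Lib.MP_e426f4_ag.C.SumPhi
import Pool.Agent.Lib.MP_e426f4_ag.C.Heights
import Pool.Agent.Lib.MP_e426f4_ag.C.SecAux

/-! Module C-S2E: pairs of distinct points in the same fibre contribute little. -/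

namespace ConicHP

open Finset GenHP Filter Topology

variable {S : Type*} [Fintype S]

private theorem s2e_count (c : CPar S) (eps bet : ℝ) (w : ℕ) (hc : c.Valid eps bet w) (K : ℝ)
    (hK : 1 ≤ K) (C : ℝ) (hC : 1 ≤ C)
    (hsum : ∀ (K : ℝ), 1 ≤ K → ∀ B : ℕ, 1 ≤ B →
      ∀ x : Fin 3 → ℤ, Prim x → (∀ i, |(x i : ℝ)| ≤ 2 * B) →
      ∀ i0 : Fin 3, (B : ℝ) / 2 ≤ |(x i0 : ℝ)| → Good K B x →
      ∀ tau : ℝ, 0 < tau → tau ≤ 9 → ∀ phi : ℕ → ℝ, (∀ m, 0 ≤ phi m) →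
      ∑ y ∈ (boxn 2 (2 * B)).filter (fun y => 0 < dl x y ∧ (dl x y : ℝ) < tau * (B : ℝ) ^ 2),
        phi (mg x y) / dl x y ≤
        C * K ^ 2 * tau * B * ∑ m ∈ Icc 1 ⌊C * K * (B : ℝ) ^ 2⌋₊, phi m / (m : ℝ) ^ 2)
    (H : ℝ) (hH : 1 ≤ H) (hB : 1 ≤ c.BB H) (hV : 1 ≤ c.VV H)
    (hv : ∀ i, i < JJ H → ∀ s, |(c.vv H i s : ℝ)| ≤ 2 * c.VV H)
    (hvg : ∀ i, i < JJ H → ∀ s0, (∀ s, |c.vv H i s| ≤ |c.vv H i s0|) →
      (c.VV H : ℝ) / 2 ≤ |(c.vv H i s0 : ℝ)|)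
    (CK : ℝ) (hCK : CK = 3 + 8 * c2 2 2 * K ^ 2) (hBV : (c.BB H : ℝ) ≤ H * c.VV H)
    (h1 : 4 * c1 2 2 * K * (c.BB H : ℝ) ^ (1 / 2 : ℝ) ≤ H)
    (h3 : 8 * Fintype.card S * (c.VV H : ℝ) ≤ H) :
    ((c.TSame K H).ncard : ℝ) ≤ (JJ H : ℝ) * (125 * (c.BB H : ℝ) ^ 3) *
      (7 ^ MM S * 512 * (CK * H) ^ MM S * 4 / ((CK * H) ^ 2 * (c.VV H : ℝ) ^ 2 *
        (c.BB H : ℝ) ^ 2) * (C * K ^ 2 * 9 * c.BB H * (1 + Real.log (C * K * (c.BB H : ℝ) ^ 2)))) := by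
  classical
  obtain ⟨i0, hi0⟩ := hc.pv.xi_eq
  have hB1 : (1 : ℝ) ≤ c.BB H := by exact_mod_cast hB
  have hV1 : (1 : ℝ) ≤ c.VV H := by exact_mod_cast hV
  have hc1 : 0 ≤ c1 2 2 := by unfold c1; positivity
  have hc2 : 0 ≤ c2 2 2 := by unfold c2; positivity
  have hCK3 : 3 ≤ CK := by rw [hCK]; nlinarith only [hc2, mul_nonneg hc2 (sq_nonneg K)]
  obtain ⟨mu, hmu⟩ : ∃ mu : ℝ, mu = K * (c.BB H : ℝ) ^ (1 / ((2 : ℕ) : ℝ)) := ⟨_, rfl⟩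
  have e2 : (1 / ((2 : ℕ) : ℝ)) = (1 / 2 : ℝ) := by norm_num
  have hmu1 : 1 ≤ mu := by
    have : (1 : ℝ) ≤ (c.BB H : ℝ) ^ (1 / ((2 : ℕ) : ℝ)) := Real.one_le_rpow hB1 (by positivity)
    rw [hmu]
    nlinarith only [hK, this]
  have hmu2 : mu ^ 2 = K ^ 2 * c.BB H := by
    rw [hmu, mul_pow, e2, ← Real.sqrt_eq_rpow, Real.sq_sqrt (by positivity)]
  obtain ⟨bd, hbd⟩ : ∃ bd : ℝ, bd = 7 ^ MM S * 512 * (CK * H) ^ MM S * 4 /
    ((CK * H) ^ 2 * (c.VV H : ℝ) ^ 2 * (c.BB H : ℝ) ^ 2) := ⟨_, rfl⟩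
  have hbd0 : 0 ≤ bd := by rw [hbd]; positivity
  rw [← hbd]
  obtain ⟨GF, hGF⟩ : ∃ GF, GF = (GC_finite c K H).toFinset := ⟨_, rfl⟩
  have hmem : ∀ x, x ∈ GF ↔ x ∈ c.GC K H := fun x => by rw [hGF, Set.Finite.mem_toFinset]
  have hGc : (GF.card : ℝ) ≤ 125 * (c.BB H : ℝ) ^ 3 := by
    rw [hGF]; exact sec_card_GC c eps bet w hc K H hB
  have hxb : ∀ x ∈ c.GC K H, ∀ i, |(x i : ℝ)| ≤ 2 * c.BB H := fun x hx i =>
    (mem_XX_bounds c.p eps bet w hc.pv (c.BB H) x hx.1 i).1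
  have hxi : ∀ x ∈ c.GC K H, (c.BB H : ℝ) / 2 ≤ |(x i0 : ℝ)| := fun x hx =>
    (mem_XX_bounds c.p eps bet w hc.pv (c.BB H) x hx.1 i0).2 hi0
  -- the index set
  have hcf := sec_card_fib (c.TSame K H) (TSame_finite c K H)
    ((range (JJ H) ×ˢ (GF ×ˢ boxn 2 (2 * c.BB H))).filter
      (fun b => b.2.2 ∈ GF ∧ 0 < dl b.2.1 b.2.2 ∧
        (dl b.2.1 b.2.2 : ℝ) < 9 * (c.BB H : ℝ) ^ 2))
    (by
      rintro ⟨A, i, x, y⟩ ⟨_, hi, hx, hy, _, _, hne⟩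
      simp only [Finset.mem_filter, Finset.mem_product, Finset.mem_range]
      refine ⟨⟨hi, (hmem x).2 hx, ?_⟩, (hmem y).2 hy,
        dl_pos_of_mem_GG c.p eps bet w hc.pv K (c.BB H) hB x y hx hy hne,
        sec_dl_lt (c.BB H) hB x y (hxb x hx) (hxb y hy)⟩
      rw [mem_boxn]
      intro j
      have := hxb y hy j
      exact_mod_cast this)
    (fun b => {A : Idx 2 2 × S → ℤ | (∀ m, |(A m : ℝ)| ≤ CK * H) ∧
      F (ev A (c.vv H b.1)) b.2.1 = 0 ∧ F (ev A (c.vv H b.1)) b.2.2 = 0})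
    (fun b _ => finite_of_abs_le _ (CK * H) fun A hA i => hA.1 i)
    (by
      rintro ⟨A, i, x, y⟩ ⟨hA, hi, hx, hy, hF1, hF2, hne⟩
      refine ⟨fun m => (sec_Cl_abs_le c eps bet w hc H (by linarith only [hH]) A hA m).trans ?_, hF1, hF2⟩
      exact mul_le_mul_of_nonneg_right hCK3 (by linarith))
  refine hcf.trans ?_
  have hb : ∀ b ∈ (range (JJ H) ×ˢ (GF ×ˢ boxn 2 (2 * c.BB H))).filter
      (fun b => b.2.2 ∈ GF ∧ 0 < dl b.2.1 b.2.2 ∧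
        (dl b.2.1 b.2.2 : ℝ) < 9 * (c.BB H : ℝ) ^ 2),
      (Set.ncard {A : Idx 2 2 × S → ℤ | (∀ m, |(A m : ℝ)| ≤ CK * H) ∧
      F (ev A (c.vv H b.1)) b.2.1 = 0 ∧ F (ev A (c.vv H b.1)) b.2.2 = 0} : ℝ) ≤
      bd * ((mg b.2.1 b.2.2 : ℝ) / dl b.2.1 b.2.2) := by
    rintro ⟨i, x, y⟩ hb
    simp only [Finset.mem_filter, Finset.mem_product, Finset.mem_range] at hb
    obtain ⟨⟨hi, hx, _⟩, hy, hdl, _⟩ := hb
    have hx' := (hmem x).1 hx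
    have hy' := (hmem y).1 hy
    obtain ⟨s0, hs0, hs0'⟩ := exists_argmax (c.vv H i) (hc.fam.prim _ _)
    have hvg' := hvg i hi s0 hs0
    have hvu := hv i hi s0
    have hcr := crude_same (c.BB H) hB x y hx'.2.1 hy'.2.1 mu hmu1 (hmu ▸ hx'.2.2)
      (hmu ▸ hy'.2.2) i0 (hxi x hx') (hxi y hy') (hxb x hx') (hxb y hy') hdl
      (c.vv H i) (hc.fam.prim _ _) s0 hs0 (CK * H) (by nlinarith only [hCK3, hH])
      (by
        rw [hmu2]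
        calc 4 * (c2 2 2 * (K ^ 2 * (c.BB H : ℝ)))
            ≤ 4 * (c2 2 2 * (K ^ 2 * (H * c.VV H))) := by gcongr
          _ = (8 * c2 2 2 * K ^ 2) * H * (c.VV H / 2) := by ring
          _ ≤ CK * H * (c.VV H / 2) := by
              have : 8 * c2 2 2 * K ^ 2 ≤ CK := by rw [hCK]; linarith
              gcongr
          _ ≤ CK * H * |(c.vv H i s0 : ℝ)| := by gcongr)
      (by
        rw [hmu, e2]
        calc 4 * (c1 2 2 * (K * (c.BB H : ℝ) ^ (1 / 2 : ℝ)))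
            = 4 * c1 2 2 * K * (c.BB H : ℝ) ^ (1 / 2 : ℝ) := by ring
          _ ≤ H := h1
          _ ≤ CK * H := by nlinarith only [hCK3, hH])
      (by
        calc 4 * (Fintype.card S * |(c.vv H i s0 : ℝ)|)
            ≤ 4 * (Fintype.card S * (2 * c.VV H)) := by gcongr
          _ = 8 * Fintype.card S * (c.VV H : ℝ) := by ring
          _ ≤ H := h3
          _ ≤ CK * H := by nlinarith only [hCK3, hH])
    refine hcr.trans ?_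
    have hdl' : (0 : ℝ) < dl x y := by exact_mod_cast hdl
    calc 7 ^ MM S * 512 * (CK * H) ^ MM S * (mg x y : ℝ) /
          ((CK * H) ^ 2 * |(c.vv H i s0 : ℝ)| ^ 2 * (c.BB H : ℝ) ^ 2 * dl x y)
        ≤ 7 ^ MM S * 512 * (CK * H) ^ MM S * (mg x y : ℝ) /
          ((CK * H) ^ 2 * (c.VV H / 2 : ℝ) ^ 2 * (c.BB H : ℝ) ^ 2 * dl x y) := by
          gcongr
      _ = bd * ((mg x y : ℝ) / dl x y) := by
          rw [hbd]
          field_simp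
          ring
  refine (Finset.sum_le_sum hb).trans ?_
  -- forget the condition `y ∈ GF` and sum over `y`
  have h5 : ∑ b ∈ (range (JJ H) ×ˢ (GF ×ˢ boxn 2 (2 * c.BB H))).filter
      (fun b => b.2.2 ∈ GF ∧ 0 < dl b.2.1 b.2.2 ∧
        (dl b.2.1 b.2.2 : ℝ) < 9 * (c.BB H : ℝ) ^ 2),
      bd * ((mg b.2.1 b.2.2 : ℝ) / dl b.2.1 b.2.2) ≤
      ∑ b ∈ (range (JJ H) ×ˢ (GF ×ˢ boxn 2 (2 * c.BB H))).filter
      (fun b => 0 < dl b.2.1 b.2.2 ∧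
        (dl b.2.1 b.2.2 : ℝ) < 9 * (c.BB H : ℝ) ^ 2),
      bd * ((mg b.2.1 b.2.2 : ℝ) / dl b.2.1 b.2.2) := by
    refine Finset.sum_le_sum_of_subset_of_nonneg ?_ ?_
    · intro b hb
      rw [Finset.mem_filter] at hb ⊢
      exact ⟨hb.1, hb.2.2⟩
    · intro b _ _
      (clear * - hbd0; positivity)
  refine h5.trans ?_
  rw [Finset.sum_filter, Finset.sum_product]
  have h6 : ∀ i ∈ range (JJ H), ∑ q ∈ GF ×ˢ boxn 2 (2 * c.BB H),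
      (if 0 < dl q.1 q.2 ∧ (dl q.1 q.2 : ℝ) < 9 * (c.BB H : ℝ) ^ 2 then
        bd * ((mg q.1 q.2 : ℝ) / dl q.1 q.2) else 0) ≤
      GF.card * (bd * (C * K ^ 2 * 9 * c.BB H *
        (1 + Real.log (C * K * (c.BB H : ℝ) ^ 2)))) := by
    intro i _
    rw [Finset.sum_product, ← nsmul_eq_mul]
    refine Finset.sum_le_card_nsmul _ _ _ fun x hx => ?_
    have hx' := (hmem x).1 hx
    rw [← Finset.sum_filter, ← Finset.mul_sum]
    refine mul_le_mul_of_nonneg_left ?_ hbd0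
    refine (hsum K hK (c.BB H) hB x hx'.2.1 (hxb x hx') i0 (hxi x hx') hx'.2.2 9 (by norm_num)
      le_rfl (fun m => (m : ℝ)) (fun m => Nat.cast_nonneg m)).trans ?_
    refine mul_le_mul_of_nonneg_left ?_ (by positivity)
    have hN : 1 ≤ ⌊C * K * (c.BB H : ℝ) ^ 2⌋₊ := by
      have h7 : 1 ≤ C * K := by nlinarith only [hC, hK]
      have h8 : 1 ≤ (c.BB H : ℝ) ^ 2 := by nlinarith only [hB1]
      refine Nat.le_floor ?_
      push_cast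
      nlinarith only [h7, h8]
    refine (sum_harmonic_le _ hN).trans ?_
    have h9 : ((⌊C * K * (c.BB H : ℝ) ^ 2⌋₊ : ℕ) : ℝ) ≤ C * K * (c.BB H : ℝ) ^ 2 :=
      Nat.floor_le (by positivity)
    have h10 : Real.log ((⌊C * K * (c.BB H : ℝ) ^ 2⌋₊ : ℕ) : ℝ) ≤
        Real.log (C * K * (c.BB H : ℝ) ^ 2) :=
      Real.log_le_log (by exact_mod_cast hN) h9
    linarith
  refine (Finset.sum_le_sum h6).trans ?_
  rw [Finset.sum_const, Finset.card_range, nsmul_eq_mul]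
  have hlog : 0 ≤ 1 + Real.log (C * K * (c.BB H : ℝ) ^ 2) := by
    have h7 : 1 ≤ C * K := by nlinarith only [hC, hK]
    have h8 : 1 ≤ (c.BB H : ℝ) ^ 2 := by nlinarith only [hB1]
    have := Real.log_nonneg (show 1 ≤ C * K * (c.BB H : ℝ) ^ 2 by nlinarith only [h7, h8])
    linarith
  refine le_trans ?_ (le_of_eq (mul_assoc _ _ _).symm)
  refine mul_le_mul_of_nonneg_left ?_ (Nat.cast_nonneg (JJ H))
  refine mul_le_mul_of_nonneg_right hGc ?_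
  (clear * - hB hC hK hbd0 hlog; positivity)

/-- C-S2E -/
theorem S2_same (c : CPar S) (eps bet : ℝ) (w : ℕ) (hc : c.Valid eps bet w)
    (K : ℝ) (hK : 1 ≤ K) : ∀ᶠ H : ℝ in atTop,
    ((c.TSame K H).ncard : ℝ) ≤ eps * c.TT H ^ 2 * c.Xn H := by
  obtain ⟨C, hC, hsum⟩ := sum_phi
  have heps := hc.pv.eps_pos
  have hrho := hc.pv.rho_pos
  have hQ : (0 : ℝ) < c.p.Q := by exact_mod_cast hc.pv.Q_pos
  have hc1 : 0 ≤ c1 2 2 := by unfold c1; positivity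
  have hc2 : 0 ≤ c2 2 2 := by unfold c2; positivity
  obtain ⟨c0, hc0, hT1⟩ := T1_bounds c eps bet w hc
  obtain ⟨q, hq⟩ : ∃ q : ℝ, q = (2 * c.p.rho / c.p.Q) ^ MM S := ⟨_, rfl⟩
  have hq0 : 0 < q := by rw [hq]; positivity
  obtain ⟨CK, hCK⟩ : ∃ CK : ℝ, CK = 3 + 8 * c2 2 2 * K ^ 2 := ⟨_, rfl⟩
  have hCK0 : 0 < CK := by rw [hCK]; positivity
  obtain ⟨cst, hcst⟩ : ∃ cst : ℝ, cst = 125 * (7 ^ MM S * 512 * CK ^ MM S * 4 / CK ^ 2) *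
    (C * K ^ 2 * 9) := ⟨_, rfl⟩
  have hcst0 : 0 < cst := by rw [hcst]; positivity
  obtain ⟨D, hD⟩ : ∃ D : ℝ, D = max (cst / (eps * c0 ^ 2 * q)) (C * K) := ⟨_, rfl⟩
  have hD1 : cst / (eps * c0 ^ 2 * q) ≤ D := by rw [hD]; exact le_max_left _ _
  have hD2 : C * K ≤ D := by rw [hD]; exact le_max_right _ _
  have hD0 : 0 ≤ D := le_trans (by positivity) hD2
  filter_upwards [hT1, (JJ_atTop).eventually_ge_atTop 1, VV_pos c eps bet w hc,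
    (BB_atTop c eps bet w hc).eventually_ge_atTop 1, vv_le c eps bet w hc, vv_ge c eps bet w hc,
    BB_bounds c eps bet w hc,
    small_le c eps bet w hc (4 * c1 2 2 * K) 0, small_le' c eps bet w hc (8 * Fintype.card S) 1,
    log_le c eps bet w hc D, eventually_ge_atTop (1 : ℝ)] with
    H h1 hJ hV hB hv hvg hBB h2 h3 h4 hH
  have hB1 : (1 : ℝ) ≤ c.BB H := by exact_mod_cast hB
  have hV1 : (1 : ℝ) ≤ c.VV H := by exact_mod_cast hV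
  have hJ1 : (1 : ℝ) ≤ JJ H := by exact_mod_cast hJ
  have hVJ : (c.VV H : ℝ) ≤ (c.VV H : ℝ) ^ 1 * (JJ H : ℝ) ^ 1 := by
    rw [pow_one, pow_one]
    nlinarith only [hJ1]
  have hcount := s2e_count c eps bet w hc K hK C hC hsum H hH hB hV hv hvg CK hCK hBB.2.1
    (by
      rw [pow_zero, pow_zero, mul_one, mul_one] at h2
      exact h2)
    (by
      refine le_trans ?_ h3
      exact mul_le_mul_of_nonneg_left hVJ (by positivity))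
  refine hcount.trans ?_
  have hX : c.Xn H = q * H ^ MM S := by
    rw [CPar.Xn, hq, ← mul_pow]
    congr 1
    ring
  have hT : c.TT H = JJ H * c.T1 H := rfl
  have hT1' : c0 ^ 2 ≤ c.T1 H ^ 2 := pow_le_pow_left₀ hc0.le h1 2
  have hCK1 : 1 ≤ C * K := by nlinarith only [hC, hK]
  have hB2 : 1 ≤ (c.BB H : ℝ) ^ 2 := by nlinarith only [hB1]
  obtain ⟨L, hL⟩ : ∃ L : ℝ, L = 1 + Real.log (C * K * (c.BB H : ℝ) ^ 2) := ⟨_, rfl⟩
  have hL0 : 0 ≤ L := by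
    have := Real.log_nonneg (show 1 ≤ C * K * (c.BB H : ℝ) ^ 2 by nlinarith only [hB2, hCK1])
    rw [hL]
    linarith
  have hLD : L ≤ 1 + Real.log (D * (c.BB H : ℝ) ^ 2) := by
    rw [hL]
    have := Real.log_le_log (show 0 < C * K * (c.BB H : ℝ) ^ 2 by positivity)
      (mul_le_mul_of_nonneg_right hD2 (by positivity : 0 ≤ (c.BB H : ℝ) ^ 2))
    linarith
  -- `cst L ≤ eps c0^2 q J`
  have hkey : cst * L ≤ eps * c0 ^ 2 * q * JJ H := by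
    have h5 : cst = eps * c0 ^ 2 * q * (cst / (eps * c0 ^ 2 * q)) := by
      field_simp
    calc cst * L = eps * c0 ^ 2 * q * (cst / (eps * c0 ^ 2 * q)) * L := by rw [← h5]
      _ ≤ eps * c0 ^ 2 * q * D * (1 + Real.log (D * (c.BB H : ℝ) ^ 2)) := by gcongr
      _ = eps * c0 ^ 2 * q * (D * (1 + Real.log (D * (c.BB H : ℝ) ^ 2))) := by ring
      _ ≤ eps * c0 ^ 2 * q * JJ H := by gcongr
  rw [← hL]
  have hBH : (c.BB H : ℝ) ^ 2 / (H ^ 2 * (c.VV H : ℝ) ^ 2) ≤ 1 := by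
    rw [div_le_one (by positivity), ← mul_pow]
    exact pow_le_pow_left₀ (by positivity) hBB.2.1 2
  calc (JJ H : ℝ) * (125 * (c.BB H : ℝ) ^ 3) *
      (7 ^ MM S * 512 * (CK * H) ^ MM S * 4 / ((CK * H) ^ 2 * (c.VV H : ℝ) ^ 2 *
        (c.BB H : ℝ) ^ 2) * (C * K ^ 2 * 9 * c.BB H * L))
      = (JJ H : ℝ) * H ^ MM S * (cst * L) *
        ((c.BB H : ℝ) ^ 2 / (H ^ 2 * (c.VV H : ℝ) ^ 2)) := by
        rw [hcst, mul_pow]
        field_simp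
    _ ≤ (JJ H : ℝ) * H ^ MM S * (cst * L) * 1 := by gcongr
    _ ≤ (JJ H : ℝ) * H ^ MM S * (eps * c0 ^ 2 * q * JJ H) * 1 := by gcongr
    _ = eps * ((JJ H : ℝ) ^ 2 * c0 ^ 2) * (q * H ^ MM S) := by ring
    _ ≤ eps * ((JJ H : ℝ) ^ 2 * c.T1 H ^ 2) * (q * H ^ MM S) := by gcongr
    _ = eps * c.TT H ^ 2 * c.Xn H := by
        rw [hX, hT]
        ring

end ConicHP
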