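import Pool.Agent.Lib.MP_e426f4_ag.C.CrudeC
import Pool.Agent.Lib.MP_e426f4_ag.C.Defs
import Pool.Agent.Lib.MP_e426f4_ag.C.Ev
import Pool.Agent.Lib.MP_e426f4_ag.C.Points
import Pool.Agent.Lib.MP_e426f4_ag.C.Heights
import Pool.Agent.Lib.MP_e426f4_ag.C.SecAux

/-! Module C-S2F: the same point in two different fibres contributes little. -/

namespace ConicHP

open Finset GenHP Filter Topology

variable {S : Type*} [Fintype S]

private theorem s2f_count (c : CPar S) (eps bet : ℝ) (w : ℕ) (hc : c.Valid eps bet w) (K : ℝ)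
    (hK : 1 ≤ K) (H : ℝ) (hH : 1 ≤ H) (hB : 1 ≤ c.BB H) (hV : 1 ≤ c.VV H)
    (hv : ∀ i, i < JJ H → ∀ s, |(c.vv H i s : ℝ)| ≤ 2 * c.VV H)
    (h1 : 8 * c1 2 2 * K * (c.VV H : ℝ) * (c.BB H : ℝ) ^ (1 / 2 : ℝ) ≤ H)
    (h3 : 8 * Fintype.card S * (c.VV H : ℝ) ≤ H) :
    ((c.TSx K H).ncard : ℝ) ≤ (JJ H : ℝ) ^ 2 * (125 * (c.BB H : ℝ) ^ 3) *
      (7 ^ MM S * 512 * (3 * H) ^ MM S * (2 * c.VV H) / ((3 * H) ^ 2 * (c.BB H : ℝ) ^ 4)) := by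
  classical
  obtain ⟨i0, hi0⟩ := hc.pv.xi_eq
  have hB1 : (1 : ℝ) ≤ c.BB H := by exact_mod_cast hB
  have hV1 : (1 : ℝ) ≤ c.VV H := by exact_mod_cast hV
  obtain ⟨mu, hmu⟩ : ∃ mu : ℝ, mu = K * (c.BB H : ℝ) ^ (1 / ((2 : ℕ) : ℝ)) := ⟨_, rfl⟩
  have e2 : (1 / ((2 : ℕ) : ℝ)) = (1 / 2 : ℝ) := by norm_num
  have hmu1 : 1 ≤ mu := by
    have : (1 : ℝ) ≤ (c.BB H : ℝ) ^ (1 / ((2 : ℕ) : ℝ)) := Real.one_le_rpow hB1 (by positivity)
    rw [hmu]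
    nlinarith
  obtain ⟨bd, hbd⟩ : ∃ bd : ℝ, bd = 7 ^ MM S * 512 * (3 * H) ^ MM S * (2 * c.VV H) /
    ((3 * H) ^ 2 * (c.BB H : ℝ) ^ 4) := ⟨_, rfl⟩
  have hbd0 : 0 ≤ bd := by rw [hbd]; positivity
  rw [← hbd]
  obtain ⟨GF, hGF⟩ : ∃ GF, GF = (GC_finite c K H).toFinset := ⟨_, rfl⟩
  have hmem : ∀ x, x ∈ GF ↔ x ∈ c.GC K H := fun x => by rw [hGF, Set.Finite.mem_toFinset]
  have hGc : (GF.card : ℝ) ≤ 125 * (c.BB H : ℝ) ^ 3 := by
    rw [hGF]; exact sec_card_GC c eps bet w hc K H hB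
  have hcf := sec_card_fib (c.TSx K H) (TSx_finite c K H)
    ((range (JJ H) ×ˢ (range (JJ H) ×ˢ GF)).filter (fun b => b.1 ≠ b.2.1))
    (by
      rintro ⟨A, i, i', x⟩ ⟨_, hi, hi', hne, hx, _, _⟩
      simp only [Finset.mem_filter, Finset.mem_product, Finset.mem_range]
      exact ⟨⟨hi, hi', (hmem x).2 hx⟩, hne⟩)
    (fun b => {A : Idx 2 2 × S → ℤ | (∀ m, |(A m : ℝ)| ≤ 3 * H) ∧
      F (ev A (c.vv H b.1)) b.2.2 = 0 ∧ F (ev A (c.vv H b.2.1)) b.2.2 = 0})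
    (fun b _ => finite_of_abs_le _ (3 * H) fun A hA i => hA.1 i)
    (by
      rintro ⟨A, i, i', x⟩ ⟨hA, hi, hi', hne, hx, hF1, hF2⟩
      exact ⟨fun m => sec_Cl_abs_le c eps bet w hc H (by linarith) A hA m, hF1, hF2⟩)
  refine hcf.trans ?_
  have hb : ∀ b ∈ (range (JJ H) ×ˢ (range (JJ H) ×ˢ GF)).filter (fun b => b.1 ≠ b.2.1),
      (Set.ncard {A : Idx 2 2 × S → ℤ | (∀ m, |(A m : ℝ)| ≤ 3 * H) ∧
      F (ev A (c.vv H b.1)) b.2.2 = 0 ∧ F (ev A (c.vv H b.2.1)) b.2.2 = 0} : ℝ) ≤ bd := by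
    rintro ⟨i, i', x⟩ hb
    simp only [Finset.mem_filter, Finset.mem_product, Finset.mem_range] at hb
    obtain ⟨⟨hi, hi', hx⟩, hne⟩ := hb
    have hx' := (hmem x).1 hx
    have hxb := mem_XX_bounds c.p eps bet w hc.pv (c.BB H) x hx'.1
    rw [hbd]
    refine crude_samex (c.BB H) hB x hx'.2.1 mu hmu1 (hmu ▸ hx'.2.2) i0
      ((hxb i0).2 hi0) (c.vv H i) (c.vv H i') (hc.fam.prim _ _) (2 * c.VV H) (by linarith)
      (hv i hi) (c.D0 * ((i : ℤ) - i').natAbs) (sec_sep_pos c eps bet w hc i i' hne)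
      (sec_sep c eps bet w hc (JJ H) i i' hne) (3 * H) (by linarith) ?_ ?_
    · rw [hmu, e2]
      have : 4 * (c1 2 2 * (K * (c.BB H : ℝ) ^ (1 / 2 : ℝ))) * (2 * c.VV H) =
        8 * c1 2 2 * K * (c.VV H : ℝ) * (c.BB H : ℝ) ^ (1 / 2 : ℝ) := by ring
      rw [this]
      linarith
    · have : 4 * (Fintype.card S * (2 * (c.VV H : ℝ))) = 8 * Fintype.card S * (c.VV H : ℝ) := by
        ring
      rw [this]
      linarith
  refine (Finset.sum_le_card_nsmul _ _ _ hb).trans ?_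
  rw [nsmul_eq_mul]
  refine mul_le_mul_of_nonneg_right ?_ hbd0
  have h4 : ((range (JJ H) ×ˢ (range (JJ H) ×ˢ GF)).filter (fun b => b.1 ≠ b.2.1)).card ≤
      JJ H * (JJ H * GF.card) := by
    refine (Finset.card_filter_le _ _).trans ?_
    rw [Finset.card_product, Finset.card_product, Finset.card_range]
  calc (((range (JJ H) ×ˢ (range (JJ H) ×ˢ GF)).filter (fun b => b.1 ≠ b.2.1)).card : ℝ)
      ≤ (JJ H : ℝ) * ((JJ H : ℝ) * GF.card) := by exact_mod_cast h4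
    _ = (JJ H : ℝ) ^ 2 * GF.card := by ring
    _ ≤ (JJ H : ℝ) ^ 2 * (125 * (c.BB H : ℝ) ^ 3) := mul_le_mul_of_nonneg_left hGc (by positivity)

/-- C-S2F -/
theorem S2_samex (c : CPar S) (eps bet : ℝ) (w : ℕ) (hc : c.Valid eps bet w)
    (K : ℝ) (hK : 1 ≤ K) : ∀ᶠ H : ℝ in atTop,
    ((c.TSx K H).ncard : ℝ) ≤ eps * c.TT H ^ 2 * c.Xn H := by
  have heps := hc.pv.eps_pos
  have hrho := hc.pv.rho_pos
  have hQ : (0 : ℝ) < c.p.Q := by exact_mod_cast hc.pv.Q_pos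
  obtain ⟨c0, hc0, hT1⟩ := T1_bounds c eps bet w hc
  obtain ⟨q, hq⟩ : ∃ q : ℝ, q = (2 * c.p.rho / c.p.Q) ^ MM S := ⟨_, rfl⟩
  have hq0 : 0 < q := by rw [hq]; positivity
  obtain ⟨cst, hcst⟩ : ∃ cst : ℝ, cst = 125 * (7 ^ MM S * 512 * 3 ^ MM S * 2 / 9) := ⟨_, rfl⟩
  have hcst0 : 0 < cst := by rw [hcst]; positivity
  obtain ⟨D, hD⟩ : ∃ D : ℝ, D = cst / (eps * c0 ^ 2 * q) := ⟨_, rfl⟩
  have hD0 : 0 < D := by rw [hD]; positivity
  filter_upwards [hT1, (JJ_atTop).eventually_ge_atTop 1, VV_pos c eps bet w hc,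
    (BB_atTop c eps bet w hc).eventually_ge_atTop 1, vv_le c eps bet w hc,
    small_le c eps bet w hc (8 * c1 2 2 * K) 1, small_le' c eps bet w hc (8 * Fintype.card S) 1,
    small_le' c eps bet w hc D 1, eventually_ge_atTop (1 : ℝ)] with H h1 hJ hV hB hv h2 h3 h4 hH
  have hB1 : (1 : ℝ) ≤ c.BB H := by exact_mod_cast hB
  have hV1 : (1 : ℝ) ≤ c.VV H := by exact_mod_cast hV
  have hJ1 : (1 : ℝ) ≤ JJ H := by exact_mod_cast hJ
  have hc1 : 0 ≤ c1 2 2 := by unfold c1; positivity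
  have hVJ : (c.VV H : ℝ) ≤ (c.VV H : ℝ) ^ 1 * (JJ H : ℝ) ^ 1 := by
    rw [pow_one, pow_one]
    nlinarith
  have hcount := s2f_count c eps bet w hc K hK H hH hB hV hv
    (by
      refine le_trans ?_ h2
      refine mul_le_mul_of_nonneg_right ?_ (by positivity)
      exact mul_le_mul_of_nonneg_left hVJ (by positivity))
    (by
      refine le_trans ?_ h3
      exact mul_le_mul_of_nonneg_left hVJ (by positivity))
  refine hcount.trans ?_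
  have hDV : D * c.VV H ≤ H := (mul_le_mul_of_nonneg_left hVJ hD0.le).trans h4
  have hX : c.Xn H = q * H ^ MM S := by
    rw [CPar.Xn, hq, ← mul_pow]
    congr 1
    ring
  have hT : c.TT H = JJ H * c.T1 H := rfl
  have hT1' : c0 ^ 2 ≤ c.T1 H ^ 2 := pow_le_pow_left₀ hc0.le h1 2
  -- `cst V / (H^2 B) ≤ eps c0^2 q`
  have hkey : cst * c.VV H / (H ^ 2 * c.BB H) ≤ eps * c0 ^ 2 * q := by
    rw [div_le_iff₀ (by positivity)]
    have h5 : cst * c.VV H = eps * c0 ^ 2 * q * (D * c.VV H) := by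
      rw [hD]
      field_simp
    rw [h5]
    refine mul_le_mul_of_nonneg_left (hDV.trans ?_) (by positivity)
    nlinarith [mul_le_mul_of_nonneg_left hB1 (by positivity : (0 : ℝ) ≤ H ^ 2)]
  calc (JJ H : ℝ) ^ 2 * (125 * (c.BB H : ℝ) ^ 3) *
      (7 ^ MM S * 512 * (3 * H) ^ MM S * (2 * c.VV H) / ((3 * H) ^ 2 * (c.BB H : ℝ) ^ 4))
      = (JJ H : ℝ) ^ 2 * H ^ MM S * (cst * c.VV H / (H ^ 2 * c.BB H)) := by
        rw [hcst, mul_pow]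
        field_simp
        ring
    _ ≤ (JJ H : ℝ) ^ 2 * H ^ MM S * (eps * c0 ^ 2 * q) :=
        mul_le_mul_of_nonneg_left hkey (by positivity)
    _ = eps * ((JJ H : ℝ) ^ 2 * c0 ^ 2) * (q * H ^ MM S) := by ring
    _ ≤ eps * ((JJ H : ℝ) ^ 2 * c.T1 H ^ 2) * (q * H ^ MM S) := by gcongr
    _ = eps * c.TT H ^ 2 * c.Xn H := by
        rw [hX, hT]
        ring

end ConicHP
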