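import Pool.Agent.Lib.MP_e426f4_ag.C.Defs
import Pool.Agent.Lib.MP_e426f4_ag.C.SecondMoment
import Pool.Agent.Lib.MP_e426f4_ag.G.Basic
import Pool.Agent.Lib.MP_e426f4_ag.G.Alg
import Pool.Agent.Lib.MP_e426f4_ag.G.RealCount
import Pool.Agent.Lib.MP_e426f4_ag.G.HensLocal

/-! Module C-CT2: the abstract class theorem for families of conics. -/

namespace ConicHP

open Finset GenHP Filter Topology

theorem class_thm (S : Type*) [Fintype S] [Nonempty S] (w : ℕ) (hw : 2 ≤ w)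
    (bet : ℝ) (hb : 0 < bet) (hb1 : bet ≤ 1) :
    ∃ rho0 : ℝ, 0 < rho0 ∧ rho0 ≤ 1 ∧ ∀ rho : ℝ, 0 < rho → rho ≤ rho0 → ∀ k : ℕ, 1 ≤ k →
      ∀ (om : S → ℝ) (v : ℕ → ℕ → S → ℤ) (V : ℕ → ℕ) (D0 : ℕ),
      FamValid ((primorial w) ^ (2 * k)) (primorial w) om v V D0 →
      ∀ A0 : Idx 2 2 × S → ℤ,
      (∀ p : ℕ, p.Prime → p ≤ w → ∃ x : Fin 3 → ℤ, (∃ i, ¬ (p : ℤ) ∣ x i) ∧
        ((p : ℤ) ^ (2 * k)) ∣ F (ev A0 (v 0 0)) x ∧
        ∃ j, ¬ ((p : ℤ) ^ k ∣ D (ev A0 (v 0 0)) x j)) →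
      ∀ (AC : Idx 2 2 × S → ℝ) (xi : Fin 3 → ℝ) (j : Fin 3), (∀ m, |AC m| ≤ 1) →
      (∀ i, |xi i| ≤ 1) → (∃ i, |xi i| = 1) →
      |F (ev AC om) xi| ≤ rho0 → bet ≤ |D (ev AC om) xi j| →
      ∀ᶠ H : ℝ in atTop,
        (Set.ncard {A : Idx 2 2 × S → ℤ | (∀ m, |(A m : ℝ) - H * AC m| ≤ rho * H) ∧
          (∀ m, ((primorial w : ℤ) ^ (2 * k)) ∣ A m - A0 m) ∧ ¬ FSol v A} : ℝ) ≤
          30 / w * (2 * rho * H / (primorial w : ℝ) ^ (2 * k)) ^ MM S := by
  have hw0 : (0 : ℝ) < w := by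
    have : 0 < w := by omega
    exact_mod_cast this
  have hw2 : (2 : ℝ) ≤ w := by exact_mod_cast hw
  have hS : 0 < Fintype.card S := Fintype.card_pos
  have hSr : (0 : ℝ) < Fintype.card S := by exact_mod_cast hS
  have hS1 : (1 : ℝ) ≤ Fintype.card S := by exact_mod_cast hS
  set eps : ℝ := 1 / (10 * w) with heps
  have heps0 : 0 < eps := by positivity
  have heps1 : eps ≤ 1 / 10 := by
    rw [heps]
    exact one_div_le_one_div_of_le (by norm_num) (by linarith)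
  set bet' : ℝ := bet / Fintype.card S with hbet'
  have hb' : 0 < bet' := by positivity
  have hb1' : bet' ≤ 1 := by
    rw [hbet', div_le_one hSr]
    linarith
  obtain ⟨kap, hkap, hkap1, rho0, hrho0, hrho01, hRC⟩ :=
    real_count 2 2 (by norm_num) (by norm_num) eps bet' heps0 heps1 hb' hb1'
  refine ⟨rho0, hrho0, hrho01, fun rho hrho hrho' k hk om v V D0 hfam A0 hloc AC xi j hAC hxi hxi1
    hF hD => ?_⟩
  obtain ⟨P, x0, hP, hH⟩ := hens_of_local (by norm_num) w k hw hk (ev A0 (v 0 0)) hloc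
  set Ainf : Idx 2 2 → ℝ := fun t => (1 / (Fintype.card S : ℝ)) * ev AC om t with hAinf
  have hA : ∀ m, |Ainf m| ≤ 1 := by
    intro m
    rw [hAinf]
    simp only
    rw [abs_mul, abs_of_pos (by positivity : (0 : ℝ) < 1 / Fintype.card S), one_div,
      inv_mul_le_iff₀ hSr, mul_one]
    unfold ev
    calc |∑ s, AC (m, s) * om s| ≤ ∑ s : S, |AC (m, s) * om s| := Finset.abs_sum_le_sum_abs _ _
      _ ≤ ∑ _s : S, (1 : ℝ) := by
        refine Finset.sum_le_sum fun s _ => ?_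
        rw [abs_mul]
        exact mul_le_one₀ (hAC _) (abs_nonneg _) (hfam.om_le s)
      _ = Fintype.card S := by simp
  have hF' : |F Ainf xi| ≤ rho0 := by
    rw [hAinf, F_smul, abs_mul, abs_of_pos (by positivity : (0 : ℝ) < 1 / Fintype.card S), one_div,
      inv_mul_le_iff₀ hSr]
    nlinarith
  have hD' : bet' ≤ |D Ainf xi j| := by
    rw [hAinf, D_smul, abs_mul, abs_of_pos (by positivity : (0 : ℝ) < 1 / Fintype.card S), hbet',
      one_div, div_eq_inv_mul]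
    exact mul_le_mul_of_nonneg_left hD (by positivity)
  set p : Par 2 2 := ⟨Ainf, Ainf, xi, j, kap, rho, primorial w, P, primorial w ^ (2 * k),
    ev A0 (v 0 0), x0⟩ with hpdef
  have hWp : 0 < primorial w := primorial_pos w
  have hpv : PV p eps bet' w := by
    refine ⟨heps0, heps1, hb', hb1', hw, hkap, hkap1, hrho, hrho'.trans hrho01, hA, hxi, hxi1, hD',
      hRC rho hrho hrho' Ainf xi j hA hxi hxi1 hF' hD', hWp, ?_, pow_pos hWp _, hP, hH⟩
    intro l hl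
    show l ∣ primorial w ↔ l ≤ w
    unfold primorial
    rw [Prime.dvd_finsetProd_iff hl.prime]
    constructor
    · rintro ⟨q, hq, hlq⟩
      rw [Finset.mem_filter, Finset.mem_range] at hq
      rw [Nat.prime_dvd_prime_iff_eq hl hq.2] at hlq
      omega
    · intro hlw
      exact ⟨l, Finset.mem_filter.mpr ⟨Finset.mem_range.mpr (by omega), hl⟩, dvd_rfl⟩
  set c : CPar S := ⟨p, AC, A0, om, v, V, D0⟩ with hcdef
  have hvalid : c.Valid eps bet' w := by
    refine ⟨hpv, hfam, hAC, ?_, ?_⟩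
    · intro t
      show (Fintype.card S : ℝ) * (1 / (Fintype.card S : ℝ) * ev AC om t) = ev AC om t
      field_simp
    · intro t
      show ((primorial w ^ (2 * k) : ℕ) : ℤ) ∣ ev A0 (v 0 0) t - ev A0 (v 0 0) t
      rw [sub_self]
      exact dvd_zero _
  have h := second_moment c eps bet' w hvalid
  filter_upwards [h, Filter.eventually_ge_atTop 0] with H hH hH0
  have e1 : {A : Idx 2 2 × S → ℤ | (∀ m, |(A m : ℝ) - H * AC m| ≤ rho * H) ∧
          (∀ m, ((primorial w : ℤ) ^ (2 * k)) ∣ A m - A0 m) ∧ ¬ FSol v A} =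
      {A | A ∈ c.Cl c.p.rho H ∧ ¬ FSol c.v A} := by
    ext A
    simp only [CPar.Cl, hcdef, hpdef, ← and_assoc]
    push_cast
    rfl
  rw [e1]
  refine hH.trans ?_
  have e2 : c.Xn H = (2 * rho * H / (primorial w : ℝ) ^ (2 * k)) ^ MM S := by
    unfold CPar.Xn
    rw [hcdef]
    simp only [hpdef]
    push_cast
    rfl
  rw [e2]
  refine mul_le_mul_of_nonneg_right ?_ (by positivity)
  rw [heps]
  have : 100 * (1 / (10 * (w : ℝ))) = 10 / w := by field_simp; norm_num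
  rw [this, ← add_div]
  exact div_le_div_of_nonneg_right (by norm_num) hw0.le

end ConicHP
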