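import Pool.Agent.Lib.MP_e426f4_ag.C.Defs
import Pool.Agent.Lib.MP_e426f4_ag.C.ClassThm

/-! Module C-CG: the class theorem for families of conics, with `2` replaced by variables. -/

namespace ConicHP

open Finset GenHP Filter Topology

/-- value along a vector, general format of the coefficients -/
def evg {S : Type*} [Fintype S] {R : Type*} [CommRing R] {a b : ℕ} (A : Idx a b × S → R)
    (v : S → R) : Idx a b → R := fun t => ∑ s, A (t, s) * v s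

/-- some fibre of the family has a rational point -/
def FSolg {S : Type*} [Fintype S] {a b : ℕ} (v : ℕ → ℕ → S → ℤ) (A : Idx a b × S → ℤ) : Prop :=
  ∃ J i, ∃ x : Fin (a + 1) → ℤ, x ≠ 0 ∧ F (evg A (v J i)) x = 0

theorem class_thm_gen (a b : ℕ) (ha : a = 2) (hb2 : b = 2) (S : Type*) [Fintype S] [Nonempty S]
    (w : ℕ) (hw : 2 ≤ w) (bet : ℝ) (hb : 0 < bet) (hb1 : bet ≤ 1) :
    ∃ rho0 : ℝ, 0 < rho0 ∧ rho0 ≤ 1 ∧ ∀ rho : ℝ, 0 < rho → rho ≤ rho0 → ∀ k : ℕ, 1 ≤ k →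
      ∀ (om : S → ℝ) (v : ℕ → ℕ → S → ℤ) (V : ℕ → ℕ) (D0 : ℕ),
      FamValid ((primorial w) ^ (2 * k)) (primorial w) om v V D0 →
      ∀ A0 : Idx a b × S → ℤ,
      (∀ p : ℕ, p.Prime → p ≤ w → ∃ x : Fin (a + 1) → ℤ, (∃ i, ¬ (p : ℤ) ∣ x i) ∧
        ((p : ℤ) ^ (2 * k)) ∣ F (evg A0 (v 0 0)) x ∧
        ∃ j, ¬ ((p : ℤ) ^ k ∣ D (evg A0 (v 0 0)) x j)) →
      ∀ (AC : Idx a b × S → ℝ) (xi : Fin (a + 1) → ℝ) (j : Fin (a + 1)), (∀ m, |AC m| ≤ 1) →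
      (∀ i, |xi i| ≤ 1) → (∃ i, |xi i| = 1) →
      |F (evg AC om) xi| ≤ rho0 → bet ≤ |D (evg AC om) xi j| →
      ∀ᶠ H : ℝ in atTop,
        (Set.ncard {A : Idx a b × S → ℤ | (∀ m, |(A m : ℝ) - H * AC m| ≤ rho * H) ∧
          (∀ m, ((primorial w : ℤ) ^ (2 * k)) ∣ A m - A0 m) ∧ ¬ FSolg v A} : ℝ) ≤
          30 / w * (2 * rho * H / (primorial w : ℝ) ^ (2 * k)) ^ Fintype.card (Idx a b × S) := by
  subst ha
  subst hb2
  exact class_thm S w hw bet hb hb1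

end ConicHP
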