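import Pool.Agent.Lib.MP_e426f4_ag.C.Complement
import Pool.Agent.Lib.MP_e426f4_ag.M.Eval

/-! Module C-FAM: the family of vectors. -/

namespace ConicHP

open Finset GenHP Filter Topology

section multi
variable {ι : Type} [Fintype ι] [DecidableEq ι] {n d : ι → ℕ}

/-- replacing the block `i1` of `z` by `y` -/
def repl {R : Type*} (i1 : ι) (z : MVar n → R) (y : Fin (n i1 + 1) → R) : MVar n → R :=
  fun v => Function.update (fun j a => z ⟨j, a⟩ : ∀ j, Fin (n j + 1) → R) i1 y v.1 v.2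

omit [Fintype ι] in
theorem repl_self {R : Type*} (i1 : ι) (z : MVar n → R) (y : Fin (n i1 + 1) → R)
    (a : Fin (n i1 + 1)) : repl i1 z y ⟨i1, a⟩ = y a := by
  simp [repl]

omit [Fintype ι] in
theorem repl_ne {R : Type*} (i1 : ι) (z : MVar n → R) (y : Fin (n i1 + 1) → R) (j : ι)
    (hj : j ≠ i1) (a : Fin (n j + 1)) : repl i1 z y ⟨j, a⟩ = z ⟨j, a⟩ := by
  simp [repl, Function.update_of_ne hj]

section ring
variable {R : Type*} [CommRing R]

theorem vy_map {R' : Type*} [CommRing R'] (f : R →+* R') (i0 : ι) (z : MVar n → R)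
    (s : SIdx n d i0) : vy i0 (fun v => f (z v)) s = f (vy i0 z s) := by
  simp only [vy, mon, map_prod, map_pow]

theorem vy_scale (i0 : ι) (c : ι → R) (z : MVar n → R) (s : SIdx n d i0) :
    vy i0 (fun v => c v.1 * z v) s = (∏ j : {j // j ≠ i0}, c j ^ d j) * vy i0 z s := by
  unfold vy
  rw [← Finset.prod_mul_distrib]
  refine Finset.prod_congr rfl fun j _ => ?_
  rw [mon_scale (c j) (fun a => z ⟨j, a⟩) (s j).1, (s j).2]

/-- pairing of a decomposable vector with `vy` -/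
theorem sum_prod_vy (i0 : ι) (B : ∀ j : {j // j ≠ i0}, Idx (n j) (d j) → R) (z : MVar n → R) :
    ∑ s : SIdx n d i0, (∏ j, B j (s j)) * vy i0 z s = ∏ j : {j // j ≠ i0}, F (B j) fun a => z ⟨j, a⟩ := by
  have h1 : ∀ s : SIdx n d i0, (∏ j : {j // j ≠ i0}, B j (s j)) *
      vy i0 z s = ∏ j : {j // j ≠ i0}, (B j (s j) * mon (fun a => z ⟨j, a⟩) (s j).1) := by
    intro s
    unfold vy
    rw [Finset.prod_mul_distrib]
  rw [Finset.sum_congr rfl (fun s _ => h1 s)]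
  have h2 := Finset.prod_univ_sum (fun j : {j // j ≠ i0} => (univ : Finset (Idx (n j) (d j))))
    (fun j t => B j t * mon (fun a => z ⟨j, a⟩) t.1)
  rw [Fintype.piFinset_univ] at h2
  rw [← h2]
  rfl

end ring

theorem vy_congr_mod (i0 : ι) (N : ℕ) (z z' : MVar n → ℤ) (h : ∀ v, (N : ℤ) ∣ z v - z' v)
    (s : SIdx n d i0) : (N : ℤ) ∣ vy i0 z s - vy i0 z' s := by
  rw [← ZMod.intCast_eq_intCast_iff_dvd_sub]
  have h1 : ∀ w : MVar n → ℤ, ((vy i0 w s : ℤ) : ZMod N) = vy i0 (fun v => ((w v : ℤ) : ZMod N)) s :=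
    fun w => (vy_map (Int.castRingHom (ZMod N)) i0 w s).symm
  rw [h1, h1]
  have h2 : (fun v => ((z' v : ℤ) : ZMod N)) = fun v => ((z v : ℤ) : ZMod N) := by
    funext v
    rw [ZMod.intCast_eq_intCast_iff_dvd_sub]
    exact h v
  rw [h2]

theorem vy_continuous (i0 : ι) :
    Continuous fun (w : MVar n → ℝ) (s : SIdx n d i0) => vy i0 w s := by
  refine continuous_pi fun s => ?_
  unfold vy mon
  fun_prop

/-- the vectors of the block `i1` -/
def yv {m : ℕ} (Q : ℕ) (y u : Fin (m + 1) → ℤ) (J i : ℕ) : Fin (m + 1) → ℤ :=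
  fun a => (1 + Q * ((J : ℤ) ^ 2 + i)) * y a + Q * u a

theorem sum_mul_yv {m : ℕ} (Q : ℕ) (y u c : Fin (m + 1) → ℤ) (p q : ℤ) (hp : ∑ a, c a * y a = p)
    (hq : ∑ a, c a * u a = q) (J i : ℕ) :
    ∑ a, c a * yv Q y u J i a = (1 + Q * ((J : ℤ) ^ 2 + i)) * p + Q * q := by
  unfold yv
  rw [← hp, ← hq, Finset.mul_sum, Finset.mul_sum, ← Finset.sum_add_distrib]
  exact Finset.sum_congr rfl fun a _ => by ring

theorem yv_prim {m : ℕ} (Q : ℕ) (y u c c' : Fin (m + 1) → ℤ) (h1 : ∑ a, c a * y a = 1)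
    (h2 : ∑ a, c a * u a = 0) (h3 : ∑ a, c' a * y a = 0) (h4 : ∑ a, c' a * u a = 1) (J i : ℕ) :
    Prim (yv Q y u J i) := by
  refine ⟨fun a => c a - ((J : ℤ) ^ 2 + i) * c' a, ?_⟩
  have e1 := sum_mul_yv Q y u c 1 0 h1 h2 J i
  have e2 := sum_mul_yv Q y u c' 0 1 h3 h4 J i
  have e3 : ∑ a, (c a - ((J : ℤ) ^ 2 + i) * c' a) * yv Q y u J i a =
      ∑ a, c a * yv Q y u J i a - ((J : ℤ) ^ 2 + i) * ∑ a, c' a * yv Q y u J i a := by
    rw [Finset.mul_sum, ← Finset.sum_sub_distrib]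
    exact Finset.sum_congr rfl fun a _ => by ring
  rw [e3, e1, e2]
  ring

theorem repl_prim (i1 : ι) (z : MVar n → ℤ) (hz : ∀ j, Prim fun a => z ⟨j, a⟩)
    (y : Fin (n i1 + 1) → ℤ) (hy : Prim y) (j : ι) : Prim fun a => repl i1 z y ⟨j, a⟩ := by
  by_cases hj : j = i1
  · subst hj
    have : (fun a => repl j z y ⟨j, a⟩) = y := funext fun a => repl_self j z y a
    rw [this]
    exact hy
  · have : (fun a => repl i1 z y ⟨j, a⟩) = fun a => z ⟨j, a⟩ :=
      funext fun a => repl_ne i1 z y j hj a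
    rw [this]
    exact hz j

theorem repl_congr_mod (i1 : ι) (N : ℤ) (z : MVar n → ℤ) (y y' : Fin (n i1 + 1) → ℤ)
    (h : ∀ a, N ∣ y a - y' a) (v : MVar n) : N ∣ repl i1 z y v - repl i1 z y' v := by
  obtain ⟨j, a⟩ := v
  by_cases hj : j = i1
  · subst hj
    rw [repl_self, repl_self]
    exact h a
  · rw [repl_ne _ _ _ _ hj, repl_ne _ _ _ _ hj, sub_self]
    exact dvd_zero _

theorem yv_congr_mod {m : ℕ} (Q : ℕ) (y u : Fin (m + 1) → ℤ) (J i : ℕ) (a : Fin (m + 1)) :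
    (Q : ℤ) ∣ yv Q y u J i a - y a := by
  refine ⟨((J : ℤ) ^ 2 + i) * y a + u a, ?_⟩
  unfold yv
  ring

/-- separation of the vectors -/
theorem family_sep (hd : ∀ i, 1 ≤ d i) (i0 i1 : ι) (h01 : i1 ≠ i0)
    (z : MVar n → ℤ) (hz : ∀ j, Prim fun a => z ⟨j, a⟩) (Q : ℕ)
    (y u c c' : Fin (n i1 + 1) → ℤ) (h1 : ∑ a, c a * y a = 1)
    (h2 : ∑ a, c a * u a = 0) (h3 : ∑ a, c' a * y a = 0) (h4 : ∑ a, c' a * u a = 1)
    (J i i' : ℕ) : ∃ a : SIdx n d i0 → ℤ,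
      ∑ s, a s * vy i0 (repl i1 z (yv Q y u J i)) s = 0 ∧
      ∑ s, a s * vy i0 (repl i1 z (yv Q y u J i')) s = (Q ^ 2 : ℕ) * ((i : ℤ) - i') := by
  have hprim : ∀ j, Prim fun a => repl i1 z (yv Q y u J i') ⟨j, a⟩ :=
    repl_prim i1 z hz _ (yv_prim Q y u c c' h1 h2 h3 h4 J i')
  choose C hC using hprim
  set l : Fin (n i1 + 1) → ℤ := fun a => (1 + Q * ((J : ℤ) ^ 2 + i)) * c' a - Q * c a with hl
  have hl1 : ∀ k : ℕ, ∑ a, l a * yv Q y u J k a = Q ^ 2 * ((i : ℤ) - k) := by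
    intro k
    have e1 := sum_mul_yv Q y u c 1 0 h1 h2 J k
    have e2 := sum_mul_yv Q y u c' 0 1 h3 h4 J k
    have e3 : ∑ a, l a * yv Q y u J k a =
        (1 + Q * ((J : ℤ) ^ 2 + i)) * ∑ a, c' a * yv Q y u J k a -
          Q * ∑ a, c a * yv Q y u J k a := by
      rw [Finset.mul_sum, Finset.mul_sum, ← Finset.sum_sub_distrib]
      exact Finset.sum_congr rfl fun a _ => by simp only [hl]; ring
    rw [e3, e1, e2]
    ring
  set L : ∀ j, Fin (n j + 1) → ℤ := Function.update C i1 l with hL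
  set B : ∀ j : {j // j ≠ i0}, Idx (n j) (d j) → ℤ :=
    fun j => T (fun k : Fin (d j) => if (k : ℕ) = 0 then L j else C j) with hB
  refine ⟨fun s => ∏ j, B j (s j), ?_, ?_⟩
  · rw [sum_prod_vy]
    refine Finset.prod_eq_zero (Finset.mem_univ ⟨i1, h01⟩) ?_
    rw [hB]
    simp only
    rw [F_T]
    refine Finset.prod_eq_zero (Finset.mem_univ ⟨0, hd i1⟩) ?_
    simp only [if_true]
    have e1 : ∀ a, L i1 a * repl i1 z (yv Q y u J i) ⟨i1, a⟩ = l a * yv Q y u J i a := by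
      intro a
      rw [repl_self, hL, Function.update_self]
    rw [Finset.sum_congr rfl fun a _ => e1 a, hl1 i]
    ring
  · rw [sum_prod_vy]
    rw [Finset.prod_eq_single (⟨i1, h01⟩ : {j // j ≠ i0})]
    · rw [hB]
      simp only
      rw [F_T]
      rw [Finset.prod_eq_single (⟨0, hd i1⟩ : Fin (d i1))]
      · simp only [if_true]
        have e1 : ∀ a, L i1 a * repl i1 z (yv Q y u J i') ⟨i1, a⟩ = l a * yv Q y u J i' a := by
          intro a
          rw [repl_self, hL, Function.update_self]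
        rw [Finset.sum_congr rfl fun a _ => e1 a, hl1 i']
        push_cast
        ring
      · intro k _ hk
        have hk' : (k : ℕ) ≠ 0 := fun h => hk (Fin.ext h)
        simp only [if_neg hk']
        exact hC i1
      · intro h
        exact absurd (Finset.mem_univ _) h
    · intro j _ hj
      have hj' : (j : ι) ≠ i1 := fun h => hj (Subtype.ext h)
      rw [hB]
      simp only
      rw [F_T]
      refine Finset.prod_eq_one fun k _ => ?_
      have e1 : (if (k : ℕ) = 0 then L j else C j) = C j := by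
        rw [hL, Function.update_of_ne hj']
        simp
      rw [e1]
      exact hC j
    · intro h
      exact absurd (Finset.mem_univ _) h

/-- the directions of the vectors -/
theorem family_near (i0 i1 : ι) (h01 : i1 ≠ i0) (z : MVar n → ℤ) (Q : ℕ) (hQ : 0 < Q)
    (u : Fin (n i1 + 1) → ℤ) (V0 : ℕ) (hV0 : 0 < V0) (δ : ℝ) (hδ : 0 < δ) :
    ∃ J0 : ℕ, ∀ J, J0 ≤ J → ∀ i, i < J → ∀ s : SIdx n d i0,
      |((vy i0 (repl i1 z (yv Q (fun a => z ⟨i1, a⟩) u J i)) s : ℤ) : ℝ) -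
        ((V0 * (Q * J ^ 2) ^ d i1 : ℕ) : ℝ) * (((vy i0 z s : ℤ) : ℝ) / V0)| ≤
          δ * ((V0 * (Q * J ^ 2) ^ d i1 : ℕ) : ℝ) := by
  set y : Fin (n i1 + 1) → ℤ := fun a => z ⟨i1, a⟩ with hy
  set zr : MVar n → ℝ := fun v => ((z v : ℤ) : ℝ) with hzr
  have hcont := (vy_continuous (n := n) (d := d) i0).continuousAt (x := zr)
  rw [Metric.continuousAt_iff] at hcont
  have hV0' : (0 : ℝ) < V0 := by exact_mod_cast hV0
  obtain ⟨η, hη, hη2⟩ := hcont (δ * V0) (by positivity)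
  -- a bound for `y` and `u`
  obtain ⟨Y, hY⟩ : ∃ Y : ℝ, ∀ a, |((y a : ℤ) : ℝ)| + |((u a : ℤ) : ℝ)| ≤ Y := by
    refine ⟨∑ a, (|((y a : ℤ) : ℝ)| + |((u a : ℤ) : ℝ)|), fun a => ?_⟩
    exact Finset.single_le_sum (f := fun a => |((y a : ℤ) : ℝ)| + |((u a : ℤ) : ℝ)|)
      (fun _ _ => by positivity) (Finset.mem_univ a)
  obtain ⟨J0, hJ0⟩ := exists_nat_gt (Y / η)
  refine ⟨J0 + 1, fun J hJ i hi s => ?_⟩
  have hJ1 : (1 : ℝ) ≤ J := by exact_mod_cast (by omega : 1 ≤ J)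
  have hJpos : (0 : ℝ) < J := by linarith
  have hQ' : (0 : ℝ) < Q := by exact_mod_cast hQ
  have hQ1 : (1 : ℝ) ≤ Q := by exact_mod_cast hQ
  set R : ℝ := Q * (J : ℝ) ^ 2 with hR
  have hRpos : 0 < R := by positivity
  set yr : Fin (n i1 + 1) → ℝ := fun a => ((y a : ℤ) : ℝ) +
    ((1 + Q * i) * ((y a : ℤ) : ℝ) + Q * ((u a : ℤ) : ℝ)) / R with hyr
  set w : MVar n → ℝ := repl i1 zr yr with hw
  -- closeness
  have hdist : dist w zr < η := by
    rw [dist_pi_lt_iff hη]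
    rintro ⟨j, a⟩
    by_cases hj : j = i1
    · subst hj
      rw [hw, repl_self, Real.dist_eq]
      have e1 : yr a - zr ⟨j, a⟩ =
          ((1 + Q * i) * ((y a : ℤ) : ℝ) + Q * ((u a : ℤ) : ℝ)) / R := by
        rw [hyr, hzr, hy]
        simp only
        ring
      rw [e1, abs_div, abs_of_pos hRpos, div_lt_iff₀ hRpos]
      have hiJ : (i : ℝ) + 1 ≤ J := by exact_mod_cast hi
      have e2 : (1 + (Q : ℝ) * i) ≤ Q * J := by nlinarith
      have e3 : |(1 + (Q : ℝ) * i) * ((y a : ℤ) : ℝ) + Q * ((u a : ℤ) : ℝ)| ≤ Q * J * Y := by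
        have h5 : 0 ≤ 1 + (Q : ℝ) * i := by positivity
        calc |(1 + (Q : ℝ) * i) * ((y a : ℤ) : ℝ) + Q * ((u a : ℤ) : ℝ)| ≤
            |(1 + (Q : ℝ) * i) * ((y a : ℤ) : ℝ)| + |Q * ((u a : ℤ) : ℝ)| := abs_add_le _ _
          _ = (1 + (Q : ℝ) * i) * |((y a : ℤ) : ℝ)| + Q * |((u a : ℤ) : ℝ)| := by
              rw [abs_mul, abs_mul, abs_of_nonneg h5, abs_of_pos hQ']
          _ ≤ Q * J * |((y a : ℤ) : ℝ)| + Q * J * |((u a : ℤ) : ℝ)| := by
              refine add_le_add (mul_le_mul_of_nonneg_right e2 (abs_nonneg _))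
                (mul_le_mul_of_nonneg_right ?_ (abs_nonneg _))
              nlinarith
          _ = Q * J * (|((y a : ℤ) : ℝ)| + |((u a : ℤ) : ℝ)|) := by ring
          _ ≤ Q * J * Y := mul_le_mul_of_nonneg_left (hY a) (by positivity)
      refine lt_of_le_of_lt e3 ?_
      have e4 : Y < η * J := by
        rw [div_lt_iff₀ hη] at hJ0
        have h6 : (J0 : ℝ) ≤ J := by exact_mod_cast (by omega : J0 ≤ J)
        nlinarith
      calc (Q : ℝ) * J * Y < Q * J * (η * J) := mul_lt_mul_of_pos_left e4 (by positivity)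
        _ = η * R := by rw [hR]; ring
    · rw [hw, repl_ne _ _ _ _ hj, dist_self]
      exact hη
  have hclose : |vy i0 w s - vy i0 zr s| < δ * V0 := by
    have h1 := hη2 hdist
    have h2 : dist (vy i0 w s) (vy i0 zr s) ≤
        dist (fun s : SIdx n d i0 => vy i0 w s) (fun s => vy i0 zr s) :=
      dist_le_pi_dist (fun s : SIdx n d i0 => vy i0 w s) (fun s => vy i0 zr s) s
    rw [← Real.dist_eq]
    exact lt_of_le_of_lt h2 h1
  -- the real vector
  have hscale : ((vy i0 (repl i1 z (yv Q y u J i)) s : ℤ) : ℝ) = R ^ d i1 * vy i0 w s := by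
    have e1 : ((vy i0 (repl i1 z (yv Q y u J i)) s : ℤ) : ℝ) =
        vy i0 (fun v => ((repl i1 z (yv Q y u J i) v : ℤ) : ℝ)) s :=
      (vy_map (Int.castRingHom ℝ) i0 _ s).symm
    have e2 : (fun v => ((repl i1 z (yv Q y u J i) v : ℤ) : ℝ)) =
        fun v : MVar n => (if v.1 = i1 then R else 1) * w v := by
      funext v
      obtain ⟨j, a⟩ := v
      by_cases hj : j = i1
      · subst hj
        rw [repl_self, hw, repl_self, if_pos rfl, hyr]
        simp only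
        rw [mul_add, mul_div_cancel₀ _ hRpos.ne']
        unfold yv
        rw [hR]
        push_cast
        ring
      · rw [repl_ne _ _ _ _ hj, hw, repl_ne _ _ _ _ hj, if_neg hj, one_mul]
    rw [e1, e2, vy_scale i0 (fun j => if j = i1 then R else 1) w s]
    congr 1
    rw [Finset.prod_eq_single (⟨i1, h01⟩ : {j // j ≠ i0})]
    · simp
    · intro j _ hj
      have hj' : (j : ι) ≠ i1 := fun h => hj (Subtype.ext h)
      simp [hj']
    · intro h
      exact absurd (Finset.mem_univ _) h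
  have hz0 : ((vy i0 z s : ℤ) : ℝ) = vy i0 zr s := (vy_map (Int.castRingHom ℝ) i0 z s).symm
  have hVJ : ((V0 * (Q * J ^ 2) ^ d i1 : ℕ) : ℝ) = V0 * R ^ d i1 := by
    rw [hR]; push_cast; ring
  rw [hscale, hz0, hVJ]
  have e1 : R ^ d i1 * vy i0 w s - V0 * R ^ d i1 * (vy i0 zr s / V0) =
      R ^ d i1 * (vy i0 w s - vy i0 zr s) := by
    field_simp
  rw [e1, abs_mul, abs_of_pos (pow_pos hRpos _)]
  calc R ^ d i1 * |vy i0 w s - vy i0 zr s| ≤ R ^ d i1 * (δ * V0) :=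
        mul_le_mul_of_nonneg_left hclose.le (by positivity)
    _ = δ * (V0 * R ^ d i1) := by ring

theorem exists_family (hd : ∀ i, 1 ≤ d i) (hn : ∀ i, 1 ≤ n i) (i0 i1 : ι) (h01 : i1 ≠ i0)
    (z : MVar n → ℤ) (hz : ∀ j, Prim fun a => z ⟨j, a⟩) (Q W : ℕ) (hQ : 0 < Q)
    (hQW : ∀ q : ℕ, q.Prime → q ∣ Q → q ∣ W) (V0 : ℕ) (hV0 : 0 < V0)
    (hV : ∀ s : SIdx n d i0, |vy i0 z s| ≤ V0) (hV' : ∃ s : SIdx n d i0, |vy i0 z s| = V0) :
    ∃ (v : ℕ → ℕ → SIdx n d i0 → ℤ) (V : ℕ → ℕ) (D0 : ℕ),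
      FamValid Q W (fun s => ((vy i0 z s : ℤ) : ℝ) / V0) v V D0 ∧
      (∀ s, (Q : ℤ) ∣ v 0 0 s - vy i0 z s) ∧
      ∀ J i, ∃ z' : MVar n → ℤ, (∀ j, Prim fun a => z' ⟨j, a⟩) ∧ v J i = vy i0 z' := by
  have hV0' : (0 : ℝ) < V0 := by exact_mod_cast hV0
  set y : Fin (n i1 + 1) → ℤ := fun a => z ⟨i1, a⟩ with hy
  obtain ⟨u, c, c', h1, h2, h3, h4⟩ := exists_complement (hn i1) y (hz i1)
  have hprim : ∀ J i j, Prim fun a => repl i1 z (yv Q y u J i) ⟨j, a⟩ := fun J i =>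
    repl_prim i1 z hz _ (yv_prim Q y u c c' h1 h2 h3 h4 J i)
  have hzy : repl i1 z y = z := by
    funext v
    obtain ⟨j, a⟩ := v
    by_cases hj : j = i1
    · subst hj
      rw [repl_self]
    · rw [repl_ne _ _ _ _ hj]
  have hmod : ∀ (J i : ℕ) (s : SIdx n d i0),
      (Q : ℤ) ∣ vy i0 (repl i1 z (yv Q y u J i)) s - vy i0 z s := by
    intro J i s
    have := vy_congr_mod (d := d) i0 Q (repl i1 z (yv Q y u J i)) (repl i1 z y)
      (repl_congr_mod i1 Q z _ _ (yv_congr_mod Q y u J i)) s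
    rwa [hzy] at this
  refine ⟨fun J i => vy i0 (repl i1 z (yv Q y u J i)), fun J => V0 * (Q * J ^ 2) ^ d i1,
    Q ^ 2, ?_, fun s => hmod 0 0 s, fun J i => ⟨_, hprim J i, rfl⟩⟩
  refine ⟨?_, ?_, ?_, ?_, ?_, ?_, ?_, ?_, ?_, ?_⟩
  · intro s
    rw [abs_div, abs_of_pos hV0', div_le_one hV0']
    have := hV s
    exact_mod_cast this
  · obtain ⟨s, hs⟩ := hV'
    refine ⟨s, ?_⟩
    rw [abs_div, abs_of_pos hV0', div_eq_one_iff_eq hV0'.ne']
    exact_mod_cast hs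
  · intro J hJ
    have : 0 < V0 * (Q * J ^ 2) ^ d i1 := by positivity
    exact this
  · refine ⟨V0 * Q ^ d i1 + 2 * d i1, fun J hJ => ?_⟩
    have e1 : V0 * (Q * J ^ 2) ^ d i1 = V0 * Q ^ d i1 * J ^ (2 * d i1) := by
      rw [mul_pow, ← pow_mul]
      ring
    show V0 * (Q * J ^ 2) ^ d i1 ≤ _
    rw [e1]
    exact Nat.mul_le_mul (Nat.le_add_right _ _) (Nat.pow_le_pow_right hJ (Nat.le_add_left _ _))
  · intro δ hδ
    exact family_near i0 i1 h01 z Q hQ u V0 hV0 δ hδ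
  · intro J i
    exact vy_prim i0 _ fun j _ => hprim J i j
  · intro J i s
    have e1 := hmod J i s
    have e2 := hmod 0 0 s
    have e3 := dvd_sub e1 e2
    rwa [sub_sub_sub_cancel_right] at e3
  · positivity
  · intro q hq hqd
    exact hQW q hq (hq.dvd_of_dvd_pow hqd)
  · intro J i i' _
    exact family_sep hd i0 i1 h01 z hz Q y u c c' h1 h2 h3 h4 J i i'

end multi

end ConicHP
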