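import Pool.Agent.Lib.MP_e426f4_ag.M.ClsOfBlock
import Pool.Agent.Lib.MP_e426f4_ag.C.ClassGen
import Pool.Agent.Lib.MP_e426f4_ag.C.Family

/-! Module C-CLS: the class theorem with respect to a block of conics. -/

namespace GenHP

open Finset Filter Topology

section multi
variable {ι : Type} [Fintype ι] [DecidableEq ι] {n d : ι → ℕ}

theorem cls_of_conic (hd : ∀ i, 1 ≤ d i) (hn : ∀ i, 1 ≤ n i) (i0 i1 : ι) (h01 : i1 ≠ i0)
    (hn0 : n i0 = 2) (hd0 : d i0 = 2) : CLS n d i0 := by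
  classical
  set S := SIdx n d i0 with hS
  set T1 := Idx (n i0) (d i0) with hT1
  have hSne : Nonempty S := ⟨fun j => mk fun _ => 0⟩
  refine ⟨30, by norm_num, ?_⟩
  intro w hw bet hb hb1
  obtain ⟨rho0', hr0, hr01, hclass⟩ := ConicHP.class_thm_gen (n i0) (d i0) hn0 hd0 S w hw
    (bet / 2) (by positivity) (by linarith)
  refine ⟨rho0' / 2, by positivity, by linarith, ?_⟩
  intro rho hrho hrho1 k hk A0 hA0 AC hAC hGR
  obtain ⟨z, ⟨hz1, hz2⟩, hFz, a, hDz⟩ := hGR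
  -- the tolerance
  set L : ℝ := NM n d * (Fintype.card (MVar n) * (∑ i, d i : ℕ) + 4 ^ (∑ i, d i) * 1) * 1 *
        1 ^ (∑ i, d i) with hL
  set L' : ℝ := NM n d * (∑ i, d i : ℕ) * 4 ^ (∑ i, d i) * 1 * 1 ^ (∑ i, d i) with hL'
  have hL0 : 0 ≤ L := by positivity
  have hL'0 : 0 ≤ L' := by positivity
  obtain ⟨delta, hdel, hdel1, hLd, hL'd⟩ : ∃ delta : ℝ, 0 < delta ∧ delta ≤ 1 ∧
      L * delta ≤ rho0' / 2 ∧ L' * delta ≤ bet / 2 := by
    refine ⟨min 1 (min (rho0' / 2 / (L + 1)) (bet / 2 / (L' + 1))), ?_, min_le_left _ _, ?_, ?_⟩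
    · exact lt_min one_pos (lt_min (by positivity) (by positivity))
    · calc L * min 1 (min (rho0' / 2 / (L + 1)) (bet / 2 / (L' + 1)))
          ≤ L * (rho0' / 2 / (L + 1)) :=
            mul_le_mul_of_nonneg_left ((min_le_right _ _).trans (min_le_left _ _)) hL0
        _ ≤ rho0' / 2 := by
            rw [← mul_div_assoc, div_le_iff₀ (by positivity)]
            nlinarith
    · calc L' * min 1 (min (rho0' / 2 / (L + 1)) (bet / 2 / (L' + 1)))
          ≤ L' * (bet / 2 / (L' + 1)) :=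
            mul_le_mul_of_nonneg_left ((min_le_right _ _).trans (min_le_right _ _)) hL'0
        _ ≤ bet / 2 := by
            rw [← mul_div_assoc, div_le_iff₀ (by positivity)]
            nlinarith
  -- the local points at the small primes
  have hzp0 : ∀ p : ℕ, ∃ zp : MVar n → ℤ, p.Prime → p ≤ w → BUnit p zp ∧
      (p : ℤ) ^ (2 * k) ∣ MF A0 zp ∧ ∃ a, ¬ (p : ℤ) ^ k ∣ MD A0 zp ⟨i0, a⟩ := by
    intro p
    by_cases hp : p.Prime ∧ p ≤ w
    · obtain ⟨zp, h⟩ := hA0 p hp.1 hp.2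
      exact ⟨zp, fun _ _ => h⟩
    · exact ⟨0, fun h1 h2 => absurd ⟨h1, h2⟩ hp⟩
  choose zp hzp using hzp0
  -- the integer point
  have hy0 : ∀ j : ι, ∃ (y : Fin (n j + 1) → ℤ) (N : ℕ), 0 < N ∧ Prim y ∧
      (∀ p : ℕ, p.Prime → p ≤ w → ∃ u : ℤ, ¬ (p : ℤ) ∣ u ∧
        ∀ a, (p : ℤ) ^ (2 * k) ∣ y a - u * zp p ⟨j, a⟩) ∧
      (∀ a, |y a| ≤ N) ∧ (∃ a, |y a| = N) ∧ ∀ a, |(y a : ℝ) / N - z ⟨j, a⟩| ≤ delta := by
    intro j
    exact exists_prim_approx w k (n j) hk (fun p a => zp p ⟨j, a⟩)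
      (fun p hp hpw => (hzp p hp hpw).1 j) (fun a => z ⟨j, a⟩) (fun a => hz1 _) (hz2 j) delta hdel
  choose y N hN hyP hyp hyN hyN1 hyd using hy0
  set Y : MVar n → ℤ := fun v => y v.1 v.2 with hY
  set V0 : ℕ := ∏ j : {j // j ≠ i0}, N j ^ d j with hV0
  have hV0pos : 0 < V0 := Finset.prod_pos fun j _ => pow_pos (hN j) _
  obtain ⟨hvV, hvV'⟩ := vy_sup (n := n) (d := d) i0 Y N (fun j a => hyN j a) hyN1
  set Q : ℕ := primorial w ^ (2 * k) with hQ
  have hQpos : 0 < Q := Nat.pow_pos (primorial_pos w)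
  obtain ⟨v, V, D0, hfam, hcong, hsol⟩ := ConicHP.exists_family hd hn i0 i1 h01 Y hyP Q
    (primorial w) hQpos (fun q hq hqQ => hq.dvd_of_dvd_pow hqQ) V0 hV0pos hvV hvV'
  set AC2 : T1 × S → ℝ := fun q => AC ((spl n d i0).symm q) with hAC2
  set A02 : T1 × S → ℤ := fun q => A0 ((spl n d i0).symm q) with hA02
  -- the real point
  set Zr : MVar n → ℝ := fun u => if u.1 = i0 then z u else (Y u : ℝ) / N u.1 with hZr
  have hZrd : ∀ u, |Zr u - z u| ≤ delta := by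
    rintro ⟨j, b⟩
    by_cases hj : j = i0
    · simp only [hZr, hj, if_true, sub_self, abs_zero]
      exact hdel.le
    · simp only [hZr, hj, if_false]
      exact hyd j b
  have hevr : ConicHP.evg AC2 (fun s => ((vy i0 Y s : ℤ) : ℝ) / V0) = ev i0 AC Zr := by
    funext t
    have h1 : ev i0 AC Zr = ev i0 AC (fun u => (Y u : ℝ) / N u.1) := by
      refine ev_congr i0 AC _ _ fun j b hj => ?_
      simp [hZr, hj]
    rw [h1]
    simp only [ConicHP.evg, ev, vy_div, hAC2]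
    rfl
  have hZrsum : (fun u => z u + (Zr u - z u)) = Zr := by funext u; ring
  have hMFr : |MF AC Zr - MF AC z| ≤ L * delta := by
    have := MF_lip AC z (fun u => Zr u - z u) 1 1 delta le_rfl hdel.le hdel1 hAC hz1 hZrd
    rw [hZrsum] at this
    exact this
  have hMDr : |MD AC Zr ⟨i0, a⟩ - MD AC z ⟨i0, a⟩| ≤ L' * delta := by
    have := MD_taylor AC z (fun u => Zr u - z u) ⟨i0, a⟩ 1 1 delta le_rfl hdel.le hdel1 hAC hz1 hZrd
    rw [hZrsum] at this
    exact this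
  have hxi : (fun b => Zr ⟨i0, b⟩) = fun b => z ⟨i0, b⟩ := by
    funext b
    simp [hZr]
  have hFr : F (ConicHP.evg AC2 (fun s => ((vy i0 Y s : ℤ) : ℝ) / V0)) (fun b => z ⟨i0, b⟩) =
      MF AC Zr := by
    rw [hevr, MF_eq_F_ev i0 AC Zr, hxi]
  have hDr : D (ConicHP.evg AC2 (fun s => ((vy i0 Y s : ℤ) : ℝ) / V0)) (fun b => z ⟨i0, b⟩) a =
      MD AC Zr ⟨i0, a⟩ := by
    rw [hevr, MD_eq_D_ev i0 AC Zr, hxi]
  have hclass1 := hclass rho hrho (by linarith) k hk _ v V D0 hfam A02 ?_ AC2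
    (fun b => z ⟨i0, b⟩) a (fun m => hAC _) (fun b => hz1 _) (hz2 i0) ?_ ?_
  rotate_left
  · -- local data
    intro p hp hpw
    obtain ⟨hzu, hF, a', hD⟩ := hzp p hp hpw
    obtain ⟨x, hx1, hx2, j, hx3⟩ := y4_local i0 p k hp hk A0 (zp p) Y hzu hF a' hD
      fun j => hyp j p hp hpw
    have hpQ : (p : ℤ) ^ (2 * k) ∣ (Q : ℤ) := by
      rw [hQ]
      push_cast
      refine pow_dvd_pow_of_dvd ?_ _
      exact_mod_cast (hp.dvd_primorial_iff).2 hpw
    have hco : ∀ t, (p : ℤ) ^ (2 * k) ∣ ConicHP.evg A02 (v 0 0) t - ev i0 A0 Y t := by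
      intro t
      have h1 : ConicHP.evg A02 (v 0 0) t - ev i0 A0 Y t =
          ∑ s, A02 (t, s) * (v 0 0 s - vy i0 Y s) := by
        unfold ConicHP.evg ev
        rw [← Finset.sum_sub_distrib]
        refine Finset.sum_congr rfl fun s _ => ?_
        rw [hA02]
        ring
      rw [h1]
      exact Finset.dvd_sum fun s _ => (hpQ.trans (hcong s)).mul_left _
    refine ⟨x, hx1, ?_, j, ?_⟩
    · have h1 := F_congr_mod _ (ConicHP.evg A02 (v 0 0)) (ev i0 A0 Y) x x hco (fun i => by simp)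
      have h2 := dvd_add h1 hx2
      simpa using h2
    · intro h
      apply hx3
      have h1 := D_congr_mod _ (ConicHP.evg A02 (v 0 0)) (ev i0 A0 Y) x x j hco (fun i => by simp)
      have h2 : (p : ℤ) ^ k ∣ D (ConicHP.evg A02 (v 0 0)) x j - D (ev i0 A0 Y) x j :=
        (pow_dvd_pow _ (by omega)).trans h1
      have h3 := dvd_sub h h2
      simpa using h3
  · rw [hFr]
    have := abs_sub_abs_le_abs_sub (MF AC Zr) (MF AC z)
    linarith
  · rw [hDr]
    have := abs_sub_abs_le_abs_sub (MD AC z ⟨i0, a⟩) (MD AC Zr ⟨i0, a⟩)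
    rw [abs_sub_comm] at this
    linarith
  refine hclass1.mono fun H hH => ?_
  have hcardM : NM n d = Fintype.card (T1 × S) := Fintype.card_congr (spl n d i0)
  rw [hcardM]
  refine le_trans ?_ hH
  -- transport
  set Φ : (MIdx n d → ℤ) → (T1 × S → ℤ) := fun A q => A ((spl n d i0).symm q) with hΦ
  have hΦinj : Function.Injective Φ := by
    intro A A' h
    funext t
    have := congrFun h (spl n d i0 t)
    simpa [hΦ] using this
  have hfin : {A : T1 × S → ℤ | (∀ m, |(A m : ℝ) - H * AC2 m| ≤ rho * H) ∧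
      (∀ m, ((primorial w : ℤ) ^ (2 * k)) ∣ A m - A02 m) ∧ ¬ ConicHP.FSolg v A}.Finite := by
    refine finite_of_abs_le _ (|H| + rho * H) fun A hA t => ?_
    have h1 := hA.1 t
    have h2 : |H * AC2 t| ≤ |H| := by
      rw [abs_mul]
      calc |H| * |AC2 t| ≤ |H| * 1 := mul_le_mul_of_nonneg_left (hAC _) (abs_nonneg _)
        _ = |H| := mul_one _
    calc |(A t : ℝ)| = |H * AC2 t + ((A t : ℝ) - H * AC2 t)| := by ring_nf
      _ ≤ |H * AC2 t| + |(A t : ℝ) - H * AC2 t| := abs_add_le _ _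
      _ ≤ _ := add_le_add h2 h1
  have hsub : Φ '' {A : MIdx n d → ℤ | (∀ t, |(A t : ℝ) - H * AC t| ≤ rho * H) ∧
      (∀ t, ((primorial w : ℤ) ^ (2 * k)) ∣ A t - A0 t) ∧ ¬ MSoluble A} ⊆
      {A : T1 × S → ℤ | (∀ m, |(A m : ℝ) - H * AC2 m| ≤ rho * H) ∧
      (∀ m, ((primorial w : ℤ) ^ (2 * k)) ∣ A m - A02 m) ∧ ¬ ConicHP.FSolg v A} := by
    rintro _ ⟨A, ⟨hA1, hA2, hA3⟩, rfl⟩
    refine ⟨fun t => hA1 _, fun t => hA2 _, ?_⟩
    rintro ⟨J, i, x, hx0, hx⟩
    apply hA3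
    obtain ⟨z', hz', hvz⟩ := hsol J i
    refine soluble_of_ev i0 A z' (fun j _ => hz' j) ⟨fun b => (x b : ℚ), ?_, ?_⟩
    · intro h
      apply hx0
      funext b
      have hb0 : ((x b : ℤ) : ℚ) = 0 := congrFun h b
      show x b = 0
      exact_mod_cast hb0
    · have h1 : ConicHP.evg (Φ A) (v J i) = ev i0 A z' := by
        rw [hvz]
        rfl
      rw [h1] at hx
      have h2 := F_map (Int.castRingHom ℚ) (ev i0 A z') x
      rw [hx] at h2
      simpa using h2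
  have h1 := Set.ncard_le_ncard hsub hfin
  rw [Set.ncard_image_of_injective _ hΦinj] at h1
  exact_mod_cast h1

end multi

end GenHP
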