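import Pool.Agent.Lib.MP_e426f4_ag.C.Defs

/-! Module C-FAM1: completing a primitive vector. -/

namespace ConicHP

open Finset GenHP Filter Topology

theorem sum_two_single {m : ℕ} (i j : Fin (m + 1)) (p q : ℤ) (f : Fin (m + 1) → ℤ) :
    ∑ a, f a * ((Pi.single i p : Fin (m + 1) → ℤ) a + (Pi.single j q : Fin (m + 1) → ℤ) a) =
      f i * p + f j * q := by
  simp only [mul_add, Finset.sum_add_distrib]
  congr 1
  · rw [Finset.sum_eq_single i]
    · simp
    · intro b _ hb
      rw [Pi.single_eq_of_ne hb, mul_zero]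
    · simp
  · rw [Finset.sum_eq_single j]
    · simp
    · intro b _ hb
      rw [Pi.single_eq_of_ne hb, mul_zero]
    · simp

/-- a primitive vector orthogonal to a given one, with a dual vector -/
theorem exists_orth {m : ℕ} (hm : 1 ≤ m) (c : Fin (m + 1) → ℤ) :
    ∃ u a : Fin (m + 1) → ℤ, ∑ b, c b * u b = 0 ∧ ∑ b, a b * u b = 1 := by
  obtain ⟨i, j, hij⟩ : ∃ i j : Fin (m + 1), i ≠ j := by
    have : Nontrivial (Fin (m + 1)) := Fin.nontrivial_iff_two_le.mpr (by omega)
    exact exists_pair_ne _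
  by_cases hg : Int.gcd (c i) (c j) = 0
  · rw [Int.gcd_eq_zero_iff] at hg
    refine ⟨fun b => (Pi.single i 1 : Fin (m + 1) → ℤ) b + (Pi.single j 0 : Fin (m + 1) → ℤ) b,
      fun b => (Pi.single i 1 : Fin (m + 1) → ℤ) b, ?_, ?_⟩
    · rw [sum_two_single, hg.1]
      ring
    · rw [sum_two_single (f := fun b => (Pi.single i 1 : Fin (m + 1) → ℤ) b)]
      simp
  · obtain ⟨g, hgdef⟩ : ∃ g : ℤ, g = (Int.gcd (c i) (c j) : ℤ) := ⟨_, rfl⟩
    have hg0 : g ≠ 0 := by rw [hgdef]; exact_mod_cast hg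
    obtain ⟨p, hp⟩ : g ∣ c i := by rw [hgdef]; exact Int.gcd_dvd_left _ _
    obtain ⟨q, hq⟩ : g ∣ c j := by rw [hgdef]; exact Int.gcd_dvd_right _ _
    have hbez := Int.gcd_eq_gcd_ab (c i) (c j)
    set x := Int.gcdA (c i) (c j) with hx
    set y := Int.gcdB (c i) (c j) with hy
    rw [← hgdef] at hbez
    have h1 : p * x + q * y = 1 := by
      have h2 : g * (p * x + q * y) = g * 1 := by
        rw [hp, hq] at hbez
        linear_combination -hbez
      exact mul_left_cancel₀ hg0 h2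
    refine ⟨fun b => (Pi.single i q : Fin (m + 1) → ℤ) b + (Pi.single j (-p) : Fin (m + 1) → ℤ) b,
      fun b => (Pi.single i y : Fin (m + 1) → ℤ) b + (Pi.single j (-x) : Fin (m + 1) → ℤ) b,
      ?_, ?_⟩
    · rw [sum_two_single, hp, hq]
      ring
    · rw [sum_two_single (f := fun b => (Pi.single i y : Fin (m + 1) → ℤ) b +
        (Pi.single j (-x) : Fin (m + 1) → ℤ) b)]
      simp only [Pi.single_eq_same]
      rw [Pi.single_eq_of_ne hij, Pi.single_eq_of_ne hij.symm]
      linear_combination h1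

/-- completing a primitive vector -/
theorem exists_complement {m : ℕ} (hm : 1 ≤ m) (y : Fin (m + 1) → ℤ) (hy : Prim y) :
    ∃ u c c' : Fin (m + 1) → ℤ, ∑ a, c a * y a = 1 ∧ ∑ a, c a * u a = 0 ∧
      ∑ a, c' a * y a = 0 ∧ ∑ a, c' a * u a = 1 := by
  obtain ⟨c, hc⟩ := hy
  obtain ⟨u, a, hu, ha⟩ := exists_orth hm c
  refine ⟨u, c, fun b => a b - (∑ b, a b * y b) * c b, hc, hu, ?_, ?_⟩
  · have h : ∀ b, (a b - (∑ b, a b * y b) * c b) * y b =
        a b * y b - (∑ b, a b * y b) * (c b * y b) := fun b => by ring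
    rw [Finset.sum_congr rfl fun b _ => h b, Finset.sum_sub_distrib, ← Finset.mul_sum, hc]
    ring
  · have h : ∀ b, (a b - (∑ b, a b * y b) * c b) * u b =
        a b * u b - (∑ b, a b * y b) * (c b * u b) := fun b => by ring
    rw [Finset.sum_congr rfl fun b _ => h b, Finset.sum_sub_distrib, ← Finset.mul_sum, hu, ha]
    ring

end ConicHP
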