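import Pool.Agent.Lib.MP_e426f4_ag.C.ShortA
import Pool.Agent.Lib.MP_e426f4_ag.G.ShortTwo

/-! Module C-SH2: two points in the same fibre. -/

namespace ConicHP

open Finset GenHP

variable {S : Type*} [Fintype S]

theorem short_same (B : ℕ) (hB : 1 ≤ B) (x y : Fin 3 → ℤ)
    (hx : Prim x) (hy : Prim y) (mu : ℝ) (hmu : 1 ≤ mu) (hgx : Ortho mu x) (hgy : Ortho mu y)
    (i0 : Fin 3) (hi0 : (B : ℝ) / 2 ≤ |(x i0 : ℝ)|) (hi0' : (B : ℝ) / 2 ≤ |(y i0 : ℝ)|)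
    (hx2 : ∀ i, |(x i : ℝ)| ≤ 2 * B) (hy2 : ∀ i, |(y i : ℝ)| ≤ 2 * B) (h : 0 < dl x y)
    (v : S → ℤ) (hv : PrimS v) (s0 : S) (hs0 : ∀ s, |v s| ≤ |v s0|) (s : ℤ)
    (hs : (mg x y : ℤ) ∣ s) :
    ∃ t : Idx 2 2 × S → ℤ, F (ev t v) x = 0 ∧ F (ev t v) y = s ∧
      ∀ m, |(t m : ℝ)| ≤ 32 * |(s : ℝ)| / ((dl x y : ℝ) * |(v s0 : ℝ)|) +
        c2 2 2 * mu ^ 2 / |(v s0 : ℝ)| + Fintype.card S * |(v s0 : ℝ)| := by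
  obtain ⟨b, hb1, hb2, hb3⟩ := short_pair (n := 2) (d := 2) le_rfl B hB x y hx hy mu hmu hgx hgy i0
    hi0 hi0' hx2 hy2 h s hs
  obtain ⟨t, ht1, ht2⟩ := exists_lift v hv s0 hs0 b _ hb3
  refine ⟨t, by rw [ht1, hb1], by rw [ht1, hb2], fun m => (ht2 m).trans (le_of_eq ?_)⟩
  rw [add_div]
  congr 2
  rw [div_div]
  norm_num

end ConicHP
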