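import Pool.Agent.Lib.MP_e426f4_ag.G.Crude
import Pool.Agent.Lib.MP_e426f4_ag.C.Ev
import Pool.Agent.Lib.MP_e426f4_ag.C.ShortA
import Pool.Agent.Lib.MP_e426f4_ag.C.ShortB

/-! Module C-CRa: crude count of the vectors of forms whose fibre vanishes at two points. -/

namespace ConicHP

open Finset GenHP

variable {S : Type*} [Fintype S]

/-- counting by translation along the levels `s ∈ m ℤ`, `|s| ≤ L`, of a linear functional -/
theorem levels_lin {I : Type*} [Fintype I] (X U : Set (I → ℤ)) (hT : U.Finite) (w : I → ℤ) (m : ℕ)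
    (hm : 0 < m) (L : ℝ) (hL : 0 ≤ L) (hS : ∀ A ∈ X, ∑ i, A i * w i = 0)
    (h : ∀ s : ℤ, (m : ℤ) ∣ s → |(s : ℝ)| ≤ L →
      ∃ t : I → ℤ, ∑ i, t i * w i = s ∧ ∀ A ∈ X, (fun i => A i + t i) ∈ U) :
    (X.ncard : ℝ) * (L / m) ≤ U.ncard := by
  have hm' : (0 : ℝ) < m := by exact_mod_cast hm
  set K : ℕ := ⌊L / m⌋₊ with hK
  have hK1 : (K : ℝ) ≤ L / m := Nat.floor_le (by positivity)
  have hK2 : L / m < K + 1 := Nat.lt_floor_add_one _
  have hlev : ∀ k : ℤ, ∃ t : I → ℤ, k ∈ Set.Icc (-(K : ℤ)) K →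
      (∑ i, t i * w i = m * k ∧ ∀ A ∈ X, (fun i => A i + t i) ∈ U) := by
    intro k
    by_cases hk : k ∈ Set.Icc (-(K : ℤ)) K
    · obtain ⟨t, h1, h2⟩ := h (m * k) (dvd_mul_right _ _) (by
        have h3 : |(k : ℝ)| ≤ K := by
          rw [abs_le]
          exact ⟨by exact_mod_cast hk.1, by exact_mod_cast hk.2⟩
        push_cast
        rw [abs_mul, abs_of_pos hm']
        calc (m : ℝ) * |(k : ℝ)| ≤ m * (L / m) := by gcongr; linarith
          _ = L := by field_simp)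
      exact ⟨t, fun _ => ⟨h1, h2⟩⟩
    · exact ⟨0, fun h => absurd h hk⟩
  choose t ht using hlev
  have hadd : ∀ A B : I → ℤ, ∑ i, (A i + B i) * w i = ∑ i, A i * w i + ∑ i, B i * w i := by
    intro A B
    rw [← Finset.sum_add_distrib]
    exact Finset.sum_congr rfl fun i _ => by ring
  have hle : (X ×ˢ Set.Icc (-(K : ℤ)) K).ncard ≤ U.ncard := by
    refine Set.ncard_le_ncard_of_injOn (fun p i => p.1 i + t p.2 i) ?_ ?_ hT
    · rintro ⟨A, k⟩ ⟨hA, hk⟩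
      exact (ht k hk).2 A hA
    · rintro ⟨A, k⟩ ⟨hA, hk⟩ ⟨A', k'⟩ ⟨hA', hk'⟩ heq
      simp only at heq hA hk hA' hk'
      have e1 : ∑ i, (A i + t k i) * w i = m * k := by
        rw [hadd, hS A hA, (ht k hk).1, zero_add]
      have e2 : ∑ i, (A' i + t k' i) * w i = m * k' := by
        rw [hadd, hS A' hA', (ht k' hk').1, zero_add]
      have e3 : (m : ℤ) * k = m * k' := by
        rw [← e1, ← e2]
        refine Finset.sum_congr rfl fun i _ => ?_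
        rw [congrFun heq i]
      have e4 : k = k' := mul_left_cancel₀ (by exact_mod_cast hm.ne') e3
      subst e4
      congr 1
      funext i
      have := congrFun heq i
      simpa using this
  have hcard : (Set.Icc (-(K : ℤ)) K).ncard = 2 * K + 1 := by
    rw [← Finset.coe_Icc, Set.ncard_coe_finset, Int.card_Icc]
    omega
  rw [Set.ncard_prod, hcard] at hle
  have hle' : (X.ncard : ℝ) * (2 * K + 1) ≤ U.ncard := by exact_mod_cast hle
  refine le_trans ?_ hle'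
  gcongr
  have : (0 : ℝ) ≤ K := Nat.cast_nonneg _
  linarith

/-- the same for the values of the fibres -/
theorem levels_ev (X U : Set (Idx 2 2 × S → ℤ)) (hT : U.Finite) (v : S → ℤ) (z : Fin 3 → ℤ) (m : ℕ)
    (hm : 0 < m) (L : ℝ) (hL : 0 ≤ L) (hS : ∀ A ∈ X, F (ev A v) z = 0)
    (h : ∀ s : ℤ, (m : ℤ) ∣ s → |(s : ℝ)| ≤ L →
      ∃ t : Idx 2 2 × S → ℤ, F (ev t v) z = s ∧ ∀ A ∈ X, (fun i => A i + t i) ∈ U) :
    (X.ncard : ℝ) * (L / m) ≤ U.ncard := by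
  refine levels_lin X U hT (fun m => mon z m.1.1 * v m.2) m hm L hL
    (fun A hA => by rw [← F_ev]; exact hS A hA) fun s hs hsL => ?_
  obtain ⟨t, ht, ht'⟩ := h s hs hsL
  exact ⟨t, by rw [← F_ev]; exact ht, ht'⟩

/-- vectors of bounded size form a finite set -/
theorem bdd_fin {I : Type*} [Fintype I] (H : ℝ) (p : (I → ℤ) → Prop) :
    {A : I → ℤ | (∀ m, |(A m : ℝ)| ≤ H) ∧ p A}.Finite :=
  finite_of_abs_le _ H fun _ hA m => hA.1 m

/-- the last step: all vectors whose fibre vanishes at one point -/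
theorem crude_one (B : ℕ) (hB : 1 ≤ B) (x : Fin 3 → ℤ) (hx : Prim x) (mu : ℝ) (hmu : 1 ≤ mu)
    (hgx : Ortho mu x) (i0 : Fin 3) (hi0 : (B : ℝ) / 2 ≤ |(x i0 : ℝ)|)
    (v : S → ℤ) (hv : PrimS v) (s0 : S) (hs0 : ∀ s, |v s| ≤ |v s0|)
    (R : ℝ) (hR : 1 ≤ R) (h2 : 4 * (c1 2 2 * mu) ≤ R)
    (h3 : 4 * (Fintype.card S * |(v s0 : ℝ)|) ≤ R) :
    (Set.ncard {A : Idx 2 2 × S → ℤ | (∀ m, |(A m : ℝ)| ≤ 2 * R) ∧ F (ev A v) x = 0} : ℝ) *
      (R * (B : ℝ) ^ 2 * |(v s0 : ℝ)| / 8) ≤ (7 * R) ^ MM S := by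
  have hBpos : (0 : ℝ) < B := by exact_mod_cast hB
  have hstep := levels_ev {A : Idx 2 2 × S → ℤ | (∀ m, |(A m : ℝ)| ≤ 2 * R) ∧ F (ev A v) x = 0}
    {A : Idx 2 2 × S → ℤ | ∀ m, |(A m : ℝ)| ≤ 3 * R}
    (finite_of_abs_le _ (3 * R) fun _ hA m => hA m) v x 1 one_pos
    (R * (B : ℝ) ^ 2 * |(v s0 : ℝ)| / 8) (by positivity) (fun A hA => hA.2) (by
      intro s _ hsL
      obtain ⟨t, htx, htm⟩ := short_one B hB x hx mu hmu hgx i0 hi0 v hv s0 hs0 s
      refine ⟨t, htx, fun A hA m => ?_⟩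
      have h5 := hA.1 m
      have h4 := htm m
      have h6 : 4 * |(s : ℝ)| / ((B : ℝ) ^ 2 * |(v s0 : ℝ)|) ≤ R / 2 := by
        by_cases hv0 : |(v s0 : ℝ)| = 0
        · rw [hv0, mul_zero, div_zero]
          linarith
        · have hv0' : 0 < |(v s0 : ℝ)| := lt_of_le_of_ne (abs_nonneg _) (Ne.symm hv0)
          rw [div_le_div_iff₀ (by positivity) (by norm_num)]
          linarith
      push_cast
      refine (abs_add_le _ _).trans ?_
      linarith)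
  rw [Nat.cast_one, div_one] at hstep
  refine hstep.trans ((card_bdd (ι := Idx 2 2 × S) (3 * R) (by linarith)).trans ?_)
  unfold MM
  gcongr
  linarith

theorem crude_same (B : ℕ) (hB : 1 ≤ B) (x y : Fin 3 → ℤ)
    (hx : Prim x) (hy : Prim y) (mu : ℝ) (hmu : 1 ≤ mu) (hgx : Ortho mu x) (hgy : Ortho mu y)
    (i0 : Fin 3) (hi0 : (B : ℝ) / 2 ≤ |(x i0 : ℝ)|) (hi0' : (B : ℝ) / 2 ≤ |(y i0 : ℝ)|)
    (hx2 : ∀ i, |(x i : ℝ)| ≤ 2 * B) (hy2 : ∀ i, |(y i : ℝ)| ≤ 2 * B) (h : 0 < dl x y)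
    (v : S → ℤ) (hv : PrimS v) (s0 : S) (hs0 : ∀ s, |v s| ≤ |v s0|)
    (R : ℝ) (hR : 1 ≤ R) (h1 : 4 * (c2 2 2 * mu ^ 2) ≤ R * |(v s0 : ℝ)|)
    (h2 : 4 * (c1 2 2 * mu) ≤ R) (h3 : 4 * (Fintype.card S * |(v s0 : ℝ)|) ≤ R) :
    (Set.ncard {A : Idx 2 2 × S → ℤ | (∀ m, |(A m : ℝ)| ≤ R) ∧ F (ev A v) x = 0 ∧
      F (ev A v) y = 0} : ℝ) ≤
      7 ^ MM S * 512 * R ^ MM S * mg x y /
        (R ^ 2 * |(v s0 : ℝ)| ^ 2 * (B : ℝ) ^ 2 * dl x y) := by
  have hBpos : (0 : ℝ) < B := by exact_mod_cast hB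
  have hdpos : (0 : ℝ) < dl x y := by exact_mod_cast h
  have hmg := mg_pos_of_dl_pos x y h
  have hmpos : (0 : ℝ) < mg x y := by exact_mod_cast hmg
  have hRpos : 0 < R := by linarith
  have hvpos : (0 : ℝ) < |(v s0 : ℝ)| := by
    by_contra hcon
    have h0 : |(v s0 : ℝ)| = 0 := le_antisymm (not_lt.mp hcon) (abs_nonneg _)
    have h1' : v s0 = 0 := by
      have := abs_eq_zero.mp h0
      exact_mod_cast this
    obtain ⟨a, ha⟩ := hv
    have h2' : ∀ s, v s = 0 := by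
      intro s
      have := hs0 s
      rw [h1', abs_zero] at this
      exact abs_eq_zero.mp (le_antisymm this (abs_nonneg _))
    rw [Finset.sum_eq_zero fun s _ => by rw [h2' s, mul_zero]] at ha
    exact zero_ne_one ha
  have hstep := levels_ev
    {A : Idx 2 2 × S → ℤ | (∀ m, |(A m : ℝ)| ≤ R) ∧ F (ev A v) x = 0 ∧ F (ev A v) y = 0}
    {A : Idx 2 2 × S → ℤ | (∀ m, |(A m : ℝ)| ≤ 2 * R) ∧ F (ev A v) x = 0} (bdd_fin _ _) v y
    (mg x y) hmg (R * |(v s0 : ℝ)| * dl x y / 64) (by positivity) (fun A hA => hA.2.2) (by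
      intro s hs hsL
      obtain ⟨t, htx, hty, htm⟩ := short_same B hB x y hx hy mu hmu hgx hgy i0 hi0 hi0' hx2 hy2
        h v hv s0 hs0 s hs
      refine ⟨t, hty, fun A hA => ⟨fun m => ?_, ?_⟩⟩
      · have h5 := hA.1 m
        have h4 := htm m
        have h6 : 32 * |(s : ℝ)| / ((dl x y : ℝ) * |(v s0 : ℝ)|) ≤ R / 2 := by
          rw [div_le_div_iff₀ (by positivity) (by norm_num)]
          linarith
        have h7 : c2 2 2 * mu ^ 2 / |(v s0 : ℝ)| ≤ R / 4 := by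
          rw [div_le_div_iff₀ (by positivity) (by norm_num)]
          linarith
        push_cast
        refine (abs_add_le _ _).trans ?_
        linarith
      · have := F_ev_add A t v x
        rw [hA.2.1, htx, add_zero] at this
        exact this)
  have hlast := crude_one B hB x hx mu hmu hgx i0 hi0 v hv s0 hs0 R hR h2 h3
  set N0 : ℝ := (Set.ncard {A : Idx 2 2 × S → ℤ | (∀ m, |(A m : ℝ)| ≤ R) ∧ F (ev A v) x = 0 ∧
    F (ev A v) y = 0} : ℝ)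
  set N1 : ℝ := (Set.ncard {A : Idx 2 2 × S → ℤ | (∀ m, |(A m : ℝ)| ≤ 2 * R) ∧
    F (ev A v) x = 0} : ℝ)
  have h4 : N0 * (R * |(v s0 : ℝ)| * dl x y / 64 / mg x y) * (R * (B : ℝ) ^ 2 * |(v s0 : ℝ)| / 8) ≤
      (7 * R) ^ MM S := by
    refine le_trans ?_ hlast
    gcongr
  rw [le_div_iff₀ (by positivity)]
  calc N0 * (R ^ 2 * |(v s0 : ℝ)| ^ 2 * (B : ℝ) ^ 2 * dl x y) =
      N0 * (R * |(v s0 : ℝ)| * dl x y / 64 / mg x y) * (R * (B : ℝ) ^ 2 * |(v s0 : ℝ)| / 8) *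
        (512 * mg x y) := by
        field_simp
        ring
    _ ≤ (7 * R) ^ MM S * (512 * mg x y) := by gcongr
    _ = 7 ^ MM S * 512 * R ^ MM S * mg x y := by
        rw [mul_pow]
        ring

end ConicHP
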