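import Pool.Agent.Lib.MP_e426f4_ag.C.CrudeA
import Pool.Agent.Lib.MP_e426f4_ag.C.ShortC

/-! Module C-CRb: crude count of the vectors of forms, two points in two different fibres. -/

namespace ConicHP

open Finset GenHP

variable {S : Type*} [Fintype S]

/-- the largest entry of a primitive vector is nonzero -/
theorem argmax_pos (v : S → ℤ) (hv : PrimS v) (s0 : S) (hs0 : ∀ s, |v s| ≤ |v s0|) :
    (0 : ℝ) < |(v s0 : ℝ)| := by
  by_contra hcon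
  have h0 : |(v s0 : ℝ)| = 0 := le_antisymm (not_lt.mp hcon) (abs_nonneg _)
  have h1' : v s0 = 0 := by
    have := abs_eq_zero.mp h0
    exact_mod_cast this
  obtain ⟨a, ha⟩ := hv
  have h2' : ∀ s, v s = 0 := by
    intro s
    have := hs0 s
    rw [h1', abs_zero] at this
    exact abs_eq_zero.mp (le_antisymm this (abs_nonneg _))
  rw [Finset.sum_eq_zero fun s _ => by rw [h2' s, mul_zero]] at ha
  exact zero_ne_one ha

theorem crude_cross (B : ℕ) (hB : 1 ≤ B) (x y : Fin 3 → ℤ)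
    (hx : Prim x) (hy : Prim y) (mu : ℝ) (hmu : 1 ≤ mu) (hgx : Ortho mu x) (hgy : Ortho mu y)
    (i0 : Fin 3) (hi0 : (B : ℝ) / 2 ≤ |(x i0 : ℝ)|) (hi0' : (B : ℝ) / 2 ≤ |(y i0 : ℝ)|)
    (hx2 : ∀ i, |(x i : ℝ)| ≤ 2 * B) (h : 0 < dl x y)
    (v v' : S → ℤ) (hv : PrimS v) (hv' : PrimS v') (s0 s0' : S) (hs0 : ∀ s, |v s| ≤ |v s0|)
    (hs0' : ∀ s, |v' s| ≤ |v' s0'|)
    (Vm : ℝ) (hVm : 1 ≤ Vm) (hVv : ∀ s, |(v s : ℝ)| ≤ Vm) (hVv' : ∀ s, |(v' s : ℝ)| ≤ Vm)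
    (Dd : ℕ) (hDd : 0 < Dd)
    (hsep : ∃ a : S → ℤ, ∑ s, a s * v s = 0 ∧ ∑ s, a s * v' s = Dd)
    (R : ℝ) (hR : 1 ≤ R) (h1 : 72 * (mu * Vm + Fintype.card S * Vm ^ 2) ≤ R)
    (h2 : 4 * (c1 2 2 * mu) ≤ R) :
    (Set.ncard {A : Idx 2 2 × S → ℤ | (∀ m, |(A m : ℝ)| ≤ R) ∧ F (ev A v) x = 0 ∧
      F (ev A v') y = 0} : ℝ) ≤
      7 ^ MM S * 512 * R ^ MM S * Nat.gcd (mg x y) Dd /
        (R ^ 2 * |(v s0 : ℝ)| * |(v' s0' : ℝ)| * (B : ℝ) ^ 2 * dl x y) := by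
  have hBpos : (0 : ℝ) < B := by exact_mod_cast hB
  have hdpos : (0 : ℝ) < dl x y := by exact_mod_cast h
  have hg : 0 < Nat.gcd (mg x y) Dd := Nat.gcd_pos_of_pos_right _ hDd
  have hgpos : (0 : ℝ) < Nat.gcd (mg x y) Dd := by exact_mod_cast hg
  have hRpos : 0 < R := by linarith
  have hvpos := argmax_pos v hv s0 hs0
  have hvpos' := argmax_pos v' hv' s0' hs0'
  have hcard : (0 : ℝ) ≤ Fintype.card S := Nat.cast_nonneg _
  have h3 : 4 * (Fintype.card S * |(v s0 : ℝ)|) ≤ R := by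
    have e1 : |(v s0 : ℝ)| ≤ Vm ^ 2 := (hVv s0).trans (by nlinarith)
    have e2 : (Fintype.card S : ℝ) * |(v s0 : ℝ)| ≤ Fintype.card S * Vm ^ 2 := by gcongr
    have e3 : (0 : ℝ) ≤ mu * Vm := by positivity
    have e4 : (0 : ℝ) ≤ Fintype.card S * Vm ^ 2 := by positivity
    linarith
  have hstep := levels_ev
    {A : Idx 2 2 × S → ℤ | (∀ m, |(A m : ℝ)| ≤ R) ∧ F (ev A v) x = 0 ∧ F (ev A v') y = 0}
    {A : Idx 2 2 × S → ℤ | (∀ m, |(A m : ℝ)| ≤ 2 * R) ∧ F (ev A v) x = 0} (bdd_fin _ _) v' y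
    (Nat.gcd (mg x y) Dd) hg (R * |(v' s0' : ℝ)| * dl x y / 64) (by positivity)
    (fun A hA => hA.2.2) (by
      intro s hs hsL
      obtain ⟨t, htx, hty, htm⟩ := short_cross B hB x y hx hy mu hmu hgx hgy i0 hi0 hi0' hx2
        h v v' hv hv' s0' hs0' Vm hVm hVv hVv' Dd hDd hsep s hs
      refine ⟨t, hty, fun A hA => ⟨fun m => ?_, ?_⟩⟩
      · have h5 := hA.1 m
        have h4 := htm m
        have h6 : 32 * |(s : ℝ)| / ((dl x y : ℝ) * |(v' s0' : ℝ)|) ≤ R / 2 := by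
          rw [div_le_div_iff₀ (by positivity) (by norm_num)]
          linarith
        push_cast
        refine (abs_add_le _ _).trans ?_
        linarith
      · have := F_ev_add A t v x
        rw [hA.2.1, htx, add_zero] at this
        exact this)
  have hlast := crude_one B hB x hx mu hmu hgx i0 hi0 v hv s0 hs0 R hR h2 h3
  set N0 : ℝ := (Set.ncard {A : Idx 2 2 × S → ℤ | (∀ m, |(A m : ℝ)| ≤ R) ∧ F (ev A v) x = 0 ∧
    F (ev A v') y = 0} : ℝ)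
  set N1 : ℝ := (Set.ncard {A : Idx 2 2 × S → ℤ | (∀ m, |(A m : ℝ)| ≤ 2 * R) ∧
    F (ev A v) x = 0} : ℝ)
  set g : ℝ := ((Nat.gcd (mg x y) Dd : ℕ) : ℝ)
  have h4 : N0 * (R * |(v' s0' : ℝ)| * dl x y / 64 / g) * (R * (B : ℝ) ^ 2 * |(v s0 : ℝ)| / 8) ≤
      (7 * R) ^ MM S := by
    refine le_trans ?_ hlast
    gcongr
  rw [le_div_iff₀ (by positivity)]
  calc N0 * (R ^ 2 * |(v s0 : ℝ)| * |(v' s0' : ℝ)| * (B : ℝ) ^ 2 * dl x y) =
      N0 * (R * |(v' s0' : ℝ)| * dl x y / 64 / g) * (R * (B : ℝ) ^ 2 * |(v s0 : ℝ)| / 8) *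
        (512 * g) := by
        field_simp
        ring
    _ ≤ (7 * R) ^ MM S * (512 * g) := by gcongr
    _ = 7 ^ MM S * 512 * R ^ MM S * g := by
        rw [mul_pow]
        ring

end ConicHP
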