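import Pool.Agent.Lib.MP_e426f4_ag.C.ShortA

/-! Module C-SH4: the same point in two different fibres. -/

namespace ConicHP

open Finset GenHP

variable {S : Type*} [Fintype S]

/-- two vectors separated by an integer vector have a nonzero minor -/
theorem exists_minor_ne (v v' : S → ℤ) (hv : PrimS v) (Dd : ℕ) (hDd : 0 < Dd)
    (hsep : ∃ a : S → ℤ, ∑ s, a s * v s = 0 ∧ ∑ s, a s * v' s = Dd) :
    ∃ s1 s2 : S, v s1 * v' s2 - v s2 * v' s1 ≠ 0 := by
  by_contra hcon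
  push Not at hcon
  obtain ⟨c, hc⟩ := hv
  obtain ⟨a, ha1, ha2⟩ := hsep
  -- v' s2 = (∑ c v') v s2
  have h1 : ∀ s2, v' s2 = (∑ s, c s * v' s) * v s2 := by
    intro s2
    have h2 : ∑ s, c s * (v s * v' s2 - v s2 * v' s) = 0 := by
      refine Finset.sum_eq_zero fun s _ => ?_
      rw [hcon s s2, mul_zero]
    have h3 : ∑ s, c s * (v s * v' s2 - v s2 * v' s) =
        (∑ s, c s * v s) * v' s2 - (∑ s, c s * v' s) * v s2 := by
      rw [Finset.sum_mul, Finset.sum_mul, ← Finset.sum_sub_distrib]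
      exact Finset.sum_congr rfl fun s _ => by ring
    rw [h3, hc, one_mul] at h2
    linarith
  have h4 : ∑ s, a s * v' s = (∑ s, c s * v' s) * ∑ s, a s * v s := by
    rw [Finset.mul_sum]
    refine Finset.sum_congr rfl fun s _ => ?_
    conv_lhs => rw [h1 s]
    ring
  rw [ha1, mul_zero, ha2] at h4
  have : (Dd : ℤ) = 0 := h4
  omega

/-- the vector `v_{s1} e_{s2} - v_{s2} e_{s1}` -/
theorem exists_sep_vec (v v' : S → ℤ) (s1 s2 : S) (Vm : ℝ)
    (hVv : ∀ s, |(v s : ℝ)| ≤ Vm) (hs : s1 ≠ s2) :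
    ∃ a : S → ℤ, ∑ s, a s * v s = 0 ∧ ∑ s, a s * v' s = v s1 * v' s2 - v s2 * v' s1 ∧
      ∀ s, |(a s : ℝ)| ≤ Vm := by
  classical
  refine ⟨fun s => if s = s2 then v s1 else if s = s1 then - v s2 else 0, ?_, ?_, ?_⟩
  · have h : ∀ s, (if s = s2 then v s1 else if s = s1 then - v s2 else 0) * v s =
        (if s = s2 then v s1 * v s2 else 0) + (if s = s1 then - (v s2 * v s1) else 0) := by
      intro s
      by_cases h1 : s = s2
      · subst h1
        simp [hs.symm]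
      · by_cases h2 : s = s1
        · subst h2
          simp [h1]
        · simp [h1, h2]
    simp only [h, Finset.sum_add_distrib, Finset.sum_ite_eq', mem_univ, if_true]
    ring
  · have h : ∀ s, (if s = s2 then v s1 else if s = s1 then - v s2 else 0) * v' s =
        (if s = s2 then v s1 * v' s2 else 0) + (if s = s1 then - (v s2 * v' s1) else 0) := by
      intro s
      by_cases h1 : s = s2
      · subst h1
        simp [hs.symm]
      · by_cases h2 : s = s1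
        · subst h2
          simp [h1]
        · simp [h1, h2]
    simp only [h, Finset.sum_add_distrib, Finset.sum_ite_eq', mem_univ, if_true]
    ring
  · intro s
    have h0 : 0 ≤ Vm := (abs_nonneg _).trans (hVv s)
    show |((if s = s2 then v s1 else if s = s1 then - v s2 else 0 : ℤ) : ℝ)| ≤ Vm
    split_ifs
    · exact hVv s1
    · push_cast
      rw [abs_neg]
      exact hVv s2
    · simpa using h0

theorem short_samex (B : ℕ) (hB : 1 ≤ B) (x : Fin 3 → ℤ)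
    (hx : Prim x) (mu : ℝ) (hmu : 1 ≤ mu) (hgx : Ortho mu x)
    (i0 : Fin 3) (hi0 : (B : ℝ) / 2 ≤ |(x i0 : ℝ)|)
    (v v' : S → ℤ) (hv : PrimS v)
    (Vm : ℝ) (hVm : 1 ≤ Vm) (hVv : ∀ s, |(v s : ℝ)| ≤ Vm)
    (Dd : ℕ) (hDd : 0 < Dd)
    (hsep : ∃ a : S → ℤ, ∑ s, a s * v s = 0 ∧ ∑ s, a s * v' s = Dd) :
    ∃ De : ℤ, De ≠ 0 ∧ ∀ s : ℤ, ∃ t : Idx 2 2 × S → ℤ, F (ev t v) x = 0 ∧ F (ev t v') x = De * s ∧
      ∀ m, |(t m : ℝ)| ≤ Vm * (4 * |(s : ℝ)| / (B : ℝ) ^ 2 + c1 2 2 * mu) := by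
  obtain ⟨s1, s2, h12⟩ := exists_minor_ne v v' hv Dd hDd hsep
  have hne : s1 ≠ s2 := by
    rintro rfl
    exact h12 (by ring)
  obtain ⟨a, ha1, ha2, ha3⟩ := exists_sep_vec v v' s1 s2 Vm hVv hne
  refine ⟨_, h12, fun s => ?_⟩
  obtain ⟨b, hb1, hb2⟩ := short_single (n := 2) (d := 2) (by norm_num) B hB x hx mu hmu hgx i0 hi0 s
  refine ⟨fun m => b m.1 * a m.2, ?_, ?_, ?_⟩
  · rw [F_ev_tensor, ha1, zero_mul]
  · rw [F_ev_tensor, ha2, hb1]
  · intro m
    push_cast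
    rw [abs_mul, mul_comm]
    refine mul_le_mul (ha3 m.2) ((hb2 m.1).trans (le_of_eq ?_)) (abs_nonneg _) (by linarith)
    norm_num

end ConicHP
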