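import Pool.Agent.Lib.MP_e426f4_ag.C.CrudeA
import Pool.Agent.Lib.MP_e426f4_ag.C.ShortD
import Pool.Agent.Lib.MP_e426f4_ag.C.Lin

/-! Module C-CRc: crude count of the vectors of forms, the same point in two different fibres. -/

namespace ConicHP

open Finset GenHP

variable {S : Type*} [Fintype S]

theorem crude_samex (B : ℕ) (hB : 1 ≤ B) (x : Fin 3 → ℤ)
    (hx : Prim x) (mu : ℝ) (hmu : 1 ≤ mu) (hgx : Ortho mu x)
    (i0 : Fin 3) (hi0 : (B : ℝ) / 2 ≤ |(x i0 : ℝ)|)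
    (v v' : S → ℤ) (hv : PrimS v)
    (Vm : ℝ) (hVm : 1 ≤ Vm) (hVv : ∀ s, |(v s : ℝ)| ≤ Vm)
    (Dd : ℕ) (hDd : 0 < Dd)
    (hsep : ∃ a : S → ℤ, ∑ s, a s * v s = 0 ∧ ∑ s, a s * v' s = Dd)
    (R : ℝ) (hR : 1 ≤ R) (h1 : 4 * (c1 2 2 * mu) * Vm ≤ R) (h3 : 4 * (Fintype.card S * Vm) ≤ R) :
    (Set.ncard {A : Idx 2 2 × S → ℤ | (∀ m, |(A m : ℝ)| ≤ R) ∧ F (ev A v) x = 0 ∧
      F (ev A v') x = 0} : ℝ) ≤
      7 ^ MM S * 512 * R ^ MM S * Vm / (R ^ 2 * (B : ℝ) ^ 4) := by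
  have hBpos : (0 : ℝ) < B := by exact_mod_cast hB
  have hRpos : 0 < R := by linarith
  have hVpos : 0 < Vm := by linarith
  have hcard : (0 : ℝ) ≤ Fintype.card S := Nat.cast_nonneg _
  obtain ⟨s0, hs0, hs1⟩ := exists_argmax v hv
  have hs1' : (1 : ℝ) ≤ |(v s0 : ℝ)| := by exact_mod_cast hs1
  have hc1 : (0 : ℝ) ≤ c1 2 2 * mu := by
    have : (0 : ℝ) ≤ c1 2 2 := by
      unfold c1
      positivity
    positivity
  have h2 : 4 * (c1 2 2 * mu) ≤ R := by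
    refine le_trans ?_ h1
    nlinarith
  have h3' : 4 * (Fintype.card S * |(v s0 : ℝ)|) ≤ R := by
    refine le_trans ?_ h3
    have := hVv s0
    gcongr
  obtain ⟨De, hDe, hlev⟩ := short_samex B hB x hx mu hmu hgx i0 hi0 v v' hv Vm hVm hVv Dd hDd hsep
  have hDepos : 0 < De.natAbs := Int.natAbs_pos.mpr hDe
  have hDe' : (0 : ℝ) < De.natAbs := by exact_mod_cast hDepos
  have hDe'' : |(De : ℝ)| = De.natAbs := by
    rw [Nat.cast_natAbs, Int.cast_abs]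
  have hstep := levels_ev
    {A : Idx 2 2 × S → ℤ | (∀ m, |(A m : ℝ)| ≤ R) ∧ F (ev A v) x = 0 ∧ F (ev A v') x = 0}
    {A : Idx 2 2 × S → ℤ | (∀ m, |(A m : ℝ)| ≤ 2 * R) ∧ F (ev A v) x = 0} (bdd_fin _ _) v' x
    De.natAbs hDepos (De.natAbs * (R * (B : ℝ) ^ 2 / (8 * Vm))) (by positivity)
    (fun A hA => hA.2.2) (by
      intro s hs hsL
      obtain ⟨k, rfl⟩ := Int.natAbs_dvd.mp hs
      obtain ⟨t, htx, hty, htm⟩ := hlev k
      refine ⟨t, hty, fun A hA => ⟨fun m => ?_, ?_⟩⟩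
      · have h5 := hA.1 m
        have h4 := htm m
        have hk : |(k : ℝ)| ≤ R * (B : ℝ) ^ 2 / (8 * Vm) := by
          push_cast at hsL
          rw [abs_mul, hDe''] at hsL
          exact le_of_mul_le_mul_left hsL hDe'
        have h6 : Vm * (4 * |(k : ℝ)| / (B : ℝ) ^ 2 + c1 2 2 * mu) ≤ R := by
          have e1 : 4 * |(k : ℝ)| / (B : ℝ) ^ 2 * Vm ≤ R / 2 := by
            rw [le_div_iff₀ (by positivity)] at hk
            rw [div_mul_eq_mul_div, div_le_div_iff₀ (by positivity) (by norm_num)]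
            linarith
          linarith
        push_cast
        refine (abs_add_le _ _).trans ?_
        linarith
      · have := F_ev_add A t v x
        rw [hA.2.1, htx, add_zero] at this
        exact this)
  have hlast := crude_one B hB x hx mu hmu hgx i0 hi0 v hv s0 hs0 R hR h2 h3'
  set N0 : ℝ := (Set.ncard {A : Idx 2 2 × S → ℤ | (∀ m, |(A m : ℝ)| ≤ R) ∧ F (ev A v) x = 0 ∧
    F (ev A v') x = 0} : ℝ)
  set N1 : ℝ := (Set.ncard {A : Idx 2 2 × S → ℤ | (∀ m, |(A m : ℝ)| ≤ 2 * R) ∧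
    F (ev A v) x = 0} : ℝ)
  have hN0 : 0 ≤ N0 := Nat.cast_nonneg _
  have hstep' : N0 * (R * (B : ℝ) ^ 2 / (8 * Vm)) ≤ N1 := by
    refine le_trans (le_of_eq ?_) hstep
    congr 1
    field_simp
  have h4 : N0 * (R * (B : ℝ) ^ 2 / (8 * Vm)) * (R * (B : ℝ) ^ 2 * 1 / 8) ≤
      (7 * R) ^ MM S := by
    refine le_trans ?_ hlast
    gcongr
  rw [le_div_iff₀ (by positivity)]
  calc N0 * (R ^ 2 * (B : ℝ) ^ 4) =
      N0 * (R * (B : ℝ) ^ 2 / (8 * Vm)) * (R * (B : ℝ) ^ 2 * 1 / 8) * (64 * Vm) := by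
        field_simp
        ring
    _ ≤ (7 * R) ^ MM S * (64 * Vm) := by gcongr
    _ ≤ (7 * R) ^ MM S * (512 * Vm) := by
        gcongr
        norm_num
    _ = 7 ^ MM S * 512 * R ^ MM S * Vm := by
        rw [mul_pow]
        ring

end ConicHP
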